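import Mathlib

/-!
# The combinatorial chain (partial Walsh–Hadamard transforms)

`Q n = Fin n → Bool`; for a set `S` of bits, `W S` is the orthogonal matrix on `ℝ^(Q n)` which is the
Walsh–Hadamard transform in the bits of `S` and the identity in the other bits.  `G n = Q n × Fin 3`.
`vm n : G n × Q n` and `um n : G n × Q (n+1)` are the matrices of two isometries with complementary
ranges.
-/

open Finset

noncomputable section

namespace MP6f

/-- the local factor -/
def loc (s a b : Bool) : ℝ :=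
  bif s then (bif (a && b) then -(Real.sqrt 2)⁻¹ else (Real.sqrt 2)⁻¹) else (if a = b then 1 else 0)

lemma sqrt2_inv_sq : (Real.sqrt 2)⁻¹ * (Real.sqrt 2)⁻¹ = 1 / 2 := by
  rw [← mul_inv, Real.mul_self_sqrt (by norm_num)]; norm_num

lemma loc_symm (s a b : Bool) : loc s a b = loc s b a := by
  cases s <;> cases a <;> cases b <;> simp [loc]

lemma loc_mul (s t a c : Bool) : ∑ b, loc s a b * loc t b c = loc (xor s t) a c := by
  have h := sqrt2_inv_sq
  cases s <;> cases t <;> cases a <;> cases c <;> simp [loc] <;> linarith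

lemma loc_false (a b : Bool) : loc false a b = if a = b then 1 else 0 := by simp [loc]

lemma abs_loc_true (a b : Bool) : |loc true a b| = (Real.sqrt 2)⁻¹ := by
  cases a <;> cases b <;> simp [loc, abs_of_nonneg]

abbrev Q (n : ℕ) : Type := Fin n → Bool

/-- the partial Walsh–Hadamard transform in the bits of `S` -/
def W {n : ℕ} (S : ℕ → Bool) (x y : Q n) : ℝ := ∏ b : Fin n, loc (S b) (x b) (y b)

lemma W_symm {n : ℕ} (S : ℕ → Bool) (x y : Q n) : W S x y = W S y x := by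
  unfold W; exact prod_congr rfl fun b _ => loc_symm _ _ _

lemma W_mul {n : ℕ} (S T : ℕ → Bool) (x z : Q n) :
    ∑ y, W S x y * W T y z = W (fun b => xor (S b) (T b)) x z := by
  unfold W
  have h := Finset.prod_univ_sum (fun _ : Fin n => (univ : Finset Bool))
    (fun b c => loc (S b) (x b) c * loc (T b) c (z b))
  simp only [loc_mul] at h
  rw [h]
  rw [Fintype.piFinset_univ]
  exact sum_congr rfl fun y _ => prod_mul_distrib.symm

lemma W_false {n : ℕ} (x y : Q n) : W (fun _ => false) x y = if x = y then 1 else 0 := by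
  unfold W
  simp only [loc_false]
  split_ifs with h
  · subst h; simp
  · obtain ⟨b, hb⟩ := Function.ne_iff.mp h
    exact prod_eq_zero (mem_univ b) (by simp [hb])

lemma W_self {n : ℕ} (S : ℕ → Bool) (x z : Q n) :
    ∑ y, W S x y * W S y z = if x = z then 1 else 0 := by
  rw [W_mul, ← W_false]; simp

lemma W_succ {n : ℕ} (S : ℕ → Bool) (x y : Q (n + 1)) :
    W S x y = W S (fun b => x b.castSucc) (fun b => y b.castSucc) *
      loc (S n) (x (Fin.last n)) (y (Fin.last n)) := by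
  unfold W; rw [Fin.prod_univ_castSucc]; simp

/-- sums over `Q (n+1)` -/
lemma sum_Q_succ {n : ℕ} {M : Type*} [AddCommMonoid M] (f : Q (n + 1) → M) :
    ∑ y, f y = ∑ z : Q n, ∑ a : Bool, f (Fin.snoc z a) := by
  rw [← (Fin.snocEquiv fun _ : Fin (n + 1) => Bool).sum_comp, Fintype.sum_prod_type, sum_comm]
  rfl

lemma W_snoc {n : ℕ} (S : ℕ → Bool) (x y : Q n) (a c : Bool) :
    W S (Fin.snoc x a : Q (n + 1)) (Fin.snoc y c) = W S x y * loc (S n) a c := by
  rw [W_succ]; simp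

/-! ### counting -/

/-- number of bits of `S` below `n` -/
def cnt (S : ℕ → Bool) (n : ℕ) : ℕ := Nat.count (fun b => S b = true) n

lemma cnt_succ (S : ℕ → Bool) (n : ℕ) : cnt S (n + 1) = cnt S n + (if S n = true then 1 else 0) := by
  unfold cnt; exact Nat.count_succ _ _

lemma prod_bits (S : ℕ → Bool) (n : ℕ) (c : ℝ) :
    ∏ b : Fin n, (if S b = true then c else 1) = c ^ cnt S n := by
  induction n with
  | zero => simp [cnt]
  | succ n ih =>
    rw [Fin.prod_univ_castSucc, cnt_succ]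
    simp only [Fin.val_castSucc, Fin.val_last]
    rw [ih]
    split_ifs <;> simp [pow_succ]

lemma cnt_mul (S : ℕ → Bool) (hS : ∀ b, S (9 + b) = S b) (m r : ℕ) :
    cnt S (9 * m + r) = m * cnt S 9 + cnt S r := by
  induction m with
  | zero => simp
  | succ m ih =>
    have h : 9 * (m + 1) + r = 9 + (9 * m + r) := by ring
    rw [h]
    have h2 : cnt S (9 + (9 * m + r)) = cnt S 9 + cnt S (9 * m + r) := by
      unfold cnt
      rw [Nat.count_add]
      simp only [hS]
    rw [h2, ih]; ring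

lemma cnt_le (S : ℕ → Bool) (n : ℕ) : cnt S n ≤ n := Nat.count_le _

lemma le_cnt (S : ℕ → Bool) (hS : ∀ b, S (9 + b) = S b) (n : ℕ) :
    n / 9 * cnt S 9 ≤ cnt S n := by
  conv_rhs => rw [← Nat.div_add_mod n 9, cnt_mul S hS]
  omega

lemma cnt_le' (S : ℕ → Bool) (hS : ∀ b, S (9 + b) = S b) (n : ℕ) :
    cnt S n ≤ n / 9 * cnt S 9 + 8 := by
  conv_lhs => rw [← Nat.div_add_mod n 9, cnt_mul S hS]
  have := cnt_le S (n % 9)
  omega

/-! ### sizes of the entries -/

lemma abs_W {n : ℕ} (S : ℕ → Bool) (x y : Q n) : |W S x y| = ∏ b : Fin n, |loc (S b) (x b) (y b)| := by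
  unfold W; exact abs_prod _ _

lemma abs_loc_le (s a b : Bool) : |loc s a b| ≤ if s = true then (Real.sqrt 2)⁻¹ else 1 := by
  cases s
  · rw [loc_false, if_neg (by simp : ¬ (false = true))]; split_ifs <;> simp
  · simp [abs_loc_true]

lemma abs_W_le {n : ℕ} (S : ℕ → Bool) (x y : Q n) : |W S x y| ≤ (Real.sqrt 2)⁻¹ ^ cnt S n := by
  rw [abs_W, ← prod_bits]
  exact prod_le_prod (fun _ _ => abs_nonneg _) fun b _ => abs_loc_le _ _ _

lemma sum_loc_rpow (s a : Bool) (r : ℝ) (hr : 0 < r) :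
    ∑ b, |loc s a b| ^ r = if s = true then (2 : ℝ) ^ (1 - r / 2) else 1 := by
  have h2 : 2 * ((Real.sqrt 2)⁻¹ : ℝ) ^ r = (2 : ℝ) ^ (1 - r / 2) := by
    have h3 : ((Real.sqrt 2)⁻¹ : ℝ) = (2 : ℝ) ^ (-(1 / 2) : ℝ) := by
      rw [Real.rpow_neg (by norm_num), Real.sqrt_eq_rpow]
    rw [h3, ← Real.rpow_mul (by norm_num)]
    nth_rewrite 1 [← Real.rpow_one (2 : ℝ)]
    rw [← Real.rpow_add (by norm_num)]
    congr 1; ring
  cases s
  · cases a <;> simp [loc_false, Real.zero_rpow hr.ne']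
  · simp only [abs_loc_true]; simp [h2]

/-- power sums of the rows -/
lemma sum_W_rpow {n : ℕ} (S : ℕ → Bool) (x : Q n) (r : ℝ) (hr : 0 < r) :
    ∑ y, |W S x y| ^ r = ((2 : ℝ) ^ (1 - r / 2)) ^ cnt S n := by
  rw [← prod_bits]
  have h := Finset.prod_univ_sum (fun _ : Fin n => (univ : Finset Bool))
    (fun b c => |loc (S b) (x b) c| ^ r)
  simp only [fun b : Fin n => sum_loc_rpow (S b) (x b) r hr] at h
  rw [h, Fintype.piFinset_univ]
  refine sum_congr rfl fun y _ => ?_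
  rw [abs_W, Real.finsetProd_rpow _ _ (fun _ _ => abs_nonneg _)]

/-! ### the two isometries -/

/-- an orthonormal basis of `(1,1,1)^⊥` in `ℝ^3` -/
def chi (i : Fin 3) (a : Bool) : ℝ :=
  bif a then ![(Real.sqrt 6)⁻¹, (Real.sqrt 6)⁻¹, -2 * (Real.sqrt 6)⁻¹] i
  else ![(Real.sqrt 2)⁻¹, -(Real.sqrt 2)⁻¹, 0] i

lemma sqrt6_inv_sq : (Real.sqrt 6)⁻¹ * (Real.sqrt 6)⁻¹ = 1 / 6 := by
  rw [← mul_inv, Real.mul_self_sqrt (by norm_num)]; norm_num

lemma sqrt3_inv_sq : (Real.sqrt 3)⁻¹ * (Real.sqrt 3)⁻¹ = 1 / 3 := by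
  rw [← mul_inv, Real.mul_self_sqrt (by norm_num)]; norm_num

lemma chi_orth (a b : Bool) : ∑ i, chi i a * chi i b = if a = b then 1 else 0 := by
  have h2 := sqrt2_inv_sq
  have h6 := sqrt6_inv_sq
  rw [Fin.sum_univ_three]
  cases a <;> cases b <;> simp [chi] <;> nlinarith

lemma chi_sum (a : Bool) : ∑ i, chi i a = 0 := by
  rw [Fin.sum_univ_three]
  cases a
  · simp [chi]
  · simp [chi]; ring

lemma chi_mul (i j : Fin 3) : ∑ a, chi i a * chi j a = (if i = j then 1 else 0) - 1 / 3 := by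
  have h2 := sqrt2_inv_sq
  have h6 := sqrt6_inv_sq
  fin_cases i <;> fin_cases j <;> simp [chi] <;> nlinarith

/-- the three disjoint sets of bits used at level `n` -/
def patt (n : ℕ) (i : Fin 3) (b : ℕ) : Bool :=
  if n % 2 = 0 then decide (b % 3 = i.1) else decide (b / 3 % 3 = i.1)

lemma patt_per (n : ℕ) (i : Fin 3) (b : ℕ) : patt n i (9 + b) = patt n i b := by
  unfold patt
  have h1 : (9 + b) % 3 = b % 3 := by omega
  have h2 : (9 + b) / 3 % 3 = b / 3 % 3 := by omega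
  rw [h1, h2]

/-- the symmetric difference of two sets of bits -/
def xo (S T : ℕ → Bool) (b : ℕ) : Bool := xor (S b) (T b)

lemma xo_per (S T : ℕ → Bool) (hS : ∀ b, S (9 + b) = S b) (hT : ∀ b, T (9 + b) = T b) (b : ℕ) :
    xo S T (9 + b) = xo S T b := by unfold xo; rw [hS, hT]

lemma patt_even (n : ℕ) (h : n % 2 = 0) : patt n = patt 0 := by
  funext i b; simp [patt, h]

lemma patt_odd (n : ℕ) (h : n % 2 = 1) : patt n = patt 1 := by
  funext i b; simp [patt, h]

lemma cnt_patt (n : ℕ) (i : Fin 3) : cnt (patt n i) 9 = 3 := by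
  rcases Nat.mod_two_eq_zero_or_one n with h | h
  · rw [patt_even n h]; revert i; decide
  · rw [patt_odd n h]; revert i; decide

lemma cnt_same (n : ℕ) (i j : Fin 3) (hij : i ≠ j) : cnt (xo (patt n i) (patt n j)) 9 = 6 := by
  rcases Nat.mod_two_eq_zero_or_one n with h | h
  · rw [patt_even n h]; revert i j; decide
  · rw [patt_odd n h]; revert i j; decide

lemma cnt_adj (n : ℕ) (i j : Fin 3) : cnt (xo (patt n i) (patt (n + 1) j)) 9 = 4 := by
  rcases Nat.mod_two_eq_zero_or_one n with h | h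
  · rw [patt_even n h, patt_odd (n + 1) (by omega)]; revert i j; decide
  · rw [patt_odd n h, patt_even (n + 1) (by omega)]; revert i j; decide

abbrev G (n : ℕ) : Type := Q n × Fin 3

def vm (n : ℕ) (g : G n) (y : Q n) : ℝ := (Real.sqrt 3)⁻¹ * W (patt n g.2) g.1 y

def um (n : ℕ) (g : G n) (y : Q (n + 1)) : ℝ :=
  chi g.2 (y (Fin.last n)) * W (patt n g.2) g.1 (fun b => y b.castSucc)

lemma um_snoc (n : ℕ) (g : G n) (z : Q n) (a : Bool) :
    um n g (Fin.snoc z a : Q (n + 1)) = chi g.2 a * W (patt n g.2) g.1 z := by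
  simp [um]

lemma W_self' {n : ℕ} (S : ℕ → Bool) (x z : Q n) :
    ∑ y, W S y x * W S y z = if x = z then 1 else 0 := by
  rw [← W_self S]; exact sum_congr rfl fun y _ => by rw [W_symm S y x]

lemma vm_orth (n : ℕ) (y z : Q n) : ∑ g, vm n g y * vm n g z = if y = z then 1 else 0 := by
  have h3 := sqrt3_inv_sq
  rw [Fintype.sum_prod_type_right]
  have h : ∀ i : Fin 3, ∑ q : Q n, vm n (q, i) y * vm n (q, i) z =
      1 / 3 * (if y = z then 1 else 0) := by
    intro i
    rw [← W_self' (patt n i) y z, mul_sum, ← h3]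
    exact sum_congr rfl fun q _ => by simp only [vm]; ring
  simp only [h]
  rw [Fin.sum_univ_three]; ring

lemma um_orth (n : ℕ) (y z : Q (n + 1)) : ∑ g, um n g y * um n g z = if y = z then 1 else 0 := by
  rw [Fintype.sum_prod_type_right]
  have h : ∀ i : Fin 3, ∑ q : Q n, um n (q, i) y * um n (q, i) z =
      chi i (y (Fin.last n)) * chi i (z (Fin.last n)) *
      (if (fun b : Fin n => y b.castSucc) = (fun b : Fin n => z b.castSucc) then 1 else 0) := by
    intro i
    rw [← W_self' (patt n i) (fun b : Fin n => y b.castSucc) (fun b : Fin n => z b.castSucc), mul_sum]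
    exact sum_congr rfl fun q _ => by simp only [um]; ring
  simp only [h]
  rw [← sum_mul, chi_orth]
  by_cases hyz : y = z
  · subst hyz; simp
  · rw [if_neg hyz]
    by_cases h1 : y (Fin.last n) = z (Fin.last n)
    · rw [if_neg (c := (fun b : Fin n => y b.castSucc) = (fun b : Fin n => z b.castSucc)), mul_zero]
      intro h2
      apply hyz
      funext b
      induction b using Fin.lastCases with
      | last => exact h1
      | cast b => exact congrFun h2 b
    · rw [if_neg h1, zero_mul]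

lemma um_vm (n : ℕ) (y : Q (n + 1)) (z : Q n) : ∑ g, um n g y * vm n g z = 0 := by
  rw [Fintype.sum_prod_type_right]
  have h : ∀ i : Fin 3, ∑ q : Q n, um n (q, i) y * vm n (q, i) z =
      chi i (y (Fin.last n)) * ((Real.sqrt 3)⁻¹ *
      (if (fun b : Fin n => y b.castSucc) = z then 1 else 0)) := by
    intro i
    rw [← W_self' (patt n i) (fun b : Fin n => y b.castSucc) z, mul_sum, mul_sum]
    exact sum_congr rfl fun q _ => by simp only [um, vm]; ring
  simp only [h]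
  rw [← sum_mul, chi_sum, zero_mul]

/-- the matrix `D = 3 v v^T - 1` (zero diagonal blocks) -/
def Dm (n : ℕ) (g h : G n) : ℝ := if g.2 = h.2 then 0 else W (xo (patt n g.2) (patt n h.2)) g.1 h.1

lemma vvT (n : ℕ) (g h : G n) :
    ∑ y, vm n g y * vm n h y = 1 / 3 * W (xo (patt n g.2) (patt n h.2)) g.1 h.1 := by
  have h3 := sqrt3_inv_sq
  have : ∑ y, vm n g y * vm n h y = 1 / 3 * ∑ y, W (patt n g.2) g.1 y * W (patt n h.2) y h.1 := by
    rw [mul_sum, ← h3]
    refine sum_congr rfl fun y _ => ?_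
    rw [W_symm (patt n h.2) y h.1]; simp only [vm]; ring
  rw [this, W_mul]; rfl

lemma W_xo_self {n : ℕ} (S : ℕ → Bool) (x y : Q n) : W (xo S S) x y = if x = y then 1 else 0 := by
  rw [← W_false]; congr 1; funext b; simp [xo]

lemma vvT' (n : ℕ) (g h : G n) :
    ∑ y, vm n g y * vm n h y = 1 / 3 * ((if g = h then 1 else 0) + Dm n g h) := by
  rw [vvT]
  unfold Dm
  by_cases h2 : g.2 = h.2
  · rw [if_pos h2, h2, W_xo_self]
    have : (g = h) ↔ g.1 = h.1 := by rw [Prod.ext_iff]; simp [h2]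
    simp only [this, add_zero]
  · rw [if_neg h2, if_neg (fun h' => h2 (by rw [h'])), zero_add]

lemma uuT (n : ℕ) (g h : G n) :
    ∑ y, um n g y * um n h y = 2 / 3 * (if g = h then 1 else 0) - 1 / 3 * Dm n g h := by
  rw [sum_Q_succ]
  have h1 : ∀ z : Q n, ∑ a, um n g (Fin.snoc z a : Q (n + 1)) * um n h (Fin.snoc z a : Q (n + 1)) =
      ((if g.2 = h.2 then 1 else 0) - 1 / 3) * (W (patt n g.2) g.1 z * W (patt n h.2) z h.1) := by
    intro z
    rw [← chi_mul, sum_mul]
    refine sum_congr rfl fun a _ => ?_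
    rw [um_snoc, um_snoc, W_symm (patt n h.2) z h.1]; ring
  simp only [h1]
  rw [← mul_sum, W_mul]
  change _ * W (xo (patt n g.2) (patt n h.2)) g.1 h.1 = _
  unfold Dm
  by_cases h2 : g.2 = h.2
  · rw [if_pos h2, if_pos h2, h2, W_xo_self]
    have : (g = h) ↔ g.1 = h.1 := by rw [Prod.ext_iff]; simp [h2]
    simp only [this]
    split_ifs <;> ring
  · rw [if_neg h2, if_neg (fun h' => h2 (by rw [h'])), if_neg h2]; ring

/-- the matrix `R = u_n v_{n+1}^T` -/
def Rm (n : ℕ) (g : G n) (h : G (n + 1)) : ℝ := ∑ y, um n g y * vm (n + 1) h y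

lemma abs_chi_loc (i : Fin 3) (s c : Bool) : |∑ a, chi i a * loc s a c| ≤ 1 := by
  have hc := chi_mul i i
  simp only [if_true] at hc
  have hl : ∑ a, loc s a c * loc s a c = 1 := by
    have := loc_mul s s c c
    simp only [Bool.xor_self, loc_false, if_true] at this
    rw [← this]; exact sum_congr rfl fun a _ => by rw [loc_symm s c a]
  have h := sum_mul_sq_le_sq_mul_sq univ (fun a => chi i a) (fun a => loc s a c)
  have h1 : ∑ a, chi i a ^ 2 = 2 / 3 := by
    rw [← show (1 : ℝ) - 1 / 3 = 2 / 3 by norm_num, ← hc]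
    exact sum_congr rfl fun a _ => by ring
  have h2 : ∑ a, loc s a c ^ 2 = 1 := by
    rw [← hl]; exact sum_congr rfl fun a _ => by ring
  rw [h1, h2] at h
  rw [← sq_le_one_iff_abs_le_one]
  linarith

lemma abs_Rm_le (n : ℕ) (g : G n) (h : G (n + 1)) :
    |Rm n g h| ≤ |W (xo (patt n g.2) (patt (n + 1) h.2)) g.1 (fun b => h.1 b.castSucc)| := by
  have key : Rm n g h = (Real.sqrt 3)⁻¹ *
      (∑ a, chi g.2 a * loc (patt (n + 1) h.2 n) a (h.1 (Fin.last n))) *
      W (xo (patt n g.2) (patt (n + 1) h.2)) g.1 (fun b => h.1 b.castSucc) := by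
    unfold Rm
    rw [sum_Q_succ]
    have h1 : ∀ z : Q n, ∑ a, um n g (Fin.snoc z a : Q (n + 1)) * vm (n + 1) h (Fin.snoc z a : Q (n + 1))
        = (Real.sqrt 3)⁻¹ * (∑ a, chi g.2 a * loc (patt (n + 1) h.2 n) a (h.1 (Fin.last n))) *
        (W (patt n g.2) g.1 z * W (patt (n + 1) h.2) z (fun b => h.1 b.castSucc)) := by
      intro z
      rw [mul_sum, sum_mul]
      refine sum_congr rfl fun a _ => ?_
      rw [um_snoc, vm, W_symm (patt (n + 1) h.2) h.1 (Fin.snoc z a : Q (n + 1)), W_succ]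
      simp only [Fin.snoc_castSucc, Fin.snoc_last]
      ring
    simp only [h1]
    rw [← mul_sum, W_mul]; rfl
  rw [key, abs_mul, abs_mul]
  have h3 : |(Real.sqrt 3)⁻¹| ≤ 1 := by
    rw [abs_of_nonneg (by positivity)]
    apply inv_le_one_of_one_le₀
    rw [Real.one_le_sqrt]; norm_num
  have h4 := abs_chi_loc g.2 (patt (n + 1) h.2 n) (h.1 (Fin.last n))
  calc _ ≤ (1 * 1) * |W (xo (patt n g.2) (patt (n + 1) h.2)) g.1 (fun b => h.1 b.castSucc)| := by
        gcongr
    _ = _ := by ring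

/-! ### power sums of the rows of the matrices -/

lemma sum_Rm_row (n : ℕ) (g : G n) (r C : ℝ) (hr : 0 < r)
    (hC : ∀ i j, ((2 : ℝ) ^ (1 - r / 2)) ^ cnt (xo (patt n i) (patt (n + 1) j)) n ≤ C) :
    ∑ h, |Rm n g h| ^ r ≤ 6 * C := by
  have h1 : ∑ h, |Rm n g h| ^ r ≤ ∑ h : G (n + 1),
      |W (xo (patt n g.2) (patt (n + 1) h.2)) g.1 (fun b => h.1 b.castSucc)| ^ r :=
    sum_le_sum fun h _ => Real.rpow_le_rpow (abs_nonneg _) (abs_Rm_le n g h) hr.le
  refine h1.trans ?_
  rw [Fintype.sum_prod_type_right]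
  have h2 : ∀ j : Fin 3, ∑ x : Q (n + 1),
      |W (xo (patt n g.2) (patt (n + 1) j)) g.1 (fun b => x b.castSucc)| ^ r ≤ 2 * C := by
    intro j
    rw [sum_Q_succ]
    simp only [Fin.snoc_castSucc, sum_const, card_univ, Fintype.card_bool]
    rw [← smul_sum, sum_W_rpow _ _ _ hr]
    have := hC g.2 j
    simp only [nsmul_eq_mul]
    push_cast; linarith
  calc _ ≤ ∑ j : Fin 3, 2 * C := sum_le_sum fun j _ => h2 j
    _ = 6 * C := by simp; ring

lemma sum_Rm_col (n : ℕ) (h : G (n + 1)) (r C : ℝ) (hr : 0 < r)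
    (hC : ∀ i j, ((2 : ℝ) ^ (1 - r / 2)) ^ cnt (xo (patt n i) (patt (n + 1) j)) n ≤ C) :
    ∑ g, |Rm n g h| ^ r ≤ 3 * C := by
  have h1 : ∑ g, |Rm n g h| ^ r ≤ ∑ g : G n,
      |W (xo (patt n g.2) (patt (n + 1) h.2)) g.1 (fun b => h.1 b.castSucc)| ^ r :=
    sum_le_sum fun g _ => Real.rpow_le_rpow (abs_nonneg _) (abs_Rm_le n g h) hr.le
  refine h1.trans ?_
  rw [Fintype.sum_prod_type_right]
  have h2 : ∀ i : Fin 3, ∑ x : Q n,
      |W (xo (patt n i) (patt (n + 1) h.2)) x (fun b => h.1 b.castSucc)| ^ r ≤ C := by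
    intro i
    have := hC i h.2
    rw [← sum_W_rpow (xo (patt n i) (patt (n + 1) h.2)) (fun b => h.1 b.castSucc) _ hr] at this
    refine le_trans (le_of_eq ?_) this
    exact sum_congr rfl fun x _ => by rw [W_symm]
  calc _ ≤ ∑ j : Fin 3, C := sum_le_sum fun j _ => h2 j
    _ = 3 * C := by simp

lemma sum_Dm_row (n : ℕ) (g : G n) (r C : ℝ) (hr : 0 < r)
    (hC : ∀ i j, i ≠ j → ((2 : ℝ) ^ (1 - r / 2)) ^ cnt (xo (patt n i) (patt n j)) n ≤ C)
    (hC0 : 0 ≤ C) :
    ∑ h, |Dm n g h| ^ r ≤ 3 * C := by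
  rw [Fintype.sum_prod_type_right]
  have h2 : ∀ j : Fin 3, ∑ x : Q n, |Dm n g (x, j)| ^ r ≤ C := by
    intro j
    by_cases hj : g.2 = j
    · simp [Dm, hj, Real.zero_rpow hr.ne', hC0]
    · simp only [Dm, if_neg hj]
      rw [sum_W_rpow _ _ _ hr]
      exact hC _ _ hj
  calc _ ≤ ∑ j : Fin 3, C := sum_le_sum fun j _ => h2 j
    _ = 3 * C := by simp

lemma Dm_symm (n : ℕ) (g h : G n) : Dm n g h = Dm n h g := by
  unfold Dm
  by_cases hh : g.2 = h.2
  · rw [if_pos hh, if_pos hh.symm]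
  · rw [if_neg hh, if_neg (Ne.symm hh), W_symm]
    congr 1; funext b; simp [xo, Bool.xor_comm]

lemma sum_um_row (n : ℕ) (g : G n) (r C : ℝ) (hr : 0 < r)
    (hC : ∀ i, ((2 : ℝ) ^ (1 - r / 2)) ^ cnt (patt n i) n ≤ C) :
    ∑ y, |um n g y| ^ r ≤ 2 * C := by
  have hchi : ∀ a, |chi g.2 a| ≤ 1 := by
    intro a
    have hc := chi_mul g.2 g.2
    simp only [if_true] at hc
    have : chi g.2 a * chi g.2 a ≤ ∑ a, chi g.2 a * chi g.2 a :=
      single_le_sum (f := fun a => chi g.2 a * chi g.2 a) (fun b _ => mul_self_nonneg _) (mem_univ a)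
    rw [← sq_le_one_iff_abs_le_one]
    nlinarith
  rw [sum_Q_succ]
  calc ∑ z : Q n, ∑ a : Bool, |um n g (Fin.snoc z a : Q (n + 1))| ^ r
      ≤ ∑ z : Q n, ∑ a : Bool, |W (patt n g.2) g.1 z| ^ r := by
        refine sum_le_sum fun z _ => sum_le_sum fun a _ => ?_
        refine Real.rpow_le_rpow (abs_nonneg _) ?_ hr.le
        rw [um_snoc, abs_mul]
        exact mul_le_of_le_one_left (abs_nonneg _) (hchi a)
    _ = 2 * ∑ z : Q n, |W (patt n g.2) g.1 z| ^ r := by
        simp only [sum_const, card_univ, Fintype.card_bool]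
        rw [← smul_sum]; simp
    _ ≤ 2 * C := by
        rw [sum_W_rpow _ _ _ hr]
        have := hC g.2
        linarith

lemma sum_vm_row (n : ℕ) (g : G n) (r C : ℝ) (hr : 0 < r)
    (hC : ∀ i, ((2 : ℝ) ^ (1 - r / 2)) ^ cnt (patt n i) n ≤ C) :
    ∑ y, |vm n g y| ^ r ≤ C := by
  calc ∑ y, |vm n g y| ^ r ≤ ∑ y, |W (patt n g.2) g.1 y| ^ r := by
        refine sum_le_sum fun y _ => Real.rpow_le_rpow (abs_nonneg _) ?_ hr.le
        rw [vm, abs_mul]
        refine mul_le_of_le_one_left (abs_nonneg _) ?_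
        rw [abs_of_nonneg (by positivity)]
        apply inv_le_one_of_one_le₀
        rw [Real.one_le_sqrt]; norm_num
    _ ≤ C := by rw [sum_W_rpow _ _ _ hr]; exact hC g.2

/-- the functional `∑ |W(x,y)| s_y` on `ℓ_r` -/
lemma sum_W_mul_le {n : ℕ} (S : ℕ → Bool) (x : Q n) (s : Q n → ℝ) (hs : ∀ y, 0 ≤ s y) (r : ℝ)
    (hr : 1 ≤ r) :
    ∑ y, |W S x y| * s y ≤
      ((2 : ℝ) ^ (-(1 / r - 1 / 2))) ^ cnt S n * (∑ y, s y ^ r) ^ (1 / r) := by
  rcases hr.eq_or_lt with rfl | hr1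
  · simp only [Real.rpow_one, div_one]
    rw [mul_sum]
    refine sum_le_sum fun y _ => mul_le_mul_of_nonneg_right ?_ (hs y)
    refine (abs_W_le S x y).trans (le_of_eq ?_)
    congr 1
    rw [Real.rpow_neg (by norm_num), Real.sqrt_eq_rpow]; norm_num
  · set t := Real.conjExponent r with ht
    have hc : t.HolderConjugate r := (Real.HolderConjugate.conjExponent hr1).symm
    have ht0 : 0 < t := hc.pos
    have h := Real.inner_le_Lp_mul_Lq univ (fun y => |W S x y|) s hc
    simp only [abs_abs] at h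
    rw [sum_W_rpow S x t ht0] at h
    have e : (((2 : ℝ) ^ (1 - t / 2)) ^ cnt S n) ^ (1 / t) = ((2 : ℝ) ^ (-(1 / r - 1 / 2))) ^ cnt S n := by
      rw [← Real.rpow_natCast, ← Real.rpow_natCast, ← Real.rpow_mul (by positivity),
        ← Real.rpow_mul (by positivity), ← Real.rpow_mul (by positivity)]
      congr 1
      have h1 : 1 / t = 1 - 1 / r := by
        have := hc.inv_add_inv_eq_one
        rw [one_div, one_div]; linarith
      have h2 : (1 - t / 2) * (1 / t) = -(1 / r - 1 / 2) := by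
        have : (1 - t / 2) * (1 / t) = 1 / t - 1 / 2 := by field_simp
        rw [this, h1]; ring
      calc _ = ((1 - t / 2) * (1 / t)) * cnt S n := by ring
        _ = _ := by rw [h2]
    rw [e] at h
    refine h.trans (le_of_eq ?_)
    congr 3
    exact funext fun y => by rw [abs_of_nonneg (hs y)]

lemma sum_Dm_mul_le (n : ℕ) (g : G n) (s : G n → ℝ) (hs : ∀ y, 0 ≤ s y) (r C : ℝ)
    (hr : 1 ≤ r) (hC0 : 0 ≤ C)
    (hC : ∀ i j, i ≠ j → ((2 : ℝ) ^ (-(1 / r - 1 / 2))) ^ cnt (xo (patt n i) (patt n j)) n ≤ C) :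
    ∑ h, |Dm n g h| * s h ≤ 3 * C * (∑ h, s h ^ r) ^ (1 / r) := by
  rw [Fintype.sum_prod_type_right (fun h : G n => |Dm n g h| * s h)]
  have hr0 : 0 < r := by linarith
  have h2 : ∀ j : Fin 3, ∑ x : Q n, |Dm n g (x, j)| * s (x, j) ≤ C * (∑ h, s h ^ r) ^ (1 / r) := by
    intro j
    by_cases hj : g.2 = j
    · simp only [Dm, if_pos hj, abs_zero, zero_mul, sum_const_zero]
      exact mul_nonneg hC0 (Real.rpow_nonneg (sum_nonneg fun h _ => Real.rpow_nonneg (hs h) _) _)
    · simp only [Dm, if_neg hj]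
      refine (sum_W_mul_le _ _ (fun x => s (x, j)) (fun x => hs _) r hr).trans ?_
      refine mul_le_mul (hC _ _ hj) ?_ (Real.rpow_nonneg (sum_nonneg fun h _ =>
        Real.rpow_nonneg (hs _) _) _) hC0
      refine Real.rpow_le_rpow (sum_nonneg fun h _ => Real.rpow_nonneg (hs _) _) ?_ (by positivity)
      rw [Fintype.sum_prod_type_right]
      exact single_le_sum (f := fun j => ∑ x : Q n, s (x, j) ^ r)
        (fun j _ => sum_nonneg fun x _ => Real.rpow_nonneg (hs _) _) (mem_univ j)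
  calc _ ≤ ∑ j : Fin 3, C * (∑ h, s h ^ r) ^ (1 / r) := sum_le_sum fun j _ => h2 j
    _ = _ := by simp; ring

end MP6f
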