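import Mathlib

/-!
# Definitions for MP_6f6997_an (inner versus outer inequality, BAP of order p)

The scalar field `𝕜` is `ℝ` or `ℂ`.  Exponents are `p q : ℝ≥0∞` (so `p = ∞` is allowed); `q` is the
conjugate index of `p`.
-/

open MeasureTheory ENNReal

set_option maxSynthPendingDepth 3

noncomputable section

namespace MP6f

/-- The `ℓ_p` norm of a finite sequence of scalars (`p = ∞`: the maximum). -/
def lpN (p : ℝ≥0∞) {𝕜 : Type*} [RCLike 𝕜] {n : ℕ} (a : Fin n → 𝕜) : ℝ :=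
  ‖(WithLp.toLp p a : PiLp p fun _ : Fin n => 𝕜)‖

section
variable {𝕜 : Type*} [RCLike 𝕜]

/-- The strong norm `‖(y_k^*)‖_p = ‖(‖y_k^*‖)_k‖_{ℓ_p}`. -/
def strongNorm (p : ℝ≥0∞) {Y : Type*} [NormedAddCommGroup Y] [NormedSpace 𝕜 Y] {n : ℕ}
    (y : Fin n → StrongDual 𝕜 Y) : ℝ :=
  lpN p fun k => ‖y k‖

/-- The weak norm `‖(x_k)‖^w_q = sup_{‖x^*‖ ≤ 1} ‖(x^*(x_k))_k‖_{ℓ_q}`. -/
def weakNorm (𝕜 : Type*) [RCLike 𝕜] (q : ℝ≥0∞) {X : Type*} [NormedAddCommGroup X]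
    [NormedSpace 𝕜 X] {n : ℕ} (x : Fin n → X) : ℝ :=
  ⨆ f : {f : StrongDual 𝕜 X // ‖f‖ ≤ 1}, lpN q fun k => f.1 (x k)

/-- The operator `T` has finite rank. -/
def FinRank {Y X : Type*} [NormedAddCommGroup Y] [NormedSpace 𝕜 Y]
    [NormedAddCommGroup X] [NormedSpace 𝕜 X] (T : Y →L[𝕜] X) : Prop :=
  FiniteDimensional 𝕜 (LinearMap.range (T : Y →ₗ[𝕜] X))

/-- The Chevet–Saphar norm `‖T‖_{g_p}` (`q` is the conjugate index of `p`): the infimum of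
`‖(y_k^*)‖_p ‖(x_k)‖^w_q` over all representations `T = ∑_{k<n} y_k^* ⊗ x_k`. -/
def gNorm (p q : ℝ≥0∞) {Y X : Type*} [NormedAddCommGroup Y] [NormedSpace 𝕜 Y]
    [NormedAddCommGroup X] [NormedSpace 𝕜 X] (T : Y →L[𝕜] X) : ℝ≥0∞ :=
  ⨅ (n : ℕ) (y : Fin n → StrongDual 𝕜 Y) (x : Fin n → X) (_ : ∀ v : Y, T v = ∑ k, y k v • x k),
    ENNReal.ofReal (strongNorm p y * weakNorm 𝕜 q x)

/-- The formal inclusion `i : L_∞(μ) → L_p(μ)` for a probability measure `μ`. -/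
def inclLp {Ω : Type} [MeasurableSpace Ω] (μ : Measure Ω) [IsProbabilityMeasure μ] (p : ℝ≥0∞)
    (f : Lp 𝕜 ∞ μ) : Lp 𝕜 p μ :=
  ⟨f.1, Lp.antitone le_top f.2⟩

/-- The `p`-integral norm `‖T‖_{I_p}`: the infimum of `‖A‖ ‖B‖` over all factorisations
`j_X T = B i A` with `A : Y → L_∞(μ)`, `i : L_∞(μ) → L_p(μ)` the formal inclusion,
`B : L_p(μ) → X**` and `μ` a probability measure (`∞` if there is no such factorisation). -/
def iNorm (p : ℝ≥0∞) [Fact (1 ≤ p)] {Y X : Type*} [NormedAddCommGroup Y] [NormedSpace 𝕜 Y]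
    [NormedAddCommGroup X] [NormedSpace 𝕜 X] (T : Y →L[𝕜] X) : ℝ≥0∞ :=
  ⨅ (Ω : Type) (_ : MeasurableSpace Ω) (μ : Measure Ω) (_ : IsProbabilityMeasure μ)
    (A : Y →L[𝕜] Lp 𝕜 ∞ μ) (B : Lp 𝕜 p μ →L[𝕜] StrongDual 𝕜 (StrongDual 𝕜 X))
    (_ : ∀ y : Y, NormedSpace.inclusionInDoubleDual 𝕜 X (T y) = B (inclLp μ p (A y))),
    ENNReal.ofReal (‖A‖ * ‖B‖)

/-- The inner inequality for `(g_p, I_p, lam)`. -/
def Inner (𝕜 : Type*) [RCLike 𝕜] (p q : ℝ≥0∞) [Fact (1 ≤ p)] (lam : ℝ) (X : Type)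
    [NormedAddCommGroup X] [NormedSpace 𝕜 X] : Prop :=
  ∀ S : X →L[𝕜] X, FinRank S → gNorm p q S ≤ ENNReal.ofReal lam * iNorm p S

/-- The `lam`-bounded approximation property of order `p`, i.e. the outer inequality for
`(g_p, I_p, lam)`. -/
def BAPp (𝕜 : Type*) [RCLike 𝕜] (p q : ℝ≥0∞) [Fact (1 ≤ p)] (lam : ℝ) (X : Type)
    [NormedAddCommGroup X] [NormedSpace 𝕜 X] : Prop :=
  ∀ (Y : Type) [NormedAddCommGroup Y] [NormedSpace 𝕜 Y] [CompleteSpace Y] (T : Y →L[𝕜] X),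
    FinRank T → gNorm p q T ≤ ENNReal.ofReal lam * iNorm p T

/-- The statement to be proved for a given exponent: there is a Banach space which satisfies the
inner inequality for some constant `lam ≥ 1` but fails the outer inequality for every constant. -/
def Separates (𝕜 : Type*) [RCLike 𝕜] (p q : ℝ≥0∞) [Fact (1 ≤ p)] : Prop :=
  ∃ (X : Type) (_ : NormedAddCommGroup X) (_ : NormedSpace 𝕜 X) (_ : CompleteSpace X) (lam : ℝ),
    1 ≤ lam ∧ Inner 𝕜 p q lam X ∧ ∀ lam' : ℝ, ¬ BAPp 𝕜 p q lam' X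

end

end MP6f
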