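import Mathlib

/-!
# Rademacher averages: Khintchine's upper inequality
-/

open Finset

noncomputable section

namespace MP6f

/-- the sign -/
def sg (b : Bool) : ℝ := bif b then -1 else 1

lemma sg_mul_self (b : Bool) : sg b * sg b = 1 := by cases b <;> simp [sg]

lemma abs_sg (b : Bool) : |sg b| = 1 := by cases b <;> simp [sg]

lemma sum_sg : ∑ b, sg b = 0 := by simp [sg]

variable {κ : Type*} [Fintype κ] [DecidableEq κ]

lemma sum_prod_bool (f : κ → Bool → ℝ) :
    ∑ ε : κ → Bool, ∏ k, f k (ε k) = ∏ k, ∑ b, f k b := by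
  rw [Finset.prod_univ_sum, Fintype.piFinset_univ]

/-- orthogonality -/
lemma sum_sg_mul (i j : κ) :
    ∑ ε : κ → Bool, sg (ε i) * sg (ε j) = if i = j then (Fintype.card (κ → Bool) : ℝ) else 0 := by
  split_ifs with h
  · subst h
    simp [sg_mul_self]
  · have h1 : ∀ ε : κ → Bool, sg (ε i) * sg (ε j) =
        ∏ k, (if k = i then sg (ε k) else if k = j then sg (ε k) else 1) := by
      intro ε
      have : ∀ k, (if k = i then sg (ε k) else if k = j then sg (ε k) else 1) =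
          (if k = i then sg (ε i) else 1) * (if k = j then sg (ε j) else 1) := by
        intro k
        by_cases hi : k = i
        · subst hi; simp [h]
        · by_cases hj : k = j
          · subst hj; simp [hi]
          · simp [hi, hj]
      simp only [this]
      rw [prod_mul_distrib, prod_ite_eq' univ i, prod_ite_eq' univ j]; simp
    simp only [h1]
    rw [sum_prod_bool (fun k b => if k = i then sg b else if k = j then sg b else 1)]
    refine prod_eq_zero (mem_univ i) ?_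
    simp [sg]

lemma exp_moment (a : κ → ℝ) :
    ∑ ε : κ → Bool, Real.exp (∑ k, sg (ε k) * a k) ≤
      (Fintype.card (κ → Bool) : ℝ) * Real.exp ((∑ k, a k ^ 2) / 2) := by
  have h1 : ∀ ε : κ → Bool, Real.exp (∑ k, sg (ε k) * a k) = ∏ k, Real.exp (sg (ε k) * a k) :=
    fun ε => Real.exp_sum _ _
  simp only [h1]
  rw [sum_prod_bool (fun k b => Real.exp (sg b * a k))]
  have h2 : ∀ k, ∑ b, Real.exp (sg b * a k) = 2 * Real.cosh (a k) := by
    intro k
    simp [sg, Real.cosh_eq]; ring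
  simp only [h2]
  rw [prod_mul_distrib]
  have h3 : (∏ _k : κ, (2 : ℝ)) = (Fintype.card (κ → Bool) : ℝ) := by simp
  rw [h3, sum_div, Real.exp_sum]
  gcongr with k _
  exact Real.cosh_le_exp_half_sq _

lemma rpow_le_exp {r : ℝ} (hr : 0 < r) : ∃ C : ℝ, 0 < C ∧ ∀ t : ℝ, |t| ^ r ≤ C * (Real.exp t + Real.exp (-t)) := by
  obtain ⟨N, hN⟩ := exists_nat_ge r
  refine ⟨1 + N.factorial, by positivity, fun t => ?_⟩
  have h0 : 0 ≤ |t| := abs_nonneg t
  have h1 : |t| ^ r ≤ 1 + |t| ^ N := by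
    rcases le_total |t| 1 with h | h
    · have := Real.rpow_le_one h0 h hr.le
      have h2 : 0 ≤ |t| ^ N := by positivity
      linarith
    · have := Real.rpow_le_rpow_of_exponent_le h hN
      rw [Real.rpow_natCast] at this
      linarith
  have h2 : |t| ^ N ≤ N.factorial * Real.exp |t| := by
    have := Real.pow_div_factorial_le_exp |t| h0 N
    rwa [div_le_iff₀' (by positivity)] at this
  have h3 : Real.exp |t| ≤ Real.exp t + Real.exp (-t) := by
    rcases abs_cases t with ⟨h, _⟩ | ⟨h, _⟩ <;> rw [h] <;>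
      linarith [Real.exp_pos t, Real.exp_pos (-t)]
  have h4 : 1 ≤ Real.exp |t| := Real.one_le_exp h0
  calc |t| ^ r ≤ 1 + |t| ^ N := h1
    _ ≤ Real.exp |t| + N.factorial * Real.exp |t| := by linarith
    _ = (1 + N.factorial) * Real.exp |t| := by ring
    _ ≤ _ := by gcongr

/-- Khintchine's upper inequality, real coefficients -/
lemma khin_real {r : ℝ} (hr : 0 < r) : ∃ K : ℝ, 0 < K ∧
    ∀ (κ : Type) [Fintype κ] [DecidableEq κ] (a : κ → ℝ),
      ∑ ε : κ → Bool, |∑ k, sg (ε k) * a k| ^ r ≤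
        (Fintype.card (κ → Bool) : ℝ) * (K * Real.sqrt (∑ k, a k ^ 2)) ^ r := by
  obtain ⟨C, hC, hle⟩ := rpow_le_exp hr
  set D := 2 * C * Real.exp (1 / 2) with hD
  have hD0 : 0 < D := by positivity
  refine ⟨D ^ (1 / r), by positivity, fun κ _ _ a => ?_⟩
  set σ := Real.sqrt (∑ k, a k ^ 2) with hσ
  have hs0 : 0 ≤ ∑ k, a k ^ 2 := sum_nonneg fun k _ => sq_nonneg _
  rcases (Real.sqrt_nonneg (∑ k, a k ^ 2)).eq_or_lt with h | h
  · have h1 : ∑ k, a k ^ 2 = 0 := (Real.sqrt_eq_zero hs0).mp h.symm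
    rw [sum_eq_zero_iff_of_nonneg (fun k _ => sq_nonneg _)] at h1
    have h2 : ∀ k, a k = 0 := fun k => by simpa using h1 k (mem_univ k)
    have h3 : ∀ ε : κ → Bool, |∑ k, sg (ε k) * a k| ^ r = 0 := by
      intro ε; simp [h2, Real.zero_rpow hr.ne']
    simp only [h3, sum_const_zero]
    positivity
  · rw [← hσ] at h
    have h1 : ∑ k, (a k / σ) ^ 2 = 1 := by
      simp only [div_pow]
      rw [← sum_div, hσ, Real.sq_sqrt hs0, div_self]
      rw [hσ] at h
      exact (Real.sqrt_pos.mp h).ne'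
    have e1 := exp_moment (fun k => a k / σ)
    have e2 := exp_moment (fun k => -(a k / σ))
    simp only [neg_sq, h1, mul_neg, sum_neg_distrib] at e1 e2
    have h2 : ∀ ε : κ → Bool, |∑ k, sg (ε k) * a k| ^ r ≤
        σ ^ r * (C * (Real.exp (∑ k, sg (ε k) * (a k / σ)) + Real.exp (-∑ k, sg (ε k) * (a k / σ)))) := by
      intro ε
      have h3 : ∑ k, sg (ε k) * a k = σ * ∑ k, sg (ε k) * (a k / σ) := by
        rw [mul_sum]
        exact sum_congr rfl fun k _ => by field_simp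
      rw [h3, abs_mul, abs_of_pos h, Real.mul_rpow h.le (abs_nonneg _)]
      gcongr
      exact hle _
    calc ∑ ε : κ → Bool, |∑ k, sg (ε k) * a k| ^ r
        ≤ ∑ ε : κ → Bool, σ ^ r * (C * (Real.exp (∑ k, sg (ε k) * (a k / σ)) +
            Real.exp (-∑ k, sg (ε k) * (a k / σ)))) := sum_le_sum fun ε _ => h2 ε
      _ = σ ^ r * (C * (∑ ε : κ → Bool, Real.exp (∑ k, sg (ε k) * (a k / σ)) +
            ∑ ε : κ → Bool, Real.exp (-∑ k, sg (ε k) * (a k / σ)))) := by
          rw [← mul_sum, ← mul_sum, sum_add_distrib]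
      _ ≤ σ ^ r * (C * ((Fintype.card (κ → Bool) : ℝ) * Real.exp (1 / 2) +
            (Fintype.card (κ → Bool) : ℝ) * Real.exp (1 / 2))) := by
          gcongr
      _ = (Fintype.card (κ → Bool) : ℝ) * (D * σ ^ r) := by rw [hD]; ring
      _ = (Fintype.card (κ → Bool) : ℝ) * (D ^ (1 / r) * σ) ^ r := by
          rw [Real.mul_rpow (by positivity) h.le, ← Real.rpow_mul hD0.le,
            one_div_mul_cancel hr.ne', Real.rpow_one]

/-- Khintchine's upper inequality -/
lemma khin {r : ℝ} (hr : 0 < r) : ∃ K : ℝ, 0 < K ∧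
    ∀ (𝕜 : Type) [RCLike 𝕜] (κ : Type) [Fintype κ] [DecidableEq κ] (a : κ → 𝕜),
      ∑ ε : κ → Bool, ‖∑ k, (sg (ε k) : 𝕜) * a k‖ ^ r ≤
        (Fintype.card (κ → Bool) : ℝ) * (K * Real.sqrt (∑ k, ‖a k‖ ^ 2)) ^ r := by
  obtain ⟨K, hK, h⟩ := khin_real hr
  refine ⟨2 * 2 ^ (1 / r) * K, by positivity, fun 𝕜 _ κ _ _ a => ?_⟩
  have e1 := h κ (fun k => RCLike.re (a k))
  have e2 := h κ (fun k => RCLike.im (a k))
  set σ := Real.sqrt (∑ k, ‖a k‖ ^ 2) with hσ
  have hσ0 : 0 ≤ σ := Real.sqrt_nonneg _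
  have m1 : Real.sqrt (∑ k, RCLike.re (a k) ^ 2) ≤ σ := by
    apply Real.sqrt_le_sqrt
    refine sum_le_sum fun k _ => ?_
    have := RCLike.abs_re_le_norm (a k)
    rw [← sq_abs]
    gcongr
  have m2 : Real.sqrt (∑ k, RCLike.im (a k) ^ 2) ≤ σ := by
    apply Real.sqrt_le_sqrt
    refine sum_le_sum fun k _ => ?_
    have := RCLike.abs_im_le_norm (a k)
    rw [← sq_abs]
    gcongr
  have hre : ∀ ε : κ → Bool, RCLike.re (∑ k, (sg (ε k) : 𝕜) * a k) = ∑ k, sg (ε k) * RCLike.re (a k) := by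
    intro ε
    rw [map_sum]
    exact sum_congr rfl fun k _ => RCLike.re_ofReal_mul _ _
  have him : ∀ ε : κ → Bool, RCLike.im (∑ k, (sg (ε k) : 𝕜) * a k) = ∑ k, sg (ε k) * RCLike.im (a k) := by
    intro ε
    rw [map_sum]
    exact sum_congr rfl fun k _ => RCLike.im_ofReal_mul _ _
  have h2 : ∀ ε : κ → Bool, ‖∑ k, (sg (ε k) : 𝕜) * a k‖ ^ r ≤
      2 ^ r * (|∑ k, sg (ε k) * RCLike.re (a k)| ^ r + |∑ k, sg (ε k) * RCLike.im (a k)| ^ r) := by
    intro ε
    rw [← hre, ← him]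
    set z := ∑ k, (sg (ε k) : 𝕜) * a k
    have h3 : ‖z‖ ≤ 2 * max |RCLike.re z| |RCLike.im z| := by
      have : ‖z‖ ≤ |RCLike.re z| + |RCLike.im z| := by
        have h6 : z = (RCLike.re z : 𝕜) + (RCLike.im z : 𝕜) * RCLike.I := (RCLike.re_add_im z).symm
        calc ‖z‖ = ‖(RCLike.re z : 𝕜) + (RCLike.im z : 𝕜) * RCLike.I‖ := by rw [← h6]
          _ ≤ ‖(RCLike.re z : 𝕜)‖ + ‖(RCLike.im z : 𝕜) * RCLike.I‖ := norm_add_le _ _
          _ ≤ |RCLike.re z| + |RCLike.im z| := by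
              rw [norm_mul, RCLike.norm_ofReal, RCLike.norm_ofReal]
              have h7 : ‖(RCLike.I : 𝕜)‖ ≤ 1 := by
                rcases RCLike.I_eq_zero_or_im_I_eq_one (K := 𝕜) with h | h
                · rw [h]; simp
                · exact (RCLike.norm_I_of_ne_zero (by intro h0; rw [h0] at h; simp at h)).le
              have := abs_nonneg (RCLike.im z)
              nlinarith
      have h4 := le_max_left |RCLike.re z| |RCLike.im z|
      have h5 := le_max_right |RCLike.re z| |RCLike.im z|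
      linarith
    calc ‖z‖ ^ r ≤ (2 * max |RCLike.re z| |RCLike.im z|) ^ r := by gcongr
      _ = 2 ^ r * (max |RCLike.re z| |RCLike.im z|) ^ r := by
          rw [Real.mul_rpow (by norm_num) (by positivity)]
      _ ≤ _ := by
          gcongr
          rcases max_cases |RCLike.re z| |RCLike.im z| with ⟨h, _⟩ | ⟨h, _⟩ <;> rw [h]
          · have : 0 ≤ |RCLike.im z| ^ r := by positivity
            linarith
          · have : 0 ≤ |RCLike.re z| ^ r := by positivity
            linarith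
  calc ∑ ε : κ → Bool, ‖∑ k, (sg (ε k) : 𝕜) * a k‖ ^ r
      ≤ ∑ ε : κ → Bool, 2 ^ r * (|∑ k, sg (ε k) * RCLike.re (a k)| ^ r +
          |∑ k, sg (ε k) * RCLike.im (a k)| ^ r) := sum_le_sum fun ε _ => h2 ε
    _ = 2 ^ r * (∑ ε : κ → Bool, |∑ k, sg (ε k) * RCLike.re (a k)| ^ r +
          ∑ ε : κ → Bool, |∑ k, sg (ε k) * RCLike.im (a k)| ^ r) := by
        rw [← mul_sum, sum_add_distrib]
    _ ≤ 2 ^ r * ((Fintype.card (κ → Bool) : ℝ) * (K * σ) ^ r +
          (Fintype.card (κ → Bool) : ℝ) * (K * σ) ^ r) := by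
        have e3 : (Fintype.card (κ → Bool) : ℝ) * (K * Real.sqrt (∑ k, RCLike.re (a k) ^ 2)) ^ r ≤
            (Fintype.card (κ → Bool) : ℝ) * (K * σ) ^ r := by gcongr
        have e4 : (Fintype.card (κ → Bool) : ℝ) * (K * Real.sqrt (∑ k, RCLike.im (a k) ^ 2)) ^ r ≤
            (Fintype.card (κ → Bool) : ℝ) * (K * σ) ^ r := by gcongr
        gcongr
        · exact e1.trans e3
        · exact e2.trans e4
    _ = (Fintype.card (κ → Bool) : ℝ) * (2 * 2 ^ (1 / r) * K * σ) ^ r := by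
        have e5 : (2 * 2 ^ (1 / r) * K * σ) ^ r = 2 ^ r * (2 * (K * σ) ^ r) := by
          rw [show 2 * 2 ^ (1 / r) * K * σ = (2 * 2 ^ (1 / r)) * (K * σ) by ring,
            Real.mul_rpow (by positivity) (by positivity), Real.mul_rpow (by positivity) (by positivity),
            ← Real.rpow_mul (by norm_num), one_div_mul_cancel hr.ne', Real.rpow_one]
          ring
        rw [e5]; ring

end MP6f
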