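import Mathlib
import Pool.Agent.Lib.MP_6f6997_an.DefsK
import Pool.Agent.Lib.MP_6f6997_an.Khin

/-!
# The spaces for `p > 2` (abstract form)

`G n`, `Q n` are finite types, `a n : Q n × G n`, `b n : Q n × G (n+1)` real matrices.
`MH` is the `ℓ_2` sum of the spaces `ℓ_∞(G n ⊕ Ω n)`, `Ω n = {±1}^(Q n)`, and `XH` is the subspace of
all `x = (f_n, w_n)` with `a_n f_n = b_n f_{n+1} - C_n w_n`, where `C_n w` is the family of
Rademacher coefficients of `w`.
-/

open Finset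

set_option maxSynthPendingDepth 3

noncomputable section

namespace MP6f

section
variable (𝕜 : Type) [RCLike 𝕜] (G Q : ℕ → Type) [∀ n, Fintype (G n)] [∀ n, Fintype (Q n)]
  [∀ n, DecidableEq (Q n)] (a : ∀ n, Q n → G n → ℝ) (b : ∀ n, Q n → G (n + 1) → ℝ)

/-- the levels -/
abbrev EH (n : ℕ) : Type := (G n ⊕ (Q n → Bool)) → 𝕜

/-- the big space -/
abbrev MH : Type := lp (EH 𝕜 G Q) 2

variable {𝕜 G Q}

omit [∀ n, Fintype (G n)] in
/-- Rademacher coefficients -/
def CH (n : ℕ) (w : (Q n → Bool) → 𝕜) (z : Q n) : 𝕜 :=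
  ((Fintype.card (Q n → Bool) : ℝ)⁻¹ : ℝ) * ∑ om : Q n → Bool, ((sg (om z) : ℝ) : 𝕜) * w om

omit [∀ n, DecidableEq (Q n)] in
/-- the map `f ↦ a_n f` -/
def AH (n : ℕ) (f : G n → 𝕜) (z : Q n) : 𝕜 := ∑ g, ((a n z g : ℝ) : 𝕜) * f g

/-- the map `f ↦ b_n f` -/
def BH (n : ℕ) (f : G (n + 1) → 𝕜) (z : Q n) : 𝕜 := ∑ g, ((b n z g : ℝ) : 𝕜) * f g

variable (𝕜)

/-- the subspace -/
def XH : Submodule 𝕜 (MH 𝕜 G Q) where
  carrier := {x | ∀ n z, AH a n (fun g => x n (Sum.inl g)) z =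
    BH b n (fun g => x (n + 1) (Sum.inl g)) z - CH n (fun om => x n (Sum.inr om)) z}
  zero_mem' := by
    intro n z; simp [AH, BH, CH]
  add_mem' := by
    intro x y hx hy n z
    have h1 := hx n z
    have h2 := hy n z
    simp only [AH, BH, CH] at h1 h2 ⊢
    simp only [lp.coeFn_add, Pi.add_apply, mul_add, sum_add_distrib]
    rw [h1, h2]; ring
  smul_mem' := by
    intro c x hx n z
    have h1 := hx n z
    simp only [AH, BH, CH] at h1 ⊢
    have e1 : ∀ (ι : Type) (s : Finset ι) (u v : ι → 𝕜), ∑ i ∈ s, u i * (c * v i) = c * ∑ i ∈ s, u i * v i := by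
      intro ι s u v; rw [mul_sum]; exact sum_congr rfl fun i _ => by ring
    simp only [lp.coeFn_smul, Pi.smul_apply, smul_eq_mul, e1]
    rw [h1]; ring

lemma mem_XH (x : MH 𝕜 G Q) : x ∈ XH 𝕜 a b ↔ ∀ n z, AH a n (fun g => x n (Sum.inl g)) z =
    BH b n (fun g => x (n + 1) (Sum.inl g)) z - CH n (fun om => x n (Sum.inr om)) z := Iff.rfl

lemma isClosed_XH : IsClosed (XH 𝕜 a b : Set (MH 𝕜 G Q)) := by
  have h : (XH 𝕜 a b : Set (MH 𝕜 G Q)) = ⋂ n, ⋂ z, {x : MH 𝕜 G Q |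
      AH a n (fun g => x n (Sum.inl g)) z =
      BH b n (fun g => x (n + 1) (Sum.inl g)) z - CH n (fun om => x n (Sum.inr om)) z} := by
    ext x; simp [mem_XH]
  rw [h]
  have hc : ∀ n (j : G n ⊕ (Q n → Bool)), Continuous fun x : MH 𝕜 G Q => x n j := fun n j =>
    (continuous_apply j).comp (lp.evalCLM 𝕜 (EH 𝕜 G Q) 2 n).continuous
  refine isClosed_iInter fun n => isClosed_iInter fun z => isClosed_eq ?_ ?_
  · unfold AH
    exact continuous_finsetSum _ fun g _ => continuous_const.mul (hc n _)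
  · unfold BH CH
    refine Continuous.sub ?_ ?_
    · exact continuous_finsetSum _ fun g _ => continuous_const.mul (hc (n + 1) _)
    · exact continuous_const.mul (continuous_finsetSum _ fun om _ => continuous_const.mul (hc n _))

instance : CompleteSpace (XH 𝕜 a b) := (isClosed_XH 𝕜 a b).completeSpace_coe

end

end MP6f
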