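import Mathlib
import Pool.Agent.Lib.MP_6f6997_an.HighSpace
import Pool.Agent.Lib.MP_6f6997_an.Chain

/-!
# The concrete space for `p > 2` and its basic vectors
-/

open Finset

set_option maxSynthPendingDepth 3

noncomputable section

namespace MP6f

/-- the square root of the number of elements of `G n` -/
def sN (n : ℕ) : ℝ := Real.sqrt ((2 : ℝ) ^ n * 3)

lemma sN_pos (n : ℕ) : 0 < sN n := Real.sqrt_pos.mpr (by positivity)

lemma sN_sq (n : ℕ) : sN n ^ 2 = (2 : ℝ) ^ n * 3 := Real.sq_sqrt (by positivity)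

lemma sN_succ (n : ℕ) : sN (n + 1) = Real.sqrt 2 * sN n := by
  unfold sN
  rw [← Real.sqrt_mul (by norm_num)]
  congr 1; ring

abbrev QH (n : ℕ) : Type := Q (n + 1)

/-- the matrices -/
def aM (n : ℕ) (z : QH n) (g : G n) : ℝ := (sN n)⁻¹ * um n g z

def bM (n : ℕ) (z : QH n) (g : G (n + 1)) : ℝ := (sN (n + 1))⁻¹ * vm (n + 1) g z

/-- the map `b_n` is a contraction from the normalised `ℓ_2(G (n+1))` to `ℓ_2(QH n)` -/
lemma bM_contr (𝕜 : Type) [RCLike 𝕜] (n : ℕ) (f : G (n + 1) → 𝕜) :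
    ∑ z, ‖BH bM n f z‖ ^ 2 ≤ (Fintype.card (G (n + 1)) : ℝ)⁻¹ * ∑ g, ‖f g‖ ^ 2 := by
  classical
  have hcard : (Fintype.card (G (n + 1)) : ℝ) = sN (n + 1) ^ 2 := by
    rw [sN_sq]; simp [G, Q]
  -- the vector `v f`
  set c : QH n → 𝕜 := fun z => ∑ g, ((vm (n + 1) g z : ℝ) : 𝕜) * f g with hc
  have h1 : ∀ z, BH bM n f z = (((sN (n + 1))⁻¹ : ℝ) : 𝕜) * c z := by
    intro z
    simp only [BH, bM, hc]
    rw [mul_sum]
    exact sum_congr rfl fun g _ => by push_cast; ring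
  have h2 : ∀ z, ‖BH bM n f z‖ ^ 2 = (sN (n + 1) ^ 2)⁻¹ * ‖c z‖ ^ 2 := by
    intro z
    rw [h1, norm_mul, mul_pow, RCLike.norm_ofReal, sq_abs, inv_pow]
  simp only [h2]
  rw [← mul_sum, hcard]
  refine mul_le_mul_of_nonneg_left ?_ (by positivity)
  -- Bessel's inequality
  have hd : ∑ g, ‖f g - ∑ z, ((vm (n + 1) g z : ℝ) : 𝕜) * c z‖ ^ 2 =
      ∑ g, ‖f g‖ ^ 2 - ∑ z, ‖c z‖ ^ 2 := by
    have key : (((∑ g, ‖f g - ∑ z, ((vm (n + 1) g z : ℝ) : 𝕜) * c z‖ ^ 2 : ℝ)) : 𝕜) =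
        (((∑ g, ‖f g‖ ^ 2 - ∑ z, ‖c z‖ ^ 2 : ℝ)) : 𝕜) := by
      push_cast
      simp only [← RCLike.conj_mul]
      have e1 : ∀ g, (starRingEnd 𝕜) (f g - ∑ z, ((vm (n + 1) g z : ℝ) : 𝕜) * c z) *
          (f g - ∑ z, ((vm (n + 1) g z : ℝ) : 𝕜) * c z) =
          (starRingEnd 𝕜) (f g) * f g
          - ∑ z, (starRingEnd 𝕜) (f g) * (((vm (n + 1) g z : ℝ) : 𝕜) * c z)
          - ∑ z, (((vm (n + 1) g z : ℝ) : 𝕜) * (starRingEnd 𝕜) (c z)) * f g
          + ∑ z, ∑ w, (((vm (n + 1) g z : ℝ) : 𝕜) * ((vm (n + 1) g w : ℝ) : 𝕜)) *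
              ((starRingEnd 𝕜) (c z) * c w) := by
        intro g
        rw [map_sub, map_sum]
        simp only [map_mul, RCLike.conj_ofReal]
        rw [sub_mul, mul_sub, mul_sub, mul_sum, sum_mul, sum_mul_sum]
        have e2 : ∑ z, ∑ w, ((vm (n + 1) g z : ℝ) : 𝕜) * (starRingEnd 𝕜) (c z) *
            (((vm (n + 1) g w : ℝ) : 𝕜) * c w) =
            ∑ z, ∑ w, (((vm (n + 1) g z : ℝ) : 𝕜) * ((vm (n + 1) g w : ℝ) : 𝕜)) *
              ((starRingEnd 𝕜) (c z) * c w) :=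
          sum_congr rfl fun z _ => sum_congr rfl fun w _ => by ring
        rw [e2]; ring
      simp only [e1]
      rw [sum_add_distrib, sum_sub_distrib, sum_sub_distrib]
      have t1 : ∑ g, ∑ z, (starRingEnd 𝕜) (f g) * (((vm (n + 1) g z : ℝ) : 𝕜) * c z) =
          ∑ z, (starRingEnd 𝕜) (c z) * c z := by
        rw [sum_comm]
        refine sum_congr rfl fun z _ => ?_
        have : (starRingEnd 𝕜) (c z) = ∑ g, ((vm (n + 1) g z : ℝ) : 𝕜) * (starRingEnd 𝕜) (f g) := by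
          simp only [hc, map_sum, map_mul, RCLike.conj_ofReal]
        rw [this, sum_mul]
        exact sum_congr rfl fun g _ => by ring
      have t2 : ∑ g, ∑ z, (((vm (n + 1) g z : ℝ) : 𝕜) * (starRingEnd 𝕜) (c z)) * f g =
          ∑ z, (starRingEnd 𝕜) (c z) * c z := by
        rw [sum_comm]
        refine sum_congr rfl fun z _ => ?_
        have : c z = ∑ g, ((vm (n + 1) g z : ℝ) : 𝕜) * f g := rfl
        nth_rewrite 3 [this]
        rw [mul_sum]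
        exact sum_congr rfl fun g _ => by ring
      have t3 : ∑ g, ∑ z, ∑ w, (((vm (n + 1) g z : ℝ) : 𝕜) * ((vm (n + 1) g w : ℝ) : 𝕜)) *
              ((starRingEnd 𝕜) (c z) * c w) = ∑ z, (starRingEnd 𝕜) (c z) * c z := by
        rw [sum_comm]
        refine sum_congr rfl fun z _ => ?_
        rw [sum_comm]
        have e3 : ∀ w, ∑ g, (((vm (n + 1) g z : ℝ) : 𝕜) * ((vm (n + 1) g w : ℝ) : 𝕜)) *
              ((starRingEnd 𝕜) (c z) * c w) = if z = w then (starRingEnd 𝕜) (c z) * c w else 0 := by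
          intro w
          rw [← sum_mul]
          have := congrArg (fun t : ℝ => (t : 𝕜)) (vm_orth (n + 1) z w)
          push_cast at this
          rw [this]
          split_ifs <;> simp
        simp only [e3]
        simp
      rw [t1, t2, t3]; ring
    exact_mod_cast key
  have hd0 : 0 ≤ ∑ g, ‖f g - ∑ z, ((vm (n + 1) g z : ℝ) : 𝕜) * c z‖ ^ 2 :=
    sum_nonneg fun g _ => by positivity
  linarith

section
variable (𝕜 : Type) [RCLike 𝕜]

/-- an element of one level given by its `G` coordinates -/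
def lvl (n : ℕ) (f : G n → 𝕜) : MH 𝕜 G QH := lp.single 2 n (Sum.elim f 0 : EH 𝕜 G QH n)

lemma lvl_same (n : ℕ) (f : G n → 𝕜) : lvl 𝕜 n f n = Sum.elim f 0 := by
  unfold lvl; rw [lp.single_apply_self]

lemma lvl_ne (n m : ℕ) (f : G n → 𝕜) (h : m ≠ n) : lvl 𝕜 n f m = 0 := by
  unfold lvl; rw [lp.single_apply_ne _ _ _ h]

lemma lvl_inr (n m : ℕ) (f : G n → 𝕜) (om : QH m → Bool) : lvl 𝕜 n f m (Sum.inr om) = 0 := by
  by_cases h : m = n
  · subst h; rw [lvl_same]; rfl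
  · rw [lvl_ne 𝕜 n m f h]; rfl

lemma lvl_add (n : ℕ) (f g : G n → 𝕜) : lvl 𝕜 n (f + g) = lvl 𝕜 n f + lvl 𝕜 n g := by
  unfold lvl
  rw [← lp.single_add]
  congr 1
  funext j; rcases j with j | j <;> simp

lemma lvl_smul (n : ℕ) (c : 𝕜) (f : G n → 𝕜) : lvl 𝕜 n (c • f) = c • lvl 𝕜 n f := by
  unfold lvl
  rw [← lp.single_smul]
  congr 1
  funext j; rcases j with j | j <;> simp

lemma lvl_sum {ι : Type*} (s : Finset ι) (n : ℕ) (f : ι → G n → 𝕜) :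
    lvl 𝕜 n (∑ i ∈ s, f i) = ∑ i ∈ s, lvl 𝕜 n (f i) := by
  classical
  induction s using Finset.induction_on with
  | empty =>
    simp only [sum_empty]
    have := lvl_smul 𝕜 n (0 : 𝕜) 0
    simpa using this
  | insert i s hi ih => rw [sum_insert hi, sum_insert hi, lvl_add, ih]

lemma norm_lvl_le (n : ℕ) (f : G n → 𝕜) (C : ℝ) (hC : 0 ≤ C) (h : ∀ g, ‖f g‖ ≤ C) :
    ‖lvl 𝕜 n f‖ ≤ C := by
  unfold lvl
  rw [lp.norm_single (by norm_num)]
  rw [pi_norm_le_iff_of_nonneg hC]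
  intro j
  rcases j with j | j
  · exact h j
  · simpa using hC

/-- the vectors `e^n(z)` in the big space -/
def eM (n : ℕ) (z : QH n) : MH 𝕜 G QH :=
  lvl 𝕜 n (fun g => ((sN n * um n g z : ℝ) : 𝕜)) +
    lvl 𝕜 (n + 1) (fun g => ((sN (n + 1) * vm (n + 1) g z : ℝ) : 𝕜))

lemma eM_inr (n m : ℕ) (z : QH n) (om : QH m → Bool) : eM 𝕜 n z m (Sum.inr om) = 0 := by
  unfold eM; rw [lp.coeFn_add, Pi.add_apply, Pi.add_apply, lvl_inr, lvl_inr, add_zero]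

lemma eM_self (n : ℕ) (z : QH n) (g : G n) :
    eM 𝕜 n z n (Sum.inl g) = ((sN n * um n g z : ℝ) : 𝕜) := by
  unfold eM
  rw [lp.coeFn_add, Pi.add_apply, lvl_same, lvl_ne 𝕜 (n + 1) n _ (by omega)]
  simp

lemma eM_succ (n : ℕ) (z : QH n) (g : G (n + 1)) :
    eM 𝕜 n z (n + 1) (Sum.inl g) = ((sN (n + 1) * vm (n + 1) g z : ℝ) : 𝕜) := by
  unfold eM
  rw [lp.coeFn_add, Pi.add_apply, lvl_same, lvl_ne 𝕜 n (n + 1) _ (by omega)]
  simp

lemma eM_ne (n m : ℕ) (z : QH n) (h1 : m ≠ n) (h2 : m ≠ n + 1) : eM 𝕜 n z m = 0 := by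
  unfold eM
  rw [lp.coeFn_add, Pi.add_apply, lvl_ne 𝕜 n m _ h1, lvl_ne 𝕜 (n + 1) m _ h2, add_zero]

lemma AH_eM (n m : ℕ) (z : QH n) (w : QH m) (hm : m ≠ n) :
    AH aM m (fun g => eM 𝕜 n z m (Sum.inl g)) w = 0 := by
  unfold AH
  by_cases h2 : m = n + 1
  · subst h2
    simp only [eM_succ, aM]
    have h3 : ∀ g : G (n + 1), (((sN (n + 1))⁻¹ * um (n + 1) g w : ℝ) : 𝕜) *
        ((sN (n + 1) * vm (n + 1) g z : ℝ) : 𝕜) = ((um (n + 1) g w * vm (n + 1) g z : ℝ) : 𝕜) := by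
      intro g
      rw [← RCLike.ofReal_mul]
      congr 1
      have := (sN_pos (n + 1)).ne'
      field_simp
    simp only [h3]
    rw [← RCLike.ofReal_sum, um_vm, RCLike.ofReal_zero]
  · rw [eM_ne 𝕜 n m z hm h2]; simp

lemma AH_eM_self (n : ℕ) (z w : QH n) :
    AH aM n (fun g => eM 𝕜 n z n (Sum.inl g)) w = if w = z then 1 else 0 := by
  unfold AH
  simp only [eM_self, aM]
  have h3 : ∀ g : G n, (((sN n)⁻¹ * um n g w : ℝ) : 𝕜) *
      ((sN n * um n g z : ℝ) : 𝕜) = ((um n g w * um n g z : ℝ) : 𝕜) := by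
    intro g
    rw [← RCLike.ofReal_mul]
    congr 1
    have := (sN_pos n).ne'
    field_simp
  simp only [h3]
  rw [← RCLike.ofReal_sum, um_orth]
  split_ifs <;> simp

lemma BH_eM (n m : ℕ) (z : QH n) (w : QH m) (hm : m ≠ n) :
    BH bM m (fun g => eM 𝕜 n z (m + 1) (Sum.inl g)) w = 0 := by
  unfold BH
  by_cases h2 : m + 1 = n
  · subst h2
    simp only [eM_self, bM]
    have h3 : ∀ g : G (m + 1), (((sN (m + 1))⁻¹ * vm (m + 1) g w : ℝ) : 𝕜) *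
        ((sN (m + 1) * um (m + 1) g z : ℝ) : 𝕜) = ((um (m + 1) g z * vm (m + 1) g w : ℝ) : 𝕜) := by
      intro g
      rw [← RCLike.ofReal_mul]
      congr 1
      have := (sN_pos (m + 1)).ne'
      field_simp
    simp only [h3]
    rw [← RCLike.ofReal_sum, um_vm, RCLike.ofReal_zero]
  · rw [eM_ne 𝕜 n (m + 1) z h2 (by omega)]; simp

lemma BH_eM_self (n : ℕ) (z w : QH n) :
    BH bM n (fun g => eM 𝕜 n z (n + 1) (Sum.inl g)) w = if w = z then 1 else 0 := by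
  unfold BH
  simp only [eM_succ, bM]
  have h3 : ∀ g : G (n + 1), (((sN (n + 1))⁻¹ * vm (n + 1) g w : ℝ) : 𝕜) *
      ((sN (n + 1) * vm (n + 1) g z : ℝ) : 𝕜) = ((vm (n + 1) g w * vm (n + 1) g z : ℝ) : 𝕜) := by
    intro g
    rw [← RCLike.ofReal_mul]
    congr 1
    have := (sN_pos (n + 1)).ne'
    field_simp
  simp only [h3]
  rw [← RCLike.ofReal_sum, vm_orth]
  split_ifs <;> simp

lemma CH_eM (n m : ℕ) (z : QH n) (w : QH m) :
    CH m (fun om => eM 𝕜 n z m (Sum.inr om)) w = 0 := by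
  unfold CH; simp [eM_inr]

lemma eM_mem (n : ℕ) (z : QH n) : eM 𝕜 n z ∈ XH 𝕜 aM bM := by
  rw [mem_XH]
  intro m w
  rw [CH_eM, sub_zero]
  by_cases h : m = n
  · subst h; rw [AH_eM_self, BH_eM_self]
  · rw [AH_eM 𝕜 n m z w h, BH_eM 𝕜 n m z w h]

/-- the concrete space -/
abbrev Xhigh : Type := XH 𝕜 aM bM

/-- the vectors in the space -/
def eX (n : ℕ) (z : QH n) : Xhigh 𝕜 := ⟨eM 𝕜 n z, eM_mem 𝕜 n z⟩

end

end MP6f
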