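import Mathlib

/-!
# Functionals on `ℓ_p`
-/

open ENNReal Finset

noncomputable section

namespace MP6f

variable {𝕜 : Type} [RCLike 𝕜] {I : Type} [DecidableEq I]

/-- a unimodular number with `u * z = ‖z‖` -/
lemma exists_phase (z : 𝕜) : ∃ u : 𝕜, ‖u‖ = 1 ∧ u * z = (‖z‖ : 𝕜) := by
  by_cases hz : z = 0
  · exact ⟨1, by simp, by simp [hz]⟩
  · have h : (‖z‖ : 𝕜) ≠ 0 := by
      simpa using hz
    refine ⟨starRingEnd 𝕜 z / (‖z‖ : 𝕜), ?_, ?_⟩
    · rw [norm_div, RCLike.norm_conj, RCLike.norm_ofReal, abs_norm, div_self (norm_ne_zero_iff.mpr hz)]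
    · rw [div_mul_eq_mul_div, RCLike.conj_mul, sq, mul_div_assoc, div_self h, mul_one]

/-- the coefficients of a functional on `ℓ_p` -/
lemma sum_functional_le {p q : ℝ≥0∞} [Fact (1 ≤ p)] [p.HolderConjugate q] (hp : p ≠ ∞) (hq : q ≠ ∞)
    (φ : lp (fun _ : I => 𝕜) p →L[𝕜] 𝕜) (s : Finset I) :
    ∑ g ∈ s, ‖φ (lp.single p g (1 : 𝕜))‖ ^ q.toReal ≤ ‖φ‖ ^ q.toReal := by
  have hpq : p.toReal.HolderConjugate q.toReal := ENNReal.HolderConjugate.toReal_of_ne_top hp hq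
  have hp0 := hpq.pos
  have hq0 := hpq.symm.pos
  set c : I → ℝ := fun g => ‖φ (lp.single p g (1 : 𝕜))‖ with hc
  have hc0 : ∀ g, 0 ≤ c g := fun g => norm_nonneg _
  choose u hu1 hu2 using fun g => exists_phase (φ (lp.single p g (1 : 𝕜)))
  set S := ∑ g ∈ s, c g ^ q.toReal with hS
  have hS0 : 0 ≤ S := sum_nonneg fun g _ => Real.rpow_nonneg (hc0 g) _
  rcases hS0.eq_or_lt with h0 | h0
  · rw [← h0]; positivity
  -- test vector
  set t : lp (fun _ : I => 𝕜) p :=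
    ∑ g ∈ s, lp.single p g (((c g ^ (q.toReal - 1) : ℝ) : 𝕜) * u g) with ht
  have h1 : φ t = (S : 𝕜) := by
    rw [ht, map_sum, hS, RCLike.ofReal_sum]
    refine sum_congr rfl fun g _ => ?_
    have e1 : lp.single p g (((c g ^ (q.toReal - 1) : ℝ) : 𝕜) * u g) =
        (((c g ^ (q.toReal - 1) : ℝ) : 𝕜) * u g) • lp.single (E := fun _ : I => 𝕜) p g (1 : 𝕜) := by
      rw [← lp.single_smul, smul_eq_mul, mul_one]
    rw [e1, map_smul, smul_eq_mul, mul_assoc, hu2 g, ← RCLike.ofReal_mul]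
    congr 1
    rcases (hc0 g).eq_or_lt with h | h
    · change c g ^ (q.toReal - 1) * c g = c g ^ q.toReal
      rw [← h, mul_zero, Real.zero_rpow hq0.ne']
    · change c g ^ (q.toReal - 1) * c g = c g ^ q.toReal
      nth_rewrite 2 [← Real.rpow_one (c g)]
      rw [← Real.rpow_add h]; congr 1; ring
  have h2 : ‖t‖ ^ p.toReal = S := by
    rw [ht, lp.norm_sum_single hp0, hS]
    refine sum_congr rfl fun g _ => ?_
    rw [norm_mul, hu1, mul_one, RCLike.norm_ofReal, abs_of_nonneg (Real.rpow_nonneg (hc0 g) _),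
      ← Real.rpow_mul (hc0 g), hpq.symm.sub_one_mul_conj]
  have h3 : S ≤ ‖φ‖ * S ^ (1 / p.toReal) := by
    have h4 := φ.le_opNorm t
    rw [h1, RCLike.norm_ofReal, abs_of_nonneg hS0] at h4
    have h5 : ‖t‖ = S ^ (1 / p.toReal) := by
      rw [← h2, ← Real.rpow_mul (norm_nonneg _), mul_one_div_cancel hp0.ne', Real.rpow_one]
    rwa [h5] at h4
  have h6 : S ^ (1 / q.toReal) ≤ ‖φ‖ := by
    have h7 : 0 < S ^ (1 / p.toReal) := Real.rpow_pos_of_pos h0 _
    have h8 : S = S ^ (1 / q.toReal) * S ^ (1 / p.toReal) := by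
      rw [← Real.rpow_add h0]
      have := hpq.inv_add_inv_eq_one
      rw [one_div, one_div, add_comm, this, Real.rpow_one]
    have h9 : S ^ (1 / q.toReal) * S ^ (1 / p.toReal) ≤ ‖φ‖ * S ^ (1 / p.toReal) := by
      rw [← h8]; exact h3
    exact le_of_mul_le_mul_right h9 h7
  calc S = (S ^ (1 / q.toReal)) ^ q.toReal := by
        rw [← Real.rpow_mul hS0, one_div_mul_cancel hq0.ne', Real.rpow_one]
    _ ≤ ‖φ‖ ^ q.toReal := by gcongr

/-- the norm of a functional on `ℓ_p` is at most the `ℓ_q` norm of its coefficients -/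
lemma norm_functional_le {p q : ℝ≥0∞} [Fact (1 ≤ p)] [p.HolderConjugate q] (hp : p ≠ ∞)
    (hq : q ≠ ∞) (φ : lp (fun _ : I => 𝕜) p →L[𝕜] 𝕜) (B : ℝ) (hB : 0 ≤ B)
    (h : ∀ s : Finset I, ∑ g ∈ s, ‖φ (lp.single p g (1 : 𝕜))‖ ^ q.toReal ≤ B ^ q.toReal) :
    ‖φ‖ ≤ B := by
  have hpq : p.toReal.HolderConjugate q.toReal := ENNReal.HolderConjugate.toReal_of_ne_top hp hq
  have hp0 := hpq.pos
  have hq0 := hpq.symm.pos
  refine ContinuousLinearMap.opNorm_le_bound _ hB fun f => ?_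
  have h1 : HasSum (fun g => lp.single p g (f g)) f := lp.hasSum_single hp f
  have h2 : HasSum (fun g => φ (lp.single p g (f g))) (φ f) := h1.mapL φ
  refine le_of_tendsto (h2.norm) (Filter.Eventually.of_forall fun s => ?_)
  have e1 : ∀ g, φ (lp.single p g (f g)) = f g * φ (lp.single p g (1 : 𝕜)) := by
    intro g
    have : lp.single p g (f g) = (f g) • lp.single (E := fun _ : I => 𝕜) p g (1 : 𝕜) := by
      rw [← lp.single_smul, smul_eq_mul, mul_one]
    rw [this, map_smul, smul_eq_mul]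
  calc ‖∑ g ∈ s, φ (lp.single p g (f g))‖ ≤ ∑ g ∈ s, ‖f g‖ * ‖φ (lp.single p g (1 : 𝕜))‖ := by
        refine (norm_sum_le _ _).trans (le_of_eq ?_)
        exact sum_congr rfl fun g _ => by rw [e1, norm_mul]
    _ ≤ (∑ g ∈ s, ‖f g‖ ^ p.toReal) ^ (1 / p.toReal) *
        (∑ g ∈ s, ‖φ (lp.single p g (1 : 𝕜))‖ ^ q.toReal) ^ (1 / q.toReal) := by
        have := Real.inner_le_Lp_mul_Lq s (fun g => ‖f g‖) (fun g => ‖φ (lp.single p g (1 : 𝕜))‖) hpq
        simpa using this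
    _ ≤ (‖f‖ ^ p.toReal) ^ (1 / p.toReal) * (B ^ q.toReal) ^ (1 / q.toReal) := by
        have h3 := lp.sum_rpow_le_norm_rpow hp0 f s
        have h4 := h s
        have h5 : 0 ≤ ∑ g ∈ s, ‖φ (lp.single p g (1 : 𝕜))‖ ^ q.toReal :=
          sum_nonneg fun g _ => by positivity
        gcongr
    _ = B * ‖f‖ := by
        rw [← Real.rpow_mul (norm_nonneg _), ← Real.rpow_mul hB, mul_one_div_cancel hp0.ne',
          mul_one_div_cancel hq0.ne', Real.rpow_one, Real.rpow_one, mul_comm]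

end MP6f
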