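import Mathlib
import Pool.Agent.Lib.MP_6f6997_an.HighVec
import Pool.Agent.Lib.MP_6f6997_an.LpDual

/-!
# Weak norms of the vectors for `p > 2`
-/

open Finset

set_option maxSynthPendingDepth 3

noncomputable section

namespace MP6f

/-- Hölder's inequality in a form which includes `r = 1` -/
lemma holder_like {J : Type*} [Fintype J] (s ρ : J → ℝ) (hs : ∀ j, 0 ≤ s j) (hρ : ∀ j, 0 ≤ ρ j)
    {r : ℝ} (hr : 1 ≤ r) :
    ∑ j, s j ^ (r - 1) * ρ j ≤ (∑ j, s j ^ r) ^ (1 - 1 / r) * (∑ j, ρ j ^ r) ^ (1 / r) := by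
  rcases hr.eq_or_lt with rfl | hr1
  · simp
  · have hr0 : 0 < r := by linarith
    set t := r / (r - 1) with ht
    have hc : t.HolderConjugate r := by
      have := (Real.HolderConjugate.conjExponent hr1).symm
      rwa [Real.conjExponent] at this
    have h := Real.inner_le_Lp_mul_Lq univ (fun j => s j ^ (r - 1)) ρ hc
    have e1 : ∀ j, |s j ^ (r - 1)| ^ t = s j ^ r := by
      intro j
      rw [abs_of_nonneg (Real.rpow_nonneg (hs j) _), ← Real.rpow_mul (hs j)]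
      congr 1; rw [ht]; field_simp [(sub_pos.mpr hr1).ne']
    have e2 : 1 / t = 1 - 1 / r := by
      rw [ht]; field_simp
    have e3 : ∀ j, |ρ j| = ρ j := fun j => abs_of_nonneg (hρ j)
    simp only [e1, e3] at h
    rw [e2] at h
    exact h

/-- a bound for the weak `ℓ_r` norm by duality -/
lemma weak_of_dual {𝕜 : Type} [RCLike 𝕜] {X : Type*} [NormedAddCommGroup X] [NormedSpace 𝕜 X]
    {J : Type*} [Fintype J] (x : J → X) {r B : ℝ} (hr : 1 ≤ r) (hB : 0 ≤ B)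
    (h : ∀ (s : J → ℝ) (c : J → 𝕜), (∀ j, 0 ≤ s j) → (∀ j, ‖c j‖ ≤ s j ^ (r - 1)) →
      ‖∑ j, c j • x j‖ ≤ B * (∑ j, s j ^ r) ^ (1 - 1 / r))
    (f : StrongDual 𝕜 X) : ∑ j, ‖f (x j)‖ ^ r ≤ (B * ‖f‖) ^ r := by
  have hr0 : 0 < r := by linarith
  set T := ∑ j, ‖f (x j)‖ ^ r with hT
  have hT0 : 0 ≤ T := sum_nonneg fun j _ => by positivity
  rcases hT0.eq_or_lt with h0 | h0
  · rw [← h0]; positivity
  choose u hu1 hu2 using fun j => exists_phase (f (x j))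
  have h1 := h (fun j => ‖f (x j)‖) (fun j => ((‖f (x j)‖ ^ (r - 1) : ℝ) : 𝕜) * u j)
    (fun j => norm_nonneg _) (fun j => by
      rw [norm_mul, hu1, mul_one, RCLike.norm_ofReal, abs_of_nonneg (by positivity)])
  have h2 : f (∑ j, (((‖f (x j)‖ ^ (r - 1) : ℝ) : 𝕜) * u j) • x j) = (T : 𝕜) := by
    rw [map_sum, hT, RCLike.ofReal_sum]
    refine sum_congr rfl fun j _ => ?_
    rw [map_smul, smul_eq_mul, mul_assoc, hu2, ← RCLike.ofReal_mul]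
    congr 1
    rcases (norm_nonneg (f (x j))).eq_or_lt with h | h
    · rw [← h, mul_zero, Real.zero_rpow hr0.ne']
    · nth_rewrite 2 [← Real.rpow_one ‖f (x j)‖]
      rw [← Real.rpow_add h]; congr 1; ring
  have h3 : T ≤ ‖f‖ * (B * T ^ (1 - 1 / r)) := by
    have h4 := f.le_opNorm (∑ j, (((‖f (x j)‖ ^ (r - 1) : ℝ) : 𝕜) * u j) • x j)
    rw [h2, RCLike.norm_ofReal, abs_of_nonneg hT0] at h4
    exact h4.trans (by gcongr)
  have h5 : T ^ (1 / r) ≤ B * ‖f‖ := by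
    have h7 : 0 < T ^ (1 - 1 / r) := Real.rpow_pos_of_pos h0 _
    have h8 : T = T ^ (1 / r) * T ^ (1 - 1 / r) := by
      rw [← Real.rpow_add h0]
      have : 1 / r + (1 - 1 / r) = 1 := by ring
      rw [this, Real.rpow_one]
    have h9 : T ^ (1 / r) * T ^ (1 - 1 / r) ≤ (B * ‖f‖) * T ^ (1 - 1 / r) := by
      rw [← h8]; linarith
    exact le_of_mul_le_mul_right h9 h7
  calc T = (T ^ (1 / r)) ^ r := by
        rw [← Real.rpow_mul hT0, one_div_mul_cancel hr0.ne', Real.rpow_one]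
    _ ≤ (B * ‖f‖) ^ r := by gcongr

section
variable (𝕜 : Type) [RCLike 𝕜]

/-- a scalar combination estimated by Hölder -/
lemma comb_le {J : Type*} [Fintype J] (ρ : J → ℝ) (s : J → ℝ) (c : J → 𝕜) {r D : ℝ} (hr : 1 ≤ r)
    (hs : ∀ j, 0 ≤ s j) (hc : ∀ j, ‖c j‖ ≤ s j ^ (r - 1))
    (hρ : ∑ j, |ρ j| ^ r ≤ D) :
    ‖∑ j, (ρ j : 𝕜) * c j‖ ≤ D ^ (1 / r) * (∑ j, s j ^ r) ^ (1 - 1 / r) := by
  have hr0 : 0 < r := by linarith
  calc ‖∑ j, (ρ j : 𝕜) * c j‖ ≤ ∑ j, ‖(ρ j : 𝕜) * c j‖ := norm_sum_le _ _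
    _ ≤ ∑ j, s j ^ (r - 1) * |ρ j| := by
        refine sum_le_sum fun j _ => ?_
        rw [norm_mul, RCLike.norm_ofReal, mul_comm]
        gcongr
        exact hc j
    _ ≤ (∑ j, s j ^ r) ^ (1 - 1 / r) * (∑ j, |ρ j| ^ r) ^ (1 / r) :=
        holder_like s (fun j => |ρ j|) hs (fun j => abs_nonneg _) hr
    _ ≤ (∑ j, s j ^ r) ^ (1 - 1 / r) * D ^ (1 / r) := by
        have h1 : 0 ≤ ∑ j, |ρ j| ^ r := sum_nonneg fun j _ => by positivity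
        have h2 : 0 ≤ ∑ j, s j ^ r := sum_nonneg fun j _ => Real.rpow_nonneg (hs j) _
        gcongr
    _ = _ := mul_comm _ _

lemma coe_sum_smul_eX {J : Type*} [Fintype J] (c : J → 𝕜) (x : J → Xhigh 𝕜) :
    ((∑ j, c j • x j : Xhigh 𝕜) : MH 𝕜 G QH) = ∑ j, c j • (x j : MH 𝕜 G QH) := by
  rw [Submodule.coe_sum]; rfl

/-- weak norm of the vectors `e^n(z)` -/
lemma weak_eX (n : ℕ) {r D : ℝ} (hr : 1 ≤ r) (hD : 1 ≤ D)
    (h1 : ∀ i, ((2 : ℝ) ^ (1 - r / 2)) ^ cnt (patt n i) n ≤ D)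
    (h2 : ∀ i, ((2 : ℝ) ^ (1 - r / 2)) ^ cnt (patt (n + 1) i) (n + 1) ≤ D)
    (f : StrongDual 𝕜 (Xhigh 𝕜)) :
    ∑ z, ‖f (eX 𝕜 n z)‖ ^ r ≤ ((2 * sN (n + 1) * (2 * D) ^ (1 / r)) * ‖f‖) ^ r := by
  have hr0 : 0 < r := by linarith
  have hs1 := sN_pos (n + 1)
  have hs0 := sN_pos n
  have hsle : sN n ≤ sN (n + 1) := by
    rw [sN_succ]
    have : 1 ≤ Real.sqrt 2 := by rw [Real.one_le_sqrt]; norm_num
    nlinarith
  refine weak_of_dual (fun z => eX 𝕜 n z) hr (by positivity) (fun s c hs hc => ?_) f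
  set Tg := (∑ j, s j ^ r) ^ (1 - 1 / r) with hTg
  have hTg0 : 0 ≤ Tg := Real.rpow_nonneg (sum_nonneg fun j _ => Real.rpow_nonneg (hs j) _) _
  have e1 : ((∑ z, c z • eX 𝕜 n z : Xhigh 𝕜) : MH 𝕜 G QH) =
      lvl 𝕜 n (fun g => (sN n : 𝕜) * ∑ z, ((um n g z : ℝ) : 𝕜) * c z) +
      lvl 𝕜 (n + 1) (fun g => (sN (n + 1) : 𝕜) * ∑ z, ((vm (n + 1) g z : ℝ) : 𝕜) * c z) := by
    rw [coe_sum_smul_eX 𝕜]
    have e2 : ∀ z, c z • ((eX 𝕜 n z : Xhigh 𝕜) : MH 𝕜 G QH) =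
        lvl 𝕜 n (c z • fun g => ((sN n * um n g z : ℝ) : 𝕜)) +
          lvl 𝕜 (n + 1) (c z • fun g => ((sN (n + 1) * vm (n + 1) g z : ℝ) : 𝕜)) := by
      intro z
      rw [lvl_smul, lvl_smul, ← smul_add]; rfl
    simp only [e2]
    rw [sum_add_distrib, ← lvl_sum, ← lvl_sum]
    congr 2
    · funext g
      rw [Finset.sum_apply, mul_sum]
      refine sum_congr rfl fun z _ => ?_
      simp only [Pi.smul_apply, smul_eq_mul]
      push_cast; ring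
    · funext g
      rw [Finset.sum_apply, mul_sum]
      refine sum_congr rfl fun z _ => ?_
      simp only [Pi.smul_apply, smul_eq_mul]
      push_cast; ring
  change ‖((∑ z, c z • eX 𝕜 n z : Xhigh 𝕜) : MH 𝕜 G QH)‖ ≤ _
  rw [e1]
  have b1 : ‖lvl 𝕜 n (fun g => (sN n : 𝕜) * ∑ z, ((um n g z : ℝ) : 𝕜) * c z)‖ ≤
      sN (n + 1) * (2 * D) ^ (1 / r) * Tg := by
    refine norm_lvl_le 𝕜 n _ _ (by positivity) fun g => ?_
    rw [norm_mul, RCLike.norm_ofReal, abs_of_pos hs0]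
    have := comb_le 𝕜 (fun z => um n g z) s c hr hs hc
      (sum_um_row n g r D hr0 h1)
    calc _ ≤ sN n * ((2 * D) ^ (1 / r) * Tg) := by gcongr
      _ ≤ sN (n + 1) * ((2 * D) ^ (1 / r) * Tg) := by gcongr
      _ = _ := by ring
  have b2 : ‖lvl 𝕜 (n + 1) (fun g => (sN (n + 1) : 𝕜) * ∑ z, ((vm (n + 1) g z : ℝ) : 𝕜) * c z)‖ ≤
      sN (n + 1) * (2 * D) ^ (1 / r) * Tg := by
    refine norm_lvl_le 𝕜 (n + 1) _ _ (by positivity) fun g => ?_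
    rw [norm_mul, RCLike.norm_ofReal, abs_of_pos hs1]
    have := comb_le 𝕜 (D := 2 * D) (fun z => vm (n + 1) g z) s c hr hs hc
      ((sum_vm_row (n + 1) g r D hr0 h2).trans (by linarith))
    calc _ ≤ sN (n + 1) * ((2 * D) ^ (1 / r) * Tg) := by gcongr
      _ = _ := by ring
  calc _ ≤ sN (n + 1) * (2 * D) ^ (1 / r) * Tg + sN (n + 1) * (2 * D) ^ (1 / r) * Tg :=
        (norm_add_le _ _).trans (add_le_add b1 b2)
    _ = _ := by ring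

/-- the vectors `x_h` in the big space -/
def xM (n : ℕ) (h : G (n + 1)) : MH 𝕜 G QH :=
  lvl 𝕜 n (fun g => (((Real.sqrt 2)⁻¹ * Rm n g h : ℝ) : 𝕜)) + lvl 𝕜 (n + 1) (Pi.single h 1) +
    lvl 𝕜 (n + 2) (fun g => ((Real.sqrt 2 * Rm (n + 1) h g : ℝ) : 𝕜))

/-- the part of `x_h` coming from the lower level -/
def xE (n : ℕ) (h : G (n + 1)) : Xhigh 𝕜 :=
  (((sN (n + 1))⁻¹ : ℝ) : 𝕜) • ∑ z, ((vm (n + 1) h z : ℝ) : 𝕜) • eX 𝕜 n z

/-- the part of `x_h` coming from the upper level -/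
def xF (n : ℕ) (h : G (n + 1)) : Xhigh 𝕜 :=
  (((sN (n + 1))⁻¹ : ℝ) : 𝕜) • ∑ z, ((um (n + 1) h z : ℝ) : 𝕜) • eX 𝕜 (n + 1) z

/-- the vectors `x_h` -/
def xX (n : ℕ) (h : G (n + 1)) : Xhigh 𝕜 := xE 𝕜 n h + xF 𝕜 n h

lemma sum_smul_eM (n : ℕ) (c : QH n → 𝕜) :
    ∑ z, c z • eM 𝕜 n z = lvl 𝕜 n (fun g => (sN n : 𝕜) * ∑ z, ((um n g z : ℝ) : 𝕜) * c z) +
      lvl 𝕜 (n + 1) (fun g => (sN (n + 1) : 𝕜) * ∑ z, ((vm (n + 1) g z : ℝ) : 𝕜) * c z) := by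
  have e2 : ∀ z, c z • eM 𝕜 n z =
      lvl 𝕜 n (c z • fun g => ((sN n * um n g z : ℝ) : 𝕜)) +
        lvl 𝕜 (n + 1) (c z • fun g => ((sN (n + 1) * vm (n + 1) g z : ℝ) : 𝕜)) := by
    intro z
    rw [lvl_smul, lvl_smul, ← smul_add]; rfl
  simp only [e2]
  rw [sum_add_distrib, ← lvl_sum, ← lvl_sum]
  congr 2
  · funext g
    rw [Finset.sum_apply, mul_sum]
    refine sum_congr rfl fun z _ => ?_
    simp only [Pi.smul_apply, smul_eq_mul]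
    push_cast; ring
  · funext g
    rw [Finset.sum_apply, mul_sum]
    refine sum_congr rfl fun z _ => ?_
    simp only [Pi.smul_apply, smul_eq_mul]
    push_cast; ring

lemma xE_coe (n : ℕ) (h : G (n + 1)) : ((xE 𝕜 n h : Xhigh 𝕜) : MH 𝕜 G QH) =
    lvl 𝕜 n (fun g => (((Real.sqrt 2)⁻¹ * Rm n g h : ℝ) : 𝕜)) +
      lvl 𝕜 (n + 1) (fun g => ((∑ z, vm (n + 1) g z * vm (n + 1) h z : ℝ) : 𝕜)) := by
  have h1 : ((xE 𝕜 n h : Xhigh 𝕜) : MH 𝕜 G QH) =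
      (((sN (n + 1))⁻¹ : ℝ) : 𝕜) • ∑ z, ((vm (n + 1) h z : ℝ) : 𝕜) • eM 𝕜 n z := by
    rw [xE, Submodule.coe_smul, coe_sum_smul_eX]; rfl
  rw [h1, sum_smul_eM, smul_add, ← lvl_smul, ← lvl_smul]
  congr 2
  · funext g
    simp only [Pi.smul_apply, smul_eq_mul]
    have h2 : Real.sqrt 2 ≠ 0 := by positivity
    have h3 := (sN_pos n).ne'
    have h4 : ((Real.sqrt 2)⁻¹ * Rm n g h : ℝ) =
        (sN (n + 1))⁻¹ * (sN n * ∑ z, um n g z * vm (n + 1) h z) := by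
      unfold Rm; rw [sN_succ]; field_simp
    rw [h4]; push_cast; rfl
  · funext g
    simp only [Pi.smul_apply, smul_eq_mul]
    have h3 := (sN_pos (n + 1)).ne'
    have h4 : (∑ z, vm (n + 1) g z * vm (n + 1) h z : ℝ) =
        (sN (n + 1))⁻¹ * (sN (n + 1) * ∑ z, vm (n + 1) g z * vm (n + 1) h z) := by
      field_simp
    rw [h4]; push_cast; rfl

lemma xF_coe (n : ℕ) (h : G (n + 1)) : ((xF 𝕜 n h : Xhigh 𝕜) : MH 𝕜 G QH) =
    lvl 𝕜 (n + 1) (fun g => ((∑ z, um (n + 1) g z * um (n + 1) h z : ℝ) : 𝕜)) +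
      lvl 𝕜 (n + 2) (fun g => ((Real.sqrt 2 * Rm (n + 1) h g : ℝ) : 𝕜)) := by
  have h1 : ((xF 𝕜 n h : Xhigh 𝕜) : MH 𝕜 G QH) =
      (((sN (n + 1))⁻¹ : ℝ) : 𝕜) • ∑ z, ((um (n + 1) h z : ℝ) : 𝕜) • eM 𝕜 (n + 1) z := by
    rw [xF, Submodule.coe_smul, coe_sum_smul_eX]; rfl
  rw [h1, sum_smul_eM, smul_add, ← lvl_smul, ← lvl_smul]
  congr 2
  · funext g
    simp only [Pi.smul_apply, smul_eq_mul]
    have h3 := (sN_pos (n + 1)).ne'
    have h4 : (∑ z, um (n + 1) g z * um (n + 1) h z : ℝ) =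
        (sN (n + 1))⁻¹ * (sN (n + 1) * ∑ z, um (n + 1) g z * um (n + 1) h z) := by
      field_simp
    rw [h4]; push_cast; rfl
  · funext g
    simp only [Pi.smul_apply, smul_eq_mul]
    have h3 := (sN_pos (n + 1)).ne'
    have h4 : (Real.sqrt 2 * Rm (n + 1) h g : ℝ) =
        (sN (n + 1))⁻¹ * (sN (n + 2) * ∑ z, vm (n + 2) g z * um (n + 1) h z) := by
      unfold Rm
      rw [sN_succ (n + 1)]
      have : ∑ z, vm (n + 2) g z * um (n + 1) h z = ∑ z, um (n + 1) h z * vm (n + 1 + 1) g z :=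
        sum_congr rfl fun z _ => mul_comm _ _
      rw [this]; field_simp
    rw [h4]; push_cast; rfl

lemma xX_coe (n : ℕ) (h : G (n + 1)) : ((xX 𝕜 n h : Xhigh 𝕜) : MH 𝕜 G QH) = xM 𝕜 n h := by
  rw [xX, Submodule.coe_add, xE_coe, xF_coe, xM]
  have h1 : lvl 𝕜 (n + 1) (fun g => ((∑ z, vm (n + 1) g z * vm (n + 1) h z : ℝ) : 𝕜)) +
      lvl 𝕜 (n + 1) (fun g => ((∑ z, um (n + 1) g z * um (n + 1) h z : ℝ) : 𝕜)) =
      lvl 𝕜 (n + 1) (Pi.single h 1) := by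
    rw [← lvl_add]
    congr 1
    funext g
    rw [Pi.add_apply, vvT', uuT, ← RCLike.ofReal_add, Pi.single_apply]
    split_ifs <;> push_cast <;> ring
  rw [← h1]; abel

/-- weak norm of the vectors `x_h` -/
lemma weak_xX (n : ℕ) {r D : ℝ} (hr : 1 ≤ r) (hD : 1 ≤ D)
    (h1 : ∀ i j, ((2 : ℝ) ^ (1 - r / 2)) ^ cnt (xo (patt n i) (patt (n + 1) j)) n ≤ D)
    (h2 : ∀ i j, ((2 : ℝ) ^ (1 - r / 2)) ^ cnt (xo (patt (n + 1) i) (patt (n + 1 + 1) j)) (n + 1) ≤ D)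
    (f : StrongDual 𝕜 (Xhigh 𝕜)) :
    ∑ h, ‖f (xX 𝕜 n h)‖ ^ r ≤ ((4 * (6 * D) ^ (1 / r)) * ‖f‖) ^ r := by
  have hr0 : 0 < r := by linarith
  refine weak_of_dual (fun h => xX 𝕜 n h) hr (by positivity) (fun s c hs hc => ?_) f
  set Tg := (∑ j, s j ^ r) ^ (1 - 1 / r) with hTg
  have hTg0 : 0 ≤ Tg := Real.rpow_nonneg (sum_nonneg fun j _ => Real.rpow_nonneg (hs j) _) _
  have e1 : ((∑ h, c h • xX 𝕜 n h : Xhigh 𝕜) : MH 𝕜 G QH) =
      lvl 𝕜 n (fun g => (((Real.sqrt 2)⁻¹ : ℝ) : 𝕜) * ∑ h, ((Rm n g h : ℝ) : 𝕜) * c h) +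
      lvl 𝕜 (n + 1) c +
      lvl 𝕜 (n + 2) (fun g => (Real.sqrt 2 : 𝕜) * ∑ h, ((Rm (n + 1) h g : ℝ) : 𝕜) * c h) := by
    rw [coe_sum_smul_eX 𝕜]
    simp only [xX_coe, xM, smul_add, ← lvl_smul]
    rw [sum_add_distrib, sum_add_distrib, ← lvl_sum, ← lvl_sum, ← lvl_sum]
    refine congrArg₂ (· + ·) (congrArg₂ (· + ·) (congrArg _ ?_) (congrArg _ ?_)) (congrArg _ ?_)
    · funext g
      rw [Finset.sum_apply, mul_sum]
      refine sum_congr rfl fun z _ => ?_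
      simp only [Pi.smul_apply, smul_eq_mul]
      push_cast; ring
    · funext g
      rw [Finset.sum_apply]
      simp [Pi.single_apply]
    · funext g
      rw [Finset.sum_apply, mul_sum]
      refine sum_congr rfl fun z _ => ?_
      simp only [Pi.smul_apply, smul_eq_mul]
      push_cast; ring
  change ‖((∑ h, c h • xX 𝕜 n h : Xhigh 𝕜) : MH 𝕜 G QH)‖ ≤ _
  rw [e1]
  set U := (6 * D) ^ (1 / r) with hU
  have hU1 : 1 ≤ U := Real.one_le_rpow (by linarith) (by positivity)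
  have hs2 : Real.sqrt 2 ≤ 2 := by
    rw [Real.sqrt_le_left (by norm_num)]; norm_num
  have hs2' : (Real.sqrt 2)⁻¹ ≤ 1 := by
    apply inv_le_one_of_one_le₀
    rw [Real.one_le_sqrt]; norm_num
  have b1 : ‖lvl 𝕜 n (fun g => (((Real.sqrt 2)⁻¹ : ℝ) : 𝕜) * ∑ h, ((Rm n g h : ℝ) : 𝕜) * c h)‖ ≤
      U * Tg := by
    refine norm_lvl_le 𝕜 n _ _ (by positivity) fun g => ?_
    rw [norm_mul, RCLike.norm_ofReal, abs_of_pos (by positivity)]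
    have := comb_le 𝕜 (D := 6 * D) (fun h => Rm n g h) s c hr hs hc
      (sum_Rm_row n g r D hr0 h1)
    calc _ ≤ 1 * (U * Tg) := by gcongr
      _ = _ := by ring
  have b3 : ‖lvl 𝕜 (n + 2) (fun g => (Real.sqrt 2 : 𝕜) * ∑ h, ((Rm (n + 1) h g : ℝ) : 𝕜) * c h)‖ ≤
      2 * (U * Tg) := by
    refine norm_lvl_le 𝕜 (n + 2) _ _ (by positivity) fun g => ?_
    rw [norm_mul, RCLike.norm_ofReal, abs_of_nonneg (by positivity)]
    have := comb_le 𝕜 (D := 6 * D) (fun h => Rm (n + 1) h g) s c hr hs hc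
      ((sum_Rm_col (n + 1) g r D hr0 h2).trans (by linarith))
    gcongr
  have b2 : ‖lvl 𝕜 (n + 1) c‖ ≤ U * Tg := by
    refine norm_lvl_le 𝕜 (n + 1) _ _ (by positivity) fun g => ?_
    have h3 := comb_le 𝕜 (D := 1) (fun h => if h = g then (1 : ℝ) else 0) s c hr hs hc (by
      have : ∀ h : G (n + 1), |if h = g then (1 : ℝ) else 0| ^ r = if h = g then 1 else 0 := by
        intro h; split_ifs <;> simp [Real.zero_rpow hr0.ne']
      simp [this])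
    rw [Real.one_rpow, one_mul] at h3
    have h4 : ∑ h, (((if h = g then (1 : ℝ) else 0) : ℝ) : 𝕜) * c h = c g := by
      simp
    rw [h4] at h3
    calc ‖c g‖ ≤ Tg := h3
      _ ≤ U * Tg := by nlinarith
  calc _ ≤ U * Tg + U * Tg + 2 * (U * Tg) :=
        (norm_add_le _ _).trans (add_le_add ((norm_add_le _ _).trans (add_le_add b1 b2)) b3)
    _ = _ := by ring

end

end MP6f
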