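import Mathlib
import Pool.Agent.Lib.MP_6f6997_an.DefsK

/-!
# Lower bounds for the Chevet–Saphar norm (trace duality)
-/

open MeasureTheory ENNReal

set_option maxSynthPendingDepth 3

noncomputable section

namespace MP6f

variable {𝕜 : Type} [RCLike 𝕜]

lemma lpN_eq {K : Type*} [RCLike K] {q : ℝ≥0∞} (hr : 0 < q.toReal) {n : ℕ} (a : Fin n → K) :
    lpN q a = (∑ k, ‖a k‖ ^ q.toReal) ^ (1 / q.toReal) := by
  unfold lpN; rw [PiLp.norm_eq_sum hr]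

lemma lpN_top {K : Type*} [RCLike K] {n : ℕ} (a : Fin n → K) : lpN ∞ a = ⨆ k, ‖a k‖ := by
  unfold lpN; rw [PiLp.norm_eq_ciSup]

lemma lpN_nonneg {K : Type*} [RCLike K] {q : ℝ≥0∞} [Fact (1 ≤ q)] {n : ℕ} (a : Fin n → K) :
    0 ≤ lpN q a := by
  unfold lpN; exact norm_nonneg _

lemma toReal_pos_of {q : ℝ≥0∞} (h1 : 1 ≤ q) (hq : q ≠ ∞) : 0 < q.toReal :=
  ENNReal.toReal_pos (zero_lt_one.trans_le h1).ne' hq

lemma lpN_norm {K : Type*} [RCLike K] {q : ℝ≥0∞} (h1 : 1 ≤ q) {n : ℕ} (a : Fin n → K) :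
    lpN q (fun k => ‖a k‖) = lpN q a := by
  by_cases hq : q = ∞
  · subst hq; rw [lpN_top, lpN_top]; simp
  · rw [lpN_eq (toReal_pos_of h1 hq), lpN_eq (toReal_pos_of h1 hq)]; simp

lemma lpN_mono {K L : Type*} [RCLike K] [RCLike L] {q : ℝ≥0∞} (h1 : 1 ≤ q) {n : ℕ}
    (a : Fin n → K) (b : Fin n → L) (h : ∀ k, ‖a k‖ ≤ ‖b k‖) : lpN q a ≤ lpN q b := by
  by_cases hq : q = ∞
  · subst hq; rw [lpN_top, lpN_top]
    exact ciSup_mono (Set.finite_range _).bddAbove h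
  · have hr := toReal_pos_of h1 hq
    rw [lpN_eq hr, lpN_eq hr]
    gcongr with k _
    exact h k

/-- Hölder -/
lemma sum_mul_le_lpN {p q : ℝ≥0∞} (hpq : p.HolderConjugate q) {n : ℕ} (a b : Fin n → ℝ)
    (hb : ∀ k, 0 ≤ b k) (hq : q ≠ ∞) :
    ∑ k, a k * b k ≤ lpN p a * lpN q b := by
  have hq1 : 1 ≤ q := hpq.symm.one_le
  have hp1 : 1 ≤ p := hpq.one_le
  have hr := toReal_pos_of hq1 hq
  by_cases hp : p = ∞
  · subst hp
    have hqe : q = 1 := by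
      have := hpq.inv_add_inv_eq_one
      simpa using this
    subst hqe
    rw [lpN_top, lpN_eq (by simp)]
    simp only [ENNReal.toReal_one, Real.rpow_one, div_one]
    rw [Finset.mul_sum]
    refine Finset.sum_le_sum fun k _ => ?_
    refine mul_le_mul ?_ (le_abs_self _) (hb k) (Real.iSup_nonneg fun k => norm_nonneg _)
    refine (le_abs_self _).trans ?_
    exact le_ciSup (f := fun k => ‖a k‖) (Set.finite_range _).bddAbove k
  · have hp0 := toReal_pos_of hp1 hp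
    have h := ENNReal.HolderConjugate.toReal_of_ne_top hp hq
    rw [lpN_eq hp0, lpN_eq hr]
    exact Real.inner_le_Lp_mul_Lq Finset.univ a b h

section
variable {Y X : Type*} [NormedAddCommGroup Y] [NormedSpace 𝕜 Y] [NormedAddCommGroup X]
  [NormedSpace 𝕜 X]

lemma weak_bdd {q : ℝ≥0∞} (h1 : 1 ≤ q) {n : ℕ} (x : Fin n → X) :
    BddAbove (Set.range fun f : {f : StrongDual 𝕜 X // ‖f‖ ≤ 1} => lpN q fun k => f.1 (x k)) := by
  refine ⟨lpN q fun k => ‖x k‖, ?_⟩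
  rintro _ ⟨f, rfl⟩
  refine lpN_mono h1 _ _ fun k => ?_
  rw [norm_norm]
  calc ‖f.1 (x k)‖ ≤ ‖f.1‖ * ‖x k‖ := f.1.le_opNorm _
    _ ≤ 1 * ‖x k‖ := by gcongr; exact f.2
    _ = ‖x k‖ := one_mul _

lemma weakNorm_nonneg (q : ℝ≥0∞) [Fact (1 ≤ q)] {n : ℕ} (x : Fin n → X) :
    0 ≤ weakNorm 𝕜 q x := Real.iSup_nonneg fun _ => lpN_nonneg _

lemma weakNorm_le {q : ℝ≥0∞} {n : ℕ} (x : Fin n → X) (C : ℝ)
    (h : ∀ f : StrongDual 𝕜 X, ‖f‖ ≤ 1 → lpN q (fun k => f (x k)) ≤ C) : weakNorm 𝕜 q x ≤ C := by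
  have : Nonempty {f : StrongDual 𝕜 X // ‖f‖ ≤ 1} := ⟨⟨0, by simp⟩⟩
  exact ciSup_le fun f => h f.1 f.2

lemma lpN_smul {q : ℝ≥0∞} [Fact (1 ≤ q)] {n : ℕ} (c : 𝕜) (a : Fin n → 𝕜) :
    lpN q (fun k => c * a k) = ‖c‖ * lpN q a := by
  unfold lpN; rw [← norm_smul]; rfl

lemma lpN_le_weakNorm {q : ℝ≥0∞} [Fact (1 ≤ q)] {n : ℕ} (x : Fin n → X) (f : StrongDual 𝕜 X) :
    lpN q (fun k => f (x k)) ≤ ‖f‖ * weakNorm 𝕜 q x := by
  have h1 : 1 ≤ q := Fact.out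
  by_cases hf : f = 0
  · subst hf
    have := weakNorm_nonneg (𝕜 := 𝕜) q x
    have h2 : lpN q (fun k => (0 : StrongDual 𝕜 X) (x k)) = 0 := by
      have := lpN_smul (q := q) (0 : 𝕜) (fun _ : Fin n => (0 : 𝕜))
      simpa using this
    rw [h2]; simp
  · have hf0 : 0 < ‖f‖ := norm_pos_iff.mpr hf
    have h3 := le_ciSup (weak_bdd (𝕜 := 𝕜) h1 x) ⟨((‖f‖⁻¹ : ℝ) : 𝕜) • f, by
      rw [norm_smul, RCLike.norm_ofReal, abs_of_pos (inv_pos.mpr hf0), inv_mul_cancel₀ hf0.ne']⟩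
    simp only [_root_.smul_apply, smul_eq_mul] at h3
    rw [lpN_smul, RCLike.norm_ofReal, abs_of_pos (inv_pos.mpr hf0)] at h3
    calc lpN q (fun k => f (x k)) = ‖f‖ * (‖f‖⁻¹ * lpN q (fun k => f (x k))) := by
          field_simp
      _ ≤ ‖f‖ * weakNorm 𝕜 q x := by gcongr; exact h3

lemma weak_sum_le {q : ℝ≥0∞} [Fact (1 ≤ q)] (hq : q ≠ ∞) {n : ℕ} (x : Fin n → X)
    (f : StrongDual 𝕜 X) :
    ∑ k, ‖f (x k)‖ ^ q.toReal ≤ (‖f‖ * weakNorm 𝕜 q x) ^ q.toReal := by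
  have hr := toReal_pos_of (Fact.out : 1 ≤ q) hq
  have h := lpN_le_weakNorm (𝕜 := 𝕜) (q := q) x f
  rw [lpN_eq hr] at h
  have h0 : 0 ≤ ∑ k, ‖f (x k)‖ ^ q.toReal := Finset.sum_nonneg fun k _ => by positivity
  calc ∑ k, ‖f (x k)‖ ^ q.toReal = ((∑ k, ‖f (x k)‖ ^ q.toReal) ^ (1 / q.toReal)) ^ q.toReal := by
        rw [← Real.rpow_mul h0, one_div_mul_cancel hr.ne', Real.rpow_one]
    _ ≤ _ := by gcongr

/-- the trace of a finite rank operator is well defined -/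
lemma trace_wd {ι κ : Type*} [Fintype ι] [Fintype κ] (y : ι → StrongDual 𝕜 Y) (x : ι → X)
    (η : κ → StrongDual 𝕜 Y) (e : κ → X) (V : X →L[𝕜] Y)
    (h : ∀ v, ∑ k, y k v • x k = ∑ z, η z v • e z) :
    ∑ k, y k (V (x k)) = ∑ z, η z (V (e z)) := by
  classical
  let F : Submodule 𝕜 X := Submodule.span 𝕜 (Set.range x ∪ Set.range e)
  have : FiniteDimensional 𝕜 F :=
    FiniteDimensional.span_of_finite 𝕜 ((Set.finite_range x).union (Set.finite_range e))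
  have hx : ∀ k, x k ∈ F := fun k => Submodule.subset_span (Or.inl ⟨k, rfl⟩)
  have he : ∀ z, e z ∈ F := fun z => Submodule.subset_span (Or.inr ⟨z, rfl⟩)
  let L1 : F →ₗ[𝕜] F := ∑ k, (((y k : Y →ₗ[𝕜] 𝕜).comp (V : X →ₗ[𝕜] Y)).comp F.subtype).smulRight
    (⟨x k, hx k⟩ : F)
  let L2 : F →ₗ[𝕜] F := ∑ z, (((η z : Y →ₗ[𝕜] 𝕜).comp (V : X →ₗ[𝕜] Y)).comp F.subtype).smulRight
    (⟨e z, he z⟩ : F)
  have hL : L1 = L2 := by
    apply LinearMap.ext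
    intro w
    apply Subtype.ext
    have := h (V w)
    simpa [L1, L2, LinearMap.sum_apply] using this
  have h1 : LinearMap.trace 𝕜 F L1 = ∑ k, y k (V (x k)) := by
    simp [L1, map_sum]
  have h2 : LinearMap.trace 𝕜 F L2 = ∑ z, η z (V (e z)) := by
    simp [L2, map_sum]
  rw [← h1, ← h2, hL]

/-- trace duality: a lower bound for the Chevet–Saphar norm -/
lemma le_gNorm {p q : ℝ≥0∞} [Fact (1 ≤ q)] (hpq : p.HolderConjugate q) (hq : q ≠ ∞)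
    (V : X →L[𝕜] Y) (C : ℝ) (hC : 0 < C)
    (hV : ∀ (n : ℕ) (x : Fin n → X), ∑ k, ‖V (x k)‖ ^ q.toReal ≤ (C * weakNorm 𝕜 q x) ^ q.toReal)
    {κ : Type*} [Fintype κ] (T : Y →L[𝕜] X) (η : κ → StrongDual 𝕜 Y) (e : κ → X)
    (hT : ∀ v, T v = ∑ z, η z v • e z) :
    ENNReal.ofReal ‖∑ z, η z (V (e z))‖ ≤ ENNReal.ofReal C * gNorm p q T := by
  have hr := toReal_pos_of (Fact.out : 1 ≤ q) hq
  have hp1 : 1 ≤ p := hpq.one_le
  have : Fact (1 ≤ p) := ⟨hp1⟩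
  have hC1 : ENNReal.ofReal C ≠ 0 := by
    simp only [ne_eq, ENNReal.ofReal_eq_zero, not_le]
    exact hC
  have hC2 := hC.le
  rw [mul_comm (ENNReal.ofReal C), ← ENNReal.div_le_iff_le_mul (Or.inl hC1)
    (Or.inl ENNReal.ofReal_ne_top)]
  unfold gNorm
  refine le_iInf fun n => le_iInf fun y => le_iInf fun x => le_iInf fun h => ?_
  have hsn : 0 ≤ strongNorm p y * weakNorm 𝕜 q x := mul_nonneg (lpN_nonneg _) (weakNorm_nonneg _ _)
  rw [ENNReal.div_le_iff_le_mul (Or.inl hC1) (Or.inl ENNReal.ofReal_ne_top),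
    ← ENNReal.ofReal_mul hsn]
  refine ENNReal.ofReal_le_ofReal ?_
  rw [← trace_wd y x η e V (fun v => by rw [← h v, hT v])]
  calc ‖∑ k, y k (V (x k))‖ ≤ ∑ k, ‖y k‖ * ‖V (x k)‖ :=
          (norm_sum_le _ _).trans (Finset.sum_le_sum fun k _ => (y k).le_opNorm _)
      _ ≤ lpN p (fun k => ‖y k‖) * lpN q (fun k => ‖V (x k)‖) :=
          sum_mul_le_lpN hpq _ _ (fun _ => norm_nonneg _) hq
      _ ≤ lpN p (fun k => ‖y k‖) * (C * weakNorm 𝕜 q x) := by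
          refine mul_le_mul_of_nonneg_left ?_ (lpN_nonneg _)
          rw [lpN_eq hr]
          simp only [norm_norm]
          calc (∑ k, ‖V (x k)‖ ^ q.toReal) ^ (1 / q.toReal)
              ≤ ((C * weakNorm 𝕜 q x) ^ q.toReal) ^ (1 / q.toReal) := by
                have := hV n x
                have h0 : 0 ≤ ∑ k, ‖V (x k)‖ ^ q.toReal := Finset.sum_nonneg fun k _ => by positivity
                gcongr
            _ = C * weakNorm 𝕜 q x := by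
                rw [← Real.rpow_mul (mul_nonneg hC2 (weakNorm_nonneg _ _)), mul_one_div_cancel hr.ne',
                  Real.rpow_one]
      _ = strongNorm p y * weakNorm 𝕜 q x * C := by unfold strongNorm; ring

end

end MP6f
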