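import Mathlib
import Pool.Agent.Lib.MP_6f6997_an.GLow

/-!
# Upper bounds for the Chevet–Saphar norm
-/

open MeasureTheory ENNReal Finset

set_option maxSynthPendingDepth 3

noncomputable section

namespace MP6f

/-- the `ℓ_p` norm of a family indexed by a finite type -/
def lpF (p : ℝ≥0∞) {K : Type*} [RCLike K] {κ : Type*} [Fintype κ] (a : κ → K) : ℝ :=
  ‖(WithLp.toLp p a : PiLp p fun _ : κ => K)‖

section lpF
variable {K : Type*} [RCLike K] {κ κ' : Type*} [Fintype κ] [Fintype κ']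

lemma lpF_eq {q : ℝ≥0∞} (hr : 0 < q.toReal) (a : κ → K) :
    lpF q a = (∑ k, ‖a k‖ ^ q.toReal) ^ (1 / q.toReal) := by
  unfold lpF; rw [PiLp.norm_eq_sum hr]

lemma lpF_top (a : κ → K) : lpF ∞ a = ⨆ k, ‖a k‖ := by
  unfold lpF; rw [PiLp.norm_eq_ciSup]

lemma lpF_nonneg {q : ℝ≥0∞} [Fact (1 ≤ q)] (a : κ → K) : 0 ≤ lpF q a := by
  unfold lpF; exact norm_nonneg _

lemma lpF_mono {L : Type*} [RCLike L] {q : ℝ≥0∞} (h1 : 1 ≤ q)
    (a : κ → K) (b : κ → L) (h : ∀ k, ‖a k‖ ≤ ‖b k‖) : lpF q a ≤ lpF q b := by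
  by_cases hq : q = ∞
  · subst hq; rw [lpF_top, lpF_top]
    exact ciSup_mono (Set.finite_range _).bddAbove h
  · have hr := toReal_pos_of h1 hq
    rw [lpF_eq hr, lpF_eq hr]
    gcongr with k _
    exact h k

lemma lpF_reindex {q : ℝ≥0∞} (h1 : 1 ≤ q) (e : κ' ≃ κ) (a : κ → K) :
    lpF q (fun k => a (e k)) = lpF q a := by
  by_cases hq : q = ∞
  · subst hq; rw [lpF_top, lpF_top]
    exact e.iSup_comp (g := fun k => ‖a k‖)
  · have hr := toReal_pos_of h1 hq
    rw [lpF_eq hr, lpF_eq hr, e.sum_comp (fun k => ‖a k‖ ^ q.toReal)]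

/-- uniform upper bound -/
lemma lpF_le_of_sum {p q : ℝ≥0∞} (hpq : p.HolderConjugate q) (hq : q ≠ ∞) (a : κ → K)
    (w : κ → ℝ) (hw : ∀ k, 0 ≤ w k) (t : ℝ) (hsum : ∑ k, w k ≤ t)
    (h : ∀ k, ‖a k‖ ≤ w k ^ (1 - 1 / q.toReal)) : lpF p a ≤ t ^ (1 - 1 / q.toReal) := by
  have hq1 : 1 ≤ q := hpq.symm.one_le
  have hp1 : 1 ≤ p := hpq.one_le
  have hr := toReal_pos_of hq1 hq
  by_cases hp : p = ∞
  · subst hp
    have hqe : q = 1 := by
      have := hpq.inv_add_inv_eq_one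
      simpa using this
    subst hqe
    simp only [ENNReal.toReal_one, div_one, sub_self, Real.rpow_zero] at h ⊢
    rw [lpF_top]
    rcases isEmpty_or_nonempty κ with he | he
    · simp
    · exact ciSup_le h
  · have hp0 := toReal_pos_of hp1 hp
    have hc := ENNReal.HolderConjugate.toReal_of_ne_top hp hq
    have e1 : 1 - 1 / q.toReal = 1 / p.toReal := by
      have := hc.inv_add_inv_eq_one
      rw [one_div, one_div]; linarith
    rw [e1] at h ⊢
    rw [lpF_eq hp0]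
    have h2 : ∑ k, ‖a k‖ ^ p.toReal ≤ ∑ k, w k := by
      refine sum_le_sum fun k _ => ?_
      calc ‖a k‖ ^ p.toReal ≤ (w k ^ (1 / p.toReal)) ^ p.toReal := by
            gcongr; exact h k
        _ = w k := by rw [← Real.rpow_mul (hw k), one_div_mul_cancel hp0.ne', Real.rpow_one]
    have h3 : 0 ≤ ∑ k, ‖a k‖ ^ p.toReal := sum_nonneg fun k _ => by positivity
    gcongr
    exact h2.trans hsum

lemma lpF_sum_le {p q : ℝ≥0∞} (hpq : p.HolderConjugate q) (hq : q ≠ ∞) (a : κ → K) (b : κ' → K)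
    {s t : ℝ} (hs : 0 < s) (ht : 0 < t) (ha : lpF p a ≤ s ^ (1 - 1 / q.toReal))
    (hb : lpF p b ≤ t ^ (1 - 1 / q.toReal)) :
    lpF p (Sum.elim a b) ≤ (s + t) ^ (1 - 1 / q.toReal) := by
  have hq1 : 1 ≤ q := hpq.symm.one_le
  have hp1 : 1 ≤ p := hpq.one_le
  have hr := toReal_pos_of hq1 hq
  by_cases hp : p = ∞
  · subst hp
    have hqe : q = 1 := by
      have := hpq.inv_add_inv_eq_one
      simpa using this
    subst hqe
    simp only [ENNReal.toReal_one, div_one, sub_self, Real.rpow_zero] at ha hb ⊢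
    rw [lpF_top] at ha hb ⊢
    refine Real.iSup_le (fun k => ?_) zero_le_one
    rcases k with k | k
    · exact (le_ciSup (f := fun k => ‖a k‖) (Set.finite_range _).bddAbove k).trans ha
    · exact (le_ciSup (f := fun k => ‖b k‖) (Set.finite_range _).bddAbove k).trans hb
  · have hp0 := toReal_pos_of hp1 hp
    have hc := ENNReal.HolderConjugate.toReal_of_ne_top hp hq
    have e1 : 1 - 1 / q.toReal = 1 / p.toReal := by
      have := hc.inv_add_inv_eq_one
      rw [one_div, one_div]; linarith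
    rw [e1] at ha hb ⊢
    rw [lpF_eq hp0] at ha hb ⊢
    rw [Fintype.sum_sum_type]
    simp only [Sum.elim_inl, Sum.elim_inr]
    have key : ∀ (A u : ℝ), 0 ≤ A → 0 < u → A ^ (1 / p.toReal) ≤ u ^ (1 / p.toReal) → A ≤ u := by
      intro A u hA hu h
      exact (Real.rpow_le_rpow_iff hA hu.le (by positivity)).mp h
    have h1 := key _ s (sum_nonneg fun k _ => by positivity) hs ha
    have h2 := key _ t (sum_nonneg fun k _ => by positivity) ht hb
    have h3 : 0 ≤ ∑ k, ‖a k‖ ^ p.toReal := sum_nonneg fun k _ => by positivity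
    have h4 : 0 ≤ ∑ k, ‖b k‖ ^ p.toReal := sum_nonneg fun k _ => by positivity
    gcongr

/-- the same for the finite exponent `q` -/
lemma lpF_sum_le' {q : ℝ≥0∞} (hq1 : 1 ≤ q) (hq : q ≠ ∞) (a : κ → K) (b : κ' → K)
    {s t : ℝ} (hs : 0 < s) (ht : 0 < t) (ha : lpF q a ≤ s ^ (1 / q.toReal))
    (hb : lpF q b ≤ t ^ (1 / q.toReal)) :
    lpF q (Sum.elim a b) ≤ (s + t) ^ (1 / q.toReal) := by
  have hr := toReal_pos_of hq1 hq
  rw [lpF_eq hr] at ha hb ⊢
  rw [Fintype.sum_sum_type]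
  simp only [Sum.elim_inl, Sum.elim_inr]
  have key : ∀ (A u : ℝ), 0 ≤ A → 0 < u → A ^ (1 / q.toReal) ≤ u ^ (1 / q.toReal) → A ≤ u := by
    intro A u hA hu h
    exact (Real.rpow_le_rpow_iff hA hu.le (by positivity)).mp h
  have h1 := key _ s (sum_nonneg fun k _ => by positivity) hs ha
  have h2 := key _ t (sum_nonneg fun k _ => by positivity) ht hb
  have h3 : 0 ≤ ∑ k, ‖a k‖ ^ q.toReal := sum_nonneg fun k _ => by positivity
  have h4 : 0 ≤ ∑ k, ‖b k‖ ^ q.toReal := sum_nonneg fun k _ => by positivity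
  gcongr

end lpF

variable {𝕜 : Type} [RCLike 𝕜] {Y X Z : Type*} [NormedAddCommGroup Y] [NormedSpace 𝕜 Y]
  [NormedAddCommGroup X] [NormedSpace 𝕜 X] [NormedAddCommGroup Z] [NormedSpace 𝕜 Z]

/-- upper bound from a representation -/
lemma gNorm_le_rep {p q : ℝ≥0∞} [Fact (1 ≤ p)] [Fact (1 ≤ q)] (T : Y →L[𝕜] X) {κ : Type*}
    [Fintype κ] (y : κ → StrongDual 𝕜 Y) (x : κ → X) (hT : ∀ v, T v = ∑ k, y k v • x k) (A B : ℝ)
    (hA : lpF p (fun k => ‖y k‖) ≤ A)
    (hB : ∀ f : StrongDual 𝕜 X, ‖f‖ ≤ 1 → lpF q (fun k => f (x k)) ≤ B) :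
    gNorm p q T ≤ ENNReal.ofReal (A * B) := by
  classical
  let e := (Fintype.equivFin κ).symm
  unfold gNorm
  refine iInf_le_of_le (Fintype.card κ) (iInf_le_of_le (fun k => y (e k))
    (iInf_le_of_le (fun k => x (e k)) (iInf_le_of_le (fun v => ?_) ?_)))
  · rw [hT v]; exact (e.sum_comp (fun k => y k v • x k)).symm
  · refine ENNReal.ofReal_le_ofReal ?_
    have h1 : strongNorm p (fun k => y (e k)) ≤ A := by
      refine le_trans (le_of_eq ?_) hA
      exact lpF_reindex Fact.out e (fun k => ‖y k‖)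
    have h2 : weakNorm 𝕜 q (fun k => x (e k)) ≤ B := by
      refine weakNorm_le _ _ fun f hf => ?_
      refine le_trans (le_of_eq ?_) (hB f hf)
      exact lpF_reindex Fact.out e (fun k => f (x k))
    have h3 : 0 ≤ weakNorm 𝕜 q (fun k => x (e k)) := weakNorm_nonneg _ _
    have h4 : 0 ≤ A := (lpF_nonneg _).trans hA
    gcongr

/-- a normalised representation -/
lemma exists_rep {p q : ℝ≥0∞} [Fact (1 ≤ p)] [Fact (1 ≤ q)] (hq : q ≠ ∞)
    (T : Y →L[𝕜] X) {t : ℝ} (ht : 0 < t) (h : gNorm p q T < ENNReal.ofReal t) :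
    ∃ (n : ℕ) (y : Fin n → StrongDual 𝕜 Y) (x : Fin n → X), (∀ v, T v = ∑ k, y k v • x k) ∧
      lpF p (fun k => ‖y k‖) ≤ t ^ (1 - 1 / q.toReal) ∧
      ∀ f : StrongDual 𝕜 X, ‖f‖ ≤ 1 → lpF q (fun k => f (x k)) ≤ t ^ (1 / q.toReal) := by
  have hr := toReal_pos_of (Fact.out : 1 ≤ q) hq
  unfold gNorm at h
  simp only [iInf_lt_iff] at h
  obtain ⟨n, y, x, hT, hlt⟩ := h
  set s := strongNorm p y with hs
  set w := weakNorm 𝕜 q x with hw
  have hs0 : 0 ≤ s := lpN_nonneg _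
  have hw0 : 0 ≤ w := weakNorm_nonneg _ _
  have hsw : s * w < t := by
    rwa [ENNReal.ofReal_lt_ofReal_iff ht] at hlt
  have hzero : (∀ v, T v = 0) → ∃ (n : ℕ) (y : Fin n → StrongDual 𝕜 Y) (x : Fin n → X),
      (∀ v, T v = ∑ k, y k v • x k) ∧ lpF p (fun k => ‖y k‖) ≤ t ^ (1 - 1 / q.toReal) ∧
      ∀ f : StrongDual 𝕜 X, ‖f‖ ≤ 1 → lpF q (fun k => f (x k)) ≤ t ^ (1 / q.toReal) := by
    intro h0
    refine ⟨0, Fin.elim0, Fin.elim0, fun v => by simp [h0], ?_, fun f _ => ?_⟩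
    · have : (WithLp.toLp p (fun k : Fin 0 => ‖(Fin.elim0 k : StrongDual 𝕜 Y)‖) :
          PiLp p fun _ : Fin 0 => ℝ) = 0 := Subsingleton.elim _ _
      unfold lpF; rw [this, norm_zero]; positivity
    · have : (WithLp.toLp q (fun k : Fin 0 => f (Fin.elim0 k)) :
          PiLp q fun _ : Fin 0 => 𝕜) = 0 := Subsingleton.elim _ _
      unfold lpF; rw [this, norm_zero]; positivity
  rcases hs0.eq_or_lt with h0 | h0
  · apply hzero
    intro v
    have h1 : (WithLp.toLp p (fun k => ‖y k‖) : PiLp p fun _ : Fin n => ℝ) = 0 := by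
      rw [← norm_eq_zero]; exact h0.symm
    have h2 : ∀ k, y k = 0 := by
      intro k
      have := congrArg (fun z : PiLp p fun _ : Fin n => ℝ => z k) h1
      simpa using this
    rw [hT v]; simp [h2]
  rcases hw0.eq_or_lt with h1 | h1
  · apply hzero
    intro v
    have h2 : ∀ k, x k = 0 := by
      intro k
      rw [SeparatingDual.eq_zero_iff_forall_dual_eq_zero (R := 𝕜)]
      intro f
      have h3 := weak_sum_le (𝕜 := 𝕜) hq x f
      rw [← hw, ← h1, mul_zero, Real.zero_rpow hr.ne'] at h3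
      have h4 : ‖f (x k)‖ ^ q.toReal ≤ 0 :=
        (single_le_sum (f := fun k => ‖f (x k)‖ ^ q.toReal) (fun k _ => by positivity)
          (mem_univ k)).trans h3
      have h5 : ‖f (x k)‖ ^ q.toReal = 0 := le_antisymm h4 (by positivity)
      rw [Real.rpow_eq_zero (norm_nonneg _) hr.ne'] at h5
      exact norm_eq_zero.mp h5
    rw [hT v]; simp [h2]
  -- the non-degenerate case
  set c : ℝ := t ^ (1 - 1 / q.toReal) / s with hc
  have hc0 : 0 < c := by positivity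
  refine ⟨n, fun k => (c : 𝕜) • y k, fun k => ((c⁻¹ : ℝ) : 𝕜) • x k, fun v => ?_, ?_, fun f hf => ?_⟩
  · rw [hT v]
    refine sum_congr rfl fun k _ => ?_
    rw [_root_.smul_apply, smul_smul, smul_eq_mul]
    congr 1
    have : (c : 𝕜) ≠ 0 := by exact_mod_cast hc0.ne'
    push_cast
    field_simp
  · have h2 : lpF p (fun k => ‖(c : 𝕜) • y k‖) = c * s := by
      have e1 : (fun k => ‖(c : 𝕜) • y k‖) = fun k => c * ‖y k‖ := by
        funext k; rw [norm_smul, RCLike.norm_ofReal, abs_of_pos hc0]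
      rw [e1]
      have := lpN_smul (𝕜 := ℝ) (q := p) c (fun k => ‖y k‖)
      rw [Real.norm_eq_abs, abs_of_pos hc0] at this
      exact this
    rw [h2, hc, div_mul_cancel₀ _ h0.ne']
  · have h2 : lpF q (fun k => f (((c⁻¹ : ℝ) : 𝕜) • x k)) = c⁻¹ * lpN q (fun k => f (x k)) := by
      have e1 : (fun k => f (((c⁻¹ : ℝ) : 𝕜) • x k)) = fun k => ((c⁻¹ : ℝ) : 𝕜) * f (x k) := by
        funext k; rw [map_smul, smul_eq_mul]
      rw [e1]
      have := lpN_smul (𝕜 := 𝕜) (q := q) ((c⁻¹ : ℝ) : 𝕜) (fun k => f (x k))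
      rw [RCLike.norm_ofReal, abs_of_pos (inv_pos.mpr hc0)] at this
      exact this
    have h3 : lpN q (fun k => f (x k)) ≤ w :=
      le_ciSup (weak_bdd (𝕜 := 𝕜) (Fact.out : 1 ≤ q) x) ⟨f, hf⟩
    rw [h2]
    calc c⁻¹ * lpN q (fun k => f (x k)) ≤ c⁻¹ * w := by gcongr
      _ = (s * w) / t ^ (1 - 1 / q.toReal) := by rw [hc]; field_simp
      _ ≤ t / t ^ (1 - 1 / q.toReal) := by gcongr
      _ = t ^ (1 / q.toReal) := by
          rw [Real.rpow_sub ht, Real.rpow_one]; field_simp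

lemma gNorm_add_le {p q : ℝ≥0∞} [Fact (1 ≤ p)] [Fact (1 ≤ q)] (hpq : p.HolderConjugate q)
    (hq : q ≠ ∞) (T S : Y →L[𝕜] X) : gNorm p q (T + S) ≤ gNorm p q T + gNorm p q S := by
  by_cases hT : gNorm p q T = ∞
  · rw [hT]; simp
  by_cases hS : gNorm p q S = ∞
  · rw [hS]; simp
  refine ENNReal.le_of_forall_pos_le_add fun ε hε _ => ?_
  set a := (gNorm p q T).toReal + ε / 2 with ha
  set b := (gNorm p q S).toReal + ε / 2 with hb
  have hε' : (0 : ℝ) < ε := by exact_mod_cast hε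
  have ha0 : 0 < a := by have := ENNReal.toReal_nonneg (a := gNorm p q T); positivity
  have hb0 : 0 < b := by have := ENNReal.toReal_nonneg (a := gNorm p q S); positivity
  have h1 : gNorm p q T < ENNReal.ofReal a := by
    rw [ENNReal.lt_ofReal_iff_toReal_lt hT]; linarith
  have h2 : gNorm p q S < ENNReal.ofReal b := by
    rw [ENNReal.lt_ofReal_iff_toReal_lt hS]; linarith
  obtain ⟨n, y, x, hT1, hT2, hT3⟩ := exists_rep hq T ha0 h1
  obtain ⟨m, y', x', hS1, hS2, hS3⟩ := exists_rep hq S hb0 h2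
  have hr := toReal_pos_of (Fact.out : 1 ≤ q) hq
  have key := gNorm_le_rep (p := p) (q := q) (T + S) (Sum.elim y y') (Sum.elim x x')
    (fun v => by
      rw [_root_.add_apply, hT1, hS1, Fintype.sum_sum_type]; simp)
    ((a + b) ^ (1 - 1 / q.toReal)) ((a + b) ^ (1 / q.toReal))
    (by
      have := lpF_sum_le hpq hq (fun k => ‖y k‖) (fun k => ‖y' k‖) ha0 hb0 hT2 hS2
      refine le_trans (le_of_eq ?_) this
      congr 1
      funext k; rcases k with k | k <;> rfl)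
    (fun f hf => by
      have := lpF_sum_le' (Fact.out : 1 ≤ q) hq (fun k => f (x k)) (fun k => f (x' k)) ha0 hb0
        (hT3 f hf) (hS3 f hf)
      refine le_trans (le_of_eq ?_) this
      congr 1
      funext k; rcases k with k | k <;> rfl)
  rw [← Real.rpow_add (by positivity)] at key
  have e1 : (1 - 1 / q.toReal) + 1 / q.toReal = 1 := by ring
  rw [e1, Real.rpow_one] at key
  refine key.trans ?_
  have e2 : a + b = (gNorm p q T).toReal + (gNorm p q S).toReal + ε := by rw [ha, hb]; ring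
  rw [e2, ENNReal.ofReal_add (by positivity) hε'.le, ENNReal.ofReal_add (by positivity) (by positivity),
    ENNReal.ofReal_toReal hT, ENNReal.ofReal_toReal hS, ENNReal.ofReal_coe_nnreal]

lemma gNorm_comp_left_le {p q : ℝ≥0∞} [Fact (1 ≤ p)] [Fact (1 ≤ q)] (hq : q ≠ ∞)
    (T : Y →L[𝕜] X) (R : X →L[𝕜] Z) :
    gNorm p q (R.comp T) ≤ ENNReal.ofReal ‖R‖ * gNorm p q T := by
  have hr := toReal_pos_of (Fact.out : 1 ≤ q) hq
  by_cases hR : ‖R‖ = 0
  · have h0 : R = 0 := norm_eq_zero.mp hR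
    subst h0
    have := gNorm_le_rep (p := p) (q := q) ((0 : X →L[𝕜] Z).comp T) (κ := Fin 0) Fin.elim0 Fin.elim0
      (fun v => by simp) 0 0 (le_of_eq (by
        have : (WithLp.toLp p (fun k : Fin 0 => ‖(Fin.elim0 k : StrongDual 𝕜 Y)‖) :
          PiLp p fun _ : Fin 0 => ℝ) = 0 := Subsingleton.elim _ _
        unfold lpF; rw [this, norm_zero])) (fun f _ => le_of_eq (by
        have : (WithLp.toLp q (fun k : Fin 0 => f (Fin.elim0 k)) :
          PiLp q fun _ : Fin 0 => 𝕜) = 0 := Subsingleton.elim _ _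
        unfold lpF; rw [this, norm_zero]))
    refine this.trans (by simp)
  have hR0 : 0 < ‖R‖ := lt_of_le_of_ne (norm_nonneg _) (Ne.symm hR)
  by_cases hT : gNorm p q T = ∞
  · rw [hT, ENNReal.mul_top (by simpa using hR0)]; exact le_top
  refine ENNReal.le_of_forall_pos_le_add fun ε hε _ => ?_
  have hε' : (0 : ℝ) < ε := by exact_mod_cast hε
  set a := (gNorm p q T).toReal + ε / ‖R‖ with ha
  have ha0 : 0 < a := by have := ENNReal.toReal_nonneg (a := gNorm p q T); positivity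
  have h1 : gNorm p q T < ENNReal.ofReal a := by
    rw [ENNReal.lt_ofReal_iff_toReal_lt hT, ha]
    have : 0 < (ε : ℝ) / ‖R‖ := by positivity
    linarith
  obtain ⟨n, y, x, hT1, hT2, hT3⟩ := exists_rep hq T ha0 h1
  have key := gNorm_le_rep (p := p) (q := q) (R.comp T) y (fun k => R (x k))
    (fun v => by rw [ContinuousLinearMap.comp_apply, hT1, map_sum]; simp)
    (a ^ (1 - 1 / q.toReal)) (‖R‖ * a ^ (1 / q.toReal)) hT2 (fun f hf => by
      have h2 : ‖(((‖R‖)⁻¹ : ℝ) : 𝕜) • f.comp R‖ ≤ 1 := by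
        rw [norm_smul, RCLike.norm_ofReal, abs_of_pos (inv_pos.mpr hR0)]
        calc ‖R‖⁻¹ * ‖f.comp R‖ ≤ ‖R‖⁻¹ * (‖f‖ * ‖R‖) := by
              gcongr; exact ContinuousLinearMap.opNorm_comp_le _ _
          _ ≤ ‖R‖⁻¹ * (1 * ‖R‖) := by gcongr
          _ = 1 := by field_simp
      have h3 := hT3 _ h2
      have h4 : lpF q (fun k => ((((‖R‖)⁻¹ : ℝ) : 𝕜) • f.comp R) (x k)) =
          ‖R‖⁻¹ * lpF q (fun k => f (R (x k))) := by
        have := lpN_smul (𝕜 := 𝕜) (q := q) (((‖R‖)⁻¹ : ℝ) : 𝕜) (fun k => f (R (x k)))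
        rw [RCLike.norm_ofReal, abs_of_pos (inv_pos.mpr hR0)] at this
        exact this
      rw [h4] at h3
      calc lpF q (fun k => f (R (x k))) = ‖R‖ * (‖R‖⁻¹ * lpF q (fun k => f (R (x k)))) := by
            field_simp
        _ ≤ ‖R‖ * a ^ (1 / q.toReal) := by gcongr)
  refine key.trans ?_
  have e1 : a ^ (1 - 1 / q.toReal) * (‖R‖ * a ^ (1 / q.toReal)) = ‖R‖ * a := by
    have : a ^ (1 - 1 / q.toReal) * a ^ (1 / q.toReal) = a := by
      rw [← Real.rpow_add ha0]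
      have e1 : (1 - 1 / q.toReal) + 1 / q.toReal = 1 := by ring
      rw [e1, Real.rpow_one]
    calc _ = ‖R‖ * (a ^ (1 - 1 / q.toReal) * a ^ (1 / q.toReal)) := by ring
      _ = _ := by rw [this]
  have e2 : ‖R‖ * a = ‖R‖ * (gNorm p q T).toReal + ε := by rw [ha]; field_simp
  rw [e1, e2, ENNReal.ofReal_add (by positivity) hε'.le, ENNReal.ofReal_mul (norm_nonneg _),
    ENNReal.ofReal_toReal hT, ENNReal.ofReal_coe_nnreal]

lemma gNorm_comp_right_le {p q : ℝ≥0∞} [Fact (1 ≤ p)] [Fact (1 ≤ q)] (hq : q ≠ ∞)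
    (T : Y →L[𝕜] X) (R : Z →L[𝕜] Y) :
    gNorm p q (T.comp R) ≤ ENNReal.ofReal ‖R‖ * gNorm p q T := by
  have hr := toReal_pos_of (Fact.out : 1 ≤ q) hq
  by_cases hR : ‖R‖ = 0
  · have h0 : R = 0 := norm_eq_zero.mp hR
    subst h0
    have := gNorm_le_rep (p := p) (q := q) (T.comp (0 : Z →L[𝕜] Y)) (κ := Fin 0) Fin.elim0 Fin.elim0
      (fun v => by simp) 0 0 (le_of_eq (by
        have : (WithLp.toLp p (fun k : Fin 0 => ‖(Fin.elim0 k : StrongDual 𝕜 Z)‖) :
          PiLp p fun _ : Fin 0 => ℝ) = 0 := Subsingleton.elim _ _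
        unfold lpF; rw [this, norm_zero])) (fun f _ => le_of_eq (by
        have : (WithLp.toLp q (fun k : Fin 0 => f (Fin.elim0 k)) :
          PiLp q fun _ : Fin 0 => 𝕜) = 0 := Subsingleton.elim _ _
        unfold lpF; rw [this, norm_zero]))
    refine this.trans (by simp)
  have hR0 : 0 < ‖R‖ := lt_of_le_of_ne (norm_nonneg _) (Ne.symm hR)
  by_cases hT : gNorm p q T = ∞
  · rw [hT, ENNReal.mul_top (by simpa using hR0)]; exact le_top
  refine ENNReal.le_of_forall_pos_le_add fun ε hε _ => ?_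
  have hε' : (0 : ℝ) < ε := by exact_mod_cast hε
  set a := (gNorm p q T).toReal + ε / ‖R‖ with ha
  have ha0 : 0 < a := by have := ENNReal.toReal_nonneg (a := gNorm p q T); positivity
  have h1 : gNorm p q T < ENNReal.ofReal a := by
    rw [ENNReal.lt_ofReal_iff_toReal_lt hT, ha]
    have : 0 < (ε : ℝ) / ‖R‖ := by positivity
    linarith
  obtain ⟨n, y, x, hT1, hT2, hT3⟩ := exists_rep hq T ha0 h1
  have key := gNorm_le_rep (p := p) (q := q) (T.comp R) (fun k => (y k).comp R) x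
    (fun v => by rw [ContinuousLinearMap.comp_apply, hT1]; rfl)
    (‖R‖ * a ^ (1 - 1 / q.toReal)) (a ^ (1 / q.toReal)) (by
      have h2 : lpF p (fun k => ‖(y k).comp R‖) ≤ lpF p (fun k => ‖R‖ * ‖y k‖) := by
        refine lpF_mono Fact.out _ _ fun k => ?_
        rw [norm_norm, norm_mul, norm_norm, norm_norm, mul_comm]
        exact ContinuousLinearMap.opNorm_comp_le _ _
      have h3 : lpF p (fun k => ‖R‖ * ‖y k‖) = ‖R‖ * lpF p (fun k => ‖y k‖) := by
        have := lpN_smul (𝕜 := ℝ) (q := p) ‖R‖ (fun k => ‖y k‖)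
        rw [norm_norm] at this
        exact this
      rw [h3] at h2
      refine h2.trans ?_
      gcongr) hT3
  refine key.trans ?_
  have e1 : (‖R‖ * a ^ (1 - 1 / q.toReal)) * a ^ (1 / q.toReal) = ‖R‖ * a := by
    rw [mul_assoc, ← Real.rpow_add ha0]
    have e1 : (1 - 1 / q.toReal) + 1 / q.toReal = 1 := by ring
    rw [e1, Real.rpow_one]
  have e2 : ‖R‖ * a = ‖R‖ * (gNorm p q T).toReal + ε := by rw [ha]; field_simp
  rw [e1, e2, ENNReal.ofReal_add (by positivity) hε'.le, ENNReal.ofReal_mul (norm_nonneg _),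
    ENNReal.ofReal_toReal hT, ENNReal.ofReal_coe_nnreal]

/-- rank one operators -/
lemma gNorm_rank_one_le {p q : ℝ≥0∞} [Fact (1 ≤ p)] [Fact (1 ≤ q)] (hp1 : 1 ≤ p)
    (y : StrongDual 𝕜 Y) (x : X) (T : Y →L[𝕜] X) (hT : ∀ v, T v = y v • x) :
    gNorm p q T ≤ ENNReal.ofReal (‖y‖ * ‖x‖) := by
  have key : ∀ (r : ℝ≥0∞) (_ : Fact (1 ≤ r)) (K : Type) (_ : RCLike K) (a : K),
      lpF r (fun _ : Fin 1 => a) = ‖a‖ := by
    intro r hr K _ a
    by_cases h : r = ∞
    · subst h; rw [lpF_top]; simp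
    · have h0 := toReal_pos_of hr.out h
      rw [lpF_eq h0]
      simp only [univ_unique, sum_singleton]
      rw [← Real.rpow_mul (norm_nonneg _), mul_one_div_cancel h0.ne', Real.rpow_one]
  refine gNorm_le_rep T (fun _ : Fin 1 => y) (fun _ => x) (fun v => by simp [hT]) _ _ ?_ ?_
  · rw [key p ⟨hp1⟩ ℝ inferInstance ‖y‖]; simp
  · intro f hf
    rw [key q inferInstance 𝕜 inferInstance (f x)]
    calc ‖f x‖ ≤ ‖f‖ * ‖x‖ := f.le_opNorm x
      _ ≤ 1 * ‖x‖ := by gcongr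
      _ = ‖x‖ := one_mul _

/-- the projective norm dominates -/
lemma gNorm_le_sum {p q : ℝ≥0∞} [Fact (1 ≤ p)] [Fact (1 ≤ q)] (hpq : p.HolderConjugate q)
    (hq : q ≠ ∞) {κ : Type*} [Fintype κ] (y : κ → StrongDual 𝕜 Y) (x : κ → X) (T : Y →L[𝕜] X)
    (hT : ∀ v, T v = ∑ k, y k v • x k) :
    gNorm p q T ≤ ENNReal.ofReal (∑ k, ‖y k‖ * ‖x k‖) := by
  classical
  have h : ∀ (s : Finset κ), gNorm p q (∑ k ∈ s, (y k).smulRight (x k)) ≤
      ENNReal.ofReal (∑ k ∈ s, ‖y k‖ * ‖x k‖) := by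
    intro s
    induction s using Finset.induction_on with
    | empty =>
      have := gNorm_rank_one_le (p := p) (q := q) Fact.out (0 : StrongDual 𝕜 Y) (0 : X)
        (0 : Y →L[𝕜] X) (fun v => by simp)
      simpa using this
    | insert k s hk ih =>
      rw [sum_insert hk, sum_insert hk, ENNReal.ofReal_add (by positivity) (by positivity)]
      refine (gNorm_add_le hpq hq _ _).trans ?_
      gcongr
      exact gNorm_rank_one_le Fact.out (y k) (x k) _ (fun v => rfl)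
  have e : T = ∑ k, (y k).smulRight (x k) := by
    ext v
    rw [hT v]
    simp [_root_.sum_apply]
  rw [e]; exact h univ

end MP6f
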