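import Mathlib
import Pool.Agent.Lib.MP_6f6997_an.GUp

/-!
# Finite rank operators which factor through a Hilbert space, and `L_2(μ)` kernels
-/

open MeasureTheory ENNReal Finset

set_option maxSynthPendingDepth 3

noncomputable section

namespace MP6f

variable {𝕜 : Type} [RCLike 𝕜]

/-- the inclusion `L_q(μ) → L_p(μ)`, `p ≤ q`, for a probability measure -/
def inclL {Ω : Type} [MeasurableSpace Ω] (μ : Measure Ω) [IsProbabilityMeasure μ] {p q : ℝ≥0∞}
    [Fact (1 ≤ p)] [Fact (1 ≤ q)] (h : p ≤ q) : Lp 𝕜 q μ →L[𝕜] Lp 𝕜 p μ :=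
  LinearMap.mkContinuous
    { toFun := fun f => ⟨f.1, Lp.antitone h f.2⟩
      map_add' := fun _ _ => rfl
      map_smul' := fun _ _ => rfl } 1 (fun f => by
        rw [one_mul, Lp.norm_def, Lp.norm_def]
        exact ENNReal.toReal_mono (Lp.eLpNorm_ne_top f)
          (eLpNorm_le_eLpNorm_of_exponent_le h (Lp.aestronglyMeasurable f)))

lemma norm_inclL_le {Ω : Type} [MeasurableSpace Ω] (μ : Measure Ω) [IsProbabilityMeasure μ]
    {p q : ℝ≥0∞} [Fact (1 ≤ p)] [Fact (1 ≤ q)] (h : p ≤ q) :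
    ‖(inclL μ h : Lp 𝕜 q μ →L[𝕜] Lp 𝕜 p μ)‖ ≤ 1 :=
  LinearMap.mkContinuous_norm_le _ zero_le_one _

lemma coeFn_inclL {Ω : Type} [MeasurableSpace Ω] (μ : Measure Ω) [IsProbabilityMeasure μ]
    {p q : ℝ≥0∞} [Fact (1 ≤ p)] [Fact (1 ≤ q)] (h : p ≤ q) (f : Lp 𝕜 q μ) :
    (inclL μ h f : Ω → 𝕜) = f := rfl

lemma inclLp_eq {Ω : Type} [MeasurableSpace Ω] (μ : Measure Ω) [IsProbabilityMeasure μ]
    {p : ℝ≥0∞} [Fact (1 ≤ p)] (hp : p ≤ 2) (f : Lp 𝕜 ∞ μ) :
    inclLp μ p f = inclL μ hp (inclL μ (le_top : (2 : ℝ≥0∞) ≤ ∞) f) := rfl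

open scoped InnerProductSpace in
/-- a finite rank operator which factors through a Hilbert space has a good kernel -/
lemma hilbert_kernel {X : Type*} [NormedAddCommGroup X] [NormedSpace 𝕜 X] (S : X →L[𝕜] X)
    (hS : FinRank S) {H : Type*} [NormedAddCommGroup H] [InnerProductSpace 𝕜 H] [CompleteSpace H]
    (i : X →L[𝕜] H) (B : H →L[𝕜] StrongDual 𝕜 (StrongDual 𝕜 X))
    (h : ∀ v, NormedSpace.inclusionInDoubleDual 𝕜 X (S v) = B (i v)) :
    ∃ (n : ℕ) (x : Fin n → X) (ψ : Fin n → H), (∀ v, S v = ∑ k, ⟪ψ k, i v⟫_𝕜 • x k) ∧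
      ∀ f : StrongDual 𝕜 X, ‖∑ k, (starRingEnd 𝕜 (f (x k))) • ψ k‖ ≤ ‖B‖ * ‖f‖ := by
  classical
  unfold FinRank at hS
  set R : Submodule 𝕜 X := LinearMap.range (S : X →ₗ[𝕜] X) with hR
  let n := Module.finrank 𝕜 R
  let b : Module.Basis (Fin n) 𝕜 R := Module.finBasis 𝕜 R
  -- coordinate functionals
  have hξ : ∀ k, ∃ g : StrongDual 𝕜 X, ∀ w : R, g w = b.repr w k := by
    intro k
    obtain ⟨g, hg, _⟩ := exists_extension_norm_eq R (LinearMap.toContinuousLinearMap (b.coord k))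
    exact ⟨g, fun w => by rw [hg w]; rfl⟩
  choose ξ hξ using hξ
  have hrep : ∀ w : R, (w : X) = ∑ k, ξ k w • (b k : X) := by
    intro w
    have h1 := b.sum_repr w
    have h2 := congrArg (fun z : R => (z : X)) h1
    simp only [Submodule.coe_sum, Submodule.coe_smul] at h2
    simp only [hξ]
    exact h2.symm
  -- the subspace `H₀`
  let H0 : Submodule 𝕜 H := (LinearMap.range (i : X →ₗ[𝕜] H)).topologicalClosure
  have hH0c : IsClosed (H0 : Set H) := Submodule.isClosed_topologicalClosure _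
  have : CompleteSpace H0 := hH0c.completeSpace_coe
  have hiH0 : ∀ v, i v ∈ H0 := fun v => Submodule.le_topologicalClosure _ ⟨v, rfl⟩
  -- values of `B` on `H₀`
  let jR : Submodule 𝕜 (StrongDual 𝕜 (StrongDual 𝕜 X)) :=
    R.map (NormedSpace.inclusionInDoubleDual 𝕜 X : X →ₗ[𝕜] StrongDual 𝕜 (StrongDual 𝕜 X))
  have : FiniteDimensional 𝕜 jR := by
    have := hS
    exact inferInstanceAs (FiniteDimensional 𝕜 (R.map _))
  have hjRc : IsClosed (jR : Set (StrongDual 𝕜 (StrongDual 𝕜 X))) := Submodule.closed_of_finiteDimensional _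
  have hB : ∀ w ∈ H0, ∃ u : R, B w = NormedSpace.inclusionInDoubleDual 𝕜 X (u : X) := by
    intro w hw
    have h1 : H0 ≤ jR.comap (B : H →ₗ[𝕜] StrongDual 𝕜 (StrongDual 𝕜 X)) := by
      refine Submodule.topologicalClosure_minimal _ ?_ (hjRc.preimage B.continuous)
      rintro _ ⟨v, rfl⟩
      exact ⟨S v, ⟨v, rfl⟩, h v⟩
    obtain ⟨u, hu, hu2⟩ := h1 hw
    exact ⟨⟨u, hu⟩, hu2.symm⟩
  let φ : Fin n → H := fun k =>
    (InnerProductSpace.toDual 𝕜 H).symm ((NormedSpace.inclusionInDoubleDual 𝕜 (StrongDual 𝕜 X) (ξ k)).comp B)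
  have hφ : ∀ k g, ⟪φ k, g⟫_𝕜 = B g (ξ k) := by
    intro k g
    simp only [φ, InnerProductSpace.toDual_symm_apply]
    rfl
  let ψ : Fin n → H := fun k => H0.starProjection (φ k)
  have hψ : ∀ k g, ⟪ψ k, g⟫_𝕜 = B (H0.starProjection g) (ξ k) := by
    intro k g
    simp only [ψ]
    rw [Submodule.inner_starProjection_left_eq_right, hφ]
  refine ⟨n, fun k => (b k : X), ψ, fun v => ?_, fun f => ?_⟩
  · have h1 : (S v : X) = ∑ k, ξ k (S v) • (b k : X) := hrep ⟨S v, ⟨v, rfl⟩⟩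
    rw [h1]
    refine sum_congr rfl fun k _ => ?_
    rw [hψ, Submodule.starProjection_eq_self_iff.mpr (hiH0 v), ← h v]
    rfl
  · set u := ∑ k, (starRingEnd 𝕜 (f (b k : X))) • ψ k with hu
    have h1 : ∀ g, ⟪u, g⟫_𝕜 = B (H0.starProjection g) f := by
      intro g
      obtain ⟨w, hw⟩ := hB _ (Submodule.starProjection_apply_mem H0 g)
      rw [hu, sum_inner]
      simp only [inner_smul_left, RingHomCompTriple.comp_apply, RingHom.id_apply, hψ]
      rw [hw]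
      have h2 := congrArg f (hrep w)
      rw [map_sum] at h2
      change _ = f (w : X)
      rw [h2]
      refine sum_congr rfl fun k _ => ?_
      rw [map_smul, smul_eq_mul, mul_comm]
      rfl
    by_cases hu0 : ‖u‖ = 0
    · rw [hu0]; positivity
    have hu1 : 0 < ‖u‖ := lt_of_le_of_ne (norm_nonneg _) (Ne.symm hu0)
    have h3 : ‖u‖ * ‖u‖ ≤ (‖B‖ * ‖f‖) * ‖u‖ := by
      have h4 : ‖⟪u, u⟫_𝕜‖ = ‖u‖ * ‖u‖ := by
        rw [inner_self_eq_norm_sq_to_K, norm_pow, RCLike.norm_ofReal, abs_norm, sq]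
      rw [← h4, h1]
      calc ‖B (H0.starProjection u) f‖ ≤ ‖B (H0.starProjection u)‖ * ‖f‖ :=
            ContinuousLinearMap.le_opNorm _ _
        _ ≤ (‖B‖ * ‖H0.starProjection u‖) * ‖f‖ := by gcongr; exact B.le_opNorm _
        _ ≤ (‖B‖ * ‖u‖) * ‖f‖ := by gcongr; exact Submodule.norm_starProjection_apply_le _ _
        _ = (‖B‖ * ‖f‖) * ‖u‖ := by ring
    exact le_of_mul_le_mul_right h3 hu1

/-- the functional `f ↦ ∫_E f` on `L_∞(μ)` -/
lemma exists_setInt {Ω : Type} [MeasurableSpace Ω] (μ : Measure Ω) [IsProbabilityMeasure μ]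
    (E : Set Ω) (hE : MeasurableSet E) :
    ∃ Λ : StrongDual 𝕜 (Lp 𝕜 ∞ μ), (∀ f, Λ f = ∫ ω in E, (f : Ω → 𝕜) ω ∂μ) ∧ ‖Λ‖ ≤ μ.real E := by
  have hint : ∀ f : Lp 𝕜 ∞ μ, Integrable (f : Ω → 𝕜) μ := fun f =>
    (Lp.memLp f).integrable le_top
  have hb : ∀ f : Lp 𝕜 ∞ μ, ‖∫ ω in E, (f : Ω → 𝕜) ω ∂μ‖ ≤ μ.real E * ‖f‖ := by
    intro f
    have h1 : ∀ᵐ ω ∂μ, ω ∈ E → ‖(f : Ω → 𝕜) ω‖ ≤ ‖f‖ := by
      have h2 := ae_le_eLpNormEssSup (f := (f : Ω → 𝕜)) (μ := μ)
      filter_upwards [h2] with ω hω _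
      rw [Lp.norm_def, eLpNorm_exponent_top]
      rw [← toReal_enorm]
      refine ENNReal.toReal_mono ?_ hω
      have := Lp.eLpNorm_ne_top f
      rwa [eLpNorm_exponent_top] at this
    have h3 := norm_setIntegral_le_of_norm_le_const_ae' (μ := μ) (s := E) (f := (f : Ω → 𝕜))
      (C := ‖f‖) (measure_lt_top μ E) h1
    rw [mul_comm]; exact h3
  refine ⟨LinearMap.mkContinuous
    { toFun := fun f => ∫ ω in E, (f : Ω → 𝕜) ω ∂μ
      map_add' := fun f g => by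
        rw [← integral_add (hint f).integrableOn (hint g).integrableOn]
        refine setIntegral_congr_ae hE ?_
        filter_upwards [Lp.coeFn_add f g] with ω hω _
        rw [hω]; rfl
      map_smul' := fun c f => by
        rw [RingHom.id_apply, smul_eq_mul, ← integral_const_mul]
        refine setIntegral_congr_ae hE ?_
        filter_upwards [Lp.coeFn_smul c f] with ω hω _
        rw [hω]; rfl } (μ.real E) hb, fun f => rfl, LinearMap.mkContinuous_norm_le _ (by positivity) _⟩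

lemma integral_partition {Ω : Type} [MeasurableSpace Ω] (μ : Measure Ω) {E G : Type*}
    [NormedAddCommGroup G] [NormedSpace ℝ G] (s : SimpleFunc Ω E) (g : Ω → G) (hg : Integrable g μ) :
    ∫ ω, g ω ∂μ = ∑ w ∈ s.range, ∫ ω in s ⁻¹' {w}, g ω ∂μ := by
  rw [← integral_biUnion_finset]
  · have : (⋃ i ∈ s.range, s ⁻¹' {i}) = Set.univ := by
      ext ω; simp
    rw [this, setIntegral_univ]
  · exact fun w _ => s.measurableSet_fiber w
  · intro a _ b _ hab
    exact Disjoint.preimage _ (Set.disjoint_singleton.mpr hab)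
  · exact fun w _ => hg.integrableOn

end MP6f
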