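import Mathlib
import Pool.Agent.Lib.MP_6f6997_an.Kernel

/-!
# Discretisation of a finite rank operator which factors through `L_∞(μ) → L_p(μ)`, `p ≤ 2`
-/

open MeasureTheory ENNReal Finset

set_option maxSynthPendingDepth 3

noncomputable section

namespace MP6f

variable {𝕜 : Type} [RCLike 𝕜]

lemma integral_simple {Ω : Type} [MeasurableSpace Ω] (μ : Measure Ω) [IsProbabilityMeasure μ]
    {E : Type*} (s : SimpleFunc Ω E) (F : E → ℝ) :
    ∫ ω, F (s ω) ∂μ = ∑ w : {w // w ∈ s.range}, μ.real (s ⁻¹' {w.1}) * F w.1 := by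
  have hint : Integrable (fun ω => F (s ω)) μ :=
    (SimpleFunc.integrable_of_isFiniteMeasure (μ := μ) (s.map F)).congr
      (Filter.Eventually.of_forall fun ω => rfl)
  rw [integral_partition μ s _ hint, ← Finset.sum_coe_sort s.range]
  refine sum_congr rfl fun w _ => ?_
  have h6 : ∫ ω in s ⁻¹' {w.1}, F (s ω) ∂μ = ∫ ω in s ⁻¹' {w.1}, F w.1 ∂μ := by
    refine setIntegral_congr_fun (s.measurableSet_fiber _) fun ω hω => ?_
    have : s ω = w.1 := hω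
    simp only [this]
  rw [h6, setIntegral_const, smul_eq_mul]

open scoped InnerProductSpace in
lemma inner_simple {Ω : Type} [MeasurableSpace Ω] (μ : Measure Ω) [IsProbabilityMeasure μ] {n : ℕ}
    (s : SimpleFunc Ω (Fin n → 𝕜)) (k : Fin n) (hk : MemLp (fun ω => s ω k) 2 μ)
    (g : Lp 𝕜 ∞ μ) :
    ⟪hk.toLp, inclL μ (le_top : (2 : ℝ≥0∞) ≤ ∞) g⟫_𝕜 =
      ∑ w : {w // w ∈ s.range}, (starRingEnd 𝕜 (w.1 k)) * ∫ ω in s ⁻¹' {w.1}, (g : Ω → 𝕜) ω ∂μ := by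
  rw [L2.inner_def, integral_partition μ s _ (L2.integrable_inner _ _),
    ← Finset.sum_coe_sort s.range]
  refine sum_congr rfl fun w _ => ?_
  rw [← integral_const_mul]
  refine setIntegral_congr_ae (s.measurableSet_fiber _) ?_
  filter_upwards [hk.coeFn_toLp] with ω h1 hω
  have h2 : s ω = w.1 := hω
  rw [h1, RCLike.inner_apply, h2, coeFn_inclL, mul_comm]

open scoped InnerProductSpace in
lemma norm_sq_simple {Ω : Type} [MeasurableSpace Ω] (μ : Measure Ω) [IsProbabilityMeasure μ] {n : ℕ}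
    (s : SimpleFunc Ω (Fin n → 𝕜)) (hk : ∀ k, MemLp (fun ω => s ω k) 2 μ) (c : Fin n → 𝕜) :
    ‖∑ k, c k • (hk k).toLp‖ ^ 2 =
      ∑ w : {w // w ∈ s.range}, μ.real (s ⁻¹' {w.1}) * ‖∑ k, c k * w.1 k‖ ^ 2 := by
  set v : Lp 𝕜 2 μ := ∑ k, c k • (hk k).toLp with hv
  have hae : ∀ᵐ ω ∂μ, (v : Ω → 𝕜) ω = ∑ k, c k * s ω k := by
    have h1 := Lp.coeFn_finsetSum (E := 𝕜) (p := 2) (μ := μ) univ (fun k => c k • (hk k).toLp)
    have h2 : ∀ k, ∀ᵐ ω ∂μ, ((c k • (hk k).toLp : Lp 𝕜 2 μ) : Ω → 𝕜) ω = c k * s ω k := by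
      intro k
      filter_upwards [Lp.coeFn_smul (c k) (hk k).toLp, (hk k).coeFn_toLp] with ω h1 h2
      rw [h1, Pi.smul_apply, smul_eq_mul, h2]
    filter_upwards [h1, ae_all_iff.mpr h2] with ω h1 h2
    rw [hv, h1, Finset.sum_apply]
    exact sum_congr rfl fun k _ => h2 k
  have h4 := L2.inner_def (𝕜 := 𝕜) v v
  rw [inner_self_eq_norm_sq_to_K] at h4
  have h5 : ∫ ω, ⟪(v : Ω → 𝕜) ω, (v : Ω → 𝕜) ω⟫_𝕜 ∂μ =
      ∫ ω, ((‖∑ k, c k * s ω k‖ ^ 2 : ℝ) : 𝕜) ∂μ := by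
    refine integral_congr_ae ?_
    filter_upwards [hae] with ω hω
    rw [hω, inner_self_eq_norm_sq_to_K]; push_cast; rfl
  rw [h5, integral_ofReal] at h4
  have h6 : ‖v‖ ^ 2 = ∫ ω, ‖∑ k, c k * s ω k‖ ^ 2 ∂μ := by exact_mod_cast h4
  rw [h6]
  exact integral_simple μ s (fun w => ‖∑ k, c k * w k‖ ^ 2)

set_option maxHeartbeats 4000000 in
open scoped InnerProductSpace in
lemma exists_two_rep {p q : ℝ≥0∞} [Fact (1 ≤ p)] [Fact (1 ≤ q)] (hpq : p.HolderConjugate q)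
    (hq : q ≠ ∞) (hp2 : p ≤ 2)
    {X : Type} [NormedAddCommGroup X] [NormedSpace 𝕜 X] (S : X →L[𝕜] X) (hS : FinRank S)
    {Ω : Type} [MeasurableSpace Ω] (μ : Measure Ω) [IsProbabilityMeasure μ]
    (A : X →L[𝕜] Lp 𝕜 ∞ μ) (B : Lp 𝕜 p μ →L[𝕜] StrongDual 𝕜 (StrongDual 𝕜 X))
    (h : ∀ v, NormedSpace.inclusionInDoubleDual 𝕜 X (S v) = B (inclLp μ p (A v))) (η : ℝ)
    (hη : 0 < η) :
    ∃ (κ : Type) (_ : Fintype κ) (m : κ → ℝ) (a : κ → StrongDual 𝕜 X) (x : κ → X)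
      (S' : X →L[𝕜] X), (∀ k, 0 ≤ m k) ∧ ∑ k, m k = 1 ∧ (∀ k, ‖a k‖ ≤ ‖A‖) ∧
      (∀ f : StrongDual 𝕜 X, ∑ k, ‖f (x k)‖ ^ 2 ≤ ((‖B‖ + η) * ‖f‖) ^ 2) ∧
      (∀ v, S' v = ∑ k, ((Real.sqrt (m k) : 𝕜) * a k v) • x k) ∧
      gNorm p q (S - S') ≤ ENNReal.ofReal η := by
  classical
  set i : X →L[𝕜] Lp 𝕜 2 μ := (inclL μ (le_top : (2 : ℝ≥0∞) ≤ ∞)).comp A with hi
  set B2 : Lp 𝕜 2 μ →L[𝕜] StrongDual 𝕜 (StrongDual 𝕜 X) := B.comp (inclL μ hp2) with hB2
  have hi1 : ‖i‖ ≤ ‖A‖ := by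
    refine (ContinuousLinearMap.opNorm_comp_le _ _).trans ?_
    have := norm_inclL_le (𝕜 := 𝕜) μ (le_top : (2 : ℝ≥0∞) ≤ ∞)
    have h0 := norm_nonneg A
    nlinarith
  have hB21 : ‖B2‖ ≤ ‖B‖ := by
    refine (ContinuousLinearMap.opNorm_comp_le _ _).trans ?_
    have := norm_inclL_le (𝕜 := 𝕜) μ hp2
    have h0 := norm_nonneg B
    nlinarith
  have h' : ∀ v, NormedSpace.inclusionInDoubleDual 𝕜 X (S v) = B2 (i v) := by
    intro v; rw [h v, inclLp_eq μ hp2]; rfl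
  obtain ⟨n, x, ψ, hrep, hker⟩ := hilbert_kernel S hS i B2 h'
  set C := ∑ k, ‖x k‖ with hC
  have hC0 : 0 ≤ C := sum_nonneg fun k _ => norm_nonneg _
  set δ := η / ((1 + ‖A‖) * (1 + C)) with hδ
  have hδ0 : 0 < δ := by have := norm_nonneg A; positivity
  have hδ1 : δ * C ≤ η := by
    rw [hδ, div_mul_eq_mul_div, div_le_iff₀ (by have := norm_nonneg A; positivity)]
    have := norm_nonneg A
    nlinarith [mul_nonneg this hC0, mul_nonneg hη.le this, mul_nonneg hη.le (mul_nonneg this hC0)]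
  have hδ2 : δ * ‖A‖ * C ≤ η := by
    rw [hδ, div_mul_eq_mul_div, div_mul_eq_mul_div, div_le_iff₀ (by have := norm_nonneg A; positivity)]
    have := norm_nonneg A
    nlinarith [mul_nonneg this hC0, mul_nonneg hη.le this, mul_nonneg hη.le hC0, mul_nonneg hη.le (mul_nonneg this hC0)]
  -- simple approximation of the kernel
  have hΨ : MemLp (fun ω (k : Fin n) => (ψ k : Ω → 𝕜) ω) 2 μ := by
    rw [memLp_pi_iff]; exact fun k => Lp.memLp (ψ k)
  obtain ⟨s, hs, hsm⟩ := hΨ.exists_simpleFunc_eLpNorm_sub_lt (by norm_num)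
    (ε := ENNReal.ofReal δ) (by simpa using hδ0)
  have hsk : ∀ k, MemLp (fun ω => s ω k) 2 μ := memLp_pi_iff.mp hsm
  set σ : Fin n → Lp 𝕜 2 μ := fun k => (hsk k).toLp with hσ
  have hdiff : ∀ k, ‖ψ k - σ k‖ ≤ δ := by
    intro k
    rw [Lp.norm_def]
    refine ENNReal.toReal_le_of_le_ofReal hδ0.le (le_trans ?_ hs.le)
    have e1 : eLpNorm (ψ k - σ k : Lp 𝕜 2 μ) 2 μ = eLpNorm (fun ω => (ψ k : Ω → 𝕜) ω - s ω k) 2 μ := by
      refine eLpNorm_congr_ae ?_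
      filter_upwards [Lp.coeFn_sub (ψ k) (σ k), (hsk k).coeFn_toLp] with ω h1 h2
      rw [h1, Pi.sub_apply, hσ]; simp only; rw [h2]
    rw [e1]
    refine eLpNorm_mono fun ω => ?_
    exact norm_le_pi_norm ((fun ω (k : Fin n) => (ψ k : Ω → 𝕜) ω) ω - s ω) k
  -- the cells
  let κ : Type := {w : Fin n → 𝕜 // w ∈ s.range}
  let E : κ → Set Ω := fun w => s ⁻¹' {w.1}
  have hE : ∀ w, MeasurableSet (E w) := fun w => s.measurableSet_fiber _
  let m : κ → ℝ := fun w => μ.real (E w)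
  have hm0 : ∀ w, 0 ≤ m w := fun w => by positivity
  choose Λ hΛ1 hΛ2 using fun w : κ => exists_setInt (𝕜 := 𝕜) μ (E w) (hE w)
  let a : κ → StrongDual 𝕜 X := fun w => (((m w)⁻¹ : ℝ) : 𝕜) • (Λ w).comp A
  let y : κ → X := fun w => (Real.sqrt (m w) : 𝕜) • ∑ k, (starRingEnd 𝕜 (w.1 k)) • x k
  let S' : X →L[𝕜] X := ∑ k, ((innerSL 𝕜 (σ k)).comp i).smulRight (x k)
  have hS' : ∀ v, S' v = ∑ k, ⟪σ k, i v⟫_𝕜 • x k := by
    intro v; simp [S', _root_.sum_apply]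
  refine ⟨κ, inferInstance, m, a, y, S', hm0, ?_, ?_, ?_, ?_, ?_⟩
  · -- total mass
    have h1 := integral_partition μ s (fun _ => (1 : ℝ)) (integrable_const _)
    simp only [integral_const, smul_eq_mul, mul_one, probReal_univ, measureReal_restrict_apply_univ] at h1
    rw [← Finset.sum_coe_sort s.range (fun w => μ.real (s ⁻¹' {w}))] at h1
    exact h1.symm
  · intro w
    simp only [a]
    rw [norm_smul, RCLike.norm_ofReal, abs_of_nonneg (inv_nonneg.mpr (hm0 w))]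
    have h1 : ‖(Λ w).comp A‖ ≤ m w * ‖A‖ :=
      (ContinuousLinearMap.opNorm_comp_le _ _).trans (by gcongr; exact hΛ2 w)
    rcases (hm0 w).eq_or_lt with h0 | h0
    · rw [← h0]; simp
    · calc (m w)⁻¹ * ‖(Λ w).comp A‖ ≤ (m w)⁻¹ * (m w * ‖A‖) := by gcongr
        _ = ‖A‖ := by field_simp
  · -- the weak bound
    intro f
    set v : Lp 𝕜 2 μ := ∑ k, (starRingEnd 𝕜 (f (x k))) • σ k with hv
    have hv1 : ‖v‖ ≤ (‖B‖ + η) * ‖f‖ := by
      have h1 : v = ∑ k, (starRingEnd 𝕜 (f (x k))) • ψ k -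
          ∑ k, (starRingEnd 𝕜 (f (x k))) • (ψ k - σ k) := by
        rw [← sum_sub_distrib, hv]
        refine sum_congr rfl fun k _ => ?_
        have e0 : ψ k - (ψ k - σ k) = σ k := by abel
        rw [← smul_sub, e0]
      rw [h1]
      refine (norm_sub_le _ _).trans ?_
      have h2 : ‖∑ k, (starRingEnd 𝕜 (f (x k))) • (ψ k - σ k)‖ ≤ δ * C * ‖f‖ := by
        calc _ ≤ ∑ k, ‖(starRingEnd 𝕜 (f (x k))) • (ψ k - σ k)‖ := norm_sum_le _ _
          _ ≤ ∑ k, (‖f‖ * ‖x k‖) * δ := by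
              refine sum_le_sum fun k _ => ?_
              rw [norm_smul, RCLike.norm_conj]
              gcongr
              · exact f.le_opNorm _
              · exact hdiff k
          _ = δ * C * ‖f‖ := by rw [hC, ← sum_mul, ← mul_sum]; ring
      have h3 := hker f
      have h4 : ‖B2‖ * ‖f‖ ≤ ‖B‖ * ‖f‖ := by gcongr
      have h5 : δ * C * ‖f‖ ≤ η * ‖f‖ := by gcongr
      calc _ ≤ ‖B‖ * ‖f‖ + η * ‖f‖ := by linarith
        _ = _ := by ring
    have hv2 : ‖v‖ ^ 2 = ∑ w : κ, ‖f (y w)‖ ^ 2 := by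
      rw [hv]
      simp only [hσ]
      rw [norm_sq_simple μ s hsk (fun k => starRingEnd 𝕜 (f (x k)))]
      refine sum_congr rfl fun w _ => ?_
      simp only [y]
      rw [map_smul, norm_smul, mul_pow, RCLike.norm_ofReal, sq_abs, Real.sq_sqrt (hm0 w), map_sum]
      congr 2
      rw [← RCLike.norm_conj, map_sum]
      congr 1
      refine sum_congr rfl fun k _ => ?_
      rw [map_mul, RCLike.conj_conj, map_smul, smul_eq_mul, mul_comm]
    rw [← hv2]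
    gcongr
  · intro v
    have hσv : ∀ k, ⟪σ k, i v⟫_𝕜 = ∑ w : κ, (starRingEnd 𝕜 (w.1 k)) * Λ w (A v) := by
      intro k
      simp only [hΛ1]
      exact inner_simple μ s k (hsk k) (A v)
    rw [hS' v]
    simp only [hσv, sum_smul]
    rw [sum_comm]
    refine sum_congr rfl fun w _ => ?_
    have h1 : Λ w (A v) = (m w : 𝕜) * ((((m w)⁻¹ : ℝ) : 𝕜) * Λ w (A v)) := by
      rcases (hm0 w).eq_or_lt with h0 | h0
      · have : Λ w = 0 := by
          rw [← norm_eq_zero]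
          refine le_antisymm ((hΛ2 w).trans (le_of_eq h0.symm)) (norm_nonneg _)
        rw [this]; simp
      · have : (m w : 𝕜) ≠ 0 := by exact_mod_cast h0.ne'
        push_cast
        field_simp
    have h2 : a w v = (((m w)⁻¹ : ℝ) : 𝕜) * Λ w (A v) := rfl
    have h3 : (Real.sqrt (m w) : 𝕜) * (Real.sqrt (m w) : 𝕜) = (m w : 𝕜) := by
      rw [← RCLike.ofReal_mul, Real.mul_self_sqrt (hm0 w)]
    simp only [y]
    rw [h2, smul_smul, smul_sum]
    refine sum_congr rfl fun k _ => ?_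
    rw [smul_smul]
    congr 1
    calc (starRingEnd 𝕜 (w.1 k)) * Λ w (A v)
        = (starRingEnd 𝕜 (w.1 k)) * ((m w : 𝕜) * ((((m w)⁻¹ : ℝ) : 𝕜) * Λ w (A v))) := by rw [← h1]
      _ = _ := by rw [← h3]; ring
  · have h1 := gNorm_le_sum (p := p) (q := q) hpq hq
      (fun k => (innerSL 𝕜 (ψ k - σ k)).comp i) x (S - S') (fun v => by
        rw [_root_.sub_apply, hrep, hS', ← sum_sub_distrib]
        refine sum_congr rfl fun k _ => ?_
        rw [← sub_smul, ← inner_sub_left]; rfl)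
    refine h1.trans (ENNReal.ofReal_le_ofReal ?_)
    calc ∑ k, ‖(innerSL 𝕜 (ψ k - σ k)).comp i‖ * ‖x k‖ ≤ ∑ k, (δ * ‖A‖) * ‖x k‖ := by
          refine sum_le_sum fun k _ => ?_
          gcongr
          refine (ContinuousLinearMap.opNorm_comp_le _ _).trans ?_
          rw [innerSL_apply_norm]
          have := hdiff k
          gcongr
      _ = δ * ‖A‖ * C := by rw [← mul_sum]
      _ ≤ η := hδ2

end MP6f
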