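import Mathlib
import Pool.Agent.Lib.MP_6f6997_an.TwoRep
import Pool.Agent.Lib.MP_6f6997_an.HighWeak

/-!
# Discretisation of operators which factor through `L_∞(μ) → L_p(μ)` on finitely many vectors
-/

open MeasureTheory ENNReal Finset

set_option maxSynthPendingDepth 3

noncomputable section

namespace MP6f

variable {𝕜 : Type} [RCLike 𝕜]

/-- bounded measurable maps into `𝕜^d` are uniform limits of simple functions -/
lemma exists_simple_near {Ω : Type} [MeasurableSpace Ω] {d : ℕ} (Φ : Ω → (Fin d → 𝕜))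
    (hΦ : Measurable Φ) (C δ : ℝ) (hδ : 0 < δ) :
    ∃ s : SimpleFunc Ω (Fin d → 𝕜), ∀ ω, ‖Φ ω‖ ≤ C → ‖s ω - Φ ω‖ ≤ δ := by
  let e : ℕ → (Fin d → 𝕜) := TopologicalSpace.denseSeq (Fin d → 𝕜)
  have hcov : Metric.closedBall (0 : Fin d → 𝕜) C ⊆ ⋃ k, Metric.ball (e k) δ := by
    intro u _
    obtain ⟨k, hk⟩ := (TopologicalSpace.denseRange_denseSeq (Fin d → 𝕜)).exists_dist_lt u hδ
    exact Set.mem_iUnion.mpr ⟨k, hk⟩
  obtain ⟨t, ht⟩ := (isCompact_closedBall (0 : Fin d → 𝕜) C).elim_finite_subcover _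
    (fun k => Metric.isOpen_ball) hcov
  set N := t.sup id with hN
  refine ⟨(SimpleFunc.nearestPt e N).comp Φ hΦ, fun ω hω => ?_⟩
  have h1 := ht (mem_closedBall_zero_iff.mpr hω)
  simp only [Set.mem_iUnion] at h1
  obtain ⟨k, hk, hk2⟩ := h1
  have h2 : k ≤ N := le_sup (f := id) hk
  have h3 := SimpleFunc.edist_nearestPt_le e (Φ ω) h2
  rw [edist_dist, edist_dist, ENNReal.ofReal_le_ofReal_iff dist_nonneg] at h3
  rw [← dist_eq_norm]
  refine h3.trans ?_
  rw [dist_comm]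
  exact (Metric.mem_ball.mp hk2).le

section cells
variable {Ω : Type} [MeasurableSpace Ω] (μ : Measure Ω) [IsProbabilityMeasure μ] {d : ℕ}
  (s : SimpleFunc Ω (Fin d → 𝕜)) (p : ℝ≥0∞)

/-- indicator functions of the cells -/
def chiC (w : {w // w ∈ s.range}) : Lp 𝕜 p μ :=
  (SimpleFunc.memLp_of_isFiniteMeasure (s.map (fun u => if u = w.1 then (1 : 𝕜) else 0)) p μ).toLp

lemma chiC_ae (w : {w // w ∈ s.range}) :
    ∀ᵐ ω ∂μ, (chiC μ s p w : Ω → 𝕜) ω = if s ω = w.1 then 1 else 0 := by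
  filter_upwards [(SimpleFunc.memLp_of_isFiniteMeasure (s.map (fun u => if u = w.1 then (1 : 𝕜) else 0))
    p μ).coeFn_toLp] with ω h
  unfold chiC
  rw [h]; rfl

variable [Fact (1 ≤ p)]

omit [Fact (1 ≤ p)] in
lemma sum_chiC_ae (c : {w // w ∈ s.range} → 𝕜) :
    ∀ᵐ ω ∂μ, ((∑ w, c w • chiC μ s p w : Lp 𝕜 p μ) : Ω → 𝕜) ω =
      ∑ w, c w * (if s ω = w.1 then 1 else 0) := by
  have h1 := Lp.coeFn_finsetSum (E := 𝕜) (p := p) (μ := μ) univ (fun w => c w • chiC μ s p w)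
  have h2 : ∀ w, ∀ᵐ ω ∂μ, ((c w • chiC μ s p w : Lp 𝕜 p μ) : Ω → 𝕜) ω =
      c w * (if s ω = w.1 then 1 else 0) := by
    intro w
    filter_upwards [Lp.coeFn_smul (c w) (chiC μ s p w), chiC_ae μ s p w] with ω h1 h2
    rw [h1, Pi.smul_apply, smul_eq_mul, h2]
  filter_upwards [h1, ae_all_iff.mpr h2] with ω h1 h2
  rw [h1, Finset.sum_apply]
  exact sum_congr rfl fun w _ => h2 w

lemma sum_ite_cell (c : {w // w ∈ s.range} → 𝕜) (w : {w // w ∈ s.range}) (u : Fin d → 𝕜)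
    (hu : u = w.1) : ∑ w', c w' * (if u = w'.1 then 1 else 0) = c w := by
  rw [Finset.sum_eq_single w]
  · rw [if_pos hu, mul_one]
  · intro w' _ hw'
    rw [if_neg, mul_zero]
    intro h
    exact hw' (Subtype.ext (h.symm.trans hu))
  · intro h; exact absurd (mem_univ w) h

/-- norm of a function which is constant on the cells -/
lemma norm_sum_chiC_le {q : ℝ≥0∞} [Fact (1 ≤ q)] (hpq : p.HolderConjugate q) (hq : q ≠ ∞)
    (c : {w // w ∈ s.range} → 𝕜) (σ : {w // w ∈ s.range} → ℝ) (hσ : ∀ w, 0 ≤ σ w)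
    (hc : ∀ w, ‖c w‖ * μ.real (s ⁻¹' {w.1}) ^ (1 - 1 / q.toReal) ≤ σ w ^ (q.toReal - 1))
    (hc0 : q.toReal = 1 → ∀ w, ‖c w‖ ≤ 1) :
    ‖∑ w, c w • chiC μ s p w‖ ≤ (∑ w, σ w ^ q.toReal) ^ (1 - 1 / q.toReal) := by
  have hr := toReal_pos_of (Fact.out : 1 ≤ q) hq
  by_cases hp : p = ∞
  · subst hp
    have hqe : q = 1 := by
      have := hpq.inv_add_inv_eq_one
      simpa using this
    subst hqe
    simp only [ENNReal.toReal_one, div_one, sub_self, Real.rpow_zero]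
    have h1 : ∀ᵐ ω ∂μ, ‖((∑ w, c w • chiC μ s ∞ w : Lp 𝕜 ∞ μ) : Ω → 𝕜) ω‖ ≤ 1 := by
      filter_upwards [sum_chiC_ae μ s ∞ c] with ω hω
      rw [hω, sum_ite_cell s c ⟨s ω, SimpleFunc.mem_range_self s ω⟩ (s ω) rfl]
      exact hc0 (by simp) _
    have h2 := Lp.norm_le_of_ae_bound zero_le_one h1
    simpa using h2
  · have hp0 := toReal_pos_of (Fact.out : 1 ≤ p) hp
    have hcj := ENNReal.HolderConjugate.toReal_of_ne_top hp hq
    have e1 : 1 - 1 / q.toReal = 1 / p.toReal := by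
      have := hcj.inv_add_inv_eq_one
      rw [one_div, one_div]; linarith
    have e2 : (q.toReal - 1) * p.toReal = q.toReal := hcj.symm.sub_one_mul_conj
    rw [e1] at hc ⊢
    rw [Lp.norm_def, MemLp.eLpNorm_eq_integral_rpow_norm (by
      intro h; rw [h] at hp0; simp at hp0) hp (Lp.memLp _), ENNReal.toReal_ofReal
      (Real.rpow_nonneg (integral_nonneg fun ω => by positivity) _), ← one_div]
    refine Real.rpow_le_rpow (integral_nonneg fun ω => by positivity) ?_ (by positivity)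
    have h3 : ∫ ω, ‖((∑ w, c w • chiC μ s p w : Lp 𝕜 p μ) : Ω → 𝕜) ω‖ ^ p.toReal ∂μ =
        ∫ ω, (fun u : Fin d → 𝕜 => ‖∑ w : {w // w ∈ s.range}, c w * (if u = w.1 then 1 else 0)‖ ^
          p.toReal) (s ω) ∂μ := by
      refine integral_congr_ae ?_
      filter_upwards [sum_chiC_ae μ s p c] with ω hω
      rw [hω]
    rw [h3, integral_simple μ s (fun u : Fin d → 𝕜 =>
      ‖∑ w : {w // w ∈ s.range}, c w * (if u = w.1 then 1 else 0)‖ ^ p.toReal)]
    refine sum_le_sum fun w _ => ?_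
    rw [sum_ite_cell s c w w.1 rfl]
    have hm : 0 ≤ μ.real (s ⁻¹' {w.1}) := by positivity
    calc μ.real (s ⁻¹' {w.1}) * ‖c w‖ ^ p.toReal
        = (‖c w‖ * μ.real (s ⁻¹' {w.1}) ^ (1 / p.toReal)) ^ p.toReal := by
          rw [Real.mul_rpow (norm_nonneg _) (Real.rpow_nonneg hm _), ← Real.rpow_mul hm,
            one_div_mul_cancel hp0.ne', Real.rpow_one, mul_comm]
      _ ≤ (σ w ^ (q.toReal - 1)) ^ p.toReal := by
          have := norm_nonneg (c w)
          have h5 := Real.rpow_nonneg hm (1 / p.toReal)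
          gcongr
          exact hc w
      _ = σ w ^ q.toReal := by rw [← Real.rpow_mul (hσ w), e2]

end cells

/-- discretisation -/
lemma exists_cells {p q : ℝ≥0∞} [Fact (1 ≤ p)] [Fact (1 ≤ q)] (hpq : p.HolderConjugate q)
    (hq : q ≠ ∞) {X : Type} [NormedAddCommGroup X] [NormedSpace 𝕜 X]
    {Z : Type} [NormedAddCommGroup Z] [NormedSpace 𝕜 Z]
    {Ω : Type} [MeasurableSpace Ω] (μ : Measure Ω) [IsProbabilityMeasure μ]
    (A : X →L[𝕜] Lp 𝕜 ∞ μ) (B : Lp 𝕜 p μ →L[𝕜] Z) {d : ℕ} (v : Fin d → X) (ε : ℝ) (hε : 0 < ε) :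
    ∃ (κ : Type) (_ : Fintype κ) (m : κ → ℝ) (a : κ → StrongDual 𝕜 X) (x : κ → Z),
      (∀ k, 0 ≤ m k) ∧ ∑ k, m k ≤ 1 ∧ (∀ k, ‖a k‖ ≤ ‖A‖) ∧
      (∀ f : StrongDual 𝕜 Z, ∑ k, ‖f (x k)‖ ^ q.toReal ≤ (‖B‖ * ‖f‖) ^ q.toReal) ∧
      ∀ l, ‖∑ k, (((m k ^ (1 - 1 / q.toReal) : ℝ) : 𝕜) * a k (v l)) • x k -
        B (inclLp μ p (A (v l)))‖ ≤ ε := by
  classical
  have hr := toReal_pos_of (Fact.out : 1 ≤ q) hq
  have hr1 : 1 ≤ q.toReal := by
    rw [← ENNReal.toReal_one]; exact ENNReal.toReal_mono hq Fact.out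
  -- the map `Φ`
  let Φ : Ω → (Fin d → 𝕜) := fun ω l => (A (v l) : Ω → 𝕜) ω
  have hΦ : Measurable Φ := measurable_pi_iff.mpr fun l => (Lp.stronglyMeasurable (A (v l))).measurable
  set C := ∑ l, ‖A (v l)‖ with hC
  have hbd : ∀ᵐ ω ∂μ, ‖Φ ω‖ ≤ C := by
    have h1 : ∀ l, ∀ᵐ ω ∂μ, ‖(A (v l) : Ω → 𝕜) ω‖ ≤ ‖A (v l)‖ := by
      intro l
      have h2 := ae_le_eLpNormEssSup (f := (A (v l) : Ω → 𝕜)) (μ := μ)
      filter_upwards [h2] with ω hω
      rw [Lp.norm_def, eLpNorm_exponent_top]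
      rw [← toReal_enorm]
      refine ENNReal.toReal_mono ?_ hω
      have := Lp.eLpNorm_ne_top (A (v l))
      rwa [eLpNorm_exponent_top] at this
    filter_upwards [ae_all_iff.mpr h1] with ω hω
    rw [pi_norm_le_iff_of_nonneg (sum_nonneg fun l _ => norm_nonneg _)]
    intro l
    exact (hω l).trans (single_le_sum (f := fun l => ‖A (v l)‖) (fun l _ => norm_nonneg _) (mem_univ l))
  set δ := ε / (2 * (‖B‖ + 1)) with hδ
  have hδ0 : 0 < δ := by have := norm_nonneg B; positivity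
  obtain ⟨s, hs⟩ := exists_simple_near Φ hΦ C δ hδ0
  -- the cells
  let κ : Type := {w : Fin d → 𝕜 // w ∈ s.range}
  let E : κ → Set Ω := fun w => s ⁻¹' {w.1}
  have hE : ∀ w, MeasurableSet (E w) := fun w => s.measurableSet_fiber _
  let m : κ → ℝ := fun w => μ.real (E w)
  have hm0 : ∀ w, 0 ≤ m w := fun w => by positivity
  have hmass : ∑ w, m w = 1 := by
    have h1 := integral_partition μ s (fun _ => (1 : ℝ)) (integrable_const _)
    simp only [integral_const, smul_eq_mul, mul_one, probReal_univ, measureReal_restrict_apply_univ] at h1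
    rw [← Finset.sum_coe_sort s.range (fun w => μ.real (s ⁻¹' {w}))] at h1
    exact h1.symm
  have hm1 : ∀ w, m w ≤ 1 := fun w => by
    rw [← hmass]; exact single_le_sum (f := m) (fun w _ => hm0 w) (mem_univ w)
  choose Λ hΛ1 hΛ2 using fun w : κ => exists_setInt (𝕜 := 𝕜) μ (E w) (hE w)
  let a : κ → StrongDual 𝕜 X := fun w => (((m w)⁻¹ : ℝ) : 𝕜) • (Λ w).comp A
  let x : κ → Z := fun w => (((m w ^ (-(1 - 1 / q.toReal)) : ℝ)) : 𝕜) • B (chiC μ s p w)
  have hnull : ∀ w, m w = 0 → ∀ᵐ ω ∂μ, ω ∉ E w := by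
    intro w hw
    exact measure_eq_zero_iff_ae_notMem.mp ((measureReal_eq_zero_iff).mp hw)
  have hχ0 : ∀ w, m w = 0 → chiC μ s p w = 0 := by
    intro w hw
    rw [Lp.eq_zero_iff_ae_eq_zero]
    have h1 : ∀ᵐ ω ∂μ, ω ∉ E w := hnull w hw
    filter_upwards [chiC_ae μ s p w, h1] with ω h2 h3
    rw [h2, if_neg]; rfl
    exact h3
  refine ⟨κ, inferInstance, m, a, x, hm0, hmass.le, fun w => ?_, fun f => ?_, fun l => ?_⟩
  · simp only [a]
    rw [norm_smul, RCLike.norm_ofReal, abs_of_nonneg (inv_nonneg.mpr (hm0 w))]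
    have h1 : ‖(Λ w).comp A‖ ≤ m w * ‖A‖ :=
      (ContinuousLinearMap.opNorm_comp_le _ _).trans (by gcongr; exact hΛ2 w)
    rcases (hm0 w).eq_or_lt with h0 | h0
    · rw [← h0]; simp
    · calc (m w)⁻¹ * ‖(Λ w).comp A‖ ≤ (m w)⁻¹ * (m w * ‖A‖) := by gcongr
        _ = ‖A‖ := by field_simp
  · refine weak_of_dual x hr1 (norm_nonneg B) (fun σ c hσ hc => ?_) f
    have h1 : ∑ w, c w • x w = B (∑ w, (c w * ((m w ^ (-(1 - 1 / q.toReal)) : ℝ) : 𝕜)) • chiC μ s p w) := by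
      rw [map_sum]
      refine sum_congr rfl fun w _ => ?_
      simp only [x]
      rw [map_smul, smul_smul]
    rw [h1]
    refine (B.le_opNorm _).trans ?_
    refine mul_le_mul_of_nonneg_left ?_ (norm_nonneg B)
    refine norm_sum_chiC_le μ s p hpq hq _ σ hσ (fun w => ?_) (fun h1 w => ?_)
    · have h0 : 0 ≤ m w ^ (-(1 - 1 / q.toReal)) := Real.rpow_nonneg (hm0 w) _
      rw [norm_mul, RCLike.norm_ofReal, abs_of_nonneg h0, mul_assoc]
      have h2 : m w ^ (-(1 - 1 / q.toReal)) * m w ^ (1 - 1 / q.toReal) ≤ 1 := by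
        rcases (hm0 w).eq_or_lt with h3 | h3
        · rw [← h3]
          by_cases h4 : 1 - 1 / q.toReal = 0
          · rw [h4]; simp
          · rw [Real.zero_rpow h4]; simp
        · rw [← Real.rpow_add h3]; simp
      calc ‖c w‖ * (m w ^ (-(1 - 1 / q.toReal)) * m w ^ (1 - 1 / q.toReal)) ≤ ‖c w‖ * 1 := by gcongr
        _ ≤ σ w ^ (q.toReal - 1) := by rw [mul_one]; exact hc w
    · have h2 := hc w
      rw [h1] at h2 ⊢
      simp only [sub_self, Real.rpow_zero] at h2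
      simp only [div_one, sub_self, neg_zero, Real.rpow_zero, RCLike.ofReal_one, mul_one]
      exact h2
  · -- the approximation
    set g := A (v l) with hg
    have h1 : ∀ w, (((m w ^ (1 - 1 / q.toReal) : ℝ) : 𝕜) * a w (v l)) • x w =
        B (((((m w)⁻¹ : ℝ) : 𝕜) * Λ w g) • chiC μ s p w) := by
      intro w
      simp only [x, a]
      rw [smul_smul, map_smul]
      rcases (hm0 w).eq_or_lt with h3 | h3
      · rw [hχ0 w h3.symm]; simp
      · congr 1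
        have h4 : ((m w ^ (1 - 1 / q.toReal) : ℝ) : 𝕜) * ((m w ^ (-(1 - 1 / q.toReal)) : ℝ) : 𝕜) = 1 := by
          rw [← RCLike.ofReal_mul, ← Real.rpow_add h3]; simp
        have h5 : ((((m w)⁻¹ : ℝ) : 𝕜) • (Λ w).comp A) (v l) = (((m w)⁻¹ : ℝ) : 𝕜) * Λ w g := rfl
        rw [h5]
        linear_combination ((((m w)⁻¹ : ℝ) : 𝕜) * Λ w g) * h4
    simp only [h1]
    rw [← map_sum, ← map_sub]
    refine (B.le_opNorm _).trans ?_
    have h2 : ‖∑ w, ((((m w)⁻¹ : ℝ) : 𝕜) * Λ w g) • chiC μ s p w - inclLp μ p g‖ ≤ 2 * δ := by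
      have h3 : ∀ᵐ ω ∂μ, ‖((∑ w, ((((m w)⁻¹ : ℝ) : 𝕜) * Λ w g) • chiC μ s p w - inclLp μ p g :
          Lp 𝕜 p μ) : Ω → 𝕜) ω‖ ≤ 2 * δ := by
        have hn : ∀ᵐ ω ∂μ, ∀ w : κ, m w = 0 → ω ∉ E w := by
          refine ae_all_iff.mpr fun w => ?_
          by_cases hw : m w = 0
          · filter_upwards [hnull w hw] with ω h _
            exact h
          · exact Filter.Eventually.of_forall fun ω h => absurd h hw
        have hΛc : ∀ w : κ, m w ≠ 0 → ‖(((m w)⁻¹ : ℝ) : 𝕜) * Λ w g - w.1 l‖ ≤ δ := by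
          intro w hw
          have hw0 : 0 < m w := lt_of_le_of_ne (hm0 w) (Ne.symm hw)
          have hint : Integrable (g : Ω → 𝕜) μ := (Lp.memLp g).integrable le_top
          have e1 : ∫ ω in E w, ((g : Ω → 𝕜) ω - w.1 l) ∂μ = Λ w g - (m w : 𝕜) * w.1 l := by
            rw [integral_sub hint.integrableOn (integrable_const _), hΛ1, setIntegral_const,
              RCLike.real_smul_eq_coe_mul]
          have e2 : ‖∫ ω in E w, ((g : Ω → 𝕜) ω - w.1 l) ∂μ‖ ≤ δ * m w := by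
            refine norm_setIntegral_le_of_norm_le_const_ae' (measure_lt_top μ _) ?_
            filter_upwards [hbd] with ω h1 h2
            have h3 := hs ω h1
            have h4 : s ω = w.1 := h2
            rw [norm_sub_rev]
            rw [h4] at h3
            exact (norm_le_pi_norm (w.1 - Φ ω) l).trans h3
          rw [e1] at e2
          have e3 : (((m w)⁻¹ : ℝ) : 𝕜) * Λ w g - w.1 l =
              (((m w)⁻¹ : ℝ) : 𝕜) * (Λ w g - (m w : 𝕜) * w.1 l) := by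
            have : (m w : 𝕜) ≠ 0 := by exact_mod_cast hw
            push_cast
            field_simp
          rw [e3, norm_mul, RCLike.norm_ofReal, abs_of_pos (inv_pos.mpr hw0)]
          calc (m w)⁻¹ * _ ≤ (m w)⁻¹ * (δ * m w) := by gcongr
            _ = δ := by field_simp
        filter_upwards [Lp.coeFn_sub (∑ w, ((((m w)⁻¹ : ℝ) : 𝕜) * Λ w g) • chiC μ s p w)
          (inclLp μ p g), sum_chiC_ae μ s p (fun w => (((m w)⁻¹ : ℝ) : 𝕜) * Λ w g), hn, hbd]
          with ω h1 h2 h3 h4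
        rw [h1, Pi.sub_apply, h2, sum_ite_cell s _ ⟨s ω, SimpleFunc.mem_range_self s ω⟩ (s ω) rfl]
        have h5 := hΛc ⟨s ω, SimpleFunc.mem_range_self s ω⟩ (fun h => h3 _ h rfl)
        have h6 : ‖s ω l - (g : Ω → 𝕜) ω‖ ≤ δ := (norm_le_pi_norm (s ω - Φ ω) l).trans (hs ω h4)
        have h7 : ((inclLp μ p g : Lp 𝕜 p μ) : Ω → 𝕜) ω = (g : Ω → 𝕜) ω := rfl
        rw [h7]
        calc _ = ‖((((m ⟨s ω, SimpleFunc.mem_range_self s ω⟩)⁻¹ : ℝ) : 𝕜) *
              Λ ⟨s ω, SimpleFunc.mem_range_self s ω⟩ g - s ω l) + (s ω l - (g : Ω → 𝕜) ω)‖ := by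
              congr 1; abel
          _ ≤ δ + δ := (norm_add_le _ _).trans (add_le_add h5 h6)
          _ = 2 * δ := by ring
      have h4 := Lp.norm_le_of_ae_bound (by positivity) h3
      have h5 : measureUnivNNReal μ = 1 := by
        simp [measureUnivNNReal]
      rw [h5] at h4
      simpa using h4
    calc ‖B‖ * _ ≤ ‖B‖ * (2 * δ) := by gcongr
      _ ≤ ε := by
        rw [hδ]
        have := norm_nonneg B
        have h5 : ‖B‖ * (2 * (ε / (2 * (‖B‖ + 1)))) = ε * (‖B‖ / (‖B‖ + 1)) := by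
          field_simp
        rw [h5]
        have h6 : ‖B‖ / (‖B‖ + 1) ≤ 1 := by
          rw [div_le_one (by linarith)]; linarith
        nlinarith

end MP6f
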