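import Mathlib

/-!
# Definitions for MP_6f6997_an (inner versus outer inequality, BAP of order p)

The scalar field `𝕜` is `ℝ` or `ℂ`.  Exponents are `p q : ℝ≥0∞` (so `p = ∞` is allowed); `q` is the
conjugate index of `p`.
-/

open MeasureTheory ENNReal

set_option maxSynthPendingDepth 3

noncomputable section

namespace BapOrd

variable (𝕜 : Type) [RCLike 𝕜]

/-- The `ℓ_p` norm of a finite sequence of scalars (`p = ∞`: the maximum). -/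
def lpN (p : ℝ≥0∞) {n : ℕ} (a : Fin n → 𝕜) : ℝ :=
  ‖(WithLp.toLp p a : PiLp p fun _ : Fin n => 𝕜)‖

section spaces
variable (Y X : Type) [NormedAddCommGroup Y] [NormedSpace 𝕜 Y]
  [NormedAddCommGroup X] [NormedSpace 𝕜 X]

/-- The space of bounded linear operators `Y → X`. -/
def Op : Type := Y →L[𝕜] X

/-- The operator norm. -/
instance instOpNormed : NormedAddCommGroup (Op 𝕜 Y X) :=
  ContinuousLinearMap.toNormedAddCommGroup (σ₁₂ := RingHom.id 𝕜)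

instance instOpSpace : NormedSpace 𝕜 (Op 𝕜 Y X) :=
  ContinuousLinearMap.toNormedSpace (σ₁₂ := RingHom.id 𝕜)

/-- The value `T y`. -/
instance instOpFun : FunLike (Op 𝕜 Y X) Y X :=
  ContinuousLinearMap.funLike (σ₁₂ := RingHom.id 𝕜)

/-- The dual space `X*`. -/
def Du : Type := Op 𝕜 X 𝕜

/-- The dual norm. -/
instance instDuNormed : NormedAddCommGroup (Du 𝕜 X) := instOpNormed 𝕜 X 𝕜

instance instDuSpace : NormedSpace 𝕜 (Du 𝕜 X) := instOpSpace 𝕜 X 𝕜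

/-- The value `f x`. -/
instance instDuFun : FunLike (Du 𝕜 X) X 𝕜 := instOpFun 𝕜 X 𝕜

/-- The bidual space `X**`. -/
def Bi : Type := Du 𝕜 (Du 𝕜 X)

/-- The norm of the bidual. -/
instance instBiNormed : NormedAddCommGroup (Bi 𝕜 X) := instDuNormed 𝕜 (Du 𝕜 X)

instance instBiSpace : NormedSpace 𝕜 (Bi 𝕜 X) := instDuSpace 𝕜 (Du 𝕜 X)

/-- The value of an element of `X**` at an element of `X*`. -/
instance instBiFun : FunLike (Bi 𝕜 X) (Du 𝕜 X) 𝕜 := instDuFun 𝕜 (Du 𝕜 X)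

end spaces

section Lspaces
variable {Ω : Type} [MeasurableSpace Ω] (μ : Measure Ω) (p : ℝ≥0∞)

/-- The Banach space `L_p(μ)` of scalar functions. -/
def LSp : Type := Lp 𝕜 p μ

instance instLNormed [Fact (1 ≤ p)] : NormedAddCommGroup (LSp 𝕜 μ p) := Lp.instNormedAddCommGroup

instance instLSpace [Fact (1 ≤ p)] : NormedSpace 𝕜 (LSp 𝕜 μ p) := Lp.instNormedSpace

/-- The formal inclusion `i : L_∞(μ) → L_p(μ)` for a probability measure `μ`. -/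
def incl [IsProbabilityMeasure μ] (f : LSp 𝕜 μ ∞) : LSp 𝕜 μ p :=
  ⟨f.1, Lp.antitone le_top f.2⟩

end Lspaces

variable {𝕜} {Y X : Type} [NormedAddCommGroup Y] [NormedSpace 𝕜 Y]
  [NormedAddCommGroup X] [NormedSpace 𝕜 X]

/-- The strong norm `‖(y_k^*)‖_p = ‖(‖y_k^*‖)_k‖_{ℓ_p}`. -/
def strongNorm (p : ℝ≥0∞) {n : ℕ} (y : Fin n → Du 𝕜 Y) : ℝ :=
  lpN ℝ p fun k => ‖y k‖

/-- The weak norm `‖(x_k)‖^w_q = sup_{‖x^*‖ ≤ 1} ‖(x^*(x_k))_k‖_{ℓ_q}`. -/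
def weakNorm (𝕜 : Type) [RCLike 𝕜] [NormedSpace 𝕜 X] (q : ℝ≥0∞) {n : ℕ} (x : Fin n → X) : ℝ :=
  ⨆ f : {f : Du 𝕜 X // ‖f‖ ≤ 1}, lpN 𝕜 q fun k => f.1 (x k)

/-- The operator `T` has finite rank: its range spans a finite dimensional space. -/
def FinRank (T : Op 𝕜 Y X) : Prop := FiniteDimensional 𝕜 (Submodule.span 𝕜 (Set.range T))

/-- `T = ∑_{k<n} y_k^* ⊗ x_k`. -/
def IsRep (T : Op 𝕜 Y X) {n : ℕ} (y : Fin n → Du 𝕜 Y) (x : Fin n → X) : Prop :=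
  ∀ v : Y, T v = ∑ k, y k v • x k

/-- The Chevet–Saphar norm `‖T‖_{g_p}` (`q` is the conjugate index of `p`): the infimum of
`‖(y_k^*)‖_p ‖(x_k)‖^w_q` over all representations `T = ∑_{k<n} y_k^* ⊗ x_k`. -/
def gNorm (p q : ℝ≥0∞) (T : Op 𝕜 Y X) : ℝ≥0∞ :=
  ⨅ (n : ℕ) (y : Fin n → Du 𝕜 Y) (x : Fin n → X) (_ : IsRep T y x),
    ENNReal.ofReal (strongNorm p y * weakNorm 𝕜 q x)

section fact
variable {p : ℝ≥0∞} [Fact (1 ≤ p)] {Ω : Type} [MeasurableSpace Ω] {μ : Measure Ω}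

/-- The equation `j_X T = B i A` for `A : Y → L_∞(μ)`, the formal inclusion
`i : L_∞(μ) → L_p(μ)` and `B : L_p(μ) → X**`; it says `(B i A y)(f) = f(T y)` for all `y` in `Y`
and all `f` in `X*`. -/
def IsFact [IsProbabilityMeasure μ] (T : Op 𝕜 Y X) (A : Op 𝕜 Y (LSp 𝕜 μ ∞))
    (B : Op 𝕜 (LSp 𝕜 μ p) (Bi 𝕜 X)) : Prop :=
  ∀ (y : Y) (f : Du 𝕜 X), B (incl 𝕜 μ p (A y)) f = f (T y)

end fact

/-- The `p`-integral norm `‖T‖_{I_p}`: the infimum of `‖A‖ ‖B‖` over all factorisations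
`j_X T = B i A` with `μ` a probability measure (`∞` if there is no such factorisation). -/
def iNorm (p : ℝ≥0∞) [Fact (1 ≤ p)] (T : Op 𝕜 Y X) : ℝ≥0∞ :=
  ⨅ (Ω : Type) (_ : MeasurableSpace Ω) (μ : Measure Ω) (_ : IsProbabilityMeasure μ)
    (A : Op 𝕜 Y (LSp 𝕜 μ ∞)) (B : Op 𝕜 (LSp 𝕜 μ p) (Bi 𝕜 X)) (_ : IsFact T A B),
    ENNReal.ofReal (‖A‖ * ‖B‖)

/-- The inner inequality for `(g_p, I_p, lam)`. -/
def Inner (𝕜 : Type) [RCLike 𝕜] (p q : ℝ≥0∞) [Fact (1 ≤ p)] (lam : ℝ) (X : Type)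
    [NormedAddCommGroup X] [NormedSpace 𝕜 X] : Prop :=
  ∀ S : Op 𝕜 X X, FinRank S → gNorm p q S ≤ ENNReal.ofReal lam * iNorm p S

/-- The `lam`-bounded approximation property of order `p`, i.e. the outer inequality for
`(g_p, I_p, lam)`. -/
def BAPp (𝕜 : Type) [RCLike 𝕜] (p q : ℝ≥0∞) [Fact (1 ≤ p)] (lam : ℝ) (X : Type)
    [NormedAddCommGroup X] [NormedSpace 𝕜 X] : Prop :=
  ∀ (Y : Type) [NormedAddCommGroup Y] [NormedSpace 𝕜 Y] [CompleteSpace Y] (T : Op 𝕜 Y X),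
    FinRank T → gNorm p q T ≤ ENNReal.ofReal lam * iNorm p T

end BapOrd
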