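import Mathlib
import Pool.Agent.Lib.MP_6f6997_an.Chain

/-!
# The algebraic model for `p < 2`

`bf h` are linear functionals on the sequences `(x_n)`, `x_n ∈ ℝ^(Q n)`, and `PhiV g` are vectors.
-/

open Finset

noncomputable section

namespace MP6f

abbrev Idx : Type := Σ n : ℕ, G n

def bf (h : Idx) : (∀ n, Q n → ℝ) →ₗ[ℝ] ℝ where
  toFun x := ∑ z, vm h.1 h.2 z * x h.1 z + ∑ z, um h.1 h.2 z * x (h.1 + 1) z
  map_add' x y := by
    simp only [Pi.add_apply, mul_add, sum_add_distrib]; ring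
  map_smul' c x := by
    simp only [Pi.smul_apply, smul_eq_mul, RingHom.id_apply, mul_add, mul_sum]
    congr 1 <;> exact sum_congr rfl fun z _ => by ring

lemma bf_apply (h : Idx) (x : ∀ n, Q n → ℝ) :
    bf h x = ∑ z, vm h.1 h.2 z * x h.1 z + ∑ z, um h.1 h.2 z * x (h.1 + 1) z := rfl

def PhiV (g : Idx) : ∀ n, Q n → ℝ :=
  (Pi.single (g.1 + 1) (um g.1 g.2) : ∀ n, Q n → ℝ) -
    (2 : ℝ) • (Pi.single g.1 (vm g.1 g.2) : ∀ n, Q n → ℝ)

def Zm (h g : Idx) : ℝ := bf h (PhiV g)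

lemma bf_single_same (n : ℕ) (h : G n) (w : Q n → ℝ) :
    bf ⟨n, h⟩ (Pi.single n w) = ∑ z, vm n h z * w z := by
  rw [bf_apply]
  simp [Pi.single_eq_same]

lemma bf_single_succ (n : ℕ) (h : G n) (w : Q (n + 1) → ℝ) :
    bf ⟨n, h⟩ (Pi.single (n + 1) w) = ∑ z, um n h z * w z := by
  rw [bf_apply]
  simp

lemma bf_single_ne (n m : ℕ) (h : G n) (w : Q m → ℝ) (h1 : m ≠ n) (h2 : m ≠ n + 1) :
    bf ⟨n, h⟩ (Pi.single m w) = 0 := by
  rw [bf_apply]
  have h3 : (Pi.single m w : ∀ n, Q n → ℝ) n = 0 := Pi.single_eq_of_ne (Ne.symm h1) _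
  have h4 : (Pi.single m w : ∀ n, Q n → ℝ) (n + 1) = 0 := Pi.single_eq_of_ne (Ne.symm h2) _
  simp [h3, h4]

lemma Zm_eq (h g : Idx) : Zm h g = bf h (Pi.single (g.1 + 1) (um g.1 g.2)) -
    2 * bf h (Pi.single g.1 (vm g.1 g.2)) := by
  unfold Zm PhiV; rw [map_sub, map_smul, smul_eq_mul]

lemma Zm_same (n : ℕ) (h g : G n) : Zm ⟨n, h⟩ ⟨n, g⟩ = -Dm n h g := by
  rw [Zm_eq]
  simp only
  rw [bf_single_succ, bf_single_same, uuT, vvT']; ring

lemma Zm_up (n : ℕ) (h : G n) (g : G (n + 1)) : Zm ⟨n, h⟩ ⟨n + 1, g⟩ = -2 * Rm n h g := by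
  rw [Zm_eq]
  simp only
  rw [bf_single_succ, bf_single_ne n (n + 1 + 1) h _ (by omega) (by omega)]
  unfold Rm; ring

lemma Zm_down (n : ℕ) (h : G (n + 1)) (g : G n) : Zm ⟨n + 1, h⟩ ⟨n, g⟩ = Rm n g h := by
  rw [Zm_eq]
  simp only
  rw [bf_single_same, bf_single_ne (n + 1) n h _ (by omega) (by omega)]
  unfold Rm
  rw [mul_zero, sub_zero]
  exact sum_congr rfl fun z _ => mul_comm _ _

lemma Zm_far (n m : ℕ) (h : G n) (g : G m) (h1 : m ≠ n) (h2 : m ≠ n + 1) (h3 : m + 1 ≠ n) :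
    Zm ⟨n, h⟩ ⟨m, g⟩ = 0 := by
  rw [Zm_eq]
  simp only
  rw [bf_single_ne n m h _ h1 h2, bf_single_ne n (m + 1) h _ h3 (by omega)]; ring

lemma single_sum_smul {ι : Type*} (t : Finset ι) (n : ℕ) (c : ι → ℝ) (w : ι → Q n → ℝ) :
    (Pi.single n (∑ g ∈ t, c g • w g) : ∀ n, Q n → ℝ) =
      ∑ g ∈ t, c g • (Pi.single n (w g) : ∀ n, Q n → ℝ) :=
  (map_sum (LinearMap.single ℝ (fun n => Q n → ℝ) n) (fun g => c g • w g) t).trans
    (sum_congr rfl fun g _ => map_smul (LinearMap.single ℝ (fun n => Q n → ℝ) n) (c g) (w g))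

/-- reproducing formula for the upper coordinates -/
lemma sum_um_PhiV (n : ℕ) (z : Q (n + 1)) :
    ∑ g : G n, um n g z • PhiV ⟨n, g⟩ = Pi.single (n + 1) (Pi.single z 1) := by
  have h1 : ∑ g : G n, um n g z • PhiV ⟨n, g⟩ =
      (Pi.single (n + 1) (∑ g : G n, um n g z • um n g) : ∀ n, Q n → ℝ) -
        (2 : ℝ) • (Pi.single n (∑ g : G n, um n g z • vm n g) : ∀ n, Q n → ℝ) := by
    have e1 : (Pi.single (n + 1) (∑ g : G n, um n g z • um n g) : ∀ n, Q n → ℝ) =
        ∑ g : G n, um n g z • (Pi.single (n + 1) (um n g) : ∀ n, Q n → ℝ) :=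
      single_sum_smul _ _ _ _
    have e2 : (Pi.single n (∑ g : G n, um n g z • vm n g) : ∀ n, Q n → ℝ) =
        ∑ g : G n, um n g z • (Pi.single n (vm n g) : ∀ n, Q n → ℝ) :=
      single_sum_smul _ _ _ _
    rw [e1, e2, smul_sum, ← sum_sub_distrib]
    refine sum_congr rfl fun g _ => ?_
    unfold PhiV
    rw [smul_sub, smul_comm (um n g z) (2 : ℝ)]
  have h2 : ∑ g : G n, um n g z • um n g = Pi.single z 1 := by
    funext w
    simp only [Finset.sum_apply, Pi.smul_apply, smul_eq_mul]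
    rw [um_orth, Pi.single_apply]
    by_cases h : z = w
    · simp [h]
    · simp [h, Ne.symm h]
  have h3 : ∑ g : G n, um n g z • vm n g = 0 := by
    funext w
    simp only [Finset.sum_apply, Pi.smul_apply, smul_eq_mul, Pi.zero_apply]
    exact um_vm n z w
  rw [h1, h2, h3]; simp

/-- reproducing formula for the lower coordinates -/
lemma sum_vm_PhiV (n : ℕ) (z : Q n) :
    ∑ g : G n, vm n g z • PhiV ⟨n, g⟩ = (-2 : ℝ) • (Pi.single n (Pi.single z 1) : ∀ n, Q n → ℝ) := by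
  have h1 : ∑ g : G n, vm n g z • PhiV ⟨n, g⟩ =
      (Pi.single (n + 1) (∑ g : G n, vm n g z • um n g) : ∀ n, Q n → ℝ) -
        (2 : ℝ) • (Pi.single n (∑ g : G n, vm n g z • vm n g) : ∀ n, Q n → ℝ) := by
    have e1 : (Pi.single (n + 1) (∑ g : G n, vm n g z • um n g) : ∀ n, Q n → ℝ) =
        ∑ g : G n, vm n g z • (Pi.single (n + 1) (um n g) : ∀ n, Q n → ℝ) :=
      single_sum_smul _ _ _ _
    have e2 : (Pi.single n (∑ g : G n, vm n g z • vm n g) : ∀ n, Q n → ℝ) =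
        ∑ g : G n, vm n g z • (Pi.single n (vm n g) : ∀ n, Q n → ℝ) :=
      single_sum_smul _ _ _ _
    rw [e1, e2, smul_sum, ← sum_sub_distrib]
    refine sum_congr rfl fun g _ => ?_
    unfold PhiV
    rw [smul_sub, smul_comm (vm n g z) (2 : ℝ)]
  have h2 : ∑ g : G n, vm n g z • vm n g = Pi.single z 1 := by
    funext w
    simp only [Finset.sum_apply, Pi.smul_apply, smul_eq_mul]
    rw [vm_orth, Pi.single_apply]
    by_cases h : z = w
    · simp [h]
    · simp [h, Ne.symm h]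
  have h3 : ∑ g : G n, vm n g z • um n g = 0 := by
    funext w
    simp only [Finset.sum_apply, Pi.smul_apply, smul_eq_mul, Pi.zero_apply]
    rw [← um_vm n w z]
    exact sum_congr rfl fun g _ => mul_comm _ _
  rw [h1, h2, h3]; simp

/-- coordinates from the functionals -/
lemma sum_um_bf (n : ℕ) (z : Q (n + 1)) (x : ∀ n, Q n → ℝ) :
    ∑ h : G n, um n h z * bf ⟨n, h⟩ x = x (n + 1) z := by
  simp only [bf_apply, mul_add, sum_add_distrib, mul_sum]
  have c1 : ∑ h : G n, ∑ w : Q n, um n h z * (vm n h w * x n w) =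
      ∑ w : Q n, ∑ h : G n, um n h z * (vm n h w * x n w) := Finset.sum_comm
  have c2 : ∑ h : G n, ∑ w : Q (n + 1), um n h z * (um n h w * x (n + 1) w) =
      ∑ w : Q (n + 1), ∑ h : G n, um n h z * (um n h w * x (n + 1) w) := Finset.sum_comm
  have h1 : ∀ w : Q n, ∑ h : G n, um n h z * (vm n h w * x n w) = 0 := by
    intro w
    have : ∑ h : G n, um n h z * (vm n h w * x n w) = (∑ h : G n, um n h z * vm n h w) * x n w := by
      rw [sum_mul]; exact sum_congr rfl fun h _ => by ring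
    rw [this, um_vm, zero_mul]
  have h2 : ∀ w : Q (n + 1), ∑ h : G n, um n h z * (um n h w * x (n + 1) w) =
      if z = w then x (n + 1) w else 0 := by
    intro w
    have : ∑ h : G n, um n h z * (um n h w * x (n + 1) w) =
        (∑ h : G n, um n h z * um n h w) * x (n + 1) w := by
      rw [sum_mul]; exact sum_congr rfl fun h _ => by ring
    rw [this, um_orth]; split_ifs <;> simp
  refine (congrArg₂ (· + ·) c1 c2).trans ?_
  simp only [h1, h2]
  simp

lemma sum_vm_bf (n : ℕ) (z : Q n) (x : ∀ n, Q n → ℝ) :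
    ∑ h : G n, vm n h z * bf ⟨n, h⟩ x = x n z := by
  simp only [bf_apply, mul_add, sum_add_distrib, mul_sum]
  have c1 : ∑ h : G n, ∑ w : Q n, vm n h z * (vm n h w * x n w) =
      ∑ w : Q n, ∑ h : G n, vm n h z * (vm n h w * x n w) := Finset.sum_comm
  have c2 : ∑ h : G n, ∑ w : Q (n + 1), vm n h z * (um n h w * x (n + 1) w) =
      ∑ w : Q (n + 1), ∑ h : G n, vm n h z * (um n h w * x (n + 1) w) := Finset.sum_comm
  have h1 : ∀ w : Q n, ∑ h : G n, vm n h z * (vm n h w * x n w) = if z = w then x n w else 0 := by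
    intro w
    have : ∑ h : G n, vm n h z * (vm n h w * x n w) = (∑ h : G n, vm n h z * vm n h w) * x n w := by
      rw [sum_mul]; exact sum_congr rfl fun h _ => by ring
    rw [this, vm_orth]; split_ifs <;> simp
  have h2 : ∀ w : Q (n + 1), ∑ h : G n, vm n h z * (um n h w * x (n + 1) w) = 0 := by
    intro w
    have : ∑ h : G n, vm n h z * (um n h w * x (n + 1) w) =
        (∑ h : G n, um n h w * vm n h z) * x (n + 1) w := by
      rw [sum_mul]; exact sum_congr rfl fun h _ => by ring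
    rw [this, um_vm, zero_mul]
  refine (congrArg₂ (· + ·) c1 c2).trans ?_
  simp only [h1, h2]
  simp

/-- the relation between consecutive levels -/
lemma sum_um_Zm (n : ℕ) (z : Q (n + 1)) (g : Idx) :
    ∑ h : G n, um n h z * Zm ⟨n, h⟩ g = ∑ h : G (n + 1), vm (n + 1) h z * Zm ⟨n + 1, h⟩ g := by
  unfold Zm; rw [sum_um_bf, sum_vm_bf]

/-- expansion of the vectors of level `n + 1` -/
lemma Zm_sum_um (h : Idx) (n : ℕ) (z : Q (n + 1)) :
    ∑ g : G n, um n g z * Zm h ⟨n, g⟩ = bf h (Pi.single (n + 1) (Pi.single z 1)) := by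
  rw [← sum_um_PhiV, map_sum]
  exact sum_congr rfl fun g _ => by rw [map_smul]; rfl

lemma Zm_sum_vm (h : Idx) (n : ℕ) (z : Q n) :
    ∑ g : G n, vm n g z * Zm h ⟨n, g⟩ = -2 * bf h (Pi.single n (Pi.single z 1)) := by
  rw [← smul_eq_mul (-2 : ℝ), ← map_smul, ← sum_vm_PhiV, map_sum]
  exact sum_congr rfl fun g _ => by rw [map_smul]; rfl

end MP6f
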