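import Mathlib
import Pool.Agent.Lib.MP_6f6997_an.Model

/-!
# Row estimates for `p < 2`
-/

open Finset

noncomputable section

namespace MP6f

/-- the base `2^(1 - r/2)` -/
def cr (r : ℝ) : ℝ := (2 : ℝ) ^ (1 - r / 2)

lemma cr_pos (r : ℝ) : 0 < cr r := Real.rpow_pos_of_pos (by norm_num) _

lemma cr_le_one {r : ℝ} (hr : 2 ≤ r) : cr r ≤ 1 :=
  Real.rpow_le_one_of_one_le_of_nonpos (by norm_num) (by linarith)

/-- the small numbers `ε_n`, with `ε_n ^ r = cr r ^ (4 * (n / 9))` -/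
def eps (r : ℝ) (n : ℕ) : ℝ := ((2 : ℝ) ^ (1 / r - 1 / 2)) ^ (4 * (n / 9))

lemma eps_pos (r : ℝ) (n : ℕ) : 0 < eps r n :=
  pow_pos (Real.rpow_pos_of_pos (by norm_num) _) _

lemma eps_rpow {r : ℝ} (hr : 0 < r) (n : ℕ) : eps r n ^ r = cr r ^ (4 * (n / 9)) := by
  unfold eps cr
  rw [← Real.rpow_natCast, ← Real.rpow_natCast, ← Real.rpow_mul (by positivity),
    ← Real.rpow_mul (by positivity), ← Real.rpow_mul (by positivity)]
  congr 1; field_simp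

lemma cr_cnt_same {r : ℝ} (hr : 2 ≤ r) (n : ℕ) (i j : Fin 3) (hij : i ≠ j) :
    cr r ^ cnt (xo (patt n i) (patt n j)) n ≤ cr r ^ (4 * (n / 9)) := by
  refine pow_le_pow_of_le_one (cr_pos r).le (cr_le_one hr) ?_
  have h := le_cnt (xo (patt n i) (patt n j)) (xo_per _ _ (patt_per _ _) (patt_per _ _)) n
  rw [cnt_same n i j hij] at h
  omega

lemma cr_cnt_adj {r : ℝ} (hr : 2 ≤ r) (n : ℕ) (i j : Fin 3) :
    cr r ^ cnt (xo (patt n i) (patt (n + 1) j)) n ≤ cr r ^ (4 * (n / 9)) := by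
  refine pow_le_pow_of_le_one (cr_pos r).le (cr_le_one hr) ?_
  have h := le_cnt (xo (patt n i) (patt (n + 1) j)) (xo_per _ _ (patt_per _ _) (patt_per _ _)) n
  rw [cnt_adj n i j] at h
  omega

/-- the bound for the row sums -/
def C0 (r : ℝ) : ℝ := 6 * (2 : ℝ) ^ r * (cr r ^ 4)⁻¹ + 6

lemma C0_pos (r : ℝ) : 0 < C0 r := by
  have := cr_pos r
  unfold C0; positivity

lemma row_sum_le {r : ℝ} (hr : 2 ≤ r) (n : ℕ) (h : G n) :
    ∑ k ∈ range (n + 2), ∑ g : G k, |Zm ⟨n, h⟩ ⟨k, g⟩ / eps r k| ^ r ≤ C0 r := by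
  have hr0 : 0 < r := by linarith
  have hc := cr_pos r
  have hc1 := cr_le_one hr
  have hdiv : ∀ k (t : ℝ), |t / eps r k| ^ r = |t| ^ r / cr r ^ (4 * (k / 9)) := by
    intro k t
    rw [abs_div, abs_of_pos (eps_pos r k), Real.div_rpow (abs_nonneg _) (eps_pos r k).le,
      eps_rpow hr0]
  have hsame : ∑ g : G n, |Zm ⟨n, h⟩ ⟨n, g⟩ / eps r n| ^ r ≤ 3 := by
    simp only [hdiv, Zm_same, abs_neg]
    rw [← sum_div, div_le_iff₀ (by positivity)]
    exact sum_Dm_row n h r _ hr0 (fun i j hij => cr_cnt_same hr n i j hij) (by positivity)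
  have hup : ∑ g : G (n + 1), |Zm ⟨n, h⟩ ⟨n + 1, g⟩ / eps r (n + 1)| ^ r ≤
      6 * (2 : ℝ) ^ r * (cr r ^ 4)⁻¹ := by
    simp only [hdiv, Zm_up]
    rw [← sum_div, div_le_iff₀ (by positivity)]
    have h1 : ∑ g : G (n + 1), |-2 * Rm n h g| ^ r = 2 ^ r * ∑ g : G (n + 1), |Rm n h g| ^ r := by
      rw [mul_sum]
      refine sum_congr rfl fun g _ => ?_
      rw [abs_mul, Real.mul_rpow (abs_nonneg _) (abs_nonneg _)]; norm_num
    rw [h1]
    have h2 := sum_Rm_row n h r _ hr0 (fun i j => cr_cnt_adj hr n i j)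
    have h3 : cr r ^ (4 * (n / 9)) ≤ (cr r ^ 4)⁻¹ * cr r ^ (4 * ((n + 1) / 9)) := by
      rw [inv_mul_eq_div, le_div_iff₀ (by positivity), ← pow_add]
      exact pow_le_pow_of_le_one hc.le hc1 (by omega)
    calc 2 ^ r * ∑ g : G (n + 1), |Rm n h g| ^ r ≤ 2 ^ r * (6 * cr r ^ (4 * (n / 9))) := by gcongr
      _ ≤ 2 ^ r * (6 * ((cr r ^ 4)⁻¹ * cr r ^ (4 * ((n + 1) / 9)))) := by gcongr
      _ = _ := by ring
  rw [sum_range_succ, sum_range_succ]
  have hlow : ∑ k ∈ range n, ∑ g : G k, |Zm ⟨n, h⟩ ⟨k, g⟩ / eps r k| ^ r ≤ 3 := by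
    cases n with
    | zero => simp
    | succ m =>
      rw [sum_range_succ]
      have h0 : ∑ k ∈ range m, ∑ g : G k, |Zm ⟨m + 1, h⟩ ⟨k, g⟩ / eps r k| ^ r = 0 := by
        refine sum_eq_zero fun k hk => sum_eq_zero fun g _ => ?_
        rw [mem_range] at hk
        rw [Zm_far (m + 1) k h g (by omega) (by omega) (by omega)]
        simp [Real.zero_rpow hr0.ne']
      rw [h0, zero_add]
      simp only [hdiv, Zm_down]
      rw [← sum_div, div_le_iff₀ (by positivity)]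
      exact sum_Rm_col m h r _ hr0 (fun i j => cr_cnt_adj hr m i j)
  unfold C0
  linarith

lemma Zm_far' (n k : ℕ) (h : G n) (g : G k) (hk : n + 2 ≤ k) : Zm ⟨n, h⟩ ⟨k, g⟩ = 0 :=
  Zm_far n k h g (by omega) (by omega) (by omega)

end MP6f
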