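import Mathlib
import Pool.Agent.Lib.MP_6f6997_an.DefsK

/-!
# Upper bound for the `p`-integral norm of a weakly convergent series of rank one operators
-/

open MeasureTheory ENNReal

set_option maxSynthPendingDepth 3

noncomputable section

namespace MP6f

variable {𝕜 : Type} [RCLike 𝕜]

/-- the discrete probability with weights `m` -/
def dPMF {J : Type} (m : J → ℝ) (hm : ∀ j, 0 ≤ m j) (hm1 : HasSum m 1) : PMF J :=
  ⟨fun j => ENNReal.ofReal (m j), by
    have h := ENNReal.ofReal_tsum_of_nonneg hm hm1.summable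
    rw [hm1.tsum_eq, ENNReal.ofReal_one] at h
    rw [h]
    exact ENNReal.summable.hasSum⟩

lemma dPMF_apply {J : Type} (m : J → ℝ) (hm : ∀ j, 0 ≤ m j) (hm1 : HasSum m 1) (j : J) :
    dPMF m hm hm1 j = ENNReal.ofReal (m j) := rfl

lemma iNorm_le_of_fact {p : ℝ≥0∞} [Fact (1 ≤ p)] {Y X : Type*} [NormedAddCommGroup Y]
    [NormedSpace 𝕜 Y] [NormedAddCommGroup X] [NormedSpace 𝕜 X] (T : Y →L[𝕜] X)
    {Ω : Type} [iM : MeasurableSpace Ω] (μ : Measure Ω) [iP : IsProbabilityMeasure μ]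
    (A : Y →L[𝕜] Lp 𝕜 ∞ μ) (B : Lp 𝕜 p μ →L[𝕜] StrongDual 𝕜 (StrongDual 𝕜 X))
    (h : ∀ y : Y, NormedSpace.inclusionInDoubleDual 𝕜 X (T y) = B (inclLp μ p (A y))) :
    iNorm p T ≤ ENNReal.ofReal (‖A‖ * ‖B‖) := by
  unfold iNorm
  exact iInf_le_of_le Ω (iInf_le_of_le iM (iInf_le_of_le μ (iInf_le_of_le iP (iInf_le_of_le A
    (iInf_le_of_le B (iInf_le_of_le h le_rfl))))))

lemma coeFn_inclLp {p : ℝ≥0∞} {Ω : Type} [MeasurableSpace Ω] (μ : Measure Ω)
    [IsProbabilityMeasure μ] (f : Lp 𝕜 ∞ μ) : (inclLp μ p f : Ω → 𝕜) = f := rfl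

section
variable {J : Type} [Countable J] [MeasurableSpace J] [DiscreteMeasurableSpace J] (m : J → ℝ)
  (hm : ∀ j, 0 < m j) (hm1 : HasSum m 1) {Y X : Type*} [NormedAddCommGroup Y]
  [NormedSpace 𝕜 Y] [NormedAddCommGroup X] [NormedSpace 𝕜 X]

omit [Countable J] in
/-- the operator `Y → L_∞(μ)` -/
lemma exists_A (r α : ℝ) (hα : 0 ≤ α) (y : J → StrongDual 𝕜 Y)
    (hy : ∀ j, ‖y j‖ ≤ α * m j ^ r) :
    ∃ A : Y →L[𝕜] Lp 𝕜 ∞ (dPMF m (fun j => (hm j).le) hm1).toMeasure, ‖A‖ ≤ α ∧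
      ∀ v, (A v : J → 𝕜) =ᵐ[(dPMF m (fun j => (hm j).le) hm1).toMeasure]
        fun j => ((m j ^ (-r) : ℝ) : 𝕜) * y j v := by
  set μ := (dPMF m (fun j => (hm j).le) hm1).toMeasure with hμ
  have hb : ∀ v j, ‖((m j ^ (-r) : ℝ) : 𝕜) * y j v‖ ≤ α * ‖v‖ := by
    intro v j
    have hmr : 0 < m j ^ r := Real.rpow_pos_of_pos (hm j) _
    rw [norm_mul, RCLike.norm_ofReal, abs_of_nonneg (Real.rpow_nonneg (hm j).le _),
      Real.rpow_neg (hm j).le]
    calc (m j ^ r)⁻¹ * ‖y j v‖ ≤ (m j ^ r)⁻¹ * (‖y j‖ * ‖v‖) := by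
          gcongr; exact (y j).le_opNorm v
      _ ≤ (m j ^ r)⁻¹ * ((α * m j ^ r) * ‖v‖) := by gcongr; exact hy j
      _ = α * ‖v‖ := by field_simp
  have hmem : ∀ v, MemLp (fun j => ((m j ^ (-r) : ℝ) : 𝕜) * y j v) ∞ μ := fun v =>
    memLp_top_of_bound (Measurable.of_discrete.aestronglyMeasurable) (α * ‖v‖)
      (Filter.Eventually.of_forall (hb v))
  let A0 : Y →ₗ[𝕜] Lp 𝕜 ∞ μ :=
    { toFun := fun v => (hmem v).toLp
      map_add' := by
        intro v w
        rw [← MemLp.toLp_add]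
        apply MemLp.toLp_congr
        refine Filter.Eventually.of_forall fun j => ?_
        simp [mul_add]
      map_smul' := by
        intro c v
        rw [RingHom.id_apply, ← MemLp.toLp_const_smul]
        apply MemLp.toLp_congr
        refine Filter.Eventually.of_forall fun j => ?_
        simp only [Pi.smul_apply, smul_eq_mul, map_smul]; ring }
  have hbound : ∀ v, ‖A0 v‖ ≤ α * ‖v‖ := by
    intro v
    have h := Lp.norm_le_of_ae_bound (f := (hmem v).toLp) (C := α * ‖v‖) (by positivity) (by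
      filter_upwards [(hmem v).coeFn_toLp] with j hj
      rw [hj]; exact hb v j)
    have h0 : (ENNReal.toReal ∞)⁻¹ = 0 := by simp
    rw [h0, Real.rpow_zero, one_mul] at h
    exact h
  refine ⟨A0.mkContinuous α hbound, A0.mkContinuous_norm_le hα hbound, fun v => ?_⟩
  exact (hmem v).coeFn_toLp

/-- the operator `X* → L_q(μ)` -/
lemma exists_H {q : ℝ≥0∞} [Fact (1 ≤ q)] (hq : q ≠ ∞) (β : ℝ) (hβ : 0 ≤ β) (x : J → X)
    (hx : ∀ f : StrongDual 𝕜 X, Summable (fun j => ‖f (x j)‖ ^ q.toReal) ∧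
      ∑' j, ‖f (x j)‖ ^ q.toReal ≤ (β * ‖f‖) ^ q.toReal) :
    ∃ H : StrongDual 𝕜 X →L[𝕜] Lp 𝕜 q (dPMF m (fun j => (hm j).le) hm1).toMeasure, ‖H‖ ≤ β ∧
      ∀ f, (H f : J → 𝕜) =ᵐ[(dPMF m (fun j => (hm j).le) hm1).toMeasure]
        fun j => ((m j ^ (-(1 / q.toReal)) : ℝ) : 𝕜) * f (x j) := by
  set μ := (dPMF m (fun j => (hm j).le) hm1).toMeasure with hμ
  have hq1 : 1 ≤ q := Fact.out
  have hq0 : q ≠ 0 := (zero_lt_one.trans_le hq1).ne'
  have hr : 0 < q.toReal := ENNReal.toReal_pos hq0 hq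
  have hμj : ∀ j, μ {j} = ENNReal.ofReal (m j) := fun j => by
    rw [hμ, PMF.toMeasure_apply_singleton _ _ (measurableSet_singleton j), dPMF_apply]
  have hb : ∀ f : StrongDual 𝕜 X,
      eLpNorm (fun j => ((m j ^ (-(1 / q.toReal)) : ℝ) : 𝕜) * f (x j)) q μ ≤
        ENNReal.ofReal (β * ‖f‖) := by
    intro f
    rw [eLpNorm_eq_lintegral_rpow_enorm_toReal hq0 hq, lintegral_countable']
    have h1 : ∀ j, ‖((m j ^ (-(1 / q.toReal)) : ℝ) : 𝕜) * f (x j)‖ₑ ^ q.toReal * μ {j} =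
        ENNReal.ofReal (‖f (x j)‖ ^ q.toReal) := by
      intro j
      rw [hμj, ← ofReal_norm, ENNReal.ofReal_rpow_of_nonneg (norm_nonneg _) hr.le,
        ← ENNReal.ofReal_mul (by positivity)]
      congr 1
      rw [norm_mul, RCLike.norm_ofReal, abs_of_nonneg (Real.rpow_nonneg (hm j).le _),
        Real.mul_rpow (Real.rpow_nonneg (hm j).le _) (norm_nonneg _), ← Real.rpow_mul (hm j).le]
      have : -(1 / q.toReal) * q.toReal = -1 := by field_simp
      rw [this, Real.rpow_neg_one]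
      field_simp [(hm j).ne']
    simp only [h1]
    rw [← ENNReal.ofReal_tsum_of_nonneg (fun j => by positivity) (hx f).1,
      ENNReal.ofReal_rpow_of_nonneg (tsum_nonneg fun j => by positivity) (by positivity)]
    refine ENNReal.ofReal_le_ofReal ?_
    calc (∑' j, ‖f (x j)‖ ^ q.toReal) ^ (1 / q.toReal)
        ≤ ((β * ‖f‖) ^ q.toReal) ^ (1 / q.toReal) :=
          Real.rpow_le_rpow (tsum_nonneg fun j => by positivity) (hx f).2 (by positivity)
      _ = β * ‖f‖ := by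
          rw [← Real.rpow_mul (by positivity), mul_one_div_cancel hr.ne', Real.rpow_one]
  have hmem : ∀ f : StrongDual 𝕜 X,
      MemLp (fun j => ((m j ^ (-(1 / q.toReal)) : ℝ) : 𝕜) * f (x j)) q μ := fun f =>
    ⟨Measurable.of_discrete.aestronglyMeasurable, (hb f).trans_lt ENNReal.ofReal_lt_top⟩
  let H0 : StrongDual 𝕜 X →ₗ[𝕜] Lp 𝕜 q μ :=
    { toFun := fun f => (hmem f).toLp
      map_add' := by
        intro v w
        rw [← MemLp.toLp_add]
        apply MemLp.toLp_congr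
        refine Filter.Eventually.of_forall fun j => ?_
        simp [mul_add]
      map_smul' := by
        intro c v
        rw [RingHom.id_apply, ← MemLp.toLp_const_smul]
        apply MemLp.toLp_congr
        refine Filter.Eventually.of_forall fun j => ?_
        simp only [Pi.smul_apply, smul_eq_mul, _root_.smul_apply]; ring }
  have hbound : ∀ f, ‖H0 f‖ ≤ β * ‖f‖ := by
    intro f
    change ‖(hmem f).toLp‖ ≤ _
    rw [Lp.norm_toLp]
    exact ENNReal.toReal_le_of_le_ofReal (by positivity) (hb f)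
  refine ⟨H0.mkContinuous β hbound, H0.mkContinuous_norm_le hβ hbound, fun v => ?_⟩
  exact (hmem v).coeFn_toLp

end

lemma norm_lpPairing_mul_le {Ω : Type} [MeasurableSpace Ω] (μ : Measure Ω) {p q : ℝ≥0∞}
    [Fact (1 ≤ p)] [Fact (1 ≤ q)] [p.HolderConjugate q] (f : Lp 𝕜 p μ) (g : Lp 𝕜 q μ) :
    ‖(ContinuousLinearMap.mul 𝕜 𝕜).lpPairing μ p q f g‖ ≤ ‖f‖ * ‖g‖ := by
  have h1 : (ContinuousLinearMap.mul 𝕜 𝕜).lpPairing μ p q f g =
      L1.integral ((ContinuousLinearMap.mul 𝕜 𝕜).holder 1 f g) := by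
    rw [ContinuousLinearMap.lpPairing_eq_integral, L1.integral_eq_integral]
    exact (integral_congr_ae ((ContinuousLinearMap.mul 𝕜 𝕜).coeFn_holder f g)).symm
  rw [h1]
  refine (L1.norm_integral_le _).trans ?_
  refine ((ContinuousLinearMap.mul 𝕜 𝕜).norm_holder_apply_apply_le f g).trans ?_
  have := ContinuousLinearMap.opNorm_mul_le 𝕜 𝕜
  calc _ ≤ 1 * ‖f‖ * ‖g‖ := by gcongr
    _ = _ := by ring

lemma iNorm_le_pairing {p q : ℝ≥0∞} [Fact (1 ≤ p)] [Fact (1 ≤ q)] [p.HolderConjugate q]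
    {Y X : Type*} [NormedAddCommGroup Y] [NormedSpace 𝕜 Y] [NormedAddCommGroup X]
    [NormedSpace 𝕜 X] (T : Y →L[𝕜] X) {Ω : Type} [MeasurableSpace Ω] (μ : Measure Ω)
    [IsProbabilityMeasure μ] (A : Y →L[𝕜] Lp 𝕜 ∞ μ) (H : StrongDual 𝕜 X →L[𝕜] Lp 𝕜 q μ)
    (h : ∀ (v : Y) (f : StrongDual 𝕜 X), f (T v) = ∫ j, (A v : Ω → 𝕜) j * (H f : Ω → 𝕜) j ∂μ) :
    iNorm p T ≤ ENNReal.ofReal (‖A‖ * ‖H‖) := by
  let B0 : Lp 𝕜 p μ →ₗ[𝕜] StrongDual 𝕜 (StrongDual 𝕜 X) :=
    { toFun := fun f => ((ContinuousLinearMap.mul 𝕜 𝕜).lpPairing μ p q f).comp H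
      map_add' := fun f g => by simp [ContinuousLinearMap.add_comp]
      map_smul' := fun c f => by simp [ContinuousLinearMap.smul_comp] }
  have hB : ∀ f, ‖B0 f‖ ≤ ‖H‖ * ‖f‖ := by
    intro f
    refine ContinuousLinearMap.opNorm_le_bound _ (by positivity) fun g => ?_
    change ‖(ContinuousLinearMap.mul 𝕜 𝕜).lpPairing μ p q f (H g)‖ ≤ _
    refine (norm_lpPairing_mul_le μ f (H g)).trans ?_
    calc ‖f‖ * ‖H g‖ ≤ ‖f‖ * (‖H‖ * ‖g‖) := by
          gcongr
          exact H.le_opNorm g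
      _ = ‖H‖ * ‖f‖ * ‖g‖ := by ring
  refine (iNorm_le_of_fact T μ A (B0.mkContinuous _ hB) ?_).trans ?_
  · intro v
    ext f
    change f (T v) = (ContinuousLinearMap.mul 𝕜 𝕜).lpPairing μ p q (inclLp μ p (A v)) (H f)
    rw [ContinuousLinearMap.lpPairing_eq_integral, h]
    rfl
  · refine ENNReal.ofReal_le_ofReal ?_
    have := B0.mkContinuous_norm_le (norm_nonneg _) hB
    gcongr

lemma iNorm_le_discrete {J : Type} [Countable J] (m : J → ℝ) (hm : ∀ j, 0 < m j)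
    (hm1 : HasSum m 1) {p q : ℝ≥0∞} [Fact (1 ≤ p)] (hpq : p.HolderConjugate q) (hq : q ≠ ∞)
    {Y X : Type*} [NormedAddCommGroup Y] [NormedSpace 𝕜 Y] [NormedAddCommGroup X]
    [NormedSpace 𝕜 X] (T : Y →L[𝕜] X) (y : J → StrongDual 𝕜 Y) (x : J → X) (α β : ℝ)
    (hα : 0 ≤ α) (hβ : 0 ≤ β) (hy : ∀ j, ‖y j‖ ≤ α * m j ^ (1 - 1 / q.toReal))
    (hx : ∀ f : StrongDual 𝕜 X, Summable (fun j => ‖f (x j)‖ ^ q.toReal) ∧
      ∑' j, ‖f (x j)‖ ^ q.toReal ≤ (β * ‖f‖) ^ q.toReal)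
    (hT : ∀ (v : Y) (f : StrongDual 𝕜 X), HasSum (fun j => y j v * f (x j)) (f (T v))) :
    iNorm p T ≤ ENNReal.ofReal (α * β) := by
  let _ : MeasurableSpace J := ⊤
  have : DiscreteMeasurableSpace J := ⟨fun _ => trivial⟩
  have hq1 : Fact (1 ≤ q) := ⟨hpq.symm.one_le⟩
  have := hpq
  have hq0 : q ≠ 0 := (zero_lt_one.trans_le hq1.out).ne'
  have hr : 0 < q.toReal := ENNReal.toReal_pos hq0 hq
  obtain ⟨A, hA1, hA2⟩ := exists_A m hm hm1 (1 - 1 / q.toReal) α hα y hy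
  obtain ⟨H, hH1, hH2⟩ := exists_H (q := q) m hm hm1 hq β hβ x hx
  refine (iNorm_le_pairing T _ A H ?_).trans ?_
  · intro v f
    have h1 : (fun j => (A v : J → 𝕜) j * (H f : J → 𝕜) j)
        =ᵐ[(dPMF m (fun j => (hm j).le) hm1).toMeasure]
          fun j => ((m j ^ (-(1 : ℝ)) : ℝ) : 𝕜) * (y j v * f (x j)) := by
      filter_upwards [hA2 v, hH2 f] with j h1 h2
      rw [h1, h2]
      have h3 : (m j ^ (-(1 : ℝ)) : ℝ) = m j ^ (-(1 - 1 / q.toReal)) * m j ^ (-(1 / q.toReal)) := by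
        rw [← Real.rpow_add (hm j)]; congr 1; ring
      rw [h3]; push_cast; ring
    have h4 : Integrable (fun j => ((m j ^ (-(1 : ℝ)) : ℝ) : 𝕜) * (y j v * f (x j)))
        (dPMF m (fun j => (hm j).le) hm1).toMeasure := by
      refine Integrable.congr ?_ h1
      have h5 := L1.integrable_coeFn ((ContinuousLinearMap.mul 𝕜 𝕜).holder 1
        (inclLp (dPMF m (fun j => (hm j).le) hm1).toMeasure p (A v)) (H f))
      exact h5.congr ((ContinuousLinearMap.mul 𝕜 𝕜).coeFn_holder _ _)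
    rw [integral_congr_ae h1, PMF.integral_eq_tsum _ _ h4]
    rw [← (hT v f).tsum_eq]
    refine tsum_congr fun j => ?_
    rw [dPMF_apply, ENNReal.toReal_ofReal (hm j).le, Real.rpow_neg_one, RCLike.real_smul_eq_coe_mul]
    have := (hm j).ne'
    push_cast
    rw [← mul_assoc, mul_inv_cancel₀ (by exact_mod_cast this), one_mul]
  · refine ENNReal.ofReal_le_ofReal ?_
    gcongr

/-- Young type inequality -/
lemma young_aux {m t r : ℝ} (hm : 0 < m) (ht : 0 ≤ t) (hr : 1 ≤ r) :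
    m ^ (1 - 1 / r) * t ≤ m + t ^ r := by
  have hr0 : 0 < r := by linarith
  have h1 : 0 ≤ 1 - 1 / r := by
    rw [sub_nonneg, div_le_one hr0]; exact hr
  rcases le_total t (m ^ (1 / r)) with h | h
  · calc m ^ (1 - 1 / r) * t ≤ m ^ (1 - 1 / r) * m ^ (1 / r) := by gcongr
      _ = m := by rw [← Real.rpow_add hm]; simp
      _ ≤ m + t ^ r := by have := Real.rpow_nonneg ht r; linarith
  · have h2 : 0 < t := (Real.rpow_pos_of_pos hm _).trans_le h
    have h3 : m ≤ t ^ r := by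
      calc m = (m ^ (1 / r)) ^ r := by rw [← Real.rpow_mul hm.le]; simp [hr0.ne']
        _ ≤ t ^ r := Real.rpow_le_rpow (Real.rpow_nonneg hm.le _) h hr0.le
    calc m ^ (1 - 1 / r) * t ≤ (t ^ r) ^ (1 - 1 / r) * t := by gcongr
      _ = t ^ (r * (1 - 1 / r)) * t ^ (1 : ℝ) := by rw [← Real.rpow_mul h2.le, Real.rpow_one]
      _ = t ^ r := by
          rw [← Real.rpow_add h2]; congr 1; field_simp; ring
      _ ≤ m + t ^ r := by linarith

lemma iNorm_le_blocks {ι : Type} [Fintype ι] {J : ℕ → ι → Type} [∀ k i, Fintype (J k i)]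
    [∀ k i, Nonempty (J k i)] (s a b : ℕ → ι → ℝ) (hs0 : ∀ k i, 0 < s k i)
    (hs1 : HasSum (fun k => ∑ i, s k i) 1) (hb : ∀ k i, 0 < b k i) (c : ℝ) (hc : 0 ≤ c)
    (hab : ∀ k i, a k i * b k i ≤ c * s k i)
    {p q : ℝ≥0∞} [Fact (1 ≤ p)] (hpq : p.HolderConjugate q) (hq : q ≠ ∞)
    {Y X : Type*} [NormedAddCommGroup Y] [NormedSpace 𝕜 Y] [NormedAddCommGroup X]
    [NormedSpace 𝕜 X] (T : Y →L[𝕜] X) (y : ∀ k i, J k i → StrongDual 𝕜 Y) (x : ∀ k i, J k i → X)
    (hy : ∀ k i j, ‖y k i j‖ ≤ a k i * (Fintype.card (J k i) : ℝ) ^ (-(1 - 1 / q.toReal)))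
    (hx : ∀ k i (f : StrongDual 𝕜 X), ∑ j, ‖f (x k i j)‖ ^ q.toReal ≤ (b k i * ‖f‖) ^ q.toReal)
    (hT : ∀ (v : Y) (f : StrongDual 𝕜 X),
      HasSum (fun k => ∑ i, ∑ j, y k i j v * f (x k i j)) (f (T v))) :
    iNorm p T ≤ ENNReal.ofReal c := by
  classical
  have hq1 : Fact (1 ≤ q) := ⟨hpq.symm.one_le⟩
  have hq0 : q ≠ 0 := (zero_lt_one.trans_le hq1.out).ne'
  have hr : 0 < q.toReal := ENNReal.toReal_pos hq0 hq
  have hr1 : 1 ≤ q.toReal := by
    rw [← ENNReal.toReal_one]; exact ENNReal.toReal_mono hq hq1.out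
  set r := q.toReal with hrdef
  set N : ℕ → ι → ℝ := fun k i => (Fintype.card (J k i) : ℝ) with hN
  have hN0 : ∀ k i, 0 < N k i := fun k i => by
    simp only [hN]; exact_mod_cast Fintype.card_pos
  set t : ℕ → ι → ℝ := fun k i => b k i * s k i ^ (-(1 / r)) with ht
  have ht0 : ∀ k i, 0 < t k i := fun k i => mul_pos (hb k i) (Real.rpow_pos_of_pos (hs0 k i) _)
  let JJ : Type := Σ k : ℕ, Σ i : ι, J k i
  let m : JJ → ℝ := fun w => s w.1 w.2.1 / N w.1 w.2.1
  let y' : JJ → StrongDual 𝕜 Y := fun w => ((t w.1 w.2.1 : ℝ) : 𝕜) • y w.1 w.2.1 w.2.2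
  let x' : JJ → X := fun w => (((t w.1 w.2.1)⁻¹ : ℝ) : 𝕜) • x w.1 w.2.1 w.2.2
  have hm0 : ∀ w, 0 < m w := fun w => div_pos (hs0 _ _) (hN0 _ _)
  -- sums over a block
  have hmsum : ∀ k, ∑ w : Σ i : ι, J k i, m ⟨k, w⟩ = ∑ i, s k i := by
    intro k
    rw [Fintype.sum_sigma]
    refine Finset.sum_congr rfl fun i _ => ?_
    simp only [m]
    rw [Finset.sum_const, Finset.card_univ, nsmul_eq_mul]
    have := (hN0 k i).ne'
    simp only [hN] at this ⊢
    field_simp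
  have hxsum : ∀ k (f : StrongDual 𝕜 X), ∑ w : Σ i : ι, J k i, ‖f (x' ⟨k, w⟩)‖ ^ r ≤
      (∑ i, s k i) * ‖f‖ ^ r := by
    intro k f
    rw [Fintype.sum_sigma, Finset.sum_mul]
    refine Finset.sum_le_sum fun i _ => ?_
    have h1 : ∀ j : J k i, ‖f (x' ⟨k, ⟨i, j⟩⟩)‖ ^ r = ((t k i)⁻¹) ^ r * ‖f (x k i j)‖ ^ r := by
      intro j
      simp only [x', map_smul, norm_smul, RCLike.norm_ofReal]
      rw [abs_of_pos (inv_pos.mpr (ht0 k i)), Real.mul_rpow (inv_pos.mpr (ht0 k i)).le (norm_nonneg _)]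
    simp only [h1]
    rw [← Finset.mul_sum]
    calc ((t k i)⁻¹) ^ r * ∑ j, ‖f (x k i j)‖ ^ r ≤ ((t k i)⁻¹) ^ r * (b k i * ‖f‖) ^ r := by
          have := hx k i f
          have h2 : 0 ≤ ((t k i)⁻¹) ^ r := Real.rpow_nonneg (inv_pos.mpr (ht0 k i)).le _
          gcongr
      _ = ((t k i)⁻¹ * (b k i * ‖f‖)) ^ r := by
          rw [← Real.mul_rpow (inv_pos.mpr (ht0 k i)).le (mul_nonneg (hb k i).le (norm_nonneg _))]
      _ = (s k i ^ (1 / r) * ‖f‖) ^ r := by
          congr 1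
          simp only [ht]
          rw [Real.rpow_neg (hs0 k i).le]
          have h3 := (hb k i).ne'
          have h4 := (Real.rpow_pos_of_pos (hs0 k i) (1 / r)).ne'
          field_simp
      _ = s k i * ‖f‖ ^ r := by
          rw [Real.mul_rpow (Real.rpow_nonneg (hs0 k i).le _) (norm_nonneg _), ← Real.rpow_mul (hs0 k i).le]
          rw [one_div_mul_cancel hr.ne', Real.rpow_one]
  have hm1 : HasSum m 1 := by
    have hsm : Summable m := by
      rw [summable_sigma_of_nonneg (fun w => (hm0 w).le)]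
      refine ⟨fun k => Summable.of_finite, ?_⟩
      simp only [tsum_fintype, hmsum]
      exact hs1.summable
    refine HasSum.sigma_of_hasSum hs1 (fun k => ?_) hsm
    rw [← hmsum k]; exact hasSum_fintype _
  have hxs : ∀ f : StrongDual 𝕜 X, Summable (fun w => ‖f (x' w)‖ ^ r) := by
    intro f
    rw [summable_sigma_of_nonneg (fun w => by positivity)]
    refine ⟨fun k => Summable.of_finite, ?_⟩
    simp only [tsum_fintype]
    exact Summable.of_nonneg_of_le (fun k => Finset.sum_nonneg fun w _ => by positivity)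
      (fun k => hxsum k f) (hs1.summable.mul_right _)
  have key := iNorm_le_discrete (𝕜 := 𝕜) m hm0 hm1 hpq hq T y' x' c 1 hc zero_le_one ?_ ?_ ?_
  · simpa using key
  · rintro ⟨k, i, j⟩
    simp only [y', m]
    rw [norm_smul, RCLike.norm_ofReal, abs_of_pos (ht0 k i)]
    calc t k i * ‖y k i j‖ ≤ t k i * (a k i * (N k i) ^ (-(1 - 1 / r))) := by
          have := (ht0 k i).le
          gcongr
          exact hy k i j
      _ = (a k i * b k i) * s k i ^ (-(1 / r)) * (N k i) ^ (-(1 - 1 / r)) := by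
          simp only [ht]; ring
      _ ≤ (c * s k i) * s k i ^ (-(1 / r)) * (N k i) ^ (-(1 - 1 / r)) := by
          have h1 := Real.rpow_nonneg (hs0 k i).le (-(1 / r))
          have h2 := Real.rpow_nonneg (hN0 k i).le (-(1 - 1 / r))
          have h3 := hab k i
          gcongr
      _ = c * (s k i / N k i) ^ (1 - 1 / r) := by
          rw [Real.div_rpow (hs0 k i).le (hN0 k i).le, Real.rpow_neg (hN0 k i).le,
            sub_eq_add_neg, Real.rpow_add (hs0 k i), Real.rpow_one]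
          ring
  · intro f
    refine ⟨hxs f, ?_⟩
    have h1 := (hxs f).tsum_sigma
    simp only [tsum_fintype] at h1
    rw [h1]
    have h2 : Summable (fun k => ∑ w : Σ i : ι, J k i, ‖f (x' ⟨k, w⟩)‖ ^ r) := by
      have := (hxs f).sigma
      simpa only [tsum_fintype] using this
    calc _ ≤ ∑' k, (∑ i, s k i) * ‖f‖ ^ r := h2.tsum_le_tsum (fun k => hxsum k f) (hs1.summable.mul_right _)
      _ = ‖f‖ ^ r := by rw [tsum_mul_right, hs1.tsum_eq, one_mul]
      _ = (1 * ‖f‖) ^ r := by rw [one_mul]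
  · intro v f
    have h0 : ∀ w : JJ, y' w v * f (x' w) = y w.1 w.2.1 w.2.2 v * f (x w.1 w.2.1 w.2.2) := by
      rintro ⟨k, i, j⟩
      simp only [y', x', _root_.smul_apply, map_smul, smul_eq_mul]
      have h1 : ((t k i : ℝ) : 𝕜) ≠ 0 := by exact_mod_cast (ht0 k i).ne'
      push_cast
      field_simp
    have hsm : Summable (fun w => y' w v * f (x' w)) := by
      refine Summable.of_norm_bounded (g := fun w => (c * ‖v‖) * (m w + ‖f (x' w)‖ ^ r))
        ((hm1.summable.add (hxs f)).mul_left _) fun w => ?_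
      rw [norm_mul]
      have h1 : ‖y' w v‖ ≤ (c * m w ^ (1 - 1 / r)) * ‖v‖ := by
        refine ((y' w).le_opNorm v).trans ?_
        gcongr
        obtain ⟨k, i, j⟩ := w
        simp only [y', m]
        rw [norm_smul, RCLike.norm_ofReal, abs_of_pos (ht0 k i)]
        calc t k i * ‖y k i j‖ ≤ t k i * (a k i * (N k i) ^ (-(1 - 1 / r))) := by
              have := (ht0 k i).le
              gcongr
              exact hy k i j
          _ = (a k i * b k i) * s k i ^ (-(1 / r)) * (N k i) ^ (-(1 - 1 / r)) := by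
              simp only [ht]; ring
          _ ≤ (c * s k i) * s k i ^ (-(1 / r)) * (N k i) ^ (-(1 - 1 / r)) := by
              have h1 := Real.rpow_nonneg (hs0 k i).le (-(1 / r))
              have h2 := Real.rpow_nonneg (hN0 k i).le (-(1 - 1 / r))
              have h3 := hab k i
              gcongr
          _ = c * (s k i / N k i) ^ (1 - 1 / r) := by
              rw [Real.div_rpow (hs0 k i).le (hN0 k i).le, Real.rpow_neg (hN0 k i).le,
                sub_eq_add_neg, Real.rpow_add (hs0 k i), Real.rpow_one]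
              ring
      calc ‖y' w v‖ * ‖f (x' w)‖ ≤ ((c * m w ^ (1 - 1 / r)) * ‖v‖) * ‖f (x' w)‖ := by gcongr
        _ = (c * ‖v‖) * (m w ^ (1 - 1 / r) * ‖f (x' w)‖) := by ring
        _ ≤ (c * ‖v‖) * (m w + ‖f (x' w)‖ ^ r) := by
            gcongr
            exact young_aux (hm0 w) (norm_nonneg _) hr1
    refine HasSum.sigma_of_hasSum (hT v f) (fun k => ?_) hsm
    have h2 : ∑ w : Σ i : ι, J k i, y' ⟨k, w⟩ v * f (x' ⟨k, w⟩) =
        ∑ i, ∑ j, y k i j v * f (x k i j) := by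
      rw [Fintype.sum_sigma]
      exact Finset.sum_congr rfl fun i _ => Finset.sum_congr rfl fun j _ => h0 ⟨k, i, j⟩
    rw [← h2]; exact hasSum_fintype _

end MP6f
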