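import Mathlib
import Pool.Agent.Lib.MP_6f6997_an.GLow
import Pool.Agent.Lib.MP_6f6997_an.INorm

/-!
# Failure of the outer inequality: general scheme
-/

open MeasureTheory ENNReal Filter Topology

set_option maxSynthPendingDepth 3

noncomputable section

namespace MP6f

variable {𝕜 : Type} [RCLike 𝕜]

lemma finRank_of_rep {Y X : Type*} [NormedAddCommGroup Y] [NormedSpace 𝕜 Y]
    [NormedAddCommGroup X] [NormedSpace 𝕜 X] {κ : Type*} [Fintype κ] (T : Y →L[𝕜] X)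
    (η : κ → StrongDual 𝕜 Y) (e : κ → X) (hT : ∀ v, T v = ∑ z, η z v • e z) : FinRank T := by
  unfold FinRank
  have h : LinearMap.range (T : Y →ₗ[𝕜] X) ≤ Submodule.span 𝕜 (Set.range e) := by
    rintro _ ⟨v, rfl⟩
    change T v ∈ _
    rw [hT v]
    exact Submodule.sum_mem _ fun z _ => Submodule.smul_mem _ _ (Submodule.subset_span ⟨z, rfl⟩)
  have : FiniteDimensional 𝕜 (Submodule.span 𝕜 (Set.range e)) :=
    FiniteDimensional.span_of_finite 𝕜 (Set.finite_range e)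
  exact Submodule.finiteDimensional_of_le h

theorem outer_fail {p q : ℝ≥0∞} [Fact (1 ≤ p)] [Fact (1 ≤ q)] (hpq : p.HolderConjugate q)
    (hq : q ≠ ∞) {X : Type} [NormedAddCommGroup X] [NormedSpace 𝕜 X] {Y : Type}
    [NormedAddCommGroup Y] [NormedSpace 𝕜 Y] [CompleteSpace Y] (V : X →L[𝕜] Y) (C : ℝ)
    (hC : 0 < C)
    (hV : ∀ (n : ℕ) (x : Fin n → X), ∑ k, ‖V (x k)‖ ^ q.toReal ≤ (C * weakNorm 𝕜 q x) ^ q.toReal)
    (β : ℕ → (Y →L[𝕜] X)) (κ : ℕ → Type) [∀ n, Fintype (κ n)]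
    (η : ∀ n, κ n → StrongDual 𝕜 Y) (e : ∀ n, κ n → X)
    (hβ : ∀ n v, β n v = ∑ z, η n z v • e n z) (htr : ∀ n, ∑ z, η n z (V (e n z)) = 1)
    (c : ℕ → ℝ) (hc : Tendsto c atTop (𝓝 0)) (hi : ∀ n, iNorm p (β n) ≤ ENNReal.ofReal (c n))
    (lam : ℝ) : ¬ BAPp 𝕜 p q lam X := by
  intro h
  have h1 : ∀ n, (1 : ℝ≥0∞) ≤ ENNReal.ofReal (C * (max lam 0) * c n) := by
    intro n
    have h2 := le_gNorm hpq hq V C hC hV (β n) (η n) (e n) (hβ n)
    rw [htr n, norm_one, ENNReal.ofReal_one] at h2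
    have h3 := h Y (β n) (finRank_of_rep (β n) (η n) (e n) (hβ n))
    calc (1 : ℝ≥0∞) ≤ ENNReal.ofReal C * gNorm p q (β n) := h2
      _ ≤ ENNReal.ofReal C * (ENNReal.ofReal lam * iNorm p (β n)) := by gcongr
      _ ≤ ENNReal.ofReal C * (ENNReal.ofReal (max lam 0) * ENNReal.ofReal (c n)) := by
          gcongr
          · exact le_max_left _ _
          · exact hi n
      _ = ENNReal.ofReal (C * (max lam 0) * c n) := by
          rw [← ENNReal.ofReal_mul (le_max_right _ _), ← ENNReal.ofReal_mul hC.le, mul_assoc]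
  have h4 : ∀ n, 1 ≤ C * (max lam 0) * c n := by
    intro n
    by_contra hlt
    push Not at hlt
    have := h1 n
    rw [← ENNReal.ofReal_one] at this
    rcases le_or_gt (C * (max lam 0) * c n) 0 with h0 | h0
    · rw [ENNReal.ofReal_of_nonpos h0, ENNReal.ofReal_one] at this
      exact absurd this (by simp)
    · rw [ENNReal.ofReal_le_ofReal_iff h0.le] at this
      linarith
  have h5 : Tendsto (fun n => C * (max lam 0) * c n) atTop (𝓝 0) := by
    simpa using hc.const_mul (C * (max lam 0))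
  have := ge_of_tendsto' h5 h4
  linarith

/-- the summing operator given by bounded coordinate functionals -/
lemma exists_V {q : ℝ≥0∞} [Fact (1 ≤ q)] (hq : q ≠ ∞) {X : Type*} [NormedAddCommGroup X]
    [NormedSpace 𝕜 X] {I : Type} (b : I → StrongDual 𝕜 X) (C₀ : ℝ) (hC₀ : 0 < C₀)
    (hb : ∀ i, ‖b i‖ ≤ C₀) (ω : I → ℝ) (hω : ∀ i, 0 < ω i)
    (hω1 : Summable fun i => ω i ^ q.toReal) :
    ∃ (V : X →L[𝕜] lp (fun _ : I => 𝕜) q) (C : ℝ), 0 < C ∧ (∀ x i, V x i = (ω i : 𝕜) * b i x) ∧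
      ∀ (n : ℕ) (x : Fin n → X), ∑ k, ‖V (x k)‖ ^ q.toReal ≤ (C * weakNorm 𝕜 q x) ^ q.toReal := by
  have hr := toReal_pos_of (Fact.out : 1 ≤ q) hq
  set r := q.toReal with hrdef
  have hle : ∀ x i, ‖(ω i : 𝕜) * b i x‖ ^ r ≤ ω i ^ r * (C₀ * ‖x‖) ^ r := by
    intro x i
    rw [norm_mul, RCLike.norm_ofReal, abs_of_pos (hω i), Real.mul_rpow (hω i).le (norm_nonneg _)]
    have h1 : ‖b i x‖ ≤ C₀ * ‖x‖ := ((b i).le_opNorm x).trans (by gcongr; exact hb i)
    gcongr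
    exact Real.rpow_nonneg (hω i).le _
  have hmem : ∀ x, Memℓp (fun i => (ω i : 𝕜) * b i x) q := by
    intro x
    refine memℓp_gen ?_
    exact Summable.of_nonneg_of_le (fun i => by positivity) (hle x) (hω1.mul_right _)
  let V0 : X →ₗ[𝕜] lp (fun _ : I => 𝕜) q :=
    { toFun := fun x => ⟨_, hmem x⟩
      map_add' := fun x y => by
        apply Subtype.ext; funext i
        change (ω i : 𝕜) * b i (x + y) = (ω i : 𝕜) * b i x + (ω i : 𝕜) * b i y
        rw [map_add, mul_add]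
      map_smul' := fun c x => by
        apply Subtype.ext; funext i
        change (ω i : 𝕜) * b i (c • x) = c * ((ω i : 𝕜) * b i x)
        rw [map_smul, smul_eq_mul]; ring }
  have hV0 : ∀ x i, V0 x i = (ω i : 𝕜) * b i x := fun x i => rfl
  set S := ∑' i, ω i ^ r with hS
  have hS0 : 0 ≤ S := tsum_nonneg fun i => Real.rpow_nonneg (hω i).le _
  have hbd : ∀ x, ‖V0 x‖ ≤ (S ^ (1 / r) * C₀) * ‖x‖ := by
    intro x
    have h1 : ‖V0 x‖ ^ r ≤ ((S ^ (1 / r) * C₀) * ‖x‖) ^ r := by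
      rw [lp.norm_rpow_eq_tsum hr]
      calc ∑' i, ‖V0 x i‖ ^ r ≤ ∑' i, ω i ^ r * (C₀ * ‖x‖) ^ r := by
            refine Summable.tsum_le_tsum (fun i => hle x i) ?_ (hω1.mul_right _)
            exact Summable.of_nonneg_of_le (fun i => by positivity) (hle x) (hω1.mul_right _)
        _ = S * (C₀ * ‖x‖) ^ r := by rw [tsum_mul_right]
        _ = ((S ^ (1 / r) * C₀) * ‖x‖) ^ r := by
            rw [mul_assoc, Real.mul_rpow (Real.rpow_nonneg hS0 _) (by positivity),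
              ← Real.rpow_mul hS0, one_div_mul_cancel hr.ne', Real.rpow_one]
    exact (Real.rpow_le_rpow_iff (norm_nonneg _) (by positivity) hr).mp h1
  refine ⟨V0.mkContinuous _ hbd, (S + 1) ^ (1 / r) * C₀, by positivity, fun x i => rfl, ?_⟩
  intro n x
  have h1 : ∀ k, ‖V0.mkContinuous _ hbd (x k)‖ ^ r = ∑' i, ω i ^ r * ‖b i (x k)‖ ^ r := by
    intro k
    rw [lp.norm_rpow_eq_tsum hr]
    refine tsum_congr fun i => ?_
    change ‖(ω i : 𝕜) * b i (x k)‖ ^ r = _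
    rw [norm_mul, RCLike.norm_ofReal, abs_of_pos (hω i), Real.mul_rpow (hω i).le (norm_nonneg _)]
  simp only [h1]
  have hsm : ∀ k, Summable fun i => ω i ^ r * ‖b i (x k)‖ ^ r := by
    intro k
    refine Summable.of_nonneg_of_le (fun i => by have := (hω i).le; positivity) (fun i => ?_)
      (hω1.mul_right ((C₀ * ‖x k‖) ^ r))
    have h1 : ‖b i (x k)‖ ≤ C₀ * ‖x k‖ := ((b i).le_opNorm _).trans (by gcongr; exact hb i)
    gcongr
    exact Real.rpow_nonneg (hω i).le _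
  rw [← Summable.tsum_finsetSum (fun k _ => hsm k)]
  have h2 : ∀ i, ∑ k, ω i ^ r * ‖b i (x k)‖ ^ r ≤ ω i ^ r * (C₀ * weakNorm 𝕜 q x) ^ r := by
    intro i
    rw [← Finset.mul_sum]
    have h3 := weak_sum_le (𝕜 := 𝕜) hq x (b i)
    have h4 : ‖b i‖ * weakNorm 𝕜 q x ≤ C₀ * weakNorm 𝕜 q x := by
      have := weakNorm_nonneg (𝕜 := 𝕜) q x
      gcongr; exact hb i
    have h5 : (‖b i‖ * weakNorm 𝕜 q x) ^ r ≤ (C₀ * weakNorm 𝕜 q x) ^ r :=
      Real.rpow_le_rpow (mul_nonneg (norm_nonneg _) (weakNorm_nonneg _ _)) h4 hr.le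
    exact mul_le_mul_of_nonneg_left (h3.trans h5) (Real.rpow_nonneg (hω i).le _)
  calc ∑' i, ∑ k, ω i ^ r * ‖b i (x k)‖ ^ r ≤ ∑' i, ω i ^ r * (C₀ * weakNorm 𝕜 q x) ^ r :=
        Summable.tsum_le_tsum h2 (summable_sum fun k _ => hsm k) (hω1.mul_right _)
    _ = S * (C₀ * weakNorm 𝕜 q x) ^ r := by rw [tsum_mul_right]
    _ ≤ (S + 1) * (C₀ * weakNorm 𝕜 q x) ^ r := by
        have := Real.rpow_nonneg (mul_nonneg hC₀.le (weakNorm_nonneg (𝕜 := 𝕜) q x)) r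
        gcongr; linarith
    _ = _ := by
        rw [mul_assoc, Real.mul_rpow (by positivity) (mul_nonneg hC₀.le (weakNorm_nonneg _ _)),
          ← Real.rpow_mul (by positivity), one_div_mul_cancel hr.ne', Real.rpow_one]

/-- upper bound of the `p`-integral norm with summable block bounds -/
lemma iNorm_le_tsum {ι : Type} [Fintype ι] [Nonempty ι] {J : ℕ → ι → Type}
    [∀ k i, Fintype (J k i)] [∀ k i, Nonempty (J k i)] (a b : ℕ → ι → ℝ) (hb : ∀ k i, 0 < b k i)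
    (τ : ℕ → ℝ) (hτ0 : ∀ k, 0 < τ k) (hτ : Summable τ) (hab : ∀ k i, a k i * b k i ≤ τ k)
    {p q : ℝ≥0∞} [Fact (1 ≤ p)] (hpq : p.HolderConjugate q) (hq : q ≠ ∞)
    {Y X : Type*} [NormedAddCommGroup Y] [NormedSpace 𝕜 Y] [NormedAddCommGroup X]
    [NormedSpace 𝕜 X] (T : Y →L[𝕜] X) (y : ∀ k i, J k i → StrongDual 𝕜 Y) (x : ∀ k i, J k i → X)
    (hy : ∀ k i j, ‖y k i j‖ ≤ a k i * (Fintype.card (J k i) : ℝ) ^ (-(1 - 1 / q.toReal)))
    (hx : ∀ k i (f : StrongDual 𝕜 X), ∑ j, ‖f (x k i j)‖ ^ q.toReal ≤ (b k i * ‖f‖) ^ q.toReal)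
    (hT : ∀ (v : Y) (f : StrongDual 𝕜 X),
      HasSum (fun k => ∑ i, ∑ j, y k i j v * f (x k i j)) (f (T v))) :
    iNorm p T ≤ ENNReal.ofReal (Fintype.card ι * ∑' k, τ k) := by
  have hc0 : (0 : ℝ) < Fintype.card ι := by exact_mod_cast Fintype.card_pos
  have ht0 : 0 < ∑' k, τ k := hτ.tsum_pos (fun k => (hτ0 k).le) 0 (hτ0 0)
  refine iNorm_le_blocks (𝕜 := 𝕜) (fun k _ => τ k / (Fintype.card ι * ∑' k, τ k)) a b
    (fun k _ => div_pos (hτ0 k) (mul_pos hc0 ht0)) ?_ hb _ (mul_pos hc0 ht0).le ?_ hpq hq T y x hy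
    hx hT
  · have h1 : (fun k => ∑ _i : ι, τ k / (Fintype.card ι * ∑' k, τ k)) =
        fun k => τ k / ∑' k, τ k := by
      funext k
      rw [Finset.sum_const, Finset.card_univ, nsmul_eq_mul]
      field_simp
    rw [h1]
    have := hτ.hasSum.div_const (∑' k, τ k)
    rwa [div_self ht0.ne'] at this
  · intro k i
    rw [mul_div_cancel₀ _ (mul_pos hc0 ht0).ne']
    exact hab k i

end MP6f
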