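import Mathlib
import Pool.Agent.Lib.MP_6f6997_an.OuterGen

/-!
# Failure of the outer inequality from a telescoping sequence
-/

open MeasureTheory ENNReal Filter Topology

set_option maxSynthPendingDepth 3

noncomputable section

namespace MP6f

variable {𝕜 : Type} [RCLike 𝕜]

/-- a sum over a block, by Hölder -/
lemma sum_le_card_rpow {J : Type*} [Fintype J] [Nonempty J] (u : J → ℝ) (hu : ∀ j, 0 ≤ u j)
    {r B : ℝ} (hr : 1 ≤ r) (hB : 0 ≤ B) (h : ∑ j, u j ^ r ≤ B ^ r) :
    ∑ j, u j ≤ (Fintype.card J : ℝ) ^ (1 - 1 / r) * B := by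
  have hr0 : 0 < r := by linarith
  have hN : (0 : ℝ) < Fintype.card J := by exact_mod_cast Fintype.card_pos
  have h2 : (∑ j, (Fintype.card J : ℝ)⁻¹ * u j) ^ r ≤ ∑ j, (Fintype.card J : ℝ)⁻¹ * u j ^ r := by
    refine Real.rpow_arith_mean_le_arith_mean_rpow Finset.univ _ u (fun _ _ => by positivity) ?_
      (fun j _ => hu j) hr
    rw [Finset.sum_const, Finset.card_univ, nsmul_eq_mul]; field_simp
  rw [← Finset.mul_sum, ← Finset.mul_sum] at h2
  have hS : 0 ≤ ∑ j, u j := Finset.sum_nonneg fun j _ => hu j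
  have h3 : ((Fintype.card J : ℝ)⁻¹ * ∑ j, u j) ^ r ≤ (Fintype.card J : ℝ)⁻¹ * B ^ r :=
    h2.trans (by gcongr)
  have h4 : (Fintype.card J : ℝ)⁻¹ * ∑ j, u j ≤ ((Fintype.card J : ℝ)⁻¹ * B ^ r) ^ (1 / r) := by
    have := Real.rpow_le_rpow (by positivity) h3 (by positivity : 0 ≤ 1 / r)
    rwa [← Real.rpow_mul (by positivity), mul_one_div_cancel hr0.ne', Real.rpow_one] at this
  rw [Real.mul_rpow (by positivity) (by positivity), ← Real.rpow_mul hB,
    mul_one_div_cancel hr0.ne', Real.rpow_one, Real.inv_rpow hN.le] at h4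
  calc ∑ j, u j = (Fintype.card J : ℝ) * ((Fintype.card J : ℝ)⁻¹ * ∑ j, u j) := by
        field_simp
    _ ≤ (Fintype.card J : ℝ) * (((Fintype.card J : ℝ) ^ (1 / r))⁻¹ * B) := by gcongr
    _ = (Fintype.card J : ℝ) ^ (1 - 1 / r) * B := by
        rw [Real.rpow_sub hN, Real.rpow_one]; field_simp

theorem outer_fail_telescope {p q : ℝ≥0∞} [Fact (1 ≤ p)] [Fact (1 ≤ q)]
    (hpq : p.HolderConjugate q) (hq : q ≠ ∞) {X : Type} [NormedAddCommGroup X] [NormedSpace 𝕜 X]
    [CompleteSpace X] {Y : Type} [NormedAddCommGroup Y] [NormedSpace 𝕜 Y] [CompleteSpace Y]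
    (V : X →L[𝕜] Y) (C : ℝ) (hC : 0 < C)
    (hV : ∀ (n : ℕ) (x : Fin n → X), ∑ k, ‖V (x k)‖ ^ q.toReal ≤ (C * weakNorm 𝕜 q x) ^ q.toReal)
    (β : ℕ → (Y →L[𝕜] X)) (κ : ℕ → Type) [∀ n, Fintype (κ n)]
    (η : ∀ n, κ n → StrongDual 𝕜 Y) (e : ∀ n, κ n → X)
    (hβ : ∀ n v, β n v = ∑ z, η n z v • e n z) (htr : ∀ n, ∑ z, η n z (V (e n z)) = 1)
    {ι : Type} [Fintype ι] [Nonempty ι] {J : ℕ → ι → Type}
    [∀ k i, Fintype (J k i)] [∀ k i, Nonempty (J k i)] (a b : ℕ → ι → ℝ) (ha : ∀ k i, 0 ≤ a k i)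
    (hb : ∀ k i, 0 < b k i)
    (τ : ℕ → ℝ) (hτ0 : ∀ k, 0 < τ k) (hτ : Summable τ) (hab : ∀ k i, a k i * b k i ≤ τ k)
    (y : ∀ k i, J k i → StrongDual 𝕜 Y) (x : ∀ k i, J k i → X)
    (hy : ∀ k i j, ‖y k i j‖ ≤ a k i * (Fintype.card (J k i) : ℝ) ^ (-(1 - 1 / q.toReal)))
    (hx : ∀ k i (f : StrongDual 𝕜 X), ∑ j, ‖f (x k i j)‖ ^ q.toReal ≤ (b k i * ‖f‖) ^ q.toReal)
    (htel : ∀ k v, β k v - β (k + 1) v = ∑ i, ∑ j, y k i j v • x k i j)
    {I : Type} (B : I → StrongDual 𝕜 X) (hsep : ∀ w : X, (∀ i, B i w = 0) → w = 0)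
    (hvan : ∀ i v, ∀ᶠ m in atTop, B i (β m v) = 0) (lam : ℝ) : ¬ BAPp 𝕜 p q lam X := by
  classical
  have hr := toReal_pos_of (Fact.out : 1 ≤ q) hq
  have hr1 : 1 ≤ q.toReal := by
    rw [← ENNReal.toReal_one]; exact ENNReal.toReal_mono hq Fact.out
  set r := q.toReal with hrdef
  -- norm of a block
  have hblock : ∀ k v, ‖β k v - β (k + 1) v‖ ≤ (Fintype.card ι * τ k) * ‖v‖ := by
    intro k v
    refine NormedSpace.norm_le_dual_bound 𝕜 _ (by have := (hτ0 k).le; positivity) fun f => ?_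
    rw [htel, map_sum]
    calc ‖∑ i, f (∑ j, y k i j v • x k i j)‖ ≤ ∑ i, ‖f (∑ j, y k i j v • x k i j)‖ := norm_sum_le _ _
      _ ≤ ∑ _i : ι, τ k * ‖v‖ * ‖f‖ := by
          refine Finset.sum_le_sum fun i _ => ?_
          rw [map_sum]
          have hN : (0 : ℝ) < Fintype.card (J k i) := by exact_mod_cast Fintype.card_pos
          calc ‖∑ j, f (y k i j v • x k i j)‖ ≤ ∑ j, ‖f (y k i j v • x k i j)‖ := norm_sum_le _ _
            _ ≤ ∑ j, (a k i * (Fintype.card (J k i) : ℝ) ^ (-(1 - 1 / r)) * ‖v‖) * ‖f (x k i j)‖ := by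
                refine Finset.sum_le_sum fun j _ => ?_
                rw [map_smul, norm_smul]
                gcongr
                exact ((y k i j).le_opNorm v).trans (by gcongr; exact hy k i j)
            _ = (a k i * (Fintype.card (J k i) : ℝ) ^ (-(1 - 1 / r)) * ‖v‖) * ∑ j, ‖f (x k i j)‖ := by
                rw [Finset.mul_sum]
            _ ≤ (a k i * (Fintype.card (J k i) : ℝ) ^ (-(1 - 1 / r)) * ‖v‖) *
                ((Fintype.card (J k i) : ℝ) ^ (1 - 1 / r) * (b k i * ‖f‖)) := by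
                have := ha k i
                gcongr
                exact sum_le_card_rpow _ (fun j => norm_nonneg _) hr1
                  (mul_nonneg (hb k i).le (norm_nonneg _)) (hx k i f)
            _ = (a k i * b k i) * ‖v‖ * ‖f‖ := by
                rw [Real.rpow_neg hN.le]
                have := (Real.rpow_pos_of_pos hN (1 - 1 / r)).ne'
                field_simp
            _ ≤ τ k * ‖v‖ * ‖f‖ := by gcongr; exact hab k i
      _ = (Fintype.card ι * τ k) * ‖v‖ * ‖f‖ := by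
          rw [Finset.sum_const, Finset.card_univ, nsmul_eq_mul]; ring
  -- convergence to zero
  have hlim : ∀ v, Tendsto (fun m => β m v) atTop (𝓝 0) := by
    intro v
    have hsm : Summable fun m => (Fintype.card ι * τ m) * ‖v‖ := (hτ.mul_left _).mul_right _
    have hcau : CauchySeq fun m => β m v := by
      refine cauchySeq_of_dist_le_of_summable _ (fun m => ?_) hsm
      rw [dist_eq_norm]; exact hblock m v
    obtain ⟨w, hw⟩ := cauchySeq_tendsto_of_complete hcau
    have hw0 : w = 0 := by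
      refine hsep w fun i => ?_
      have h1 : Tendsto (fun m => B i (β m v)) atTop (𝓝 (B i w)) :=
        ((B i).continuous.tendsto w).comp hw
      have h2 : Tendsto (fun m => B i (β m v)) atTop (𝓝 0) :=
        (tendsto_congr' (hvan i v)).mpr tendsto_const_nhds
      exact tendsto_nhds_unique h1 h2
    rwa [hw0] at hw
  refine outer_fail hpq hq V C hC hV β κ η e hβ htr
    (fun n => Fintype.card ι * ∑' k, τ (k + n)) ?_ (fun n => ?_) lam
  · have := (tendsto_sum_nat_add τ).const_mul (Fintype.card ι : ℝ)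
    simpa using this
  · refine iNorm_le_tsum (𝕜 := 𝕜) (J := fun k i => J (k + n) i) (fun k i => a (k + n) i)
      (fun k i => b (k + n) i) (fun k i => hb _ _) (fun k => τ (k + n)) (fun k => hτ0 _)
      ((summable_nat_add_iff n).mpr hτ) (fun k i => hab _ _) hpq hq (β n)
      (fun k i j => y (k + n) i j) (fun k i j => x (k + n) i j) (fun k i j => hy _ _ _)
      (fun k i f => hx _ _ f) fun v f => ?_
    have h1 : ∀ k, ∑ i, ∑ j, y (k + n) i j v * f (x (k + n) i j) =
        f (β (k + n) v) - f (β (k + 1 + n) v) := by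
      intro k
      have h2 : k + 1 + n = k + n + 1 := by ring
      rw [h2, ← map_sub, htel, map_sum]
      refine Finset.sum_congr rfl fun i _ => ?_
      rw [map_sum]
      exact Finset.sum_congr rfl fun j _ => by rw [map_smul, smul_eq_mul]
    simp only [h1]
    have hsm : Summable fun k => f (β (k + n) v) - f (β (k + 1 + n) v) := by
      refine Summable.of_norm_bounded (g := fun k => ‖f‖ * ((Fintype.card ι * τ (k + n)) * ‖v‖))
        ((((summable_nat_add_iff n).mpr hτ).mul_left _).mul_right _ |>.mul_left _) fun k => ?_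
      have h2 : k + 1 + n = k + n + 1 := by ring
      rw [h2, ← map_sub]
      exact (f.le_opNorm _).trans (by gcongr; exact hblock _ v)
    refine hsm.hasSum_iff_tendsto_nat.mpr ?_
    have h3 : ∀ m, ∑ k ∈ Finset.range m, (f (β (k + n) v) - f (β (k + 1 + n) v)) =
        f (β n v) - f (β (m + n) v) := by
      intro m
      rw [Finset.sum_range_sub' (fun k => f (β (k + n) v)) m]; simp
    simp only [h3]
    have h4 : Tendsto (fun m => f (β (m + n) v)) atTop (𝓝 0) := by
      have h5 : Tendsto (fun m => f (β m v)) atTop (𝓝 (f 0)) :=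
        (f.continuous.tendsto 0).comp (hlim v)
      rw [map_zero] at h5
      exact h5.comp (tendsto_add_atTop_nat n)
    simpa using h4.const_sub (f (β n v))

end MP6f
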