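import Mathlib
import Pool.Agent.Lib.MP_6f6997_an.LowRows
import Pool.Agent.Lib.MP_6f6997_an.Telescope

/-!
# The space for `1 < p < 2`: a quotient of `ℓ_p`
-/

open MeasureTheory ENNReal Filter Topology Finset

set_option maxSynthPendingDepth 3

noncomputable section

namespace MP6f

variable (𝕜 : Type) [RCLike 𝕜]

instance : Countable Idx := by unfold Idx; infer_instance

/-- the finite set of indices of levels `< n` -/
def lev (n : ℕ) : Finset Idx := (range n).sigma fun _ => univ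

lemma mem_lev (n : ℕ) (g : Idx) : g ∈ lev n ↔ g.1 < n := by simp [lev]

/-- the rows -/
def zvec (q : ℝ≥0∞) (h : Idx) : lp (fun _ : Idx => 𝕜) q :=
  ⟨fun g => ((Zm h g / eps q.toReal g.1 : ℝ) : 𝕜), by
    refine (memℓp_zero ?_).of_exponent_ge zero_le
    refine Set.Finite.subset (lev (h.1 + 2)).finite_toSet fun g hg => ?_
    simp only [Finset.mem_coe, mem_lev]
    by_contra hlt
    push Not at hlt
    obtain ⟨n, h⟩ := h
    obtain ⟨k, g⟩ := g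
    exact hg (by simp [Zm_far' n k h g hlt])⟩

lemma zvec_apply (q : ℝ≥0∞) (h g : Idx) :
    zvec 𝕜 q h g = ((Zm h g / eps q.toReal g.1 : ℝ) : 𝕜) := rfl

lemma norm_zvec_le {q : ℝ≥0∞} (hq : 2 ≤ q.toReal) (h : Idx) :
    ‖zvec 𝕜 q h‖ ≤ C0 q.toReal ^ (1 / q.toReal) := by
  have hr0 : 0 < q.toReal := by linarith
  have hC := C0_pos q.toReal
  refine lp.norm_le_of_forall_sum_le hr0 (by positivity) fun s => ?_
  rw [← Real.rpow_mul hC.le, one_div_mul_cancel hr0.ne', Real.rpow_one]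
  obtain ⟨n, h⟩ := h
  have h1 : ∀ g : Idx, ‖zvec 𝕜 q ⟨n, h⟩ g‖ ^ q.toReal =
      |Zm ⟨n, h⟩ g / eps q.toReal g.1| ^ q.toReal := by
    intro g; rw [zvec_apply, RCLike.norm_ofReal]
  simp only [h1]
  have h2 : ∑ g ∈ lev (n + 2), |Zm ⟨n, h⟩ g / eps q.toReal g.1| ^ q.toReal ≤ C0 q.toReal := by
    unfold lev; rw [sum_sigma]; exact row_sum_le hq n h
  refine le_trans ?_ h2
  calc ∑ g ∈ s, |Zm ⟨n, h⟩ g / eps q.toReal g.1| ^ q.toReal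
      ≤ ∑ g ∈ s ∪ lev (n + 2), |Zm ⟨n, h⟩ g / eps q.toReal g.1| ^ q.toReal :=
        sum_le_sum_of_subset_of_nonneg subset_union_left fun _ _ _ => by positivity
    _ = ∑ g ∈ lev (n + 2), |Zm ⟨n, h⟩ g / eps q.toReal g.1| ^ q.toReal := by
        symm
        refine sum_subset subset_union_right fun g _ hg => ?_
        rw [mem_lev] at hg
        push Not at hg
        obtain ⟨k, g⟩ := g
        rw [Zm_far' n k h g hg]; simp [Real.zero_rpow hr0.ne']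

variable (p q : ℝ≥0∞) [Fact (1 ≤ p)] [Fact (1 ≤ q)] [p.HolderConjugate q]

abbrev Lsp : Type := lp (fun _ : Idx => 𝕜) p

/-- the functional given by an element of `ℓ_q` -/
def pair : lp (fun _ : Idx => 𝕜) q →L[𝕜] (Lsp 𝕜 p →L[𝕜] 𝕜) :=
  haveI : q.HolderConjugate p := ENNReal.HolderConjugate.symm
  lp.dualPairing q p (fun _ => ContinuousLinearMap.mul 𝕜 𝕜) (K := 1)
    fun _ => ContinuousLinearMap.opNorm_mul_le 𝕜 𝕜

lemma pair_apply (z : lp (fun _ : Idx => 𝕜) q) (f : Lsp 𝕜 p) :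
    pair 𝕜 p q z f = ∑' g, z g * f g := rfl

lemma norm_pair_le (z : lp (fun _ : Idx => 𝕜) q) : ‖pair 𝕜 p q z‖ ≤ ‖z‖ := by
  have : q.HolderConjugate p := ENNReal.HolderConjugate.symm
  have h := lp.norm_dualPairing (p := q) (q := p) (fun _ : Idx => ContinuousLinearMap.mul 𝕜 𝕜)
    (K := 1) fun _ => ContinuousLinearMap.opNorm_mul_le 𝕜 𝕜
  calc ‖pair 𝕜 p q z‖ ≤ ‖pair 𝕜 p q‖ * ‖z‖ := (pair 𝕜 p q).le_opNorm z
    _ ≤ 1 * ‖z‖ := by gcongr; exact h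
    _ = ‖z‖ := one_mul _

/-- the subspace annihilated by the rows -/
def Ksp : Submodule 𝕜 (Lsp 𝕜 p) := ⨅ h : Idx, LinearMap.ker (pair 𝕜 p q (zvec 𝕜 q h)).toLinearMap

instance isClosed_Ksp : IsClosed (Ksp 𝕜 p q : Set (Lsp 𝕜 p)) := by
  unfold Ksp
  rw [Submodule.coe_iInf]
  exact isClosed_iInter fun h => (pair 𝕜 p q (zvec 𝕜 q h)).isClosed_ker

lemma mem_Ksp (f : Lsp 𝕜 p) : f ∈ Ksp 𝕜 p q ↔ ∀ h, pair 𝕜 p q (zvec 𝕜 q h) f = 0 := by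
  unfold Ksp; simp [Submodule.mem_iInf]

/-- the space -/
abbrev Xlow : Type := Lsp 𝕜 p ⧸ Ksp 𝕜 p q

lemma norm_lift_le {L : Type*} [NormedAddCommGroup L] [NormedSpace 𝕜 L] (K : Submodule 𝕜 L)
    (φ : L →L[𝕜] 𝕜) (h : K ≤ φ.ker) : ‖K.liftQL φ h‖ ≤ ‖φ‖ := by
  refine ContinuousLinearMap.opNorm_le_bound _ (norm_nonneg _) fun x => ?_
  refine le_of_forall_pos_le_add fun ε hε => ?_
  have hε' : 0 < ε / (‖φ‖ + 1) := by positivity
  obtain ⟨m, hm, hm2⟩ := Submodule.Quotient.norm_mk_lt x hε'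
  rw [← hm]
  change ‖φ m‖ ≤ _
  rw [hm]
  calc ‖φ m‖ ≤ ‖φ‖ * ‖m‖ := φ.le_opNorm m
    _ ≤ ‖φ‖ * (‖x‖ + ε / (‖φ‖ + 1)) := by gcongr
    _ = ‖φ‖ * ‖x‖ + ‖φ‖ * (ε / (‖φ‖ + 1)) := by ring
    _ ≤ ‖φ‖ * ‖x‖ + ε := by
        gcongr
        rw [mul_div_assoc', div_le_iff₀ (by positivity)]
        nlinarith [norm_nonneg φ]

/-- the functionals `b_h` on the quotient -/
def bX (h : Idx) : StrongDual 𝕜 (Xlow 𝕜 p q) :=
  (Ksp 𝕜 p q).liftQL (pair 𝕜 p q (zvec 𝕜 q h)) (by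
    intro f hf
    exact (mem_Ksp 𝕜 p q f).mp hf h)

lemma bX_mk (h : Idx) (f : Lsp 𝕜 p) :
    bX 𝕜 p q h ((Ksp 𝕜 p q).mkQL f) = pair 𝕜 p q (zvec 𝕜 q h) f := rfl

lemma norm_bX_le (hq : 2 ≤ q.toReal) (h : Idx) : ‖bX 𝕜 p q h‖ ≤ C0 q.toReal ^ (1 / q.toReal) :=
  (norm_lift_le 𝕜 _ _ _).trans ((norm_pair_le 𝕜 p q _).trans (norm_zvec_le 𝕜 hq h))

lemma bX_sep (x : Xlow 𝕜 p q) (hx : ∀ h, bX 𝕜 p q h x = 0) : x = 0 := by
  obtain ⟨f, rfl⟩ := Submodule.Quotient.mk_surjective _ x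
  rw [Submodule.Quotient.mk_eq_zero, mem_Ksp]
  exact fun h => hx h

/-- the images of the unit vectors -/
def dX (g : Idx) : Xlow 𝕜 p q := (Ksp 𝕜 p q).mkQL (lp.single p g (1 : 𝕜))

lemma pair_single (z : lp (fun _ : Idx => 𝕜) q) (g : Idx) :
    pair 𝕜 p q z (lp.single p g (1 : 𝕜)) = z g := by
  rw [pair_apply, tsum_eq_single g]
  · rw [lp.single_apply_self, mul_one]
  · intro k hk
    rw [lp.single_apply_ne _ _ _ hk, mul_zero]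

lemma bX_dX (h g : Idx) : bX 𝕜 p q h (dX 𝕜 p q g) = ((Zm h g / eps q.toReal g.1 : ℝ) : 𝕜) := by
  unfold dX; rw [bX_mk, pair_single, zvec_apply]

/-- the small vectors -/
def PhiX (g : Idx) : Xlow 𝕜 p q := ((eps q.toReal g.1 : ℝ) : 𝕜) • dX 𝕜 p q g

lemma bX_PhiX (h g : Idx) : bX 𝕜 p q h (PhiX 𝕜 p q g) = ((Zm h g : ℝ) : 𝕜) := by
  unfold PhiX
  rw [map_smul, bX_dX, smul_eq_mul, ← RCLike.ofReal_mul, mul_div_cancel₀ _ (eps_pos _ _).ne']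

/-- the basis vectors of the model -/
def aX (n : ℕ) (z : Q (n + 1)) : Xlow 𝕜 p q := ∑ g : G n, ((um n g z : ℝ) : 𝕜) • PhiX 𝕜 p q ⟨n, g⟩

lemma bX_aX (h : Idx) (n : ℕ) (z : Q (n + 1)) :
    bX 𝕜 p q h (aX 𝕜 p q n z) = ((bf h (Pi.single (n + 1) (Pi.single z 1)) : ℝ) : 𝕜) := by
  unfold aX
  rw [map_sum, ← Zm_sum_um, RCLike.ofReal_sum]
  refine sum_congr rfl fun g _ => ?_
  rw [map_smul, bX_PhiX, smul_eq_mul, RCLike.ofReal_mul]

lemma single_eq_sum (n : ℕ) (w : Q n → ℝ) :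
    (Pi.single n w : ∀ n, Q n → ℝ) =
      ∑ z, w z • (Pi.single n (Pi.single z 1) : ∀ n, Q n → ℝ) := by
  rw [← single_sum_smul]
  congr 1
  funext y
  simp [Finset.sum_apply, Pi.single_apply]

/-- expansion of the small vectors -/
lemma PhiX_eq (n : ℕ) (g : G (n + 1)) :
    PhiX 𝕜 p q ⟨n + 1, g⟩ = ∑ z, ((um (n + 1) g z : ℝ) : 𝕜) • aX 𝕜 p q (n + 1) z -
      (2 : 𝕜) • ∑ z, ((vm (n + 1) g z : ℝ) : 𝕜) • aX 𝕜 p q n z := by
  rw [← sub_eq_zero]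
  refine bX_sep 𝕜 p q _ fun h => ?_
  rw [map_sub, map_sub, bX_PhiX, map_smul, map_sum, map_sum, sub_eq_zero]
  have h1 : ∑ z, bX 𝕜 p q h (((um (n + 1) g z : ℝ) : 𝕜) • aX 𝕜 p q (n + 1) z) =
      ((bf h (Pi.single (n + 1 + 1) (um (n + 1) g)) : ℝ) : 𝕜) := by
    rw [single_eq_sum (n + 1 + 1), map_sum, RCLike.ofReal_sum]
    refine sum_congr rfl fun z _ => ?_
    rw [map_smul, map_smul, bX_aX, smul_eq_mul, smul_eq_mul, RCLike.ofReal_mul]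
  have h2 : ∑ z, bX 𝕜 p q h (((vm (n + 1) g z : ℝ) : 𝕜) • aX 𝕜 p q n z) =
      ((bf h (Pi.single (n + 1) (vm (n + 1) g)) : ℝ) : 𝕜) := by
    rw [single_eq_sum (n + 1), map_sum, RCLike.ofReal_sum]
    refine sum_congr rfl fun z _ => ?_
    rw [map_smul, map_smul, bX_aX, smul_eq_mul, smul_eq_mul, RCLike.ofReal_mul]
  rw [h1, h2, Zm_eq, smul_eq_mul]
  push_cast
  rfl

/-- the relation between the functionals of consecutive levels -/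
lemma bX_rel (n : ℕ) (z : Q (n + 1)) (x : Xlow 𝕜 p q) :
    ∑ h : G n, ((um n h z : ℝ) : 𝕜) * bX 𝕜 p q ⟨n, h⟩ x =
      ∑ h : G (n + 1), ((vm (n + 1) h z : ℝ) : 𝕜) * bX 𝕜 p q ⟨n + 1, h⟩ x := by
  obtain ⟨f, rfl⟩ := Submodule.Quotient.mk_surjective _ x
  have h1 : ∑ h : G n, ((um n h z : ℝ) : 𝕜) • zvec 𝕜 q ⟨n, h⟩ =
      ∑ h : G (n + 1), ((vm (n + 1) h z : ℝ) : 𝕜) • zvec 𝕜 q ⟨n + 1, h⟩ := by
    apply lp.ext
    funext g
    rw [lp.coeFn_sum, lp.coeFn_sum, Finset.sum_apply, Finset.sum_apply]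
    have h2 := sum_um_Zm n z g
    simp only [lp.coeFn_smul, Pi.smul_apply, zvec_apply, smul_eq_mul]
    simp only [← RCLike.ofReal_mul, ← RCLike.ofReal_sum, mul_div_assoc', ← sum_div]
    rw [h2]
  have h3 := congrArg (fun w => pair 𝕜 p q w f) h1
  simp only [map_sum, map_smul, _root_.sum_apply, _root_.smul_apply, smul_eq_mul] at h3
  exact h3

end MP6f
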