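import Mathlib
import Pool.Agent.Lib.MP_6f6997_an.LowSpace
import Pool.Agent.Lib.MP_6f6997_an.LpDual

/-!
# The outer inequality fails for the space `Xlow`, `1 < p < 2`
-/

open MeasureTheory ENNReal Filter Topology Finset

set_option maxSynthPendingDepth 3

noncomputable section

namespace MP6f

variable (𝕜 : Type) [RCLike 𝕜]

lemma card_Q (n : ℕ) : Fintype.card (Q n) = 2 ^ n := by simp [Q]

lemma card_G (n : ℕ) : Fintype.card (G n) = 2 ^ n * 3 := by simp [G, Q]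

/-- the weights -/
def wt (r : ℝ) (n : ℕ) : ℝ := (((2 : ℝ) ^ n * 3) * ((n : ℝ) + 1) ^ 2) ^ (-(1 / r))

lemma wt_pos (r : ℝ) (n : ℕ) : 0 < wt r n := Real.rpow_pos_of_pos (by positivity) _

lemma wt_rpow {r : ℝ} (hr : 0 < r) (n : ℕ) :
    wt r n ^ r = (((2 : ℝ) ^ n * 3) * ((n : ℝ) + 1) ^ 2)⁻¹ := by
  unfold wt
  rw [← Real.rpow_mul (by positivity), ← Real.rpow_neg_one]
  congr 1; field_simp

lemma wt_summable {r : ℝ} (hr : 0 < r) : Summable fun g : Idx => wt r g.1 ^ r := by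
  rw [summable_sigma_of_nonneg (fun g => by have := (wt_pos r g.1).le; positivity)]
  refine ⟨fun n => Summable.of_finite, ?_⟩
  have h1 : ∀ n : ℕ, ∑' _g : G n, wt r n ^ r = 1 / ((n : ℝ) + 1) ^ 2 := by
    intro n
    rw [tsum_fintype, Finset.sum_const, Finset.card_univ, nsmul_eq_mul, card_G, wt_rpow hr]
    push_cast
    field_simp
  simp only [h1]
  have := (summable_nat_add_iff 1).mpr (Real.summable_one_div_nat_pow.mpr (by norm_num : 1 < 2))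
  simpa using this

variable (p q : ℝ≥0∞) [Fact (1 ≤ p)] [Fact (1 ≤ q)] [p.HolderConjugate q]

/-- the coordinate functional `y ↦ ω⁻¹ y_h` -/
def ct (h : Idx) : lp (fun _ : Idx => 𝕜) q →L[𝕜] 𝕜 :=
  (((wt q.toReal h.1)⁻¹ : ℝ) : 𝕜) • lp.evalCLM 𝕜 (fun _ : Idx => 𝕜) q h

lemma ct_apply (h : Idx) (y : lp (fun _ : Idx => 𝕜) q) :
    ct 𝕜 q h y = (((wt q.toReal h.1)⁻¹ : ℝ) : 𝕜) * y h := rfl

lemma norm_ct_le (h : Idx) : ‖ct 𝕜 q h‖ ≤ (wt q.toReal h.1)⁻¹ := by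
  have h0 := inv_pos.mpr (wt_pos q.toReal h.1)
  refine ContinuousLinearMap.opNorm_le_bound _ h0.le fun y => ?_
  rw [ct_apply, norm_mul, RCLike.norm_ofReal, abs_of_pos h0]
  gcongr
  exact lp.norm_apply_le_norm (zero_lt_one.trans_le Fact.out).ne' y h

/-- the relation functional -/
def rel (w : Σ n : ℕ, Q (n + 1)) : lp (fun _ : Idx => 𝕜) q →L[𝕜] 𝕜 :=
  ∑ h : G w.1, ((um w.1 h w.2 : ℝ) : 𝕜) • ct 𝕜 q ⟨w.1, h⟩ -
    ∑ h : G (w.1 + 1), ((vm (w.1 + 1) h w.2 : ℝ) : 𝕜) • ct 𝕜 q ⟨w.1 + 1, h⟩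

/-- the space `Y` -/
def Ylow : Submodule 𝕜 (lp (fun _ : Idx => 𝕜) q) :=
  ⨅ w : Σ n : ℕ, Q (n + 1), LinearMap.ker (rel 𝕜 q w).toLinearMap

lemma isClosed_Ylow : IsClosed (Ylow 𝕜 q : Set (lp (fun _ : Idx => 𝕜) q)) := by
  unfold Ylow
  rw [Submodule.coe_iInf]
  exact isClosed_iInter fun h => (rel 𝕜 q h).isClosed_ker

instance : CompleteSpace (Ylow 𝕜 q) := (isClosed_Ylow 𝕜 q).completeSpace_coe

lemma mem_Ylow (y : lp (fun _ : Idx => 𝕜) q) : y ∈ Ylow 𝕜 q ↔ ∀ w, rel 𝕜 q w y = 0 := by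
  unfold Ylow; simp [Submodule.mem_iInf]

lemma rel_apply (w : Σ n : ℕ, Q (n + 1)) (y : lp (fun _ : Idx => 𝕜) q) :
    rel 𝕜 q w y = ∑ h : G w.1, ((um w.1 h w.2 : ℝ) : 𝕜) * ct 𝕜 q ⟨w.1, h⟩ y -
      ∑ h : G (w.1 + 1), ((vm (w.1 + 1) h w.2 : ℝ) : 𝕜) * ct 𝕜 q ⟨w.1 + 1, h⟩ y := by
  unfold rel
  simp only [_root_.sub_apply, _root_.sum_apply, _root_.smul_apply, smul_eq_mul]

/-- the coordinate functionals of the model on `Y` -/
def etaY (n : ℕ) (z : Q (n + 1)) : StrongDual 𝕜 (Ylow 𝕜 q) :=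
  (∑ h : G n, ((um n h z : ℝ) : 𝕜) • ct 𝕜 q ⟨n, h⟩).comp (Ylow 𝕜 q).subtypeL

lemma etaY_apply (n : ℕ) (z : Q (n + 1)) (y : Ylow 𝕜 q) :
    etaY 𝕜 q n z y = ∑ h : G n, ((um n h z : ℝ) : 𝕜) * ct 𝕜 q ⟨n, h⟩ (y : lp (fun _ : Idx => 𝕜) q) := by
  unfold etaY
  simp only [ContinuousLinearMap.comp_apply, _root_.sum_apply, _root_.smul_apply, smul_eq_mul,
    Submodule.subtypeL_apply]

lemma etaY_apply' (n : ℕ) (z : Q (n + 1)) (y : Ylow 𝕜 q) :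
    etaY 𝕜 q n z y = ∑ h : G (n + 1), ((vm (n + 1) h z : ℝ) : 𝕜) *
      ct 𝕜 q ⟨n + 1, h⟩ (y : lp (fun _ : Idx => 𝕜) q) := by
  rw [etaY_apply]
  have h := (mem_Ylow 𝕜 q y.1).mp y.2 ⟨n, z⟩
  rw [rel_apply, sub_eq_zero] at h
  exact h

/-- the telescoping operators -/
def betaL (n : ℕ) : Ylow 𝕜 q →L[𝕜] Xlow 𝕜 p q :=
  ∑ z : Q (n + 1), ((((2 : ℝ) ^ (n + 1))⁻¹ : ℝ) : 𝕜) • (etaY 𝕜 q n z).smulRight (aX 𝕜 p q n z)

lemma betaL_apply (n : ℕ) (y : Ylow 𝕜 q) :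
    betaL 𝕜 p q n y = ((((2 : ℝ) ^ (n + 1))⁻¹ : ℝ) : 𝕜) •
      ∑ z : Q (n + 1), etaY 𝕜 q n z y • aX 𝕜 p q n z := by
  unfold betaL
  simp only [_root_.sum_apply, _root_.smul_apply, ContinuousLinearMap.smulRight_apply, smul_sum]

lemma sum_ct_PhiX (n : ℕ) (y : Ylow 𝕜 q) :
    ∑ g : G (n + 1), ct 𝕜 q ⟨n + 1, g⟩ (y : lp (fun _ : Idx => 𝕜) q) • PhiX 𝕜 p q ⟨n + 1, g⟩ =
      ∑ z, etaY 𝕜 q (n + 1) z y • aX 𝕜 p q (n + 1) z -
        (2 : 𝕜) • ∑ z, etaY 𝕜 q n z y • aX 𝕜 p q n z := by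
  simp only [PhiX_eq, smul_sub, sum_sub_distrib]
  congr 1
  · simp only [smul_sum, smul_smul]
    rw [Finset.sum_comm]
    refine sum_congr rfl fun z _ => ?_
    rw [← sum_smul, etaY_apply]
    congr 1
    exact sum_congr rfl fun g _ => mul_comm _ _
  · simp only [smul_sum, smul_smul]
    rw [Finset.sum_comm]
    refine sum_congr rfl fun z _ => ?_
    rw [← sum_smul, etaY_apply', mul_sum]
    congr 1
    exact sum_congr rfl fun g _ => by ring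

lemma betaL_tel (n : ℕ) (y : Ylow 𝕜 q) :
    betaL 𝕜 p q n y - betaL 𝕜 p q (n + 1) y =
      ∑ g : G (n + 1), (-((((2 : ℝ) ^ (n + 2))⁻¹ : ℝ) : 𝕜) *
        ct 𝕜 q ⟨n + 1, g⟩ (y : lp (fun _ : Idx => 𝕜) q)) • PhiX 𝕜 p q ⟨n + 1, g⟩ := by
  have h1 : ∑ g : G (n + 1), (-((((2 : ℝ) ^ (n + 2))⁻¹ : ℝ) : 𝕜) *
        ct 𝕜 q ⟨n + 1, g⟩ (y : lp (fun _ : Idx => 𝕜) q)) • PhiX 𝕜 p q ⟨n + 1, g⟩ =
      (-((((2 : ℝ) ^ (n + 2))⁻¹ : ℝ) : 𝕜)) •
      ∑ g : G (n + 1), ct 𝕜 q ⟨n + 1, g⟩ (y : lp (fun _ : Idx => 𝕜) q) • PhiX 𝕜 p q ⟨n + 1, g⟩ := by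
    rw [smul_sum]; exact sum_congr rfl fun g _ => by rw [smul_smul]
  rw [h1, sum_ct_PhiX, betaL_apply, betaL_apply, smul_sub, smul_smul]
  have h2 : (-((((2 : ℝ) ^ (n + 2))⁻¹ : ℝ) : 𝕜)) * 2 = -((((2 : ℝ) ^ (n + 1))⁻¹ : ℝ) : 𝕜) := by
    push_cast
    rw [pow_succ (2 : 𝕜) (n + 1)]
    have : (2 : 𝕜) ≠ 0 := two_ne_zero
    field_simp
  rw [h2]
  simp only [neg_smul]
  abel

lemma bX_betaL (h : Idx) (n : ℕ) (y : Ylow 𝕜 q) (hn : h.1 < n) :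
    bX 𝕜 p q h (betaL 𝕜 p q n y) = 0 := by
  rw [betaL_apply, map_smul, map_sum]
  obtain ⟨m, h⟩ := h
  simp only at hn
  rw [Finset.sum_eq_zero, smul_zero]
  intro z _
  rw [map_smul, bX_aX, bf_single_ne m (n + 1) h _ (by omega) (by omega)]
  simp

lemma eps_le {r : ℝ} (hr : 2 < r) : ∃ C θ : ℝ, 0 ≤ θ ∧ θ < 1 ∧ 0 < C ∧
    ∀ n, eps r n ≤ C * θ ^ n := by
  set ρ : ℝ := (2 : ℝ) ^ (1 / r - 1 / 2) with hρ
  have hρ0 : 0 < ρ := Real.rpow_pos_of_pos (by norm_num) _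
  have hρ1 : ρ < 1 := by
    refine Real.rpow_lt_one_of_one_lt_of_neg (by norm_num) ?_
    have : 1 / r < 1 / 2 := one_div_lt_one_div_of_lt (by norm_num) hr
    linarith
  refine ⟨ρ ^ (-(32 / 9) : ℝ), ρ ^ (4 / 9 : ℝ), by positivity, ?_, by positivity, fun n => ?_⟩
  · exact Real.rpow_lt_one hρ0.le hρ1 (by norm_num)
  · unfold eps
    rw [← hρ, ← Real.rpow_natCast, ← Real.rpow_natCast, ← Real.rpow_mul hρ0.le, ← Real.rpow_add hρ0]
    refine Real.rpow_le_rpow_of_exponent_ge hρ0 hρ1.le ?_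
    have h1 : n ≤ 9 * (n / 9) + 8 := by omega
    have h2 : (n : ℝ) ≤ 9 * ((n / 9 : ℕ) : ℝ) + 8 := by exact_mod_cast h1
    push_cast
    linarith

lemma tau_summable {r : ℝ} (hr : 2 < r) :
    Summable fun k : ℕ => 3 / 2 * ((k : ℝ) + 2) ^ (2 / r) * eps r (k + 1) := by
  obtain ⟨C, θ, hθ0, hθ1, hC, hle⟩ := eps_le hr
  have h1 : Summable fun k : ℕ => (k : ℝ) ^ 1 * θ ^ k :=
    summable_pow_mul_geometric_of_norm_lt_one 1 (by rw [Real.norm_eq_abs, abs_of_nonneg hθ0]; exact hθ1)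
  have h2 : Summable fun k : ℕ => θ ^ k := summable_geometric_of_lt_one hθ0 hθ1
  have h3 : Summable fun k : ℕ => (3 / 2 * C * θ) * ((k : ℝ) ^ 1 * θ ^ k + 2 * θ ^ k) :=
    (h1.add (h2.mul_left 2)).mul_left _
  refine Summable.of_nonneg_of_le (fun k => ?_) (fun k => ?_) h3
  · have := eps_pos r (k + 1); positivity
  · have h4 : ((k : ℝ) + 2) ^ (2 / r) ≤ (k : ℝ) + 2 := by
      calc ((k : ℝ) + 2) ^ (2 / r) ≤ ((k : ℝ) + 2) ^ (1 : ℝ) := by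
            refine Real.rpow_le_rpow_of_exponent_le (by linarith [(Nat.cast_nonneg k : (0 : ℝ) ≤ k)]) ?_
            rw [div_le_one (by linarith)]; exact hr.le
        _ = (k : ℝ) + 2 := Real.rpow_one _
    have h5 := eps_pos r (k + 1)
    calc 3 / 2 * ((k : ℝ) + 2) ^ (2 / r) * eps r (k + 1)
        ≤ 3 / 2 * ((k : ℝ) + 2) * (C * θ ^ (k + 1)) := by
          gcongr
          exact hle _
      _ = _ := by rw [pow_succ]; ring

theorem low_outer_fails (hp : p ≠ ∞) (hq : q ≠ ∞) (hq2 : 2 < q.toReal) (lam : ℝ) :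
    ¬ BAPp 𝕜 p q lam (Xlow 𝕜 p q) := by
  classical
  have hpq : p.HolderConjugate q := inferInstance
  have hr : 0 < q.toReal := by linarith
  have hC := C0_pos q.toReal
  obtain ⟨V0, C, hC0, hV1, hV2⟩ := exists_V (𝕜 := 𝕜) hq (bX 𝕜 p q) (C0 q.toReal ^ (1 / q.toReal))
    (by positivity) (norm_bX_le 𝕜 p q hq2.le) (fun g => wt q.toReal g.1) (fun g => wt_pos _ _)
    (wt_summable hr)
  have hct : ∀ (x : Xlow 𝕜 p q) (h : Idx), ct 𝕜 q h (V0 x) = bX 𝕜 p q h x := by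
    intro x h
    rw [ct_apply, hV1, ← mul_assoc, ← RCLike.ofReal_mul, inv_mul_cancel₀ (wt_pos _ _).ne']
    simp
  have hmem : ∀ x, V0 x ∈ Ylow 𝕜 q := by
    intro x
    rw [mem_Ylow]
    rintro ⟨n, z⟩
    rw [rel_apply, sub_eq_zero]
    simp only [hct]
    exact bX_rel 𝕜 p q n z x
  let V : Xlow 𝕜 p q →L[𝕜] Ylow 𝕜 q := V0.codRestrict (Ylow 𝕜 q) hmem
  have hVn : ∀ x, ‖V x‖ = ‖V0 x‖ := fun x => rfl
  refine outer_fail_telescope (𝕜 := 𝕜) hpq hq V C hC0 (fun n x => by simpa only [hVn] using hV2 n x)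
    (betaL 𝕜 p q) (fun n => Q (n + 1))
    (fun n z => ((((2 : ℝ) ^ (n + 1))⁻¹ : ℝ) : 𝕜) • etaY 𝕜 q n z) (fun n z => aX 𝕜 p q n z)
    ?_ ?_ (ι := Unit) (J := fun k _ => G (k + 1))
    (fun k _ => 3 / 2 * ((k : ℝ) + 2) ^ (2 / q.toReal)) (fun k _ => eps q.toReal (k + 1))
    (fun k _ => by positivity) (fun k _ => eps_pos _ _)
    (fun k => 3 / 2 * ((k : ℝ) + 2) ^ (2 / q.toReal) * eps q.toReal (k + 1))
    (fun k => by have := eps_pos q.toReal (k + 1); positivity) (tau_summable hq2)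
    (fun k _ => le_rfl)
    (fun k _ g => (-((((2 : ℝ) ^ (k + 2))⁻¹ : ℝ) : 𝕜)) • (ct 𝕜 q ⟨k + 1, g⟩).comp (Ylow 𝕜 q).subtypeL)
    (fun k _ g => PhiX 𝕜 p q ⟨k + 1, g⟩) ?_ ?_ ?_ (bX 𝕜 p q) (bX_sep 𝕜 p q) ?_ lam
  · intro n v
    rw [betaL_apply, smul_sum]
    refine sum_congr rfl fun z _ => ?_
    rw [_root_.smul_apply, smul_smul, smul_eq_mul]
  · intro n
    have h1 : ∀ z : Q (n + 1), etaY 𝕜 q n z (V (aX 𝕜 p q n z)) = 1 := by
      intro z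
      rw [etaY_apply]
      have h2 : ((V (aX 𝕜 p q n z) : Ylow 𝕜 q) : lp (fun _ : Idx => 𝕜) q) = V0 (aX 𝕜 p q n z) := rfl
      rw [h2]
      simp only [hct, bX_aX]
      have h3 := sum_um_bf n z (Pi.single (n + 1) (Pi.single z 1))
      rw [Pi.single_eq_same, Pi.single_eq_same] at h3
      have h4 := congrArg (fun t : ℝ => (t : 𝕜)) h3
      push_cast at h4
      simpa using h4
    calc ∑ z : Q (n + 1), (((((2 : ℝ) ^ (n + 1))⁻¹ : ℝ) : 𝕜) • etaY 𝕜 q n z) (V (aX 𝕜 p q n z))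
        = ∑ _z : Q (n + 1), ((((2 : ℝ) ^ (n + 1))⁻¹ : ℝ) : 𝕜) := by
          refine sum_congr rfl fun z _ => ?_
          rw [_root_.smul_apply, h1, smul_eq_mul, mul_one]
      _ = 1 := by
          rw [Finset.sum_const, Finset.card_univ, card_Q, nsmul_eq_mul]
          push_cast
          exact mul_inv_cancel₀ (pow_ne_zero _ two_ne_zero)
  · intro k _ g
    have h1 : ‖(ct 𝕜 q ⟨k + 1, g⟩).comp (Ylow 𝕜 q).subtypeL‖ ≤ (wt q.toReal (k + 1))⁻¹ := by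
      refine (ContinuousLinearMap.opNorm_comp_le _ _).trans ?_
      calc _ ≤ (wt q.toReal (k + 1))⁻¹ * 1 := by
            have h2 := norm_ct_le 𝕜 q (⟨k + 1, g⟩ : Idx)
            have h3 : ‖(Ylow 𝕜 q).subtypeL‖ ≤ 1 := Submodule.norm_subtypeL_le _
            have h4 := (inv_pos.mpr (wt_pos q.toReal (k + 1))).le
            gcongr
        _ = _ := mul_one _
    rw [norm_smul, norm_neg, RCLike.norm_ofReal, abs_of_nonneg (by positivity)]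
    calc ((2 : ℝ) ^ (k + 2))⁻¹ * ‖(ct 𝕜 q ⟨k + 1, g⟩).comp (Ylow 𝕜 q).subtypeL‖
        ≤ ((2 : ℝ) ^ (k + 2))⁻¹ * (wt q.toReal (k + 1))⁻¹ := by gcongr
      _ = _ := by
          unfold wt
          rw [Real.rpow_neg (by positivity), inv_inv, Real.mul_rpow (by positivity) (by positivity),
            card_G]
          have h5 : (((k + 1 : ℕ) : ℝ) + 1) = (k : ℝ) + 2 := by push_cast; ring
          rw [h5, ← Real.rpow_natCast ((k : ℝ) + 2) 2, ← Real.rpow_mul (by positivity)]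
          push_cast
          rw [Real.rpow_neg (by positivity), Real.rpow_sub (by positivity), Real.rpow_one]
          have h6 : (2 : ℝ) * (1 / q.toReal) = 2 / q.toReal := by ring
          rw [h6, inv_div]
          rw [pow_succ (2 : ℝ) (k + 1)]
          field_simp
  · intro k _ f
    have h1 : ∀ g : G (k + 1), ‖f (PhiX 𝕜 p q ⟨k + 1, g⟩)‖ ^ q.toReal =
        eps q.toReal (k + 1) ^ q.toReal * ‖f (dX 𝕜 p q ⟨k + 1, g⟩)‖ ^ q.toReal := by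
      intro g
      unfold PhiX
      rw [map_smul, norm_smul, RCLike.norm_ofReal, abs_of_pos (eps_pos _ _),
        Real.mul_rpow (eps_pos _ _).le (norm_nonneg _)]
    simp only [h1]
    rw [← mul_sum, Real.mul_rpow (eps_pos _ _).le (norm_nonneg _)]
    refine mul_le_mul_of_nonneg_left ?_ (Real.rpow_nonneg (eps_pos _ _).le _)
    have h2 := sum_functional_le (q := q) hp hq (f.comp (Ksp 𝕜 p q).mkQL)
      ((univ : Finset (G (k + 1))).map (Function.Embedding.sigmaMk (k + 1)))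
    rw [sum_map] at h2
    have h3 : ‖f.comp (Ksp 𝕜 p q).mkQL‖ ≤ ‖f‖ := by
      refine ContinuousLinearMap.opNorm_le_bound _ (norm_nonneg _) fun w => ?_
      refine (f.le_opNorm _).trans ?_
      gcongr
      exact Submodule.Quotient.norm_mk_le _ _
    exact h2.trans (Real.rpow_le_rpow (norm_nonneg _) h3 hr.le)
  · intro k v
    rw [betaL_tel]
    simp only [univ_unique, sum_singleton]
    refine sum_congr rfl fun g _ => ?_
    rw [_root_.smul_apply, smul_eq_mul]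
    rfl
  · intro h v
    filter_upwards [eventually_gt_atTop h.1] with m hm
    exact bX_betaL 𝕜 p q h m v hm

end MP6f
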