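import Mathlib
import Pool.Agent.Lib.MP_6f6997_an.HighWeak
import Pool.Agent.Lib.MP_6f6997_an.LowOuter

/-!
# The outer inequality fails for the space `Xhigh`, `2 < p ≤ ∞`
-/

open MeasureTheory ENNReal Filter Topology Finset

set_option maxSynthPendingDepth 3

noncomputable section

namespace MP6f

/-! ### the matrix `D` -/

lemma sum_Dm_vm (n : ℕ) (g : G n) (z : Q n) : ∑ h, Dm n h g * vm n h z = 2 * vm n g z := by
  have h1 : ∀ h, Dm n h g = 3 * (∑ y, vm n h y * vm n g y) - (if h = g then 1 else 0) := by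
    intro h; rw [vvT']; ring
  simp only [h1, sub_mul]
  rw [sum_sub_distrib]
  have h2 : ∑ h : G n, 3 * (∑ y, vm n h y * vm n g y) * vm n h z = 3 * vm n g z := by
    have h3 : ∀ h : G n, 3 * (∑ y, vm n h y * vm n g y) * vm n h z =
        ∑ y, 3 * vm n g y * (vm n h y * vm n h z) := by
      intro h
      rw [mul_sum, sum_mul]
      exact sum_congr rfl fun y _ => by ring
    simp only [h3]
    rw [sum_comm]
    simp only [← mul_sum, vm_orth]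
    simp
  rw [h2]
  simp
  ring

lemma sum_Dm_um (n : ℕ) (g : G n) (z : Q (n + 1)) : ∑ h, Dm n h g * um n h z = -um n g z := by
  have h1 : ∀ h, Dm n h g = 3 * (∑ y, vm n h y * vm n g y) - (if h = g then 1 else 0) := by
    intro h; rw [vvT']; ring
  simp only [h1, sub_mul]
  rw [sum_sub_distrib]
  have h2 : ∑ h : G n, 3 * (∑ y, vm n h y * vm n g y) * um n h z = 0 := by
    have h3 : ∀ h : G n, 3 * (∑ y, vm n h y * vm n g y) * um n h z =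
        ∑ y, 3 * vm n g y * (um n h z * vm n h y) := by
      intro h
      rw [mul_sum, sum_mul]
      exact sum_congr rfl fun y _ => by ring
    simp only [h3]
    rw [sum_comm]
    simp only [← mul_sum, um_vm]
    simp
  rw [h2]
  simp

/-! ### the coordinates -/

abbrev IH : Type := Σ n : ℕ, (G n ⊕ (QH n → Bool))

instance : Countable IH := by unfold IH; infer_instance

/-- the number of sign vectors of level `n` -/
def cO (n : ℕ) : ℝ := (Fintype.card (QH n → Bool) : ℝ)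

lemma cO_pos (n : ℕ) : 0 < cO n := by unfold cO; exact_mod_cast Fintype.card_pos

/-- the weights of the sign coordinates -/
def wtO (r : ℝ) (n : ℕ) : ℝ := (cO n * ((n : ℝ) + 1) ^ 2) ^ (-(1 / r))

lemma wtO_pos (r : ℝ) (n : ℕ) : 0 < wtO r n :=
  Real.rpow_pos_of_pos (mul_pos (cO_pos n) (by positivity)) _

lemma wtO_rpow {r : ℝ} (hr : 0 < r) (n : ℕ) : wtO r n ^ r = (cO n * ((n : ℝ) + 1) ^ 2)⁻¹ := by
  have := cO_pos n
  unfold wtO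
  rw [← Real.rpow_mul (by positivity), ← Real.rpow_neg_one]
  congr 1; field_simp

/-- the weights -/
def wH (r : ℝ) (i : IH) : ℝ :=
  match i with
  | ⟨n, Sum.inl _⟩ => wt r n
  | ⟨n, Sum.inr _⟩ => wtO r n

lemma wH_pos (r : ℝ) (i : IH) : 0 < wH r i := by
  obtain ⟨n, j | j⟩ := i
  · exact wt_pos r n
  · exact wtO_pos r n

lemma wH_summable {r : ℝ} (hr : 0 < r) : Summable fun i : IH => wH r i ^ r := by
  rw [summable_sigma_of_nonneg (fun g => by have := (wH_pos r g).le; positivity)]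
  refine ⟨fun n => Summable.of_finite, ?_⟩
  have h1 : ∀ n : ℕ, ∑' j : G n ⊕ (QH n → Bool), wH r ⟨n, j⟩ ^ r = 2 * (1 / ((n : ℝ) + 1) ^ 2) := by
    intro n
    rw [tsum_fintype, Fintype.sum_sum_type]
    simp only [wH]
    rw [Finset.sum_const, Finset.sum_const, Finset.card_univ, Finset.card_univ, nsmul_eq_mul,
      nsmul_eq_mul, card_G, wt_rpow hr, wtO_rpow hr]
    change _ + cO n * _ = _
    have := (cO_pos n).ne'
    push_cast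
    field_simp
    norm_num
  simp only [h1]
  have := (summable_nat_add_iff 1).mpr (Real.summable_one_div_nat_pow.mpr (by norm_num : 1 < 2))
  refine Summable.mul_left _ ?_
  simpa using this

section
variable (𝕜 : Type) [RCLike 𝕜]

/-- coordinate functionals on the space -/
def cX (i : IH) : StrongDual 𝕜 (Xhigh 𝕜) :=
  LinearMap.mkContinuous
    { toFun := fun x => (x : MH 𝕜 G QH) i.1 i.2
      map_add' := fun _ _ => rfl
      map_smul' := fun _ _ => rfl } 1 (fun x => by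
        rw [one_mul]
        calc ‖(x : MH 𝕜 G QH) i.1 i.2‖ ≤ ‖(x : MH 𝕜 G QH) i.1‖ := norm_le_pi_norm _ _
          _ ≤ ‖(x : MH 𝕜 G QH)‖ := lp.norm_apply_le_norm (by norm_num) _ _)

lemma cX_apply (i : IH) (x : Xhigh 𝕜) : cX 𝕜 i x = (x : MH 𝕜 G QH) i.1 i.2 := rfl

lemma norm_cX_le (i : IH) : ‖cX 𝕜 i‖ ≤ 1 := LinearMap.mkContinuous_norm_le _ zero_le_one _

lemma cX_sep (x : Xhigh 𝕜) (hx : ∀ i, cX 𝕜 i x = 0) : x = 0 := by
  apply Subtype.ext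
  apply lp.ext
  funext n j
  exact hx ⟨n, j⟩

variable (q : ℝ≥0∞) [Fact (1 ≤ q)]

/-- the coordinate functional `y ↦ ω⁻¹ y_i` -/
def ctH (i : IH) : lp (fun _ : IH => 𝕜) q →L[𝕜] 𝕜 :=
  (((wH q.toReal i)⁻¹ : ℝ) : 𝕜) • lp.evalCLM 𝕜 (fun _ : IH => 𝕜) q i

lemma ctH_apply (i : IH) (y : lp (fun _ : IH => 𝕜) q) :
    ctH 𝕜 q i y = (((wH q.toReal i)⁻¹ : ℝ) : 𝕜) * y i := rfl

/-- the relation functional -/
def relH (w : Σ n : ℕ, QH n) : lp (fun _ : IH => 𝕜) q →L[𝕜] 𝕜 :=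
  ∑ g : G w.1, ((aM w.1 w.2 g : ℝ) : 𝕜) • ctH 𝕜 q ⟨w.1, Sum.inl g⟩ -
    (∑ g : G (w.1 + 1), ((bM w.1 w.2 g : ℝ) : 𝕜) • ctH 𝕜 q ⟨w.1 + 1, Sum.inl g⟩ -
    (((cO w.1)⁻¹ : ℝ) : 𝕜) • ∑ om : QH w.1 → Bool, ((sg (om w.2) : ℝ) : 𝕜) • ctH 𝕜 q ⟨w.1, Sum.inr om⟩)

lemma relH_apply (n : ℕ) (z : QH n) (y : lp (fun _ : IH => 𝕜) q) :
    relH 𝕜 q ⟨n, z⟩ y = AH aM n (fun g => ctH 𝕜 q ⟨n, Sum.inl g⟩ y) z -
      (BH bM n (fun g => ctH 𝕜 q ⟨n + 1, Sum.inl g⟩ y) z -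
        CH n (fun om => ctH 𝕜 q ⟨n, Sum.inr om⟩ y) z) := by
  unfold relH AH BH CH
  simp only [_root_.sub_apply, _root_.sum_apply, _root_.smul_apply, smul_eq_mul]
  rfl

/-- the space `Y` -/
def Yhigh : Submodule 𝕜 (lp (fun _ : IH => 𝕜) q) :=
  ⨅ w : Σ n : ℕ, QH n, LinearMap.ker (relH 𝕜 q w).toLinearMap

lemma isClosed_Yhigh : IsClosed (Yhigh 𝕜 q : Set (lp (fun _ : IH => 𝕜) q)) := by
  unfold Yhigh
  rw [Submodule.coe_iInf]
  exact isClosed_iInter fun h => (relH 𝕜 q h).isClosed_ker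

instance : CompleteSpace (Yhigh 𝕜 q) := (isClosed_Yhigh 𝕜 q).completeSpace_coe

lemma mem_Yhigh (y : lp (fun _ : IH => 𝕜) q) : y ∈ Yhigh 𝕜 q ↔ ∀ w, relH 𝕜 q w y = 0 := by
  unfold Yhigh; simp [Submodule.mem_iInf]

/-- the coordinate functionals of the model on `Y` -/
def etaH (n : ℕ) (z : QH n) : StrongDual 𝕜 (Yhigh 𝕜 q) :=
  (∑ g : G n, ((aM n z g : ℝ) : 𝕜) • ctH 𝕜 q ⟨n, Sum.inl g⟩).comp (Yhigh 𝕜 q).subtypeL

lemma etaH_apply (n : ℕ) (z : QH n) (y : Yhigh 𝕜 q) :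
    etaH 𝕜 q n z y = AH aM n (fun g => ctH 𝕜 q ⟨n, Sum.inl g⟩ (y : lp (fun _ : IH => 𝕜) q)) z := by
  unfold etaH AH
  simp only [ContinuousLinearMap.comp_apply, _root_.sum_apply, _root_.smul_apply, smul_eq_mul,
    Submodule.subtypeL_apply]

lemma etaH_apply' (n : ℕ) (z : QH n) (y : Yhigh 𝕜 q) :
    etaH 𝕜 q n z y = BH bM n (fun g => ctH 𝕜 q ⟨n + 1, Sum.inl g⟩ (y : lp (fun _ : IH => 𝕜) q)) z -
      CH n (fun om => ctH 𝕜 q ⟨n, Sum.inr om⟩ (y : lp (fun _ : IH => 𝕜) q)) z := by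
  rw [etaH_apply]
  have h := (mem_Yhigh 𝕜 q y.1).mp y.2 ⟨n, z⟩
  rw [relH_apply, sub_eq_zero] at h
  exact h

/-- the telescoping operators -/
def betaH (n : ℕ) : Yhigh 𝕜 q →L[𝕜] Xhigh 𝕜 :=
  ∑ z : QH n, ((((2 : ℝ) ^ (n + 1))⁻¹ : ℝ) : 𝕜) • (etaH 𝕜 q n z).smulRight (eX 𝕜 n z)

lemma betaH_apply (n : ℕ) (y : Yhigh 𝕜 q) :
    betaH 𝕜 q n y = ((((2 : ℝ) ^ (n + 1))⁻¹ : ℝ) : 𝕜) • ∑ z : QH n, etaH 𝕜 q n z y • eX 𝕜 n z := by
  unfold betaH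
  simp only [_root_.sum_apply, _root_.smul_apply, ContinuousLinearMap.smulRight_apply, smul_sum]

/-- algebra of the vectors `x_h` -/
lemma sum_Dm_xX (n : ℕ) (g : G (n + 1)) :
    ∑ h, ((Dm (n + 1) h g : ℝ) : 𝕜) • xX 𝕜 n h = (2 : 𝕜) • xE 𝕜 n g - xF 𝕜 n g := by
  have h1 : ∑ h, ((Dm (n + 1) h g : ℝ) : 𝕜) • xE 𝕜 n h = (2 : 𝕜) • xE 𝕜 n g := by
    unfold xE
    have e1 : ∀ h : G (n + 1), ((Dm (n + 1) h g : ℝ) : 𝕜) • (((sN (n + 1))⁻¹ : ℝ) : 𝕜) •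
        ∑ z, ((vm (n + 1) h z : ℝ) : 𝕜) • eX 𝕜 n z =
        (((sN (n + 1))⁻¹ : ℝ) : 𝕜) • ∑ z, ((Dm (n + 1) h g * vm (n + 1) h z : ℝ) : 𝕜) • eX 𝕜 n z := by
      intro h
      rw [smul_comm, smul_sum]
      congr 1
      refine sum_congr rfl fun z _ => ?_
      rw [smul_smul]; push_cast; rfl
    simp only [e1]
    rw [← smul_sum, sum_comm, smul_comm (2 : 𝕜), smul_sum (r := (2 : 𝕜))]
    congr 1
    refine sum_congr rfl fun z _ => ?_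
    rw [← sum_smul, ← RCLike.ofReal_sum, sum_Dm_vm, smul_smul]
    push_cast; rfl
  have h2 : ∑ h, ((Dm (n + 1) h g : ℝ) : 𝕜) • xF 𝕜 n h = -xF 𝕜 n g := by
    unfold xF
    have e1 : ∀ h : G (n + 1), ((Dm (n + 1) h g : ℝ) : 𝕜) • (((sN (n + 1))⁻¹ : ℝ) : 𝕜) •
        ∑ z, ((um (n + 1) h z : ℝ) : 𝕜) • eX 𝕜 (n + 1) z =
        (((sN (n + 1))⁻¹ : ℝ) : 𝕜) • ∑ z, ((Dm (n + 1) h g * um (n + 1) h z : ℝ) : 𝕜) •
          eX 𝕜 (n + 1) z := by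
      intro h
      rw [smul_comm, smul_sum]
      congr 1
      refine sum_congr rfl fun z _ => ?_
      rw [smul_smul]; push_cast; rfl
    simp only [e1]
    rw [← smul_sum, sum_comm, ← smul_neg, ← sum_neg_distrib]
    congr 1
    refine sum_congr rfl fun z _ => ?_
    rw [← sum_smul, ← RCLike.ofReal_sum, sum_Dm_um]
    push_cast; rw [neg_smul]
  simp only [xX, smul_add]
  rw [sum_add_distrib, h1, h2]; abel

lemma sum_smul_xE (n : ℕ) (f : G (n + 1) → 𝕜) :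
    ∑ g, f g • xE 𝕜 n g = ∑ z, BH bM n f z • eX 𝕜 n z := by
  unfold xE BH
  simp only [smul_sum, sum_smul]
  rw [sum_comm]
  refine sum_congr rfl fun z _ => sum_congr rfl fun g _ => ?_
  rw [smul_smul, smul_smul]
  congr 1
  unfold bM; push_cast; ring

lemma sum_smul_xF (n : ℕ) (f : G (n + 1) → 𝕜) :
    ∑ g, f g • xF 𝕜 n g = ∑ z, AH aM (n + 1) f z • eX 𝕜 (n + 1) z := by
  unfold xF AH
  simp only [smul_sum, sum_smul]
  rw [sum_comm]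
  refine sum_congr rfl fun z _ => sum_congr rfl fun g _ => ?_
  rw [smul_smul, smul_smul]
  congr 1
  unfold aM; push_cast; ring

lemma betaH_tel (n : ℕ) (y : Yhigh 𝕜 q) :
    betaH 𝕜 q n y - betaH 𝕜 q (n + 1) y =
      ∑ h : G (n + 1), (((((2 : ℝ) ^ (n + 2))⁻¹ : ℝ) : 𝕜) * ∑ g, ((Dm (n + 1) h g : ℝ) : 𝕜) *
        ctH 𝕜 q ⟨n + 1, Sum.inl g⟩ (y : lp (fun _ : IH => 𝕜) q)) • xX 𝕜 n h +
      ∑ z : QH n, (-((((2 : ℝ) ^ (n + 1))⁻¹ : ℝ) : 𝕜) *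
        CH n (fun om => ctH 𝕜 q ⟨n, Sum.inr om⟩ (y : lp (fun _ : IH => 𝕜) q)) z) • eX 𝕜 n z := by
  set f : G (n + 1) → 𝕜 := fun g => ctH 𝕜 q ⟨n + 1, Sum.inl g⟩ (y : lp (fun _ : IH => 𝕜) q) with hf
  set C : QH n → 𝕜 := fun z =>
    CH n (fun om => ctH 𝕜 q ⟨n, Sum.inr om⟩ (y : lp (fun _ : IH => 𝕜) q)) z with hC
  have h1 : ∑ h : G (n + 1), (((((2 : ℝ) ^ (n + 2))⁻¹ : ℝ) : 𝕜) * ∑ g, ((Dm (n + 1) h g : ℝ) : 𝕜) *
        f g) • xX 𝕜 n h =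
      ((((2 : ℝ) ^ (n + 2))⁻¹ : ℝ) : 𝕜) • ((2 : 𝕜) • ∑ z, BH bM n f z • eX 𝕜 n z -
        ∑ z, AH aM (n + 1) f z • eX 𝕜 (n + 1) z) := by
    have e1 : ∀ h : G (n + 1), (((((2 : ℝ) ^ (n + 2))⁻¹ : ℝ) : 𝕜) * ∑ g, ((Dm (n + 1) h g : ℝ) : 𝕜) *
        f g) • xX 𝕜 n h =
        ((((2 : ℝ) ^ (n + 2))⁻¹ : ℝ) : 𝕜) • ∑ g, f g • (((Dm (n + 1) h g : ℝ) : 𝕜) • xX 𝕜 n h) := by
      intro h
      rw [mul_smul, sum_smul]
      congr 1
      refine sum_congr rfl fun g _ => ?_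
      rw [smul_smul, mul_comm]
    simp only [e1]
    rw [← smul_sum, sum_comm]
    congr 1
    simp only [← smul_sum, sum_Dm_xX, smul_sub]
    rw [sum_sub_distrib, sum_smul_xF, ← sum_smul_xE, smul_sum]
    congr 1
    exact sum_congr rfl fun g _ => smul_comm _ _ _
  have h2 : ∑ z : QH n, (-((((2 : ℝ) ^ (n + 1))⁻¹ : ℝ) : 𝕜) * C z) • eX 𝕜 n z =
      -(((((2 : ℝ) ^ (n + 1))⁻¹ : ℝ) : 𝕜) • ∑ z, C z • eX 𝕜 n z) := by
    rw [smul_sum, ← sum_neg_distrib]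
    refine sum_congr rfl fun z _ => ?_
    rw [neg_mul, neg_smul, mul_smul]
  have h3 : ∑ z, etaH 𝕜 q n z y • eX 𝕜 n z = ∑ z, BH bM n f z • eX 𝕜 n z - ∑ z, C z • eX 𝕜 n z := by
    rw [← sum_sub_distrib]
    refine sum_congr rfl fun z _ => ?_
    rw [etaH_apply', ← sub_smul]
  have h4 : ∑ z, etaH 𝕜 q (n + 1) z y • eX 𝕜 (n + 1) z =
      ∑ z, AH aM (n + 1) f z • eX 𝕜 (n + 1) z :=
    sum_congr rfl fun z _ => by rw [etaH_apply]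
  rw [h1, h2, betaH_apply, betaH_apply, h3, h4, smul_sub, smul_sub, smul_smul]
  have h5 : ((((2 : ℝ) ^ (n + 2))⁻¹ : ℝ) : 𝕜) * 2 = ((((2 : ℝ) ^ (n + 1))⁻¹ : ℝ) : 𝕜) := by
    push_cast
    rw [pow_succ (2 : 𝕜) (n + 1)]
    have : (2 : 𝕜) ≠ 0 := two_ne_zero
    field_simp
  rw [h5]
  abel

end

end MP6f
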