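import Mathlib
import Pool.Agent.Lib.MP_6f6997_an.HighOuter

/-!
# The outer inequality fails for the space `Xhigh`, `2 < p ≤ ∞` (final step)
-/

open MeasureTheory ENNReal Filter Topology Finset

set_option maxSynthPendingDepth 3

noncomputable section

namespace MP6f

/-- the basic rate -/
def rho (r : ℝ) : ℝ := (2 : ℝ) ^ (-(1 / r - 1 / 2))

lemma rho_pos (r : ℝ) : 0 < rho r := Real.rpow_pos_of_pos (by norm_num) _

lemma rho_lt_one {r : ℝ} (h0 : 0 < r) (h : r < 2) : rho r < 1 := by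
  refine Real.rpow_lt_one_of_one_lt_of_neg (by norm_num) ?_
  have : 1 / 2 < 1 / r := one_div_lt_one_div_of_lt h0 h
  linarith

lemma base_rpow {r : ℝ} (hr : 0 < r) (m : ℕ) :
    (((2 : ℝ) ^ (1 - r / 2)) ^ m) ^ (1 / r) = (rho r ^ m)⁻¹ := by
  unfold rho
  rw [← Real.rpow_natCast, ← Real.rpow_natCast, ← Real.rpow_mul (by positivity),
    ← Real.rpow_mul (by positivity), ← Real.rpow_mul (by positivity), ← Real.rpow_neg (by positivity)]
  congr 1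
  field_simp

lemma one_le_base {r : ℝ} (h : r < 2) : 1 ≤ (2 : ℝ) ^ (1 - r / 2) :=
  Real.one_le_rpow (by norm_num) (by linarith)

/-- the summable bound -/
def tauH (r : ℝ) (k : ℕ) : ℝ :=
  (18 * 6 ^ (1 / r) * (rho r ^ 8)⁻¹) * (((k : ℝ) + 2) ^ (2 / r) * rho r ^ (2 * ((k + 1) / 9)))

lemma tauH_pos (r : ℝ) (k : ℕ) : 0 < tauH r k := by
  have := rho_pos r
  unfold tauH; positivity

lemma tauH_summable {r : ℝ} (h1 : 1 ≤ r) (h2 : r < 2) : Summable (tauH r) := by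
  have hρ0 := rho_pos r
  have hρ1 := rho_lt_one (by linarith) h2
  set θ := rho r ^ (2 / 9 : ℝ) with hθ
  have hθ0 : 0 < θ := Real.rpow_pos_of_pos hρ0 _
  have hθ1 : θ < 1 := Real.rpow_lt_one hρ0.le hρ1 (by norm_num)
  have hnorm : ‖θ‖ < 1 := by rw [Real.norm_eq_abs, abs_of_pos hθ0]; exact hθ1
  have s1 : Summable fun k : ℕ => (k : ℝ) ^ 2 * θ ^ k :=
    summable_pow_mul_geometric_of_norm_lt_one 2 hnorm
  have s2 : Summable fun k : ℕ => θ ^ k := summable_geometric_of_lt_one hθ0.le hθ1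
  have s3 : Summable fun k : ℕ => (18 * 6 ^ (1 / r) * (rho r ^ 8)⁻¹) *
      (rho r ^ (-(16 / 9) : ℝ) * θ * (2 * ((k : ℝ) ^ 2 * θ ^ k) + 8 * θ ^ k)) :=
    (((s1.mul_left 2).add (s2.mul_left 8)).mul_left _).mul_left _
  refine Summable.of_nonneg_of_le (fun k => (tauH_pos r k).le) (fun k => ?_) s3
  unfold tauH
  refine mul_le_mul_of_nonneg_left ?_ (by positivity)
  have h4 : ((k : ℝ) + 2) ^ (2 / r) ≤ 2 * (k : ℝ) ^ 2 + 8 := by
    calc ((k : ℝ) + 2) ^ (2 / r) ≤ ((k : ℝ) + 2) ^ (2 : ℝ) := by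
          refine Real.rpow_le_rpow_of_exponent_le (by linarith [(Nat.cast_nonneg k : (0 : ℝ) ≤ k)]) ?_
          rw [div_le_iff₀ (by linarith)]; linarith
      _ = ((k : ℝ) + 2) ^ 2 := by norm_num
      _ ≤ 2 * (k : ℝ) ^ 2 + 8 := by nlinarith [sq_nonneg ((k : ℝ) - 2)]
  have h5 : rho r ^ (2 * ((k + 1) / 9)) ≤ rho r ^ (-(16 / 9) : ℝ) * θ * θ ^ k := by
    have e1 : rho r ^ (-(16 / 9) : ℝ) * θ * θ ^ k = rho r ^ (-(16 / 9) + (2 / 9) * ((k : ℝ) + 1) : ℝ) := by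
      rw [mul_assoc, ← pow_succ', hθ, ← Real.rpow_natCast, ← Real.rpow_mul hρ0.le, ← Real.rpow_add hρ0]
      congr 1; push_cast; ring
    rw [e1, ← Real.rpow_natCast]
    refine Real.rpow_le_rpow_of_exponent_ge hρ0 hρ1.le ?_
    have h1 : k + 1 ≤ 9 * ((k + 1) / 9) + 8 := by omega
    have h2 : (k : ℝ) + 1 ≤ 9 * (((k + 1) / 9 : ℕ) : ℝ) + 8 := by exact_mod_cast h1
    push_cast
    linarith
  calc ((k : ℝ) + 2) ^ (2 / r) * rho r ^ (2 * ((k + 1) / 9))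
      ≤ (2 * (k : ℝ) ^ 2 + 8) * (rho r ^ (-(16 / 9) : ℝ) * θ * θ ^ k) := by gcongr
    _ = _ := by ring

/-- the bound for the weak norms, block of the `x_h` -/
def bT (r : ℝ) (k : ℕ) : ℝ := 4 * (6 ^ (1 / r) * (rho r ^ (4 * ((k + 1) / 9) + 8))⁻¹)

/-- the bound for the weak norms, block of the `e_z` -/
def bF (r : ℝ) (k : ℕ) : ℝ := 2 * sN (k + 1) * (2 ^ (1 / r) * (rho r ^ (3 * ((k + 1) / 9) + 8))⁻¹)

/-- the bounds for the functionals -/
def aT (r : ℝ) (k : ℕ) : ℝ := 9 / 2 * ((k : ℝ) + 2) ^ (2 / r) * rho r ^ (6 * ((k + 1) / 9))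

def aF (r : ℝ) (k : ℕ) : ℝ := ((2 : ℝ) ^ (k + 1)) ^ (-(1 / r)) * ((k : ℝ) + 1) ^ (2 / r)

lemma aT_bT {r : ℝ} (k : ℕ) : aT r k * bT r k ≤ tauH r k := by
  have hρ0 := rho_pos r
  unfold aT bT tauH
  have h1 : rho r ^ (6 * ((k + 1) / 9)) =
      rho r ^ (2 * ((k + 1) / 9)) * rho r ^ (4 * ((k + 1) / 9)) := by
    rw [← pow_add]; congr 1; omega
  rw [h1, pow_add]
  have h2 := (pow_pos hρ0 (4 * ((k + 1) / 9))).ne'
  have h3 := (pow_pos hρ0 8).ne'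
  apply le_of_eq
  field_simp
  ring

lemma aF_bF {r : ℝ} (h1 : 1 ≤ r) (h2 : r < 2) (k : ℕ) : aF r k * bF r k ≤ tauH r k := by
  have hρ0 := rho_pos r
  have hρ1 := rho_lt_one (by linarith) h2
  have hr0 : 0 < r := by linarith
  unfold aF bF tauH
  have e1 : sN (k + 1) = ((2 : ℝ) ^ (k + 1)) ^ (1 / 2 : ℝ) * Real.sqrt 3 := by
    unfold sN
    rw [Real.sqrt_mul (by positivity), Real.sqrt_eq_rpow]
  have e2 : ((2 : ℝ) ^ (k + 1)) ^ (-(1 / r)) * ((2 : ℝ) ^ (k + 1)) ^ (1 / 2 : ℝ) = rho r ^ (k + 1) := by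
    rw [← Real.rpow_add (by positivity), rho, ← Real.rpow_natCast, ← Real.rpow_natCast,
      ← Real.rpow_mul (by norm_num), ← Real.rpow_mul (by norm_num)]
    congr 1; ring
  have e3 : ((2 : ℝ) ^ (k + 1)) ^ (-(1 / r)) * ((k : ℝ) + 1) ^ (2 / r) * (2 * sN (k + 1) *
      (2 ^ (1 / r) * (rho r ^ (3 * ((k + 1) / 9) + 8))⁻¹)) =
      (2 * Real.sqrt 3 * 2 ^ (1 / r)) * (((k : ℝ) + 1) ^ (2 / r) *
        (rho r ^ (k + 1) * (rho r ^ (3 * ((k + 1) / 9) + 8))⁻¹)) := by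
    rw [e1, ← e2]; ring
  rw [e3]
  have h3 : rho r ^ (k + 1) * (rho r ^ (3 * ((k + 1) / 9) + 8))⁻¹ ≤
      (rho r ^ 8)⁻¹ * rho r ^ (2 * ((k + 1) / 9)) := by
    have h4 : rho r ^ (k + 1) ≤ rho r ^ (3 * ((k + 1) / 9) + 2 * ((k + 1) / 9)) :=
      pow_le_pow_of_le_one hρ0.le hρ1.le (by omega)
    calc rho r ^ (k + 1) * (rho r ^ (3 * ((k + 1) / 9) + 8))⁻¹
        ≤ rho r ^ (3 * ((k + 1) / 9) + 2 * ((k + 1) / 9)) * (rho r ^ (3 * ((k + 1) / 9) + 8))⁻¹ := by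
          gcongr
      _ = _ := by
          rw [pow_add, pow_add (rho r) _ 8]
          have h2 := (pow_pos hρ0 (3 * ((k + 1) / 9))).ne'
          have h3 := (pow_pos hρ0 8).ne'
          field_simp
  have h5 : 2 * Real.sqrt 3 * (2 : ℝ) ^ (1 / r) ≤ 18 * 6 ^ (1 / r) := by
    have h6 : Real.sqrt 3 ≤ 3 := by rw [Real.sqrt_le_left (by norm_num)]; norm_num
    have h7 : (2 : ℝ) ^ (1 / r) ≤ 6 ^ (1 / r) :=
      Real.rpow_le_rpow (by norm_num) (by norm_num) (by positivity)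
    have h8 : (0 : ℝ) < 2 ^ (1 / r) := by positivity
    calc 2 * Real.sqrt 3 * (2 : ℝ) ^ (1 / r) ≤ 2 * 3 * 6 ^ (1 / r) := by gcongr
      _ ≤ 18 * 6 ^ (1 / r) := by
          have : (0 : ℝ) < 6 ^ (1 / r) := by positivity
          linarith
  have h9 : ((k : ℝ) + 1) ^ (2 / r) ≤ ((k : ℝ) + 2) ^ (2 / r) :=
    Real.rpow_le_rpow (by positivity) (by linarith) (by positivity)
  calc (2 * Real.sqrt 3 * (2 : ℝ) ^ (1 / r)) * (((k : ℝ) + 1) ^ (2 / r) *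
        (rho r ^ (k + 1) * (rho r ^ (3 * ((k + 1) / 9) + 8))⁻¹))
      ≤ (18 * 6 ^ (1 / r)) * (((k : ℝ) + 2) ^ (2 / r) *
        ((rho r ^ 8)⁻¹ * rho r ^ (2 * ((k + 1) / 9)))) := by
        gcongr
    _ = _ := by ring

/-! ### the functionals -/

section
variable (𝕜 : Type) [RCLike 𝕜] (q : ℝ≥0∞) [Fact (1 ≤ q)]

lemma sum_level_le (hq : q ≠ ∞) {J : Type} [Fintype J] (e : J ↪ IH) (y : lp (fun _ : IH => 𝕜) q) :
    (∑ j, ‖y (e j)‖ ^ q.toReal) ^ (1 / q.toReal) ≤ ‖y‖ := by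
  have hr := toReal_pos_of (Fact.out : 1 ≤ q) hq
  have h1 := lp.sum_rpow_le_norm_rpow hr y (univ.map e)
  rw [sum_map] at h1
  have h2 := Real.rpow_le_rpow (sum_nonneg fun j _ => Real.rpow_nonneg (norm_nonneg _) _) h1
    (by positivity : 0 ≤ 1 / q.toReal)
  rwa [← Real.rpow_mul (norm_nonneg _), mul_one_div_cancel hr.ne', Real.rpow_one] at h2

/-- functionals of the first kind -/
def yT (k : ℕ) (h : G (k + 1)) : StrongDual 𝕜 (Yhigh 𝕜 q) :=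
  ((((2 : ℝ) ^ (k + 2))⁻¹ : ℝ) : 𝕜) •
    (∑ g : G (k + 1), ((Dm (k + 1) h g : ℝ) : 𝕜) • ctH 𝕜 q ⟨k + 1, Sum.inl g⟩).comp (Yhigh 𝕜 q).subtypeL

lemma yT_apply (k : ℕ) (h : G (k + 1)) (y : Yhigh 𝕜 q) :
    yT 𝕜 q k h y = ((((2 : ℝ) ^ (k + 2))⁻¹ : ℝ) : 𝕜) * ∑ g, ((Dm (k + 1) h g : ℝ) : 𝕜) *
        ctH 𝕜 q ⟨k + 1, Sum.inl g⟩ (y : lp (fun _ : IH => 𝕜) q) := by
  unfold yT
  simp only [ContinuousLinearMap.comp_apply, _root_.sum_apply, _root_.smul_apply, smul_eq_mul,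
    Submodule.subtypeL_apply]

/-- functionals of the second kind -/
def yF (k : ℕ) (z : QH k) : StrongDual 𝕜 (Yhigh 𝕜 q) :=
  (-((((2 : ℝ) ^ (k + 1))⁻¹ : ℝ) : 𝕜)) •
    ((((cO k)⁻¹ : ℝ) : 𝕜) • ∑ om : QH k → Bool, ((sg (om z) : ℝ) : 𝕜) • ctH 𝕜 q ⟨k, Sum.inr om⟩).comp
      (Yhigh 𝕜 q).subtypeL

lemma yF_apply (k : ℕ) (z : QH k) (y : Yhigh 𝕜 q) :
    yF 𝕜 q k z y = -((((2 : ℝ) ^ (k + 1))⁻¹ : ℝ) : 𝕜) *
        CH k (fun om => ctH 𝕜 q ⟨k, Sum.inr om⟩ (y : lp (fun _ : IH => 𝕜) q)) z := by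
  unfold yF CH
  simp only [ContinuousLinearMap.comp_apply, _root_.sum_apply, _root_.smul_apply, smul_eq_mul,
    Submodule.subtypeL_apply]
  rfl

lemma norm_yT_le (hq : q ≠ ∞) (h1 : 1 ≤ q.toReal) (h2 : q.toReal < 2) (k : ℕ) (h : G (k + 1)) :
    ‖yT 𝕜 q k h‖ ≤ aT q.toReal k * (Fintype.card (G (k + 1)) : ℝ) ^ (-(1 - 1 / q.toReal)) := by
  set r := q.toReal with hr
  have hr0 : 0 < r := by linarith
  have hρ0 := rho_pos r
  have hρ1 := rho_lt_one (by linarith) h2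
  have hw := wt_pos r (k + 1)
  have e0 : 3 * rho r ^ (6 * ((k + 1) / 9)) * (wt r (k + 1))⁻¹ * ((2 : ℝ) ^ (k + 2))⁻¹ =
      aT r k * (Fintype.card (G (k + 1)) : ℝ) ^ (-(1 - 1 / r)) := by
    unfold wt aT
    rw [Real.rpow_neg (by positivity), inv_inv, Real.mul_rpow (by positivity) (by positivity),
      card_G]
    have h5 : (((k + 1 : ℕ) : ℝ) + 1) = (k : ℝ) + 2 := by push_cast; ring
    rw [h5, ← Real.rpow_natCast ((k : ℝ) + 2) 2, ← Real.rpow_mul (by positivity)]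
    push_cast
    rw [Real.rpow_neg (by positivity), Real.rpow_sub (by positivity), Real.rpow_one]
    have h6 : (2 : ℝ) * (1 / r) = 2 / r := by ring
    rw [h6, inv_div]
    rw [pow_succ (2 : ℝ) (k + 1)]
    field_simp
    norm_num
  rw [← e0]
  refine ContinuousLinearMap.opNorm_le_bound _ (by positivity) fun y => ?_
  rw [yT_apply, norm_mul, RCLike.norm_ofReal, abs_of_pos (by positivity)]
  have h3 : ‖∑ g, ((Dm (k + 1) h g : ℝ) : 𝕜) *
        ctH 𝕜 q ⟨k + 1, Sum.inl g⟩ (y : lp (fun _ : IH => 𝕜) q)‖ ≤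
      (wt r (k + 1))⁻¹ * (3 * rho r ^ (6 * ((k + 1) / 9)) * ‖y‖) := by
    calc _ ≤ ∑ g, ‖((Dm (k + 1) h g : ℝ) : 𝕜) *
        ctH 𝕜 q ⟨k + 1, Sum.inl g⟩ (y : lp (fun _ : IH => 𝕜) q)‖ := norm_sum_le _ _
      _ = (wt r (k + 1))⁻¹ * ∑ g, |Dm (k + 1) h g| *
          ‖(y : lp (fun _ : IH => 𝕜) q) (⟨k + 1, Sum.inl g⟩ : IH)‖ := by
          rw [mul_sum]
          refine sum_congr rfl fun g _ => ?_
          rw [ctH_apply, norm_mul, norm_mul, RCLike.norm_ofReal, RCLike.norm_ofReal]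
          have : |(wH q.toReal (⟨k + 1, Sum.inl g⟩ : IH))⁻¹| = (wt r (k + 1))⁻¹ :=
            abs_of_pos (inv_pos.mpr hw)
          rw [this]; ring
      _ ≤ _ := by
          refine mul_le_mul_of_nonneg_left ?_ (inv_pos.mpr hw).le
          refine (sum_Dm_mul_le (k + 1) h
            (fun g => ‖(y : lp (fun _ : IH => 𝕜) q) (⟨k + 1, Sum.inl g⟩ : IH)‖)
            (fun g => norm_nonneg _) r (rho r ^ (6 * ((k + 1) / 9))) h1 (by positivity) ?_).trans ?_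
          · intro i j hij
            refine pow_le_pow_of_le_one hρ0.le hρ1.le ?_
            have := le_cnt (xo (patt (k + 1) i) (patt (k + 1) j))
              (xo_per _ _ (patt_per _ _) (patt_per _ _)) (k + 1)
            rw [cnt_same _ _ _ hij] at this
            omega
          · refine mul_le_mul_of_nonneg_left ?_ (by positivity)
            exact sum_level_le 𝕜 q hq (Function.Embedding.inl.trans
              (Function.Embedding.sigmaMk (β := fun n => G n ⊕ (QH n → Bool)) (k + 1)))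
              (y : lp (fun _ : IH => 𝕜) q)
  calc _ ≤ ((2 : ℝ) ^ (k + 2))⁻¹ * ((wt r (k + 1))⁻¹ * (3 * rho r ^ (6 * ((k + 1) / 9)) * ‖y‖)) := by
        gcongr
    _ = _ := by ring

lemma norm_yF_le (hq : q ≠ ∞) (h1 : 1 ≤ q.toReal) (k : ℕ) (z : QH k) :
    ‖yF 𝕜 q k z‖ ≤ aF q.toReal k * (Fintype.card (QH k) : ℝ) ^ (-(1 - 1 / q.toReal)) := by
  set r := q.toReal with hr
  have hr0 : 0 < r := by linarith
  have hw := wtO_pos r k
  have hc := cO_pos k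
  have e0 : ((2 : ℝ) ^ (k + 1))⁻¹ * ((k : ℝ) + 1) ^ (2 / r) =
      aF r k * (Fintype.card (QH k) : ℝ) ^ (-(1 - 1 / r)) := by
    unfold aF
    rw [card_Q]
    push_cast
    have h5 : ((2 : ℝ) ^ (k + 1)) ^ (-(1 / r)) * ((2 : ℝ) ^ (k + 1)) ^ (-(1 - 1 / r)) =
        ((2 : ℝ) ^ (k + 1))⁻¹ := by
      rw [← Real.rpow_add (by positivity), ← Real.rpow_neg_one]
      congr 1; ring
    rw [← h5]; ring
  rw [← e0]
  refine ContinuousLinearMap.opNorm_le_bound _ (by positivity) fun y => ?_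
  rw [yF_apply, norm_mul, norm_neg, RCLike.norm_ofReal, abs_of_pos (by positivity), mul_assoc]
  refine mul_le_mul_of_nonneg_left ?_ (by positivity)
  have h3 : ‖∑ om : QH k → Bool, ((sg (om z) : ℝ) : 𝕜) *
      ctH 𝕜 q ⟨k, Sum.inr om⟩ (y : lp (fun _ : IH => 𝕜) q)‖ ≤
      (wtO r k)⁻¹ * (cO k ^ (1 - 1 / r) * ‖y‖) := by
    calc _ ≤ ∑ om : QH k → Bool, ‖((sg (om z) : ℝ) : 𝕜) *
        ctH 𝕜 q ⟨k, Sum.inr om⟩ (y : lp (fun _ : IH => 𝕜) q)‖ := norm_sum_le _ _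
      _ = (wtO r k)⁻¹ * ∑ om : QH k → Bool,
          ‖(y : lp (fun _ : IH => 𝕜) q) (⟨k, Sum.inr om⟩ : IH)‖ := by
          rw [mul_sum]
          refine sum_congr rfl fun om _ => ?_
          rw [ctH_apply, norm_mul, norm_mul, RCLike.norm_ofReal, RCLike.norm_ofReal]
          have : |(wH q.toReal (⟨k, Sum.inr om⟩ : IH))⁻¹| = (wtO r k)⁻¹ :=
            abs_of_pos (inv_pos.mpr hw)
          rw [this]
          have h4 : |sg (om z)| = 1 := abs_sg _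
          rw [h4]; ring
      _ ≤ _ := by
          refine mul_le_mul_of_nonneg_left ?_ (inv_pos.mpr hw).le
          refine sum_le_card_rpow (fun om : QH k → Bool =>
            ‖(y : lp (fun _ : IH => 𝕜) q) (⟨k, Sum.inr om⟩ : IH)‖) (fun _ => norm_nonneg _) h1
            (norm_nonneg y) ?_
          have h5 := lp.sum_rpow_le_norm_rpow (p := q) hr0 (y : lp (fun _ : IH => 𝕜) q)
            (univ.map (Function.Embedding.inr.trans
              (Function.Embedding.sigmaMk (β := fun n => G n ⊕ (QH n → Bool)) k)))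
          rw [sum_map] at h5
          exact h5
  unfold CH
  rw [norm_mul, RCLike.norm_ofReal]
  have h6 : |(Fintype.card (QH k → Bool) : ℝ)⁻¹| = (cO k)⁻¹ := abs_of_pos (inv_pos.mpr hc)
  rw [h6]
  calc (cO k)⁻¹ * _ ≤ (cO k)⁻¹ * ((wtO r k)⁻¹ * (cO k ^ (1 - 1 / r) * ‖y‖)) := by
        gcongr
    _ = ((k : ℝ) + 1) ^ (2 / r) * ‖y‖ := by
        have e1 : (wtO r k)⁻¹ = cO k ^ (1 / r) * ((k : ℝ) + 1) ^ (2 / r) := by
          unfold wtO
          rw [Real.rpow_neg (by positivity), inv_inv, Real.mul_rpow (by positivity) (by positivity),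
            ← Real.rpow_natCast ((k : ℝ) + 1) 2, ← Real.rpow_mul (by positivity)]
          congr 2; push_cast; ring
        rw [e1, Real.rpow_sub hc, Real.rpow_one]
        have h7 := (Real.rpow_pos_of_pos hc (1 / r)).ne'
        field_simp

/-! ### the weak norms -/

lemma weakT (k : ℕ) {r : ℝ} (h1 : 1 ≤ r) (h2 : r < 2) (f : StrongDual 𝕜 (Xhigh 𝕜)) :
    ∑ h, ‖f (xX 𝕜 k h)‖ ^ r ≤ (bT r k * ‖f‖) ^ r := by
  have hr0 : 0 < r := by linarith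
  have hb := one_le_base h2
  have hD : ∀ (S T : ℕ → Bool), (∀ b, S (9 + b) = S b) → (∀ b, T (9 + b) = T b) →
      cnt (xo S T) 9 = 4 → ∀ n, n ≤ k + 1 →
      ((2 : ℝ) ^ (1 - r / 2)) ^ cnt (xo S T) n ≤ ((2 : ℝ) ^ (1 - r / 2)) ^ (4 * ((k + 1) / 9) + 8) := by
    intro S T hS hT h4 n hn
    refine pow_le_pow_right₀ hb ?_
    have h5 := cnt_le' (xo S T) (xo_per _ _ hS hT) n
    rw [h4] at h5
    omega
  have h := weak_xX 𝕜 k h1 (D := ((2 : ℝ) ^ (1 - r / 2)) ^ (4 * ((k + 1) / 9) + 8))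
    (one_le_pow₀ hb) (fun i j => hD _ _ (patt_per _ _) (patt_per _ _) (cnt_adj _ _ _) k (by omega))
    (fun i j => hD _ _ (patt_per _ _) (patt_per _ _) (cnt_adj _ _ _) (k + 1) le_rfl) f
  have e : (6 * ((2 : ℝ) ^ (1 - r / 2)) ^ (4 * ((k + 1) / 9) + 8)) ^ (1 / r) =
      6 ^ (1 / r) * (rho r ^ (4 * ((k + 1) / 9) + 8))⁻¹ := by
    rw [Real.mul_rpow (by norm_num) (by positivity), base_rpow hr0]
  rw [e] at h
  exact h

lemma weakF (k : ℕ) {r : ℝ} (h1 : 1 ≤ r) (h2 : r < 2) (f : StrongDual 𝕜 (Xhigh 𝕜)) :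
    ∑ z, ‖f (eX 𝕜 k z)‖ ^ r ≤ (bF r k * ‖f‖) ^ r := by
  have hr0 : 0 < r := by linarith
  have hb := one_le_base h2
  have hD : ∀ (S : ℕ → Bool), (∀ b, S (9 + b) = S b) →
      cnt S 9 = 3 → ∀ n, n ≤ k + 1 →
      ((2 : ℝ) ^ (1 - r / 2)) ^ cnt S n ≤ ((2 : ℝ) ^ (1 - r / 2)) ^ (3 * ((k + 1) / 9) + 8) := by
    intro S hS h4 n hn
    refine pow_le_pow_right₀ hb ?_
    have h5 := cnt_le' S hS n
    rw [h4] at h5
    omega
  have h := weak_eX 𝕜 k h1 (D := ((2 : ℝ) ^ (1 - r / 2)) ^ (3 * ((k + 1) / 9) + 8))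
    (one_le_pow₀ hb) (fun i => hD _ (patt_per _ _) (cnt_patt _ _) k (by omega))
    (fun i => hD _ (patt_per _ _) (cnt_patt _ _) (k + 1) le_rfl) f
  have e : (2 * ((2 : ℝ) ^ (1 - r / 2)) ^ (3 * ((k + 1) / 9) + 8)) ^ (1 / r) =
      2 ^ (1 / r) * (rho r ^ (3 * ((k + 1) / 9) + 8))⁻¹ := by
    rw [Real.mul_rpow (by norm_num) (by positivity), base_rpow hr0]
  rw [e] at h
  exact h

/-! ### the failure of the outer inequality -/

/-- the index sets of the blocks -/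
def JH (k : ℕ) : Bool → Type
  | true => G (k + 1)
  | false => QH k

instance (k : ℕ) (i : Bool) : Fintype (JH k i) :=
  match i with
  | true => inferInstanceAs (Fintype (G (k + 1)))
  | false => inferInstanceAs (Fintype (QH k))

instance (k : ℕ) (i : Bool) : Nonempty (JH k i) :=
  match i with
  | true => inferInstanceAs (Nonempty (G (k + 1)))
  | false => inferInstanceAs (Nonempty (QH k))

/-- the functionals of a block -/
def yJ (k : ℕ) : ∀ i : Bool, JH k i → StrongDual 𝕜 (Yhigh 𝕜 q)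
  | true => yT 𝕜 q k
  | false => yF 𝕜 q k

/-- the vectors of a block -/
def xJ (k : ℕ) : ∀ i : Bool, JH k i → Xhigh 𝕜
  | true => xX 𝕜 k
  | false => eX 𝕜 k

lemma bT_pos (r : ℝ) (k : ℕ) : 0 < bT r k := by
  have := rho_pos r
  unfold bT; positivity

lemma bF_pos (r : ℝ) (k : ℕ) : 0 < bF r k := by
  have := rho_pos r
  have := sN_pos (k + 1)
  unfold bF; positivity

lemma aT_nonneg (r : ℝ) (k : ℕ) : 0 ≤ aT r k := by
  have := rho_pos r
  unfold aT; positivity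

lemma aF_nonneg (r : ℝ) (k : ℕ) : 0 ≤ aF r k := by
  unfold aF; positivity

theorem high_outer_fails (p : ℝ≥0∞) [Fact (1 ≤ p)] (hpq : p.HolderConjugate q) (hq : q ≠ ∞)
    (h1 : 1 ≤ q.toReal) (h2 : q.toReal < 2) (lam : ℝ) : ¬ BAPp 𝕜 p q lam (Xhigh 𝕜) := by
  classical
  have hr : 0 < q.toReal := by linarith
  obtain ⟨V0, C, hC0, hV1, hV2⟩ := exists_V (𝕜 := 𝕜) hq (cX 𝕜) 1 one_pos (norm_cX_le 𝕜)
    (fun i => wH q.toReal i) (fun i => wH_pos _ _) (wH_summable hr)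
  have hct : ∀ (x : Xhigh 𝕜) (i : IH), ctH 𝕜 q i (V0 x) = cX 𝕜 i x := by
    intro x i
    rw [ctH_apply, hV1, ← mul_assoc, ← RCLike.ofReal_mul, inv_mul_cancel₀ (wH_pos _ _).ne']
    simp
  have hmem : ∀ x, V0 x ∈ Yhigh 𝕜 q := by
    intro x
    rw [mem_Yhigh]
    rintro ⟨n, z⟩
    rw [relH_apply]
    simp only [hct, cX_apply]
    rw [sub_eq_zero]
    exact (mem_XH 𝕜 aM bM _).mp x.2 n z
  let V : Xhigh 𝕜 →L[𝕜] Yhigh 𝕜 q := V0.codRestrict (Yhigh 𝕜 q) hmem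
  have hVn : ∀ x, ‖V x‖ = ‖V0 x‖ := fun x => rfl
  refine outer_fail_telescope (𝕜 := 𝕜) hpq hq V C hC0 (fun n x => by simpa only [hVn] using hV2 n x)
    (betaH 𝕜 q) (fun n => QH n)
    (fun n z => ((((2 : ℝ) ^ (n + 1))⁻¹ : ℝ) : 𝕜) • etaH 𝕜 q n z) (fun n z => eX 𝕜 n z)
    ?_ ?_ (ι := Bool) (J := JH)
    (fun k i => bif i then aT q.toReal k else aF q.toReal k)
    (fun k i => bif i then bT q.toReal k else bF q.toReal k)
    (fun k i => by cases i <;> simp [aT_nonneg, aF_nonneg])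
    (fun k i => by cases i <;> simp [bT_pos, bF_pos])
    (tauH q.toReal) (tauH_pos q.toReal) (tauH_summable h1 h2)
    (fun k i => by
      cases i
      · exact aF_bF h1 h2 k
      · exact aT_bT k)
    (yJ 𝕜 q) (xJ 𝕜) ?_ ?_ ?_ (cX 𝕜) (cX_sep 𝕜) ?_ lam
  · intro n v
    rw [betaH_apply, smul_sum]
    refine sum_congr rfl fun z _ => ?_
    rw [_root_.smul_apply, smul_smul, smul_eq_mul]
  · intro n
    have h3 : ∀ z : QH n, etaH 𝕜 q n z (V (eX 𝕜 n z)) = 1 := by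
      intro z
      rw [etaH_apply]
      have h2 : ((V (eX 𝕜 n z) : Yhigh 𝕜 q) : lp (fun _ : IH => 𝕜) q) = V0 (eX 𝕜 n z) := rfl
      rw [h2]
      simp only [hct, cX_apply]
      have h4 := AH_eM_self 𝕜 n z z
      rw [if_pos rfl] at h4
      exact h4
    calc ∑ z : QH n, (((((2 : ℝ) ^ (n + 1))⁻¹ : ℝ) : 𝕜) • etaH 𝕜 q n z) (V (eX 𝕜 n z))
        = ∑ _z : QH n, ((((2 : ℝ) ^ (n + 1))⁻¹ : ℝ) : 𝕜) := by
          refine sum_congr rfl fun z _ => ?_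
          rw [_root_.smul_apply, h3, smul_eq_mul, mul_one]
      _ = 1 := by
          rw [Finset.sum_const, Finset.card_univ, card_Q, nsmul_eq_mul]
          push_cast
          exact mul_inv_cancel₀ (pow_ne_zero _ two_ne_zero)
  · intro k i j
    cases i
    · exact norm_yF_le 𝕜 q hq h1 k j
    · exact norm_yT_le 𝕜 q hq h1 h2 k j
  · intro k i f
    cases i
    · exact weakF 𝕜 k h1 h2 f
    · exact weakT 𝕜 k h1 h2 f
  · intro k v
    rw [betaH_tel, Fintype.sum_bool]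
    congr 1
    · refine sum_congr rfl fun h _ => ?_
      rw [← yT_apply]; rfl
    · refine sum_congr rfl fun h _ => ?_
      rw [← yF_apply]; rfl
  · rintro ⟨m, j⟩ v
    filter_upwards [eventually_gt_atTop m] with n hn
    rw [betaH_apply, map_smul, map_sum, Finset.sum_eq_zero, smul_zero]
    intro z _
    rw [map_smul, cX_apply]
    have h3 : ((eX 𝕜 n z : Xhigh 𝕜) : MH 𝕜 G QH) m = 0 := eM_ne 𝕜 n m z (by omega) (by omega)
    simp only [h3]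
    simp

end

end MP6f
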