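import Mathlib
import Pool.Agent.Lib.MP_6f6997_an.GUp
import Pool.Agent.Lib.MP_6f6997_an.HighWeak

/-!
# Operators with a representation of Hölder type
-/

open MeasureTheory ENNReal Finset

set_option maxSynthPendingDepth 3

noncomputable section

namespace MP6f

variable {𝕜 : Type} [RCLike 𝕜]

/-- the Chevet–Saphar norm of an operator with a representation of Hölder type -/
lemma gNorm_le_holder {Y X : Type*} [NormedAddCommGroup Y] [NormedSpace 𝕜 Y]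
    [NormedAddCommGroup X] [NormedSpace 𝕜 X] {p q : ℝ≥0∞} [Fact (1 ≤ p)] [Fact (1 ≤ q)]
    (hpq : p.HolderConjugate q) (hq : q ≠ ∞) {κ : Type*} [Fintype κ] (m : κ → ℝ)
    (hm : ∀ k, 0 ≤ m k) (hm1 : ∑ k, m k ≤ 1) (a : κ → StrongDual 𝕜 Y) (α : ℝ) (hα : 0 < α)
    (ha : ∀ k, ‖a k‖ ≤ α) (x : κ → X) (b : ℝ) (hb : 0 ≤ b)
    (hx : ∀ f : StrongDual 𝕜 X, ∑ k, ‖f (x k)‖ ^ q.toReal ≤ (b * ‖f‖) ^ q.toReal)
    (T : Y →L[𝕜] X)
    (hT : ∀ v, T v = ∑ k, (((m k ^ (1 - 1 / q.toReal) : ℝ) : 𝕜) * a k v) • x k) :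
    gNorm p q T ≤ ENNReal.ofReal (α * b) := by
  have hr := toReal_pos_of (Fact.out : 1 ≤ q) hq
  have h1 : gNorm p q T ≤ ENNReal.ofReal (1 ^ (1 - 1 / q.toReal) * (α * b)) := by
    refine gNorm_le_rep T
      (fun k => (((α⁻¹ * m k ^ (1 - 1 / q.toReal) : ℝ) : 𝕜)) • a k)
      (fun k => (α : 𝕜) • x k) (fun v => ?_) _ _ ?_ ?_
    · rw [hT]
      refine sum_congr rfl fun k _ => ?_
      rw [_root_.smul_apply, smul_smul, smul_eq_mul]
      congr 1
      have hα' : (α : 𝕜) ≠ 0 := by exact_mod_cast hα.ne'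
      push_cast
      field_simp
    · refine lpF_le_of_sum hpq hq _ m hm 1 hm1 fun k => ?_
      have h0 : 0 ≤ m k ^ (1 - 1 / q.toReal) := Real.rpow_nonneg (hm k) _
      rw [norm_norm, norm_smul, RCLike.norm_ofReal, abs_of_nonneg (by positivity)]
      calc α⁻¹ * m k ^ (1 - 1 / q.toReal) * ‖a k‖ ≤ α⁻¹ * m k ^ (1 - 1 / q.toReal) * α := by
            gcongr
            exact ha k
        _ = _ := by field_simp
    · intro f hf
      rw [lpF_eq hr]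
      have h2 : ∑ k, ‖f ((α : 𝕜) • x k)‖ ^ q.toReal ≤ (α * b) ^ q.toReal := by
        calc ∑ k, ‖f ((α : 𝕜) • x k)‖ ^ q.toReal = α ^ q.toReal * ∑ k, ‖f (x k)‖ ^ q.toReal := by
              rw [mul_sum]
              refine sum_congr rfl fun k _ => ?_
              rw [map_smul, norm_smul, RCLike.norm_ofReal, abs_of_pos hα,
                Real.mul_rpow hα.le (norm_nonneg _)]
          _ ≤ α ^ q.toReal * (b * ‖f‖) ^ q.toReal := by gcongr; exact hx f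
          _ ≤ α ^ q.toReal * (b * 1) ^ q.toReal := by gcongr
          _ = _ := by rw [mul_one, Real.mul_rpow hα.le hb]
      calc _ ≤ ((α * b) ^ q.toReal) ^ (1 / q.toReal) := by gcongr
        _ = α * b := by
          rw [← Real.rpow_mul (by positivity), mul_one_div_cancel hr.ne', Real.rpow_one]
  rwa [Real.one_rpow, one_mul] at h1

/-- the operator norm of an operator with a representation of Hölder type -/
lemma norm_le_holder {Y X : Type*} [NormedAddCommGroup Y] [NormedSpace 𝕜 Y]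
    [NormedAddCommGroup X] [NormedSpace 𝕜 X] {r : ℝ} (hr : 1 ≤ r) {κ : Type*} [Fintype κ] (m : κ → ℝ)
    (hm : ∀ k, 0 ≤ m k) (hm1 : ∑ k, m k ≤ 1) (a : κ → StrongDual 𝕜 Y) (α : ℝ) (hα : 0 ≤ α)
    (ha : ∀ k, ‖a k‖ ≤ α) (x : κ → X) (b : ℝ) (hb : 0 ≤ b)
    (hx : ∀ f : StrongDual 𝕜 X, ∑ k, ‖f (x k)‖ ^ r ≤ (b * ‖f‖) ^ r) (v : Y) :
    ‖∑ k, (((m k ^ (1 - 1 / r) : ℝ) : 𝕜) * a k v) • x k‖ ≤ α * b * ‖v‖ := by
  have hr0 : 0 < r := by linarith
  refine NormedSpace.norm_le_dual_bound 𝕜 _ (by positivity) fun f => ?_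
  rw [map_sum]
  calc ‖∑ k, f ((((m k ^ (1 - 1 / r) : ℝ) : 𝕜) * a k v) • x k)‖
      ≤ ∑ k, ‖f ((((m k ^ (1 - 1 / r) : ℝ) : 𝕜) * a k v) • x k)‖ := norm_sum_le _ _
    _ ≤ ∑ k, (α * ‖v‖) * ((m k ^ (1 / r)) ^ (r - 1) * ‖f (x k)‖) := by
        refine sum_le_sum fun k _ => ?_
        have h0 : 0 ≤ m k ^ (1 - 1 / r) := Real.rpow_nonneg (hm k) _
        have e1 : (m k ^ (1 / r)) ^ (r - 1) = m k ^ (1 - 1 / r) := by
          rw [← Real.rpow_mul (hm k)]; congr 1; field_simp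
        rw [map_smul, norm_smul, norm_mul, RCLike.norm_ofReal, abs_of_nonneg h0, e1]
        have h1 : ‖a k v‖ ≤ α * ‖v‖ := ((a k).le_opNorm v).trans (by gcongr; exact ha k)
        calc m k ^ (1 - 1 / r) * ‖a k v‖ * ‖f (x k)‖ ≤
            m k ^ (1 - 1 / r) * (α * ‖v‖) * ‖f (x k)‖ := by gcongr
          _ = _ := by ring
    _ = (α * ‖v‖) * ∑ k, ((m k ^ (1 / r)) ^ (r - 1) * ‖f (x k)‖) := by rw [mul_sum]
    _ ≤ (α * ‖v‖) * ((∑ k, (m k ^ (1 / r)) ^ r) ^ (1 - 1 / r) *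
        (∑ k, ‖f (x k)‖ ^ r) ^ (1 / r)) := by
        gcongr
        exact holder_like (fun k => m k ^ (1 / r)) (fun k => ‖f (x k)‖)
          (fun k => Real.rpow_nonneg (hm k) _) (fun k => norm_nonneg _) hr
    _ ≤ (α * ‖v‖) * (1 * (b * ‖f‖)) := by
        have e2 : ∑ k, (m k ^ (1 / r)) ^ r ≤ 1 := by
          refine le_trans (le_of_eq ?_) hm1
          refine sum_congr rfl fun k _ => ?_
          rw [← Real.rpow_mul (hm k), one_div_mul_cancel hr0.ne', Real.rpow_one]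
        have e3 : 0 ≤ ∑ k, (m k ^ (1 / r)) ^ r :=
          sum_nonneg fun k _ => Real.rpow_nonneg (Real.rpow_nonneg (hm k) _) _
        have e4 : (∑ k, (m k ^ (1 / r)) ^ r) ^ (1 - 1 / r) ≤ 1 := by
          refine Real.rpow_le_one e3 e2 ?_
          rw [sub_nonneg, div_le_one hr0]; exact hr
        have e5 : (∑ k, ‖f (x k)‖ ^ r) ^ (1 / r) ≤ b * ‖f‖ := by
          calc (∑ k, ‖f (x k)‖ ^ r) ^ (1 / r) ≤ ((b * ‖f‖) ^ r) ^ (1 / r) := by
                gcongr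
                exact hx f
            _ = b * ‖f‖ := by
              rw [← Real.rpow_mul (by positivity), mul_one_div_cancel hr0.ne', Real.rpow_one]
        gcongr
    _ = α * b * ‖v‖ * ‖f‖ := by ring

end MP6f
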