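import Mathlib
import Pool.Agent.Lib.MP_6f6997_an.Cells
import Pool.Agent.Lib.MP_6f6997_an.HolderRep

/-!
# The abstract form of the inner inequality for `p ≥ 2`
-/

open MeasureTheory ENNReal Finset

set_option maxSynthPendingDepth 3

noncomputable section

namespace MP6f

variable {𝕜 : Type} [RCLike 𝕜]

/-- the normalised `ℓ_2` norm -/
def sgm {Γ : Type} [Fintype Γ] (c : Γ → 𝕜) : ℝ :=
  Real.sqrt ((Fintype.card Γ : ℝ)⁻¹ * ∑ g, ‖c g‖ ^ 2)

lemma sgm_nonneg {Γ : Type} [Fintype Γ] (c : Γ → 𝕜) : 0 ≤ sgm c := Real.sqrt_nonneg _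

lemma sgm_le {Γ : Type} [Fintype Γ] [Nonempty Γ] (s : Γ → ℝ) (c : Γ → 𝕜) {r : ℝ} (hr : 1 ≤ r)
    (hr2 : r ≤ 2) (hs : ∀ g, 0 ≤ s g) (hc : ∀ g, ‖c g‖ ≤ s g ^ (r - 1)) :
    sgm c ≤ ((Fintype.card Γ : ℝ)⁻¹ * ∑ g, s g ^ r) ^ (1 - 1 / r) := by
  have hN : (0 : ℝ) < Fintype.card Γ := by exact_mod_cast Fintype.card_pos
  unfold sgm
  rcases hr.eq_or_lt with rfl | hr1
  · simp only [div_one, sub_self, Real.rpow_zero] at hc ⊢
    rw [Real.sqrt_le_left zero_le_one, one_pow]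
    have h1 : ∑ g, ‖c g‖ ^ 2 ≤ ∑ _g : Γ, (1 : ℝ) :=
      sum_le_sum fun g _ => pow_le_one₀ (norm_nonneg _) (hc g)
    rw [sum_const, card_univ, nsmul_eq_mul, mul_one] at h1
    calc (Fintype.card Γ : ℝ)⁻¹ * ∑ g, ‖c g‖ ^ 2 ≤ (Fintype.card Γ : ℝ)⁻¹ * Fintype.card Γ := by
          gcongr
      _ = 1 := by field_simp
  · have hr0 : 0 < r := by linarith
    have hr10 : 0 < r - 1 := by linarith
    set t := r / (2 * (r - 1)) with ht
    have ht1 : 1 ≤ t := by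
      rw [ht, one_le_div (by positivity)]; linarith
    have ht0 : 0 < t := by linarith
    have h1 : ((Fintype.card Γ : ℝ)⁻¹ * ∑ g, ‖c g‖ ^ 2) ≤
        ((Fintype.card Γ : ℝ)⁻¹ * ∑ g, s g ^ (2 * (r - 1))) := by
      gcongr with g _
      calc ‖c g‖ ^ 2 ≤ (s g ^ (r - 1)) ^ 2 := by
            have := hc g
            gcongr
        _ = s g ^ (2 * (r - 1)) := by
            rw [← Real.rpow_natCast, ← Real.rpow_mul (hs g)]; congr 1; push_cast; ring
    have h2 : (∑ g, (Fintype.card Γ : ℝ)⁻¹ * s g ^ (2 * (r - 1))) ^ t ≤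
        ∑ g, (Fintype.card Γ : ℝ)⁻¹ * (s g ^ (2 * (r - 1))) ^ t := by
      refine Real.rpow_arith_mean_le_arith_mean_rpow univ _ _ (fun _ _ => by positivity) ?_
        (fun g _ => Real.rpow_nonneg (hs g) _) ht1
      rw [sum_const, card_univ, nsmul_eq_mul]; field_simp
    have h3 : ∀ g, (s g ^ (2 * (r - 1))) ^ t = s g ^ r := by
      intro g
      rw [← Real.rpow_mul (hs g)]; congr 1; rw [ht]; field_simp
    simp only [h3] at h2
    rw [← mul_sum, ← mul_sum] at h2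
    have h4 : 0 ≤ (Fintype.card Γ : ℝ)⁻¹ * ∑ g, s g ^ (2 * (r - 1)) :=
      mul_nonneg (by positivity) (sum_nonneg fun g _ => Real.rpow_nonneg (hs g) _)
    have h5 : 0 ≤ (Fintype.card Γ : ℝ)⁻¹ * ∑ g, s g ^ r :=
      mul_nonneg (by positivity) (sum_nonneg fun g _ => Real.rpow_nonneg (hs g) _)
    have h6 : (Fintype.card Γ : ℝ)⁻¹ * ∑ g, s g ^ (2 * (r - 1)) ≤
        ((Fintype.card Γ : ℝ)⁻¹ * ∑ g, s g ^ r) ^ (1 / t) := by
      have := Real.rpow_le_rpow (Real.rpow_nonneg h4 _) h2 (by positivity : 0 ≤ 1 / t)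
      rwa [← Real.rpow_mul h4, mul_one_div_cancel ht0.ne', Real.rpow_one] at this
    calc Real.sqrt ((Fintype.card Γ : ℝ)⁻¹ * ∑ g, ‖c g‖ ^ 2)
        ≤ Real.sqrt (((Fintype.card Γ : ℝ)⁻¹ * ∑ g, s g ^ r) ^ (1 / t)) :=
          Real.sqrt_le_sqrt (h1.trans h6)
      _ = ((Fintype.card Γ : ℝ)⁻¹ * ∑ g, s g ^ r) ^ (1 - 1 / r) := by
          rw [Real.sqrt_eq_rpow, ← Real.rpow_mul h5]
          congr 1
          rw [ht]; field_simp

set_option maxHeartbeats 4000000 in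
/-- the abstract inner inequality -/
lemma inner_core {X M : Type} [NormedAddCommGroup X] [NormedSpace 𝕜 X] [NormedAddCommGroup M]
    [NormedSpace 𝕜 M] {p q : ℝ≥0∞} [Fact (1 ≤ p)] [Fact (1 ≤ q)] (hpq : p.HolderConjugate q)
    (hq : q ≠ ∞) (hq2 : q.toReal ≤ 2) (J : X →L[𝕜] M)
    (hJ : ∀ a : StrongDual 𝕜 X, ∃ a' : StrongDual 𝕜 M, ‖a'‖ ≤ ‖a‖ ∧ ∀ x, a' (J x) = a x)
    (D : X →L[𝕜] M) (hD : ‖D‖ ≤ 1) (R : X →L[𝕜] X) {Γ : Type} [Fintype Γ] [Nonempty Γ]
    (y : Γ → StrongDual 𝕜 X) (hy : ∀ g, ‖y g‖ ≤ 1) (u : Γ → M)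
    (hR : ∀ x, J (R x) = D x - ∑ g, y g x • u g) {d : ℕ} (v : Fin d → X)
    (r : Fin d → StrongDual 𝕜 X) (hr : ∀ x, R x = ∑ l, r l x • v l) (S : X →L[𝕜] X)
    (hSR : ∀ x, S (R x) = S x) (K : ℝ) (hK : 0 ≤ K) (C : ℝ) (hC : 0 ≤ C)
    (hlift : ∀ c : Γ → 𝕜, ∃ (m : M) (t : Fin d → 𝕜), ‖m‖ ≤ K * sgm c ∧
      ∑ g, c g • u g = m + J (∑ l, t l • v l) ∧ S (∑ l, t l • v l) = 0 ∧
      ∀ l, ‖t l‖ ≤ C * sgm c)
    {Ω : Type} [MeasurableSpace Ω] (μ : Measure Ω) [IsProbabilityMeasure μ]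
    (A : X →L[𝕜] Lp 𝕜 ∞ μ) (B : Lp 𝕜 p μ →L[𝕜] X) (hAB : ∀ x, S x = B (inclLp μ p (A x)))
    (η : ℝ) (hη : 0 < η) :
    gNorm p q S ≤ ENNReal.ofReal ((1 + K) * ((‖A‖ + η) * ‖B‖) + η) := by
  classical
  have hr0 := toReal_pos_of (Fact.out : 1 ≤ q) hq
  have hr1 : 1 ≤ q.toReal := by
    rw [← ENNReal.toReal_one]; exact ENNReal.toReal_mono hq Fact.out
  set ρ := q.toReal with hρ
  have hN : (0 : ℝ) < Fintype.card Γ := by exact_mod_cast Fintype.card_pos
  have hrs : 0 ≤ ∑ l, ‖r l‖ := sum_nonneg fun l _ => norm_nonneg _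
  set ε := η / (1 + C * d + ∑ l, ‖r l‖) with hε
  have hε0 : 0 < ε := by positivity
  obtain ⟨κ, _, m, a, x, hm0, hm1, ha, hx, happ⟩ := exists_cells hpq hq μ A B v ε hε0
  choose a' ha'1 ha'2 using fun k => hJ (a k)
  have hα : 0 < ‖A‖ + η := by have := norm_nonneg A; linarith
  have ha'3 : ∀ k, ‖a' k‖ ≤ ‖A‖ + η := fun k => ((ha'1 k).trans (ha k)).trans (by linarith)
  -- the operator `T`
  let T : M →L[𝕜] X := ∑ k, ((((m k ^ (1 - 1 / ρ) : ℝ) : 𝕜)) • a' k).smulRight (x k)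
  have hT : ∀ w, T w = ∑ k, (((m k ^ (1 - 1 / ρ) : ℝ) : 𝕜) * a' k w) • x k := by
    intro w
    simp only [T, _root_.sum_apply, ContinuousLinearMap.smulRight_apply, _root_.smul_apply,
      smul_eq_mul]
  have hTn : ∀ w, ‖T w‖ ≤ (‖A‖ + η) * ‖B‖ * ‖w‖ := by
    intro w
    rw [hT]
    exact norm_le_holder hr1 m hm0 hm1 a' _ hα.le ha'3 x ‖B‖ (norm_nonneg B) hx w
  have hTv : ∀ l, ‖S (v l) - T (J (v l))‖ ≤ ε := by
    intro l
    rw [norm_sub_rev, hT, hAB]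
    simp only [ha'2]
    exact happ l
  -- the bound on the span of the `u g`
  set K' := K * ((‖A‖ + η) * ‖B‖) + ε * (C * d) with hK'
  have hK'0 : 0 ≤ K' := by have := norm_nonneg B; positivity
  have hTu : ∀ c : Γ → 𝕜, ‖T (∑ g, c g • u g)‖ ≤ K' * sgm c := by
    intro c
    obtain ⟨w, t, h1, h2, h3, h4⟩ := hlift c
    have hsg := sgm_nonneg c
    have e1 : T (∑ g, c g • u g) = T w - ∑ l, t l • (S (v l) - T (J (v l))) := by
      rw [h2, map_add]
      simp only [smul_sub, sum_sub_distrib]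
      have e2 : ∑ l, t l • S (v l) = 0 := by
        rw [← h3, map_sum]; exact sum_congr rfl fun l _ => (map_smul _ _ _).symm
      have e3 : T (J (∑ l, t l • v l)) = ∑ l, t l • T (J (v l)) := by
        rw [map_sum, map_sum]
        exact sum_congr rfl fun l _ => by rw [map_smul, map_smul]
      rw [e2, e3, zero_sub, sub_neg_eq_add]
    rw [e1]
    calc ‖T w - ∑ l, t l • (S (v l) - T (J (v l)))‖
        ≤ ‖T w‖ + ‖∑ l, t l • (S (v l) - T (J (v l)))‖ := norm_sub_le _ _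
      _ ≤ (‖A‖ + η) * ‖B‖ * (K * sgm c) + ∑ _l : Fin d, (C * sgm c) * ε := by
          have hB := norm_nonneg B
          refine add_le_add ((hTn w).trans (by gcongr)) ((norm_sum_le _ _).trans ?_)
          refine sum_le_sum fun l _ => ?_
          rw [norm_smul]
          exact mul_le_mul (h4 l) (hTv l) (norm_nonneg _) (by positivity)
      _ = K' * sgm c := by
          rw [sum_const, card_univ, Fintype.card_fin, nsmul_eq_mul, hK']; ring
  -- the three operators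
  let T1 : X →L[𝕜] X := T.comp D
  let T2 : X →L[𝕜] X := ∑ g, (y g).smulRight (-T (u g))
  let T3 : X →L[𝕜] X := ∑ l, (r l).smulRight (S (v l) - T (J (v l)))
  have hsplit : S = T1 + (T2 + T3) := by
    apply ContinuousLinearMap.ext
    intro z
    have e1 : T (J (R z)) = T (D z) - ∑ g, y g z • T (u g) := by
      rw [hR, map_sub, map_sum]
      congr 1
      exact sum_congr rfl fun g _ => map_smul _ _ _
    have e2 : T (J (R z)) = ∑ l, r l z • T (J (v l)) := by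
      rw [hr, map_sum, map_sum]
      exact sum_congr rfl fun l _ => by rw [map_smul, map_smul]
    have e3 : S z = ∑ l, r l z • S (v l) := by
      rw [← hSR, hr, map_sum]
      exact sum_congr rfl fun l _ => map_smul _ _ _
    have e4 : (T1 + (T2 + T3)) z = T (D z) + (∑ g, y g z • (-T (u g)) +
        ∑ l, r l z • (S (v l) - T (J (v l)))) := by
      simp only [_root_.add_apply, T1, T2, T3, _root_.sum_apply, ContinuousLinearMap.smulRight_apply,
        ContinuousLinearMap.comp_apply]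
    rw [e4]
    simp only [smul_sub, sum_sub_distrib, smul_neg, sum_neg_distrib]
    rw [← e2, ← e3, e1]
    abel
  have hB := norm_nonneg B
  have b1 : gNorm p q T1 ≤ ENNReal.ofReal ((‖A‖ + η) * ‖B‖) := by
    refine gNorm_le_holder hpq hq m hm0 hm1 (fun k => (a' k).comp D) _ hα (fun k => ?_) x ‖B‖ hB hx T1
      (fun z => ?_)
    · refine (ContinuousLinearMap.opNorm_comp_le _ _).trans ?_
      calc ‖a' k‖ * ‖D‖ ≤ (‖A‖ + η) * 1 := by
            have := ha'3 k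
            gcongr
        _ = _ := mul_one _
    · change T (D z) = _
      rw [hT]; rfl
  have b2 : gNorm p q T2 ≤ ENNReal.ofReal (1 * K') := by
    refine gNorm_le_holder hpq hq (fun _ : Γ => (Fintype.card Γ : ℝ)⁻¹) (fun _ => by positivity) ?_ y 1
      one_pos hy (fun g => (((Fintype.card Γ : ℝ) ^ (1 - 1 / ρ) : ℝ) : 𝕜) • (-T (u g))) K' hK'0
      (fun f => ?_) T2 (fun z => ?_)
    · rw [sum_const, card_univ, nsmul_eq_mul, mul_inv_cancel₀ hN.ne']
    · refine weak_of_dual _ hr1 hK'0 (fun s c hs hc => ?_) f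
      have e1 : ∑ g, c g • (((Fintype.card Γ : ℝ) ^ (1 - 1 / ρ) : ℝ) : 𝕜) • (-T (u g)) =
          -((((Fintype.card Γ : ℝ) ^ (1 - 1 / ρ) : ℝ) : 𝕜) • T (∑ g, c g • u g)) := by
        rw [map_sum, smul_sum, ← sum_neg_distrib]
        refine sum_congr rfl fun g _ => ?_
        rw [map_smul, smul_comm, smul_neg, smul_neg]
      rw [e1, norm_neg, norm_smul, RCLike.norm_ofReal, abs_of_pos (Real.rpow_pos_of_pos hN _)]
      have h1 := sgm_le s c hr1 hq2 hs hc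
      have h2 : 0 ≤ ∑ g, s g ^ ρ := sum_nonneg fun g _ => Real.rpow_nonneg (hs g) _
      calc (Fintype.card Γ : ℝ) ^ (1 - 1 / ρ) * ‖T (∑ g, c g • u g)‖
          ≤ (Fintype.card Γ : ℝ) ^ (1 - 1 / ρ) * (K' *
            (((Fintype.card Γ : ℝ)⁻¹ * ∑ g, s g ^ ρ) ^ (1 - 1 / ρ))) := by
            gcongr
            exact (hTu c).trans (by gcongr)
        _ = K' * (∑ g, s g ^ ρ) ^ (1 - 1 / ρ) := by
            rw [Real.mul_rpow (by positivity) h2, Real.inv_rpow hN.le]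
            have := (Real.rpow_pos_of_pos hN (1 - 1 / ρ)).ne'
            field_simp
    · simp only [T2, _root_.sum_apply, ContinuousLinearMap.smulRight_apply]
      refine sum_congr rfl fun g _ => ?_
      rw [smul_smul]
      congr 1
      have e1 : (((((Fintype.card Γ : ℝ)⁻¹) ^ (1 - 1 / ρ) : ℝ)) : 𝕜) *
          (((Fintype.card Γ : ℝ) ^ (1 - 1 / ρ) : ℝ) : 𝕜) = 1 := by
        rw [← RCLike.ofReal_mul, Real.inv_rpow hN.le,
          inv_mul_cancel₀ (Real.rpow_pos_of_pos hN _).ne', RCLike.ofReal_one]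
      linear_combination (-(y g z)) * e1
  have b3 : gNorm p q T3 ≤ ENNReal.ofReal (ε * ∑ l, ‖r l‖) := by
    refine (gNorm_le_sum (p := p) (q := q) hpq hq r (fun l => S (v l) - T (J (v l))) T3
      (fun z => by simp only [T3, _root_.sum_apply, ContinuousLinearMap.smulRight_apply])).trans
      (ENNReal.ofReal_le_ofReal ?_)
    rw [mul_sum]
    refine sum_le_sum fun l _ => ?_
    rw [mul_comm]
    gcongr
    exact hTv l
  calc gNorm p q S = gNorm p q (T1 + (T2 + T3)) := by rw [← hsplit]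
    _ ≤ gNorm p q T1 + (gNorm p q T2 + gNorm p q T3) :=
        (gNorm_add_le hpq hq _ _).trans (add_le_add le_rfl (gNorm_add_le hpq hq _ _))
    _ ≤ ENNReal.ofReal ((‖A‖ + η) * ‖B‖) + (ENNReal.ofReal (1 * K') +
        ENNReal.ofReal (ε * ∑ l, ‖r l‖)) := add_le_add b1 (add_le_add b2 b3)
    _ = ENNReal.ofReal ((‖A‖ + η) * ‖B‖ + (1 * K' + ε * ∑ l, ‖r l‖)) := by
        rw [ENNReal.ofReal_add (by positivity) (by positivity),
          ENNReal.ofReal_add (by positivity) (by positivity)]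
    _ ≤ ENNReal.ofReal ((1 + K) * ((‖A‖ + η) * ‖B‖) + η) := by
        refine ENNReal.ofReal_le_ofReal ?_
        have h1 : ε * (C * d + ∑ l, ‖r l‖) ≤ η := by
          rw [hε, div_mul_eq_mul_div, div_le_iff₀ (by positivity)]
          nlinarith
        rw [hK']
        linarith

end MP6f
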