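import Mathlib
import Pool.Agent.Lib.MP_6f6997_an.Khin

/-!
# Bounded functions with prescribed Rademacher coefficients (Riesz products)
-/

open Finset

noncomputable section

namespace MP6f

variable {κ : Type*} [Fintype κ] [DecidableEq κ]

lemma exists_lift_one (y : κ → ℝ) (hy : ∑ k, y k ^ 2 ≤ 1) :
    ∃ w : (κ → Bool) → ℝ, (∀ z, ∑ om, sg (om z) * w om = (Fintype.card (κ → Bool) : ℝ) * y z) ∧
      ∀ om, |w om| ≤ 2 := by
  refine ⟨fun om => (∏ k, (1 + ((y k * sg (om k) : ℝ) : ℂ) * Complex.I)).im, fun z => ?_, fun om => ?_⟩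
  · have h1 : ∀ om : κ → Bool, sg (om z) * (∏ k, (1 + ((y k * sg (om k) : ℝ) : ℂ) * Complex.I)).im =
        (∏ k, ((if k = z then ((sg (om k) : ℝ) : ℂ) else 1) *
          (1 + ((y k * sg (om k) : ℝ) : ℂ) * Complex.I))).im := by
      intro om
      rw [prod_mul_distrib, prod_ite_eq' univ z, if_pos (mem_univ z), Complex.im_ofReal_mul]
    simp only [h1]
    rw [← Complex.im_sum]
    have h2 : ∑ om : κ → Bool, ∏ k, ((if k = z then ((sg (om k) : ℝ) : ℂ) else 1) *
          (1 + ((y k * sg (om k) : ℝ) : ℂ) * Complex.I)) =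
        ∏ k, ∑ b : Bool, ((if k = z then ((sg b : ℝ) : ℂ) else 1) *
          (1 + ((y k * sg b : ℝ) : ℂ) * Complex.I)) := by
      rw [Finset.prod_univ_sum, Fintype.piFinset_univ]
    rw [h2]
    have h3 : ∀ k, ∑ b : Bool, ((if k = z then ((sg b : ℝ) : ℂ) else 1) *
          (1 + ((y k * sg b : ℝ) : ℂ) * Complex.I)) = 2 * (if k = z then ((y z : ℝ) : ℂ) * Complex.I else 1) := by
      intro k
      rw [Fintype.sum_bool]
      by_cases hk : k = z
      · subst hk
        simp only [sg, if_true]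
        push_cast
        simp
        ring
      · simp only [sg, if_neg hk]
        push_cast
        simp
        ring
    simp only [h3]
    rw [prod_mul_distrib, prod_ite_eq' univ z, if_pos (mem_univ z)]
    have h4 : (∏ _k : κ, (2 : ℂ)) = (((Fintype.card (κ → Bool) : ℝ)) : ℂ) := by
      simp
    rw [h4, Complex.im_ofReal_mul]
    simp
  · have h1 : |(∏ k, (1 + ((y k * sg (om k) : ℝ) : ℂ) * Complex.I)).im| ≤
        ‖∏ k, (1 + ((y k * sg (om k) : ℝ) : ℂ) * Complex.I)‖ := Complex.abs_im_le_norm _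
    refine h1.trans ?_
    rw [norm_prod]
    have h2 : ∀ k, ‖1 + ((y k * sg (om k) : ℝ) : ℂ) * Complex.I‖ ≤ Real.exp (y k ^ 2 / 2) := by
      intro k
      have h3 : ‖(1 : ℂ) + ((y k * sg (om k) : ℝ) : ℂ) * Complex.I‖ = Real.sqrt (1 + y k ^ 2) := by
        have e : (1 : ℂ) + ((y k * sg (om k) : ℝ) : ℂ) * Complex.I =
            ((1 : ℝ) : ℂ) + ((y k * sg (om k) : ℝ) : ℂ) * Complex.I := by push_cast; ring
        rw [e, Complex.norm_add_mul_I]
        congr 1
        have := sg_mul_self (om k)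
        linear_combination (y k ^ 2) * this
      rw [h3, Real.exp_half]
      refine Real.sqrt_le_sqrt ?_
      have := Real.add_one_le_exp (y k ^ 2)
      linarith
    calc ∏ k, ‖1 + ((y k * sg (om k) : ℝ) : ℂ) * Complex.I‖ ≤ ∏ k, Real.exp (y k ^ 2 / 2) :=
          prod_le_prod (fun k _ => norm_nonneg _) fun k _ => h2 k
      _ = Real.exp (∑ k, y k ^ 2 / 2) := (Real.exp_sum _ _).symm
      _ ≤ Real.exp (1 / 2) := by
          apply Real.exp_le_exp.mpr
          rw [← sum_div]; linarith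
      _ ≤ 2 := by
          rw [Real.exp_half]
          have : Real.exp 1 < 2.7182818286 := Real.exp_one_lt_d9
          rw [Real.sqrt_le_left (by norm_num)]
          linarith

lemma exists_lift_real (y : κ → ℝ) :
    ∃ w : (κ → Bool) → ℝ, (∀ z, ∑ om, sg (om z) * w om = (Fintype.card (κ → Bool) : ℝ) * y z) ∧
      ∀ om, |w om| ≤ 2 * Real.sqrt (∑ k, y k ^ 2) := by
  set σ := Real.sqrt (∑ k, y k ^ 2) with hσ
  have hσ0 : 0 ≤ σ := Real.sqrt_nonneg _
  have hs : σ ^ 2 = ∑ k, y k ^ 2 := Real.sq_sqrt (sum_nonneg fun k _ => sq_nonneg _)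
  rcases hσ0.eq_or_lt with h0 | h0
  · have hy : ∀ k, y k = 0 := by
      rw [← h0] at hs
      intro k
      have : y k ^ 2 ≤ ∑ k, y k ^ 2 := single_le_sum (f := fun k => y k ^ 2) (fun k _ => sq_nonneg _) (mem_univ k)
      rw [← hs] at this
      nlinarith [sq_nonneg (y k)]
    refine ⟨fun _ => 0, fun z => by simp [hy], fun om => by simp [← h0]⟩
  · obtain ⟨w, hw1, hw2⟩ := exists_lift_one (fun k => y k / σ) (by
      simp only [div_pow]
      rw [← sum_div, ← hs, div_self (by positivity)])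
    refine ⟨fun om => σ * w om, fun z => ?_, fun om => ?_⟩
    · have : ∑ om, sg (om z) * (σ * w om) = σ * ∑ om, sg (om z) * w om := by
        rw [mul_sum]; exact sum_congr rfl fun om _ => by ring
      rw [this, hw1]; field_simp
    · rw [abs_mul, abs_of_pos h0]
      have := hw2 om
      nlinarith

/-- bounded functions with prescribed Rademacher coefficients -/
lemma exists_lift (𝕜 : Type) [RCLike 𝕜] (y : κ → 𝕜) :
    ∃ w : (κ → Bool) → 𝕜, (∀ z, ∑ om, ((sg (om z) : ℝ) : 𝕜) * w om =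
      ((Fintype.card (κ → Bool) : ℝ) : 𝕜) * y z) ∧
      ∀ om, ‖w om‖ ≤ 4 * Real.sqrt (∑ k, ‖y k‖ ^ 2) := by
  obtain ⟨u, hu1, hu2⟩ := exists_lift_real (fun k => RCLike.re (y k))
  obtain ⟨v, hv1, hv2⟩ := exists_lift_real (fun k => RCLike.im (y k))
  refine ⟨fun om => (u om : 𝕜) + (v om : 𝕜) * RCLike.I, fun z => ?_, fun om => ?_⟩
  · have h1 : ∑ om, ((sg (om z) : ℝ) : 𝕜) * ((u om : 𝕜) + (v om : 𝕜) * RCLike.I) =
        ((∑ om, sg (om z) * u om : ℝ) : 𝕜) + ((∑ om, sg (om z) * v om : ℝ) : 𝕜) * RCLike.I := by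
      push_cast
      rw [sum_mul, ← sum_add_distrib]
      exact sum_congr rfl fun om _ => by ring
    rw [h1, hu1, hv1]
    push_cast
    rw [mul_assoc, ← mul_add, RCLike.re_add_im]
  · have h1 : ‖(u om : 𝕜) + (v om : 𝕜) * RCLike.I‖ ≤ |u om| + |v om| := by
      refine (norm_add_le _ _).trans ?_
      rw [norm_mul, RCLike.norm_ofReal, RCLike.norm_ofReal]
      have h2 : ‖(RCLike.I : 𝕜)‖ ≤ 1 := by
        by_cases hI : (RCLike.I : 𝕜) = 0
        · rw [hI]; simp
        · rw [RCLike.norm_I_of_ne_zero hI]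
      have h3 := abs_nonneg (v om)
      nlinarith
    have h2 : Real.sqrt (∑ k, RCLike.re (y k) ^ 2) ≤ Real.sqrt (∑ k, ‖y k‖ ^ 2) := by
      refine Real.sqrt_le_sqrt (sum_le_sum fun k _ => ?_)
      exact sq_le_sq' (by have := RCLike.abs_re_le_norm (y k); have h := abs_le.mp this; linarith [h.1])
        ((le_abs_self _).trans (RCLike.abs_re_le_norm (y k)))
    have h3 : Real.sqrt (∑ k, RCLike.im (y k) ^ 2) ≤ Real.sqrt (∑ k, ‖y k‖ ^ 2) := by
      refine Real.sqrt_le_sqrt (sum_le_sum fun k _ => ?_)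
      exact sq_le_sq' (by have := RCLike.abs_im_le_norm (y k); have h := abs_le.mp this; linarith [h.1])
        ((le_abs_self _).trans (RCLike.abs_im_le_norm (y k)))
    linarith [hu2 om, hv2 om]

end MP6f
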