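import Mathlib
import Pool.Agent.Lib.MP_6f6997_an.HighSpace
import Pool.Agent.Lib.MP_6f6997_an.LpDual

/-!
# A norm one retraction from the bidual of `XH` onto `XH`
-/

open ENNReal Finset

set_option maxSynthPendingDepth 3

noncomputable section

namespace MP6f

section
variable (𝕜 : Type) [RCLike 𝕜] {G Q : ℕ → Type} [∀ n, Fintype (G n)] [∀ n, Fintype (Q n)]
  [∀ n, DecidableEq (Q n)] (a : ∀ n, Q n → G n → ℝ) (b : ∀ n, Q n → G (n + 1) → ℝ)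

/-- coordinate functionals -/
def coX (n : ℕ) (j : G n ⊕ (Q n → Bool)) : StrongDual 𝕜 (XH 𝕜 a b) :=
  LinearMap.mkContinuous
    { toFun := fun x => (x : MH 𝕜 G Q) n j
      map_add' := fun _ _ => rfl
      map_smul' := fun _ _ => rfl } 1 (fun x => by
        rw [one_mul]
        calc ‖(x : MH 𝕜 G Q) n j‖ ≤ ‖(x : MH 𝕜 G Q) n‖ := norm_le_pi_norm _ _
          _ ≤ ‖(x : MH 𝕜 G Q)‖ := lp.norm_apply_le_norm (by norm_num) _ _)

lemma coX_apply (n : ℕ) (j : G n ⊕ (Q n → Bool)) (x : XH 𝕜 a b) :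
    coX 𝕜 a b n j x = (x : MH 𝕜 G Q) n j := rfl

lemma norm_coX_le (n : ℕ) (j : G n ⊕ (Q n → Bool)) : ‖coX 𝕜 a b n j‖ ≤ 1 :=
  LinearMap.mkContinuous_norm_le _ zero_le_one _

/-- the relations between the coordinate functionals -/
lemma coX_rel (n : ℕ) (z : Q n) :
    ∑ g, ((a n z g : ℝ) : 𝕜) • coX 𝕜 a b n (Sum.inl g) =
      ∑ g, ((b n z g : ℝ) : 𝕜) • coX 𝕜 a b (n + 1) (Sum.inl g) -
      (((Fintype.card (Q n → Bool) : ℝ)⁻¹ : ℝ) : 𝕜) •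
        ∑ om : Q n → Bool, ((sg (om z) : ℝ) : 𝕜) • coX 𝕜 a b n (Sum.inr om) := by
  apply ContinuousLinearMap.ext
  intro x
  simp only [_root_.sub_apply, _root_.sum_apply, _root_.smul_apply, smul_eq_mul, coX_apply]
  exact (mem_XH 𝕜 a b _).mp x.2 n z

/-- a coordinate where the sup norm is attained -/
lemma exists_coord (n : ℕ) (c : EH 𝕜 G Q n) : ∃ j, ‖c‖ = ‖c j‖ := by
  classical
  have hne : Nonempty (G n ⊕ (Q n → Bool)) := ⟨Sum.inr fun _ => true⟩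
  obtain ⟨j, hj⟩ := Finite.exists_max fun j => ‖c j‖
  refine ⟨j, le_antisymm ?_ (norm_le_pi_norm c j)⟩
  exact (pi_norm_le_iff_of_nonneg (norm_nonneg _)).mpr hj

lemma sum_sq_bidual_le (F : StrongDual 𝕜 (StrongDual 𝕜 (XH 𝕜 a b))) (s : Finset ℕ) :
    ∑ n ∈ s, ‖(fun j => F (coX 𝕜 a b n j) : EH 𝕜 G Q n)‖ ^ 2 ≤ ‖F‖ ^ 2 := by
  classical
  set c : ∀ n, EH 𝕜 G Q n := fun n j => F (coX 𝕜 a b n j) with hc
  choose j hj using fun n => exists_coord 𝕜 n (c n)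
  choose u hu1 hu2 using fun n => exists_phase (c n (j n))
  set S := ∑ n ∈ s, ‖c n‖ ^ 2 with hS
  have hS0 : 0 ≤ S := sum_nonneg fun n _ => sq_nonneg _
  let Φ : StrongDual 𝕜 (XH 𝕜 a b) := ∑ n ∈ s, ((‖c n‖ : 𝕜) * u n) • coX 𝕜 a b n (j n)
  have h1 : F Φ = (S : 𝕜) := by
    simp only [Φ, map_sum, map_smul, smul_eq_mul, hS]
    refine sum_congr rfl fun n _ => ?_
    have h2 : F (coX 𝕜 a b n (j n)) = c n (j n) := rfl
    rw [h2, mul_assoc, hu2, ← hj, ← RCLike.ofReal_mul, sq]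
  have h2 : ‖Φ‖ ≤ Real.sqrt S := by
    refine ContinuousLinearMap.opNorm_le_bound _ (Real.sqrt_nonneg _) fun x => ?_
    have e1 : Φ x = ∑ n ∈ s, ((‖c n‖ : 𝕜) * u n) * (x : MH 𝕜 G Q) n (j n) := by
      simp only [Φ, _root_.sum_apply, _root_.smul_apply, smul_eq_mul, coX_apply]
    rw [e1]
    calc ‖∑ n ∈ s, ((‖c n‖ : 𝕜) * u n) * (x : MH 𝕜 G Q) n (j n)‖
        ≤ ∑ n ∈ s, ‖((‖c n‖ : 𝕜) * u n) * (x : MH 𝕜 G Q) n (j n)‖ := norm_sum_le _ _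
      _ ≤ ∑ n ∈ s, ‖c n‖ * ‖(x : MH 𝕜 G Q) n‖ := by
          refine sum_le_sum fun n _ => ?_
          rw [norm_mul, norm_mul, hu1, mul_one, RCLike.norm_ofReal, abs_norm]
          gcongr
          exact norm_le_pi_norm _ _
      _ ≤ Real.sqrt (∑ n ∈ s, ‖c n‖ ^ 2) * Real.sqrt (∑ n ∈ s, ‖(x : MH 𝕜 G Q) n‖ ^ 2) :=
          Real.sum_mul_le_sqrt_mul_sqrt _ _ _
      _ ≤ Real.sqrt S * ‖x‖ := by
          gcongr
          rw [Real.sqrt_le_left (norm_nonneg _)]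
          have h3 := lp.sum_rpow_le_norm_rpow (p := 2) (by norm_num) (x : MH 𝕜 G Q) s
          simpa using h3
  have h3 : S ≤ ‖F‖ * Real.sqrt S := by
    have h4 := F.le_opNorm Φ
    rw [h1, RCLike.norm_ofReal, abs_of_nonneg hS0] at h4
    exact h4.trans (by gcongr)
  have h5 : Real.sqrt S ≤ ‖F‖ := by
    rcases (Real.sqrt_nonneg S).eq_or_lt with h | h
    · rw [← h]; positivity
    · have h6 : Real.sqrt S * Real.sqrt S ≤ ‖F‖ * Real.sqrt S := by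
        rw [Real.mul_self_sqrt hS0]; exact h3
      exact le_of_mul_le_mul_right h6 h
  calc S = Real.sqrt S ^ 2 := (Real.sq_sqrt hS0).symm
    _ ≤ ‖F‖ ^ 2 := by gcongr

/-- the retraction -/
theorem exists_retraction : ∃ P : StrongDual 𝕜 (StrongDual 𝕜 (XH 𝕜 a b)) →L[𝕜] XH 𝕜 a b,
    ‖P‖ ≤ 1 ∧ ∀ x, P (NormedSpace.inclusionInDoubleDual 𝕜 (XH 𝕜 a b) x) = x := by
  classical
  have hmem : ∀ F : StrongDual 𝕜 (StrongDual 𝕜 (XH 𝕜 a b)),
      Memℓp (fun n => (fun j => F (coX 𝕜 a b n j) : EH 𝕜 G Q n)) 2 := by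
    intro F
    refine memℓp_gen' (C := ‖F‖ ^ 2) fun s => ?_
    have := sum_sq_bidual_le 𝕜 a b F s
    simpa using this
  have hrel : ∀ F : StrongDual 𝕜 (StrongDual 𝕜 (XH 𝕜 a b)),
      (⟨fun n => (fun j => F (coX 𝕜 a b n j) : EH 𝕜 G Q n), hmem F⟩ : MH 𝕜 G Q) ∈ XH 𝕜 a b := by
    intro F
    rw [mem_XH]
    intro n z
    have h1 := congrArg F (coX_rel 𝕜 a b n z)
    simp only [map_sum, map_sub, map_smul, smul_eq_mul] at h1
    exact h1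
  let P0 : StrongDual 𝕜 (StrongDual 𝕜 (XH 𝕜 a b)) →ₗ[𝕜] XH 𝕜 a b :=
    { toFun := fun F => ⟨_, hrel F⟩
      map_add' := fun F F' => by
        apply Subtype.ext
        apply lp.ext
        rfl
      map_smul' := fun c F => by
        apply Subtype.ext
        apply lp.ext
        rfl }
  have hb : ∀ F, ‖P0 F‖ ≤ 1 * ‖F‖ := by
    intro F
    rw [one_mul]
    change ‖(⟨fun n => (fun j => F (coX 𝕜 a b n j) : EH 𝕜 G Q n), hmem F⟩ : MH 𝕜 G Q)‖ ≤ ‖F‖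
    refine lp.norm_le_of_forall_sum_le (by norm_num) (norm_nonneg _) fun s => ?_
    have := sum_sq_bidual_le 𝕜 a b F s
    simpa using this
  refine ⟨P0.mkContinuous 1 hb, LinearMap.mkContinuous_norm_le _ zero_le_one _, fun x => ?_⟩
  apply Subtype.ext
  apply lp.ext
  rfl

end

end MP6f
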