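import Mathlib
import Pool.Agent.Lib.MP_6f6997_an.Retract
import Pool.Agent.Lib.MP_6f6997_an.GUp

/-!
# Truncations and perturbation of finite rank operators on `XH`
-/

open ENNReal Finset Filter Topology

set_option maxSynthPendingDepth 3

noncomputable section

namespace MP6f

section
variable (𝕜 : Type) [RCLike 𝕜] {G Q : ℕ → Type} [∀ n, Fintype (G n)] [∀ n, Fintype (Q n)]
  [∀ n, DecidableEq (Q n)]

/-- the truncation to the levels `≤ N` -/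
def truncH (N : ℕ) : MH 𝕜 G Q →L[𝕜] MH 𝕜 G Q :=
  ∑ n ∈ range (N + 1), (lp.singleContinuousLinearMap 𝕜 (EH 𝕜 G Q) 2 n).comp
    (lp.evalCLM 𝕜 (EH 𝕜 G Q) 2 n)

lemma truncH_eq (N : ℕ) (x : MH 𝕜 G Q) :
    truncH 𝕜 N x = ∑ n ∈ range (N + 1), lp.single 2 n (x n) := by
  unfold truncH
  rw [_root_.sum_apply]
  rfl

lemma truncH_apply (N : ℕ) (x : MH 𝕜 G Q) (n : ℕ) :
    truncH 𝕜 N x n = if n ≤ N then x n else 0 := by
  rw [truncH_eq, lp.coeFn_sum, Finset.sum_apply]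
  split_ifs with h
  · rw [Finset.sum_eq_single n]
    · rw [lp.single_apply_self]
    · intro m _ hm
      rw [lp.single_apply_ne _ _ _ hm.symm]
    · intro h2; exact absurd (mem_range.mpr (by omega)) h2
  · refine Finset.sum_eq_zero fun m hm => ?_
    have := mem_range.mp hm
    rw [lp.single_apply_ne _ _ _ (by omega)]

lemma norm_truncH_le (N : ℕ) (x : MH 𝕜 G Q) : ‖truncH 𝕜 N x‖ ≤ ‖x‖ := by
  have h1 := lp.norm_sum_single (p := 2) (E := EH 𝕜 G Q) (by norm_num) (fun n => x n) (range (N + 1))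
  have h2 := lp.sum_rpow_le_norm_rpow (p := 2) (by norm_num) x (range (N + 1))
  rw [truncH_eq]
  have h3 : ‖∑ n ∈ range (N + 1), lp.single 2 n (x n)‖ ^ (2 : ℝ≥0∞).toReal ≤ ‖x‖ ^ (2 : ℝ≥0∞).toReal := by
    rw [h1]; exact h2
  exact (Real.rpow_le_rpow_iff (norm_nonneg _) (norm_nonneg _) (by norm_num)).mp h3

/-- unit vectors of a level -/
def eC (n : ℕ) (j : G n ⊕ (Q n → Bool)) : EH 𝕜 G Q n := by
  classical exact Pi.single j 1

lemma eC_sum (n : ℕ) (c : EH 𝕜 G Q n) : c = ∑ j, c j • eC 𝕜 n j := by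
  classical
  funext i
  rw [Finset.sum_apply]
  unfold eC
  rw [Finset.sum_eq_single i]
  · simp
  · intro j _ hj
    simp [hj.symm]
  · intro h; exact absurd (mem_univ i) h

/-- the norm of the `n`-th component of a functional -/
def tH (φ : StrongDual 𝕜 (MH 𝕜 G Q)) (n : ℕ) : ℝ :=
  ∑ j : G n ⊕ (Q n → Bool), ‖φ (lp.single 2 n (eC 𝕜 n j))‖

lemma tH_nonneg (φ : StrongDual 𝕜 (MH 𝕜 G Q)) (n : ℕ) : 0 ≤ tH 𝕜 φ n :=
  sum_nonneg fun j _ => norm_nonneg _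

lemma single_sum (φ : StrongDual 𝕜 (MH 𝕜 G Q)) (n : ℕ) (c : EH 𝕜 G Q n) :
    φ (lp.single 2 n c) = ∑ j, c j * φ (lp.single 2 n (eC 𝕜 n j)) := by
  conv_lhs => rw [eC_sum 𝕜 n c]
  have h1 : (lp.single 2 n (∑ j, c j • eC 𝕜 n j) : MH 𝕜 G Q) =
      ∑ j, c j • lp.single 2 n (eC 𝕜 n j) := by
    have := map_sum (lp.singleContinuousLinearMap 𝕜 (EH 𝕜 G Q) 2 n) (fun j => c j • eC 𝕜 n j) univ
    simp only [map_smul, lp.singleContinuousLinearMap_apply] at this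
    exact this
  rw [h1, map_sum]
  exact sum_congr rfl fun j _ => by rw [map_smul, smul_eq_mul]

lemma norm_single_le (φ : StrongDual 𝕜 (MH 𝕜 G Q)) (n : ℕ) (c : EH 𝕜 G Q n) :
    ‖φ (lp.single 2 n c)‖ ≤ tH 𝕜 φ n * ‖c‖ := by
  rw [single_sum]
  calc ‖∑ j, c j * φ (lp.single 2 n (eC 𝕜 n j))‖ ≤ ∑ j, ‖c j * φ (lp.single 2 n (eC 𝕜 n j))‖ :=
        norm_sum_le _ _
    _ ≤ ∑ j, ‖φ (lp.single 2 n (eC 𝕜 n j))‖ * ‖c‖ := by
        refine sum_le_sum fun j _ => ?_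
        rw [norm_mul, mul_comm]
        gcongr
        exact norm_le_pi_norm c j
    _ = _ := by rw [← sum_mul]; rfl

lemma exists_norming (φ : StrongDual 𝕜 (MH 𝕜 G Q)) (n : ℕ) :
    ∃ v : EH 𝕜 G Q n, ‖v‖ ≤ 1 ∧ φ (lp.single 2 n v) = (tH 𝕜 φ n : 𝕜) := by
  choose u hu1 hu2 using fun j => exists_phase (φ (lp.single 2 n (eC 𝕜 n j)))
  refine ⟨u, ?_, ?_⟩
  · exact (pi_norm_le_iff_of_nonneg zero_le_one).mpr fun i => (hu1 i).le
  · rw [single_sum]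
    simp only [hu2, tH]
    push_cast; rfl

lemma sum_tH_sq_le (φ : StrongDual 𝕜 (MH 𝕜 G Q)) (s : Finset ℕ) :
    ∑ n ∈ s, tH 𝕜 φ n ^ 2 ≤ ‖φ‖ ^ 2 := by
  choose v hv1 hv2 using exists_norming 𝕜 φ
  set S := ∑ n ∈ s, tH 𝕜 φ n ^ 2 with hS
  have hS0 : 0 ≤ S := sum_nonneg fun n _ => sq_nonneg _
  set x : MH 𝕜 G Q := ∑ n ∈ s, lp.single 2 n ((tH 𝕜 φ n : 𝕜) • v n) with hx
  have h1 : φ x = (S : 𝕜) := by
    rw [hx, map_sum, hS, RCLike.ofReal_sum]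
    refine sum_congr rfl fun n _ => ?_
    rw [lp.single_smul, map_smul, hv2, smul_eq_mul, ← RCLike.ofReal_mul, sq]
  have h2 : ‖x‖ ≤ Real.sqrt S := by
    have h3 := lp.norm_sum_single (p := 2) (E := EH 𝕜 G Q) (by norm_num)
      (fun n => (tH 𝕜 φ n : 𝕜) • v n) s
    have h4 : ‖x‖ ^ 2 ≤ S := by
      have h5 : ‖x‖ ^ 2 = ∑ n ∈ s, ‖(tH 𝕜 φ n : 𝕜) • v n‖ ^ 2 := by
        rw [hx]
        rw [ENNReal.toReal_ofNat] at h3
        exact_mod_cast h3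
      rw [h5]
      refine sum_le_sum fun n _ => ?_
      have h6 := tH_nonneg 𝕜 φ n
      rw [norm_smul, RCLike.norm_ofReal, abs_of_nonneg h6]
      have h7 : tH 𝕜 φ n * ‖v n‖ ≤ tH 𝕜 φ n := by
        have := hv1 n
        nlinarith
      gcongr
    exact Real.le_sqrt_of_sq_le h4
  have h3 : S ≤ ‖φ‖ * Real.sqrt S := by
    have h4 := φ.le_opNorm x
    rw [h1, RCLike.norm_ofReal, abs_of_nonneg hS0] at h4
    exact h4.trans (by gcongr)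
  have h5 : Real.sqrt S ≤ ‖φ‖ := by
    rcases (Real.sqrt_nonneg S).eq_or_lt with h | h
    · rw [← h]; positivity
    · have h6 : Real.sqrt S * Real.sqrt S ≤ ‖φ‖ * Real.sqrt S := by
        rw [Real.mul_self_sqrt hS0]; exact h3
      exact le_of_mul_le_mul_right h6 h
  calc S = Real.sqrt S ^ 2 := (Real.sq_sqrt hS0).symm
    _ ≤ ‖φ‖ ^ 2 := by gcongr

lemma trunc_diff_le (φ : StrongDual 𝕜 (MH 𝕜 G Q)) (N M : ℕ) (hNM : N ≤ M) (x : MH 𝕜 G Q) :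
    ‖φ (truncH 𝕜 M x) - φ (truncH 𝕜 N x)‖ ≤
      Real.sqrt (∑ n ∈ Ico (N + 1) (M + 1), tH 𝕜 φ n ^ 2) * ‖x‖ := by
  have h1 : φ (truncH 𝕜 M x) - φ (truncH 𝕜 N x) =
      ∑ n ∈ Ico (N + 1) (M + 1), φ (lp.single 2 n (x n)) := by
    rw [truncH_eq, truncH_eq, map_sum, map_sum, Finset.sum_Ico_eq_sub _ (by omega)]
  rw [h1]
  calc ‖∑ n ∈ Ico (N + 1) (M + 1), φ (lp.single 2 n (x n))‖
      ≤ ∑ n ∈ Ico (N + 1) (M + 1), ‖φ (lp.single 2 n (x n))‖ := norm_sum_le _ _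
    _ ≤ ∑ n ∈ Ico (N + 1) (M + 1), tH 𝕜 φ n * ‖x n‖ := sum_le_sum fun n _ => norm_single_le 𝕜 φ n _
    _ ≤ Real.sqrt (∑ n ∈ Ico (N + 1) (M + 1), tH 𝕜 φ n ^ 2) *
        Real.sqrt (∑ n ∈ Ico (N + 1) (M + 1), ‖x n‖ ^ 2) := Real.sum_mul_le_sqrt_mul_sqrt _ _ _
    _ ≤ _ := by
        gcongr
        rw [Real.sqrt_le_left (norm_nonneg _)]
        have h3 := lp.sum_rpow_le_norm_rpow (p := 2) (by norm_num) x (Ico (N + 1) (M + 1))
        simpa using h3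

lemma tendsto_truncH (x : MH 𝕜 G Q) : Tendsto (fun M => truncH 𝕜 M x) atTop (𝓝 x) := by
  have h1 := (lp.hasSum_single (p := 2) (by norm_num) x).tendsto_sum_nat
  have h2 := h1.comp (tendsto_add_atTop_nat 1)
  refine h2.congr fun M => ?_
  rw [truncH_eq]; rfl

lemma dual_trunc (φ : StrongDual 𝕜 (MH 𝕜 G Q)) (ε : ℝ) (hε : 0 < ε) :
    ∃ N0, ∀ N ≥ N0, ‖φ - φ.comp (truncH 𝕜 N)‖ ≤ ε := by
  have hsum : Summable fun n => tH 𝕜 φ n ^ 2 :=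
    summable_of_sum_le (fun n => sq_nonneg _) (sum_tH_sq_le 𝕜 φ)
  have h1 := hsum.hasSum.tendsto_sum_nat
  have h2 : ∀ᶠ N in atTop, (∑' n, tH 𝕜 φ n ^ 2) - ε ^ 2 < ∑ n ∈ range N, tH 𝕜 φ n ^ 2 :=
    h1.eventually_const_lt (by nlinarith)
  obtain ⟨N0, hN0⟩ := eventually_atTop.mp h2
  refine ⟨N0, fun N hN => ContinuousLinearMap.opNorm_le_bound _ hε.le fun x => ?_⟩
  have h3 : ∀ M ≥ N, ‖φ (truncH 𝕜 M x) - φ (truncH 𝕜 N x)‖ ≤ ε * ‖x‖ := by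
    intro M hM
    refine (trunc_diff_le 𝕜 φ N M hM x).trans ?_
    gcongr
    rw [Real.sqrt_le_left hε.le, Finset.sum_Ico_eq_sub _ (by omega)]
    have h4 := hN0 (N + 1) (by omega)
    have h5 := hsum.sum_le_tsum (range (M + 1)) (fun n _ => sq_nonneg _)
    linarith
  have h4 : Tendsto (fun M => ‖φ (truncH 𝕜 M x) - φ (truncH 𝕜 N x)‖) atTop
      (𝓝 ‖φ x - φ (truncH 𝕜 N x)‖) :=
    (((φ.continuous.tendsto x).comp (tendsto_truncH 𝕜 x)).sub_const _).norm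
  exact le_of_tendsto h4 (eventually_atTop.mpr ⟨N, h3⟩)

/-! ### perturbation -/

variable (a : ∀ n, Q n → G n → ℝ) (b : ∀ n, Q n → G (n + 1) → ℝ)

lemma exists_trunc_dual (s : StrongDual 𝕜 (XH 𝕜 a b)) (δ : ℝ) (hδ : 0 < δ) :
    ∃ N0, ∀ N ≥ N0, ∃ s' : StrongDual 𝕜 (XH 𝕜 a b), ‖s' - s‖ ≤ δ ∧
      ∀ x : XH 𝕜 a b, (∀ n ≤ N, (x : MH 𝕜 G Q) n = 0) → s' x = 0 := by
  obtain ⟨g, hg, _⟩ := exists_extension_norm_eq (XH 𝕜 a b) s
  obtain ⟨N0, hN0⟩ := dual_trunc 𝕜 g δ hδ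
  refine ⟨N0, fun N hN => ⟨(g.comp (truncH 𝕜 N)).comp (XH 𝕜 a b).subtypeL, ?_, fun x hx => ?_⟩⟩
  · refine ContinuousLinearMap.opNorm_le_bound _ hδ.le fun x => ?_
    have h1 : (((g.comp (truncH 𝕜 N)).comp (XH 𝕜 a b).subtypeL) - s) x =
        g (truncH 𝕜 N (x : MH 𝕜 G Q)) - g (x : MH 𝕜 G Q) := by
      rw [hg x]; rfl
    rw [h1, norm_sub_rev]
    have h2 := (g - g.comp (truncH 𝕜 N)).le_opNorm (x : MH 𝕜 G Q)
    have h3 := hN0 N hN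
    calc ‖g (x : MH 𝕜 G Q) - g (truncH 𝕜 N (x : MH 𝕜 G Q))‖
        ≤ ‖g - g.comp (truncH 𝕜 N)‖ * ‖(x : MH 𝕜 G Q)‖ := h2
      _ ≤ δ * ‖(x : MH 𝕜 G Q)‖ := by gcongr
  · have h1 : truncH 𝕜 N (x : MH 𝕜 G Q) = 0 := by
      apply lp.ext
      funext n
      rw [truncH_apply]
      split_ifs with h
      · exact hx n h
      · rfl
    change g (truncH 𝕜 N (x : MH 𝕜 G Q)) = 0
    rw [h1, map_zero]

end

section
variable {𝕜 : Type} [RCLike 𝕜]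

lemma exists_perturb_aux {X : Type} [NormedAddCommGroup X] [NormedSpace 𝕜 X] {p q : ℝ≥0∞}
    [Fact (1 ≤ p)] [Fact (1 ≤ q)] (hpq : p.HolderConjugate q) (hq : q ≠ ∞) (Z : ℕ → Set X)
    (hZ : ∀ (s : StrongDual 𝕜 X) (δ : ℝ), 0 < δ → ∃ N0, ∀ N ≥ N0, ∃ s' : StrongDual 𝕜 X,
      ‖s' - s‖ ≤ δ ∧ ∀ x ∈ Z N, s' x = 0)
    (S : X →L[𝕜] X) (hS : FinRank S) (ε : ℝ) (hε : 0 < ε) :
    ∃ (N : ℕ) (E : X →L[𝕜] X), ‖E‖ ≤ ε ∧ (∀ x ∈ Z N, S (x + E x) = 0) ∧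
      gNorm p q (S - S.comp (ContinuousLinearMap.id 𝕜 X + E)) ≤ ENNReal.ofReal ε := by
  classical
  unfold FinRank at hS
  set R : Submodule 𝕜 X := LinearMap.range (S : X →ₗ[𝕜] X) with hR
  let d := Module.finrank 𝕜 R
  let e : Module.Basis (Fin d) 𝕜 R := Module.finBasis 𝕜 R
  -- coordinate functionals
  have hξ : ∀ k, ∃ g : StrongDual 𝕜 X, ∀ w : R, g w = e.repr w k := by
    intro k
    obtain ⟨g, hg, _⟩ := exists_extension_norm_eq R (LinearMap.toContinuousLinearMap (e.coord k))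
    exact ⟨g, fun w => by rw [hg w]; rfl⟩
  choose ξ hξ using hξ
  have hrep : ∀ x, S x = ∑ k, ξ k (S x) • (e k : X) := by
    intro x
    have h1 := e.sum_repr ⟨S x, ⟨x, rfl⟩⟩
    have h2 := congrArg (fun z : R => (z : X)) h1
    simp only [Submodule.coe_sum, Submodule.coe_smul] at h2
    have h3 : ∀ k, ξ k (S x) = e.repr ⟨S x, ⟨x, rfl⟩⟩ k := fun k => hξ k ⟨S x, ⟨x, rfl⟩⟩
    simp only [h3]
    exact h2.symm
  have hv : ∀ k, ∃ v : X, S v = (e k : X) := fun k => (e k).2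
  choose v hv using hv
  set δ := ε / (1 + ∑ k, ‖v k‖ + ∑ k, ‖(e k : X)‖) with hδ
  have hv0 : 0 ≤ ∑ k, ‖v k‖ := sum_nonneg fun k _ => norm_nonneg _
  have he0 : 0 ≤ ∑ k, ‖(e k : X)‖ := sum_nonneg fun k _ => norm_nonneg _
  have hδ0 : 0 < δ := by positivity
  choose N0 hN0 using fun k => hZ ((ξ k).comp S) δ hδ0
  set N := univ.sup N0 with hN
  choose s' hs1 hs2 using fun k => hN0 k N (le_sup (mem_univ k))
  let ρ : Fin d → StrongDual 𝕜 X := fun k => s' k - (ξ k).comp S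
  have hρ : ∀ k, ‖ρ k‖ ≤ δ := hs1
  have hρa : ∀ k (x : X), ρ k x = s' k x - ξ k (S x) := fun k x => rfl
  let E : X →L[𝕜] X := ∑ k, (ρ k).smulRight (v k)
  have hE : ∀ x, E x = ∑ k, ρ k x • v k := by
    intro x; simp [E, _root_.sum_apply]
  have hSE0 : ∀ x, S (E x) = ∑ k, ρ k x • (e k : X) := by
    intro x
    rw [hE, map_sum]
    exact sum_congr rfl fun k _ => by rw [map_smul, hv]
  have hSE : ∀ x, S (x + E x) = ∑ k, s' k x • (e k : X) := by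
    intro x
    calc S (x + E x) = S x + S (E x) := map_add _ _ _
      _ = ∑ k, ξ k (S x) • (e k : X) + ∑ k, ρ k x • (e k : X) := by
          rw [hSE0]; exact congrArg (· + ∑ k, ρ k x • (e k : X)) (hrep x)
      _ = _ := by
          rw [← sum_add_distrib]
          refine sum_congr rfl fun k _ => ?_
          rw [← add_smul, hρa]
          congr 1; ring
  refine ⟨N, E, ?_, fun x hx => ?_, ?_⟩
  · refine ContinuousLinearMap.opNorm_le_bound _ hε.le fun x => ?_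
    rw [hE]
    calc ‖∑ k, ρ k x • v k‖ ≤ ∑ k, ‖ρ k x • v k‖ := norm_sum_le _ _
      _ ≤ ∑ k, (δ * ‖x‖) * ‖v k‖ := by
          refine sum_le_sum fun k _ => ?_
          rw [norm_smul]
          gcongr
          exact ((ρ k).le_opNorm x).trans (by gcongr; exact hρ k)
      _ = (δ * ∑ k, ‖v k‖) * ‖x‖ := by rw [← mul_sum]; ring
      _ ≤ ε * ‖x‖ := by
          gcongr
          rw [hδ, div_mul_eq_mul_div, div_le_iff₀ (by positivity)]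
          nlinarith
  · rw [hSE]
    exact sum_eq_zero fun k _ => by rw [hs2 k x hx, zero_smul]
  · have h1 := gNorm_le_sum (p := p) (q := q) hpq hq (fun k => -ρ k) (fun k => (e k : X))
      (S - S.comp (ContinuousLinearMap.id 𝕜 X + E)) (fun x => by
        have h2 : (S - S.comp (ContinuousLinearMap.id 𝕜 X + E)) x = S x - S (x + E x) := rfl
        rw [h2, map_add, hSE0, sub_add_cancel_left, ← sum_neg_distrib]
        exact sum_congr rfl fun k _ => by rw [_root_.neg_apply, neg_smul])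
    refine h1.trans (ENNReal.ofReal_le_ofReal ?_)
    calc ∑ k, ‖-ρ k‖ * ‖(e k : X)‖ ≤ ∑ k, δ * ‖(e k : X)‖ := by
          refine sum_le_sum fun k _ => ?_
          rw [norm_neg]
          gcongr
          exact hρ k
      _ = δ * ∑ k, ‖(e k : X)‖ := by rw [← mul_sum]
      _ ≤ ε := by
          rw [hδ, div_mul_eq_mul_div, div_le_iff₀ (by positivity)]
          nlinarith

end

lemma exists_perturb (𝕜 : Type) [RCLike 𝕜] {G Q : ℕ → Type} [∀ n, Fintype (G n)]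
    [∀ n, Fintype (Q n)] [∀ n, DecidableEq (Q n)] (a : ∀ n, Q n → G n → ℝ)
    (b : ∀ n, Q n → G (n + 1) → ℝ) {p q : ℝ≥0∞} [Fact (1 ≤ p)] [Fact (1 ≤ q)]
    (hpq : p.HolderConjugate q) (hq : q ≠ ∞) (S : XH 𝕜 a b →L[𝕜] XH 𝕜 a b) (hS : FinRank S)
    (ε : ℝ) (hε : 0 < ε) :
    ∃ (N : ℕ) (E : XH 𝕜 a b →L[𝕜] XH 𝕜 a b), ‖E‖ ≤ ε ∧
      (∀ x : XH 𝕜 a b, (∀ n ≤ N, (x : MH 𝕜 G Q) n = 0) → S (x + E x) = 0) ∧
      gNorm p q (S - S.comp (ContinuousLinearMap.id 𝕜 _ + E)) ≤ ENNReal.ofReal ε :=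
  exists_perturb_aux hpq hq (fun N => {x : XH 𝕜 a b | ∀ n ≤ N, (x : MH 𝕜 G Q) n = 0})
    (fun s δ hδ => exists_trunc_dual 𝕜 a b s δ hδ) S hS ε hε

end MP6f
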