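import Mathlib
import Pool.Agent.Lib.MP_6f6997_an.InnerCore
import Pool.Agent.Lib.MP_6f6997_an.Trunc
import Pool.Agent.Lib.MP_6f6997_an.Lift

/-!
# The inner inequality for the spaces `XH`, `p ≥ 2`
-/

open MeasureTheory ENNReal Finset

set_option maxSynthPendingDepth 3

noncomputable section

namespace MP6f

section
variable (𝕜 : Type) [RCLike 𝕜] {G Q : ℕ → Type} [∀ n, Fintype (G n)] [∀ n, Fintype (Q n)]
  [∀ n, DecidableEq (Q n)] (a : ∀ n, Q n → G n → ℝ) (b : ∀ n, Q n → G (n + 1) → ℝ)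

/-- an element of the big space supported in the sign part of one level -/
def sO (i : ℕ) (w : (Q i → Bool) → 𝕜) : MH 𝕜 G Q := lp.single 2 i (Sum.elim 0 w : EH 𝕜 G Q i)

lemma sO_same (i : ℕ) (w : (Q i → Bool) → 𝕜) :
    (sO 𝕜 i w : MH 𝕜 G Q) i = (Sum.elim 0 w : EH 𝕜 G Q i) := by
  unfold sO; rw [lp.single_apply_self]

lemma sO_ne (i n : ℕ) (w : (Q i → Bool) → 𝕜) (h : n ≠ i) : (sO 𝕜 i w : MH 𝕜 G Q) n = 0 := by
  unfold sO; rw [lp.single_apply_ne _ _ _ h]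

lemma sO_inl (i n : ℕ) (w : (Q i → Bool) → 𝕜) (g : G n) :
    (sO 𝕜 i w : MH 𝕜 G Q) n (Sum.inl g) = 0 := by
  by_cases h : n = i
  · subst h; rw [sO_same]; rfl
  · rw [sO_ne 𝕜 i n w h]; rfl

lemma norm_sO_le (i : ℕ) (w : (Q i → Bool) → 𝕜) (C : ℝ) (hC : 0 ≤ C) (h : ∀ om, ‖w om‖ ≤ C) :
    ‖(sO 𝕜 i w : MH 𝕜 G Q)‖ ≤ C := by
  unfold sO
  rw [lp.norm_single (by norm_num)]
  rw [pi_norm_le_iff_of_nonneg hC]
  intro j
  rcases j with j | j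
  · simpa using hC
  · exact h j

lemma sO_sub (i : ℕ) (w w' : (Q i → Bool) → 𝕜) :
    (sO 𝕜 i (w - w') : MH 𝕜 G Q) = sO 𝕜 i w - sO 𝕜 i w' := by
  unfold sO
  rw [← lp.single_sub]
  congr 1
  funext j; rcases j with j | j <;> simp

lemma sO_smul (i : ℕ) (c : 𝕜) (w : (Q i → Bool) → 𝕜) :
    (sO 𝕜 i (c • w) : MH 𝕜 G Q) = c • sO 𝕜 i w := by
  unfold sO
  rw [← lp.single_smul]
  congr 1
  funext j; rcases j with j | j <;> simp

lemma sO_add (i : ℕ) (w w' : (Q i → Bool) → 𝕜) :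
    (sO 𝕜 i (w + w') : MH 𝕜 G Q) = sO 𝕜 i w + sO 𝕜 i w' := by
  unfold sO
  rw [← lp.single_add]
  congr 1
  funext j; rcases j with j | j <;> simp

lemma sO_sum {ι : Type*} (s : Finset ι) (i : ℕ) (w : ι → (Q i → Bool) → 𝕜) :
    (sO 𝕜 i (∑ j ∈ s, w j) : MH 𝕜 G Q) = ∑ j ∈ s, sO 𝕜 i (w j) := by
  classical
  induction s using Finset.induction_on with
  | empty =>
    simp only [sum_empty]
    have := sO_smul 𝕜 (G := G) (Q := Q) i (0 : 𝕜) 0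
    simpa using this
  | insert k s hk ih => rw [sum_insert hk, sum_insert hk, sO_add, ih]

/-- the Rademacher function with given coefficients -/
def LH (i : ℕ) (y : Q i → 𝕜) (om : Q i → Bool) : 𝕜 := ∑ z, y z * ((sg (om z) : ℝ) : 𝕜)

lemma CH_LH (i : ℕ) (y : Q i → 𝕜) (z : Q i) : CH i (LH 𝕜 i y) z = y z := by
  unfold CH LH
  simp only [mul_sum]
  rw [sum_comm]
  have h1 : ∀ z', ∑ om : Q i → Bool, (((Fintype.card (Q i → Bool) : ℝ)⁻¹ : ℝ) : 𝕜) *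
      (((sg (om z) : ℝ) : 𝕜) * (y z' * ((sg (om z') : ℝ) : 𝕜))) = if z = z' then y z' else 0 := by
    intro z'
    have h2 : ∀ om : Q i → Bool, (((Fintype.card (Q i → Bool) : ℝ)⁻¹ : ℝ) : 𝕜) *
      (((sg (om z) : ℝ) : 𝕜) * (y z' * ((sg (om z') : ℝ) : 𝕜))) =
      ((((Fintype.card (Q i → Bool) : ℝ)⁻¹ : ℝ) : 𝕜) * y z') * ((sg (om z) * sg (om z') : ℝ) : 𝕜) := by
      intro om; push_cast; ring
    simp only [h2]
    rw [← mul_sum, ← RCLike.ofReal_sum, sum_sg_mul]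
    split_ifs with h
    · have h3 : ((Fintype.card (Q i → Bool) : ℝ) : 𝕜) ≠ 0 := by
        have : (Fintype.card (Q i → Bool) : ℝ) ≠ 0 := by
          exact_mod_cast Fintype.card_ne_zero
        exact_mod_cast this
      rw [RCLike.ofReal_inv]
      field_simp
    · simp
  simp only [h1]
  simp

lemma CH_zero (n : ℕ) (z : Q n) : CH n (fun _ => (0 : 𝕜)) z = 0 := by
  unfold CH; simp

/-- a vector of the kernel of the Rademacher projection gives an element of the space -/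
lemma sO_mem (i : ℕ) (w : (Q i → Bool) → 𝕜) (hw : ∀ z, CH i w z = 0) :
    (sO 𝕜 i w : MH 𝕜 G Q) ∈ XH 𝕜 a b := by
  rw [mem_XH]
  intro n z
  simp only [sO_inl, AH, BH, mul_zero, sum_const_zero, zero_sub]
  by_cases h : n = i
  · subst h
    have : CH n (fun om => (sO 𝕜 n w : MH 𝕜 G Q) n (Sum.inr om)) z = CH n w z := by
      rw [sO_same]; rfl
    rw [this, hw, neg_zero]
  · rw [sO_ne 𝕜 i n w h]
    have : CH n (fun om => (0 : EH 𝕜 G Q n) (Sum.inr om)) z = 0 := CH_zero 𝕜 n z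
    rw [this, neg_zero]

/-- the vectors `u_g` -/
def uH (i : ℕ) (g : G (i + 1)) : MH 𝕜 G Q := sO 𝕜 i (LH 𝕜 i (fun z => ((b i z g : ℝ) : 𝕜)))

lemma sum_uH (i : ℕ) (c : G (i + 1) → 𝕜) :
    ∑ g, c g • uH 𝕜 b i g = sO 𝕜 i (LH 𝕜 i (BH b i c)) := by
  unfold uH
  simp only [← sO_smul]
  rw [← sO_sum]
  congr 1
  funext om
  rw [Finset.sum_apply]
  simp only [Pi.smul_apply, smul_eq_mul, LH, BH, mul_sum, sum_mul]
  rw [sum_comm]
  exact sum_congr rfl fun z _ => sum_congr rfl fun g _ => by ring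

/-- the corrected truncation, in the big space -/
def RM (i : ℕ) : XH 𝕜 a b →L[𝕜] MH 𝕜 G Q :=
  (truncH 𝕜 i).comp (XH 𝕜 a b).subtypeL - ∑ g, (coX 𝕜 a b (i + 1) (Sum.inl g)).smulRight (uH 𝕜 b i g)

lemma RM_apply (i : ℕ) (x : XH 𝕜 a b) : RM 𝕜 a b i x =
    truncH 𝕜 i (x : MH 𝕜 G Q) - ∑ g, (x : MH 𝕜 G Q) (i + 1) (Sum.inl g) • uH 𝕜 b i g := by
  unfold RM
  simp only [_root_.sub_apply, _root_.sum_apply, ContinuousLinearMap.smulRight_apply,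
    ContinuousLinearMap.comp_apply, Submodule.subtypeL_apply, coX_apply]

lemma RM_apply' (i : ℕ) (x : XH 𝕜 a b) : RM 𝕜 a b i x =
    truncH 𝕜 i (x : MH 𝕜 G Q) -
      sO 𝕜 i (LH 𝕜 i (BH b i fun g => (x : MH 𝕜 G Q) (i + 1) (Sum.inl g))) := by
  rw [RM_apply, sum_uH 𝕜 b i (fun g => (x : MH 𝕜 G Q) (i + 1) (Sum.inl g))]

lemma RM_ne (i n : ℕ) (x : XH 𝕜 a b) (h : n ≠ i) :
    (RM 𝕜 a b i x : MH 𝕜 G Q) n = if n ≤ i then (x : MH 𝕜 G Q) n else 0 := by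
  rw [RM_apply', lp.coeFn_sub, Pi.sub_apply, truncH_apply, sO_ne 𝕜 i n _ h, sub_zero]

lemma RM_inl (i n : ℕ) (x : XH 𝕜 a b) (g : G n) :
    (RM 𝕜 a b i x : MH 𝕜 G Q) n (Sum.inl g) = if n ≤ i then (x : MH 𝕜 G Q) n (Sum.inl g) else 0 := by
  rw [RM_apply', lp.coeFn_sub, Pi.sub_apply, truncH_apply, Pi.sub_apply, sO_inl, sub_zero]
  split_ifs <;> rfl

lemma RM_inr_self (i : ℕ) (x : XH 𝕜 a b) (om : Q i → Bool) :
    (RM 𝕜 a b i x : MH 𝕜 G Q) i (Sum.inr om) = (x : MH 𝕜 G Q) i (Sum.inr om) -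
      LH 𝕜 i (BH b i fun g => (x : MH 𝕜 G Q) (i + 1) (Sum.inl g)) om := by
  rw [RM_apply', lp.coeFn_sub, Pi.sub_apply, truncH_apply, Pi.sub_apply, sO_same, if_pos le_rfl]
  rfl

lemma RM_mem (i : ℕ) (x : XH 𝕜 a b) : RM 𝕜 a b i x ∈ XH 𝕜 a b := by
  rw [mem_XH]
  intro n z
  simp only [RM_inl]
  rcases lt_trichotomy n i with h | h | h
  · have h' : n + 1 ≤ i := by omega
    simp only [if_pos h.le, if_pos h']
    have e : ∀ om, (RM 𝕜 a b i x : MH 𝕜 G Q) n (Sum.inr om) = (x : MH 𝕜 G Q) n (Sum.inr om) := by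
      intro om; rw [RM_ne 𝕜 a b i n x h.ne, if_pos h.le]
    simp only [e]
    exact (mem_XH 𝕜 a b _).mp x.2 n z
  · subst h
    have h1 : ¬ (n + 1 ≤ n) := by omega
    simp only [le_refl, if_true, if_neg h1, RM_inr_self]
    have h2 : CH n (fun om => (x : MH 𝕜 G Q) n (Sum.inr om) -
        LH 𝕜 n (BH b n fun g => (x : MH 𝕜 G Q) (n + 1) (Sum.inl g)) om) z =
        CH n (fun om => (x : MH 𝕜 G Q) n (Sum.inr om)) z -
        BH b n (fun g => (x : MH 𝕜 G Q) (n + 1) (Sum.inl g)) z := by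
      rw [← CH_LH 𝕜 n (BH b n fun g => (x : MH 𝕜 G Q) (n + 1) (Sum.inl g)) z]
      unfold CH
      simp only [mul_sub, sum_sub_distrib]
    rw [h2]
    have h3 : BH b n (fun _ => (0 : 𝕜)) z = 0 := by unfold BH; simp
    rw [h3, (mem_XH 𝕜 a b _).mp x.2 n z]
    ring
  · have h1 : ¬ (n ≤ i) := by omega
    have h2 : ¬ (n + 1 ≤ i) := by omega
    simp only [if_neg h1, if_neg h2]
    have e : ∀ om, (RM 𝕜 a b i x : MH 𝕜 G Q) n (Sum.inr om) = 0 := by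
      intro om; rw [RM_ne 𝕜 a b i n x h.ne', if_neg h1]; rfl
    simp only [e]
    rw [CH_zero]
    unfold AH BH; simp

/-- the corrected truncation -/
def RX (i : ℕ) : XH 𝕜 a b →L[𝕜] XH 𝕜 a b := (RM 𝕜 a b i).codRestrict (XH 𝕜 a b) (RM_mem 𝕜 a b i)

lemma RX_coe (i : ℕ) (x : XH 𝕜 a b) : ((RX 𝕜 a b i x : XH 𝕜 a b) : MH 𝕜 G Q) = RM 𝕜 a b i x := rfl

/-- the finite dimensional subspaces -/
def FX (i : ℕ) : Submodule 𝕜 (XH 𝕜 a b) where
  carrier := {x | ∀ n, i < n → (x : MH 𝕜 G Q) n = 0}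
  zero_mem' := fun n _ => rfl
  add_mem' := by
    intro x y hx hy n hn
    have h1 := hx n hn
    have h2 := hy n hn
    rw [Submodule.coe_add, lp.coeFn_add, Pi.add_apply, h1, h2, add_zero]
  smul_mem' := by
    intro c x hx n hn
    have h1 := hx n hn
    rw [Submodule.coe_smul, lp.coeFn_smul, Pi.smul_apply, h1, smul_zero]

instance (i : ℕ) : FiniteDimensional 𝕜 (FX 𝕜 a b i) := by
  let f : FX 𝕜 a b i →ₗ[𝕜] (∀ n : Fin (i + 1), EH 𝕜 G Q n) :=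
    { toFun := fun x n => ((x : XH 𝕜 a b) : MH 𝕜 G Q) n
      map_add' := fun _ _ => rfl
      map_smul' := fun _ _ => rfl }
  refine FiniteDimensional.of_injective f ?_
  rw [injective_iff_map_eq_zero]
  intro x hx
  apply Subtype.ext
  apply Subtype.ext
  apply lp.ext
  funext n
  by_cases h : n ≤ i
  · exact congrFun hx ⟨n, by omega⟩
  · exact x.2 n (by omega)

lemma RX_mem (i : ℕ) (x : XH 𝕜 a b) : RX 𝕜 a b i x ∈ FX 𝕜 a b i := by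
  intro n hn
  rw [RX_coe, RM_ne 𝕜 a b i n x (by omega), if_neg (by omega)]

/-- the difference of the identity and the corrected truncation lives on the levels `≥ i` -/
lemma sub_RX_apply (i n : ℕ) (hn : n < i) (x : XH 𝕜 a b) :
    ((x - RX 𝕜 a b i x : XH 𝕜 a b) : MH 𝕜 G Q) n = 0 := by
  rw [Submodule.coe_sub, RX_coe, lp.coeFn_sub, Pi.sub_apply, RM_ne 𝕜 a b i n x hn.ne, if_pos hn.le,
    sub_self]

/-- the lifting property -/
lemma lift_high (hb : ∀ n (f : G (n + 1) → 𝕜), ∑ z, ‖BH b n f z‖ ^ 2 ≤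
    (Fintype.card (G (n + 1)) : ℝ)⁻¹ * ∑ g, ‖f g‖ ^ 2) (i : ℕ) (c : G (i + 1) → 𝕜) :
    ∃ (m : MH 𝕜 G Q) (f : XH 𝕜 a b), ‖m‖ ≤ 4 * sgm c ∧
      ∑ g, c g • uH 𝕜 b i g = m + (f : MH 𝕜 G Q) ∧ f ∈ FX 𝕜 a b i ∧
      (∀ n, n < i → (f : MH 𝕜 G Q) n = 0) ∧ ‖f‖ ≤ (Fintype.card (Q i) + 4) * sgm c := by
  obtain ⟨w, hw1, hw2⟩ := exists_lift 𝕜 (BH b i c)
  have hsg := sgm_nonneg c
  have hle : Real.sqrt (∑ z, ‖BH b i c z‖ ^ 2) ≤ sgm c := Real.sqrt_le_sqrt (hb i c)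
  have hz : ∀ z, ‖BH b i c z‖ ≤ sgm c := by
    intro z
    refine le_trans (Real.le_sqrt_of_sq_le ?_) hle
    exact single_le_sum (f := fun z => ‖BH b i c z‖ ^ 2) (fun z _ => sq_nonneg _) (mem_univ z)
  have hker : ∀ z, CH i (LH 𝕜 i (BH b i c) - w) z = 0 := by
    intro z
    have h1 : CH i (LH 𝕜 i (BH b i c) - w) z = CH i (LH 𝕜 i (BH b i c)) z - CH i w z := by
      unfold CH
      simp only [Pi.sub_apply, mul_sub, sum_sub_distrib]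
    have h2 : CH i w z = BH b i c z := by
      unfold CH
      rw [hw1]
      have h3 : ((Fintype.card (Q i → Bool) : ℝ) : 𝕜) ≠ 0 := by
        have : (Fintype.card (Q i → Bool) : ℝ) ≠ 0 := by
          exact_mod_cast Fintype.card_ne_zero
        exact_mod_cast this
      rw [RCLike.ofReal_inv]
      field_simp
    rw [h1, h2, CH_LH, sub_self]
  refine ⟨sO 𝕜 i w, ⟨sO 𝕜 i (LH 𝕜 i (BH b i c) - w), sO_mem 𝕜 a b i _ hker⟩, ?_, ?_, ?_, ?_, ?_⟩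
  · exact norm_sO_le 𝕜 i w _ (by positivity) fun om => (hw2 om).trans (by gcongr)
  · rw [sum_uH]
    change sO 𝕜 i (LH 𝕜 i (BH b i c)) = sO 𝕜 i w + sO 𝕜 i (LH 𝕜 i (BH b i c) - w)
    rw [sO_sub]; abel
  · intro n hn
    exact sO_ne 𝕜 i n _ (by omega)
  · intro n hn
    exact sO_ne 𝕜 i n _ hn.ne
  · refine norm_sO_le 𝕜 i _ _ (by positivity) fun om => ?_
    rw [Pi.sub_apply]
    refine (norm_sub_le _ _).trans ?_
    have h1 : ‖LH 𝕜 i (BH b i c) om‖ ≤ Fintype.card (Q i) * sgm c := by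
      unfold LH
      refine (norm_sum_le _ _).trans ?_
      calc ∑ z, ‖BH b i c z * ((sg (om z) : ℝ) : 𝕜)‖ ≤ ∑ _z : Q i, sgm c := by
            refine sum_le_sum fun z _ => ?_
            rw [norm_mul, RCLike.norm_ofReal, abs_sg, mul_one]
            exact hz z
        _ = _ := by rw [sum_const, card_univ, nsmul_eq_mul]
    have h2 : ‖w om‖ ≤ 4 * sgm c := (hw2 om).trans (by gcongr)
    linarith

/-- the inner inequality for operators which ignore the high levels -/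
lemma inner_low_levels (hb : ∀ n (f : G (n + 1) → 𝕜), ∑ z, ‖BH b n f z‖ ^ 2 ≤
    (Fintype.card (G (n + 1)) : ℝ)⁻¹ * ∑ g, ‖f g‖ ^ 2) [∀ n, Nonempty (G n)]
    {p q : ℝ≥0∞} [Fact (1 ≤ p)] [Fact (1 ≤ q)] (hpq : p.HolderConjugate q) (hq : q ≠ ∞)
    (hq2 : q.toReal ≤ 2) (S : XH 𝕜 a b →L[𝕜] XH 𝕜 a b) (N : ℕ)
    (hS : ∀ x : XH 𝕜 a b, (∀ n ≤ N, (x : MH 𝕜 G Q) n = 0) → S x = 0)
    {Ω : Type} [MeasurableSpace Ω] (μ : Measure Ω) [IsProbabilityMeasure μ]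
    (A : XH 𝕜 a b →L[𝕜] Lp 𝕜 ∞ μ) (B : Lp 𝕜 p μ →L[𝕜] XH 𝕜 a b)
    (hAB : ∀ x, S x = B (inclLp μ p (A x))) (η : ℝ) (hη : 0 < η) :
    gNorm p q S ≤ ENNReal.ofReal ((1 + 4) * ((‖A‖ + η) * ‖B‖) + η) := by
  classical
  set i := N + 1 with hi
  let e := Module.finBasis 𝕜 (FX 𝕜 a b i)
  have hξ : ∀ k, ∃ g : StrongDual 𝕜 (XH 𝕜 a b), ∀ w : FX 𝕜 a b i, g w = e.repr w k := by
    intro k
    obtain ⟨g, hg, _⟩ := exists_extension_norm_eq (FX 𝕜 a b i)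
      (LinearMap.toContinuousLinearMap (e.coord k))
    exact ⟨g, fun w => by rw [hg w]; rfl⟩
  choose ξ hξ using hξ
  have hrep : ∀ w : XH 𝕜 a b, w ∈ FX 𝕜 a b i → w = ∑ k, ξ k w • (e k : XH 𝕜 a b) := by
    intro w hw
    have h1 := e.sum_repr ⟨w, hw⟩
    have h2 := congrArg (fun z : FX 𝕜 a b i => (z : XH 𝕜 a b)) h1
    simp only [Submodule.coe_sum, Submodule.coe_smul] at h2
    have h3 : ∀ k, ξ k w = e.repr ⟨w, hw⟩ k := fun k => hξ k ⟨w, hw⟩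
    simp only [h3]
    exact h2.symm
  have hξ0 : 0 ≤ ∑ k, ‖ξ k‖ := sum_nonneg fun k _ => norm_nonneg _
  refine inner_core hpq hq hq2 (XH 𝕜 a b).subtypeL (fun s => ?_)
    ((truncH 𝕜 i).comp (XH 𝕜 a b).subtypeL) ?_ (RX 𝕜 a b i) (Γ := G (i + 1))
    (fun g => coX 𝕜 a b (i + 1) (Sum.inl g)) (fun g => norm_coX_le 𝕜 a b _ _) (uH 𝕜 b i) (fun x => ?_)
    (fun k => (e k : XH 𝕜 a b)) (fun k => (ξ k).comp (RX 𝕜 a b i)) (fun x => ?_) S (fun x => ?_)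
    4 (by norm_num) ((∑ k, ‖ξ k‖) * (Fintype.card (Q i) + 4)) (by positivity) (fun c => ?_)
    μ A B hAB η hη
  · obtain ⟨g, hg, hg2⟩ := exists_extension_norm_eq (XH 𝕜 a b) s
    exact ⟨g, hg2.le, fun x => hg x⟩
  · refine ContinuousLinearMap.opNorm_le_bound _ zero_le_one fun x => ?_
    rw [one_mul]
    exact norm_truncH_le 𝕜 i (x : MH 𝕜 G Q)
  · exact RM_apply 𝕜 a b i x
  · exact hrep _ (RX_mem 𝕜 a b i x)
  · have h1 := hS (x - RX 𝕜 a b i x) (fun n hn => sub_RX_apply 𝕜 a b i n (by omega) x)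
    rw [map_sub, sub_eq_zero] at h1
    exact h1.symm
  · obtain ⟨m, f, h1, h2, h3, h4, h5⟩ := lift_high 𝕜 a b hb i c
    refine ⟨m, fun k => ξ k f, h1, ?_, ?_, fun k => ?_⟩
    · rw [← hrep f h3]; exact h2
    · rw [← hrep f h3]; exact hS f fun n hn => h4 n (by omega)
    · have hsg := sgm_nonneg c
      calc ‖ξ k f‖ ≤ ‖ξ k‖ * ‖f‖ := (ξ k).le_opNorm f
        _ ≤ (∑ k, ‖ξ k‖) * ((Fintype.card (Q i) + 4) * sgm c) := by
            gcongr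
            exact single_le_sum (f := fun k => ‖ξ k‖) (fun k _ => norm_nonneg _) (mem_univ k)
        _ = _ := by ring

end

end MP6f
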