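import Mathlib
import Pool.Agent.Lib.MP_6f6997_an.GUp
import Pool.Agent.Lib.MP_6f6997_an.Khin

/-!
# From `g_2`-type representations to `g_p`-type representations when the dual norm is an `ℓ_q` norm
-/

open MeasureTheory ENNReal Finset

set_option maxSynthPendingDepth 3

noncomputable section

namespace MP6f

lemma gNorm_le_of_two {p q : ℝ≥0∞} [Fact (1 ≤ p)] [Fact (1 ≤ q)] [p.HolderConjugate q]
    (hp : p ≠ ∞) (hq : q ≠ ∞) (hpq2 : p.toReal ≤ q.toReal) (hq2 : 2 ≤ q.toReal) :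
    ∃ K : ℝ, 0 < K ∧ ∀ (𝕜 : Type) [RCLike 𝕜] (X : Type) [NormedAddCommGroup X] [NormedSpace 𝕜 X]
      (I : Type) (d : I → X)
      (_hd1 : ∀ f : StrongDual 𝕜 X, Summable fun g => ‖f (d g)‖ ^ q.toReal)
      (_hd2 : ∀ f : StrongDual 𝕜 X, ∑' g, ‖f (d g)‖ ^ q.toReal ≤ ‖f‖ ^ q.toReal)
      (_hd3 : ∀ f : StrongDual 𝕜 X, ‖f‖ ^ q.toReal ≤ ∑' g, ‖f (d g)‖ ^ q.toReal)
      (κ : Type) [Fintype κ] (m : κ → ℝ) (_hm : ∀ k, 0 ≤ m k) (_hm1 : ∑ k, m k = 1)
      (a : κ → StrongDual 𝕜 X) (α : ℝ) (_hα : 0 ≤ α) (_ha : ∀ k, ‖a k‖ ≤ α) (x : κ → X) (b : ℝ)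
      (_hb : 0 ≤ b) (_hx : ∀ f : StrongDual 𝕜 X, ∑ k, ‖f (x k)‖ ^ 2 ≤ (b * ‖f‖) ^ 2)
      (S : X →L[𝕜] X) (_hS : ∀ v, S v = ∑ k, ((Real.sqrt (m k) : 𝕜) * a k v) • x k),
      gNorm p q S ≤ ENNReal.ofReal (K * (α * b)) := by
  have hc : p.toReal.HolderConjugate q.toReal := ENNReal.HolderConjugate.toReal_of_ne_top hp hq
  have hp0 := hc.pos
  have hr := hc.symm.pos
  obtain ⟨K, hK, hkh⟩ := khin hr
  refine ⟨K * K, by positivity, ?_⟩
  intro 𝕜 _ X _ _ I d hd1 hd2 hd3 κ _ m hm hm1 a α hα ha x b hb hx S hS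
  classical
  set r := q.toReal with hrdef
  set M : ℝ := (Fintype.card (κ → Bool) : ℝ) with hM
  have hM0 : 0 < M := by rw [hM]; exact_mod_cast Fintype.card_pos
  let z : (κ → Bool) → StrongDual 𝕜 X := fun ε =>
    ∑ k, ((sg (ε k) : 𝕜) * (Real.sqrt (m k) : 𝕜)) • a k
  let w : (κ → Bool) → X := fun ε => ∑ k, (sg (ε k) : 𝕜) • x k
  -- the strong part
  have hz : ∑ ε, ‖z ε‖ ^ r ≤ M * (K * α) ^ r := by
    have h1 : ∀ ε g, z ε (d g) = ∑ k, (sg (ε k) : 𝕜) * ((Real.sqrt (m k) : 𝕜) * a k (d g)) := by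
      intro ε g
      simp only [z, _root_.sum_apply, _root_.smul_apply, smul_eq_mul, mul_assoc]
    have h2 : ∀ g, ∑ ε : κ → Bool, ‖z ε (d g)‖ ^ r ≤ M * K ^ r * ∑ k, m k * ‖a k (d g)‖ ^ r := by
      intro g
      simp only [h1]
      refine (hkh 𝕜 κ (fun k => (Real.sqrt (m k) : 𝕜) * a k (d g))).trans ?_
      have h3 : ∑ k, ‖(Real.sqrt (m k) : 𝕜) * a k (d g)‖ ^ 2 = ∑ k, m k * ‖a k (d g)‖ ^ 2 := by
        refine sum_congr rfl fun k _ => ?_
        rw [norm_mul, mul_pow, RCLike.norm_ofReal, sq_abs, Real.sq_sqrt (hm k)]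
      have h4 : 0 ≤ ∑ k, m k * ‖a k (d g)‖ ^ 2 :=
        sum_nonneg fun k _ => mul_nonneg (hm k) (sq_nonneg _)
      rw [h3, Real.mul_rpow hK.le (Real.sqrt_nonneg _), mul_assoc]
      gcongr
      have h5 : Real.sqrt (∑ k, m k * ‖a k (d g)‖ ^ 2) ^ r = (∑ k, m k * ‖a k (d g)‖ ^ 2) ^ (r / 2) := by
        rw [Real.sqrt_eq_rpow, ← Real.rpow_mul h4]; congr 1; ring
      rw [h5]
      refine (Real.rpow_arith_mean_le_arith_mean_rpow univ m (fun k => ‖a k (d g)‖ ^ 2)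
        (fun k _ => hm k) hm1 (fun k _ => sq_nonneg _) (by linarith : 1 ≤ r / 2)).trans ?_
      refine le_of_eq (sum_congr rfl fun k _ => ?_)
      rw [← Real.rpow_natCast, ← Real.rpow_mul (norm_nonneg _)]
      congr 2; push_cast; ring
    have h3 : Summable fun g => ∑ k, m k * ‖a k (d g)‖ ^ r :=
      summable_sum fun k _ => (hd1 (a k)).mul_left (m k)
    calc ∑ ε, ‖z ε‖ ^ r ≤ ∑ ε, ∑' g, ‖z ε (d g)‖ ^ r := sum_le_sum fun ε _ => hd3 (z ε)
      _ = ∑' g, ∑ ε, ‖z ε (d g)‖ ^ r := (Summable.tsum_finsetSum fun ε _ => hd1 (z ε)).symm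
      _ ≤ ∑' g, M * K ^ r * ∑ k, m k * ‖a k (d g)‖ ^ r :=
          Summable.tsum_le_tsum h2 (summable_sum fun ε _ => hd1 (z ε)) (h3.mul_left _)
      _ = M * K ^ r * ∑ k, m k * ∑' g, ‖a k (d g)‖ ^ r := by
          rw [tsum_mul_left, Summable.tsum_finsetSum fun k _ => (hd1 (a k)).mul_left (m k)]
          simp only [tsum_mul_left]
      _ ≤ M * K ^ r * ∑ k, m k * α ^ r := by
          gcongr with k _
          · exact hm k
          · exact (hd2 (a k)).trans (by gcongr; exact ha k)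
      _ = M * (K * α) ^ r := by
          rw [← sum_mul, hm1, one_mul, Real.mul_rpow hK.le hα]; ring
  -- power mean
  have hzp : ∑ ε, ‖z ε‖ ^ p.toReal ≤ M * (K * α) ^ p.toReal := by
    have h1 : (∑ ε : κ → Bool, M⁻¹ * ‖z ε‖ ^ p.toReal) ^ (r / p.toReal) ≤
        ∑ ε : κ → Bool, M⁻¹ * (‖z ε‖ ^ p.toReal) ^ (r / p.toReal) := by
      refine Real.rpow_arith_mean_le_arith_mean_rpow univ _ _ (fun _ _ => by positivity) ?_
        (fun _ _ => by positivity) ?_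
      · rw [Finset.sum_const, Finset.card_univ, nsmul_eq_mul, ← hM, mul_inv_cancel₀ hM0.ne']
      · rwa [one_le_div hp0]
    rw [← mul_sum, ← mul_sum] at h1
    have h2 : ∀ ε : κ → Bool, (‖z ε‖ ^ p.toReal) ^ (r / p.toReal) = ‖z ε‖ ^ r := by
      intro ε
      rw [← Real.rpow_mul (norm_nonneg _), mul_div_cancel₀ _ hp0.ne']
    simp only [h2] at h1
    have h3 : (M⁻¹ * ∑ ε, ‖z ε‖ ^ p.toReal) ^ (r / p.toReal) ≤ ((K * α) ^ p.toReal) ^ (r / p.toReal) := by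
      rw [← Real.rpow_mul (by positivity), mul_div_cancel₀ _ hp0.ne']
      refine h1.trans ?_
      calc M⁻¹ * ∑ ε, ‖z ε‖ ^ r ≤ M⁻¹ * (M * (K * α) ^ r) := by gcongr
        _ = (K * α) ^ r := by field_simp
    have h4 : M⁻¹ * ∑ ε, ‖z ε‖ ^ p.toReal ≤ (K * α) ^ p.toReal :=
      (Real.rpow_le_rpow_iff (by positivity) (by positivity) (by positivity)).mp h3
    calc ∑ ε, ‖z ε‖ ^ p.toReal = M * (M⁻¹ * ∑ ε, ‖z ε‖ ^ p.toReal) := by field_simp
      _ ≤ M * (K * α) ^ p.toReal := by gcongr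
  -- the representation
  have key := gNorm_le_rep (p := p) (q := q) S
    (fun ε => ((M ^ (-(1 / p.toReal)) : ℝ) : 𝕜) • z ε) (fun ε => ((M ^ (-(1 / r)) : ℝ) : 𝕜) • w ε)
    ?_ (K * α) (K * b) ?_ ?_
  · refine key.trans (le_of_eq ?_)
    congr 1; ring
  · intro v
    have h1 : ∀ ε : κ → Bool, ((((M ^ (-(1 / p.toReal)) : ℝ) : 𝕜) • z ε) v) •
        (((M ^ (-(1 / r)) : ℝ) : 𝕜) • w ε) = ((M⁻¹ : ℝ) : 𝕜) • ((z ε v) • w ε) := by
      intro ε
      rw [_root_.smul_apply, smul_smul, smul_eq_mul, smul_smul]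
      congr 1
      have h2 : M ^ (-(1 / p.toReal)) * M ^ (-(1 / r)) = M⁻¹ := by
        rw [← Real.rpow_add hM0, ← Real.rpow_neg_one]
        congr 1
        have := hc.inv_add_inv_eq_one
        rw [one_div, one_div]; linarith
      rw [← h2]; push_cast; ring
    simp only [h1]
    rw [← smul_sum, hS v]
    have h3 : ∀ ε : κ → Bool, (z ε v) • w ε =
        ∑ i, ∑ j, ((sg (ε i) * sg (ε j) : ℝ) : 𝕜) • (((Real.sqrt (m i) : 𝕜) * a i v) • x j) := by
      intro ε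
      have h4 : z ε v = ∑ k, (sg (ε k) : 𝕜) * ((Real.sqrt (m k) : 𝕜) * a k v) := by
        simp only [z, _root_.sum_apply, _root_.smul_apply, smul_eq_mul, mul_assoc]
      rw [h4, sum_smul]
      refine sum_congr rfl fun i _ => ?_
      simp only [w]
      rw [smul_sum]
      refine sum_congr rfl fun j _ => ?_
      rw [smul_smul, smul_smul]
      congr 1; push_cast; ring
    simp only [h3]
    have h5 : ∑ ε : κ → Bool, ∑ i, ∑ j, ((sg (ε i) * sg (ε j) : ℝ) : 𝕜) •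
        (((Real.sqrt (m i) : 𝕜) * a i v) • x j) =
        ∑ i, ∑ j, (((∑ ε : κ → Bool, sg (ε i) * sg (ε j)) : ℝ) : 𝕜) •
          (((Real.sqrt (m i) : 𝕜) * a i v) • x j) := by
      rw [sum_comm]
      refine sum_congr rfl fun i _ => ?_
      rw [sum_comm]
      refine sum_congr rfl fun j _ => ?_
      rw [← sum_smul, RCLike.ofReal_sum]
    rw [h5]
    simp only [sum_sg_mul]
    rw [smul_sum]
    refine sum_congr rfl fun i _ => ?_
    rw [sum_eq_single i]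
    · rw [if_pos rfl, smul_smul, ← RCLike.ofReal_mul, inv_mul_cancel₀ hM0.ne']; simp
    · intro j _ hj
      rw [if_neg (Ne.symm hj)]; simp
    · intro h; exact absurd (mem_univ i) h
  · rw [lpF_eq hp0]
    have h1 : ∀ ε : κ → Bool, ‖‖((M ^ (-(1 / p.toReal)) : ℝ) : 𝕜) • z ε‖‖ ^ p.toReal =
        M⁻¹ * ‖z ε‖ ^ p.toReal := by
      intro ε
      rw [norm_norm, norm_smul, RCLike.norm_ofReal, abs_of_pos (Real.rpow_pos_of_pos hM0 _),
        Real.mul_rpow (by positivity) (norm_nonneg _), ← Real.rpow_mul hM0.le]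
      have : -(1 / p.toReal) * p.toReal = -1 := by field_simp
      rw [this, Real.rpow_neg_one]
    simp only [h1]
    rw [← mul_sum]
    calc (M⁻¹ * ∑ ε, ‖z ε‖ ^ p.toReal) ^ (1 / p.toReal)
        ≤ (M⁻¹ * (M * (K * α) ^ p.toReal)) ^ (1 / p.toReal) := by gcongr
      _ = K * α := by
          have : M⁻¹ * (M * (K * α) ^ p.toReal) = (K * α) ^ p.toReal := by field_simp
          rw [this, ← Real.rpow_mul (by positivity), mul_one_div_cancel hp0.ne', Real.rpow_one]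
  · intro f hf
    rw [lpF_eq hr]
    have h1 : ∀ ε : κ → Bool, ‖f (((M ^ (-(1 / r)) : ℝ) : 𝕜) • w ε)‖ ^ r =
        M⁻¹ * ‖∑ k, (sg (ε k) : 𝕜) * f (x k)‖ ^ r := by
      intro ε
      rw [map_smul, norm_smul, RCLike.norm_ofReal, abs_of_pos (Real.rpow_pos_of_pos hM0 _),
        Real.mul_rpow (by positivity) (norm_nonneg _), ← Real.rpow_mul hM0.le]
      have : -(1 / r) * r = -1 := by field_simp
      rw [this, Real.rpow_neg_one]
      simp only [w, map_sum, map_smul, smul_eq_mul]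
    change (∑ ε : κ → Bool, ‖f (((M ^ (-(1 / r)) : ℝ) : 𝕜) • w ε)‖ ^ r) ^ (1 / r) ≤ K * b
    simp only [h1]
    rw [← mul_sum]
    have h2 := hkh 𝕜 κ (fun k => f (x k))
    have h3 : Real.sqrt (∑ k, ‖f (x k)‖ ^ 2) ≤ b := by
      rw [Real.sqrt_le_left hb]
      refine (hx f).trans ?_
      have := norm_nonneg f
      have h4 : b * ‖f‖ ≤ b := by nlinarith
      have h5 : 0 ≤ b * ‖f‖ := by positivity
      gcongr
    calc (M⁻¹ * ∑ ε : κ → Bool, ‖∑ k, (sg (ε k) : 𝕜) * f (x k)‖ ^ r) ^ (1 / r)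
        ≤ (M⁻¹ * (M * (K * b) ^ r)) ^ (1 / r) := by
          gcongr
          refine h2.trans ?_
          gcongr
      _ = K * b := by
          have : M⁻¹ * (M * (K * b) ^ r) = (K * b) ^ r := by field_simp
          rw [this, ← Real.rpow_mul (by positivity), mul_one_div_cancel hr.ne', Real.rpow_one]

end MP6f
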