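import Mathlib
import Pool.Agent.Lib.MP_6f6997_an.LowOuter
import Pool.Agent.Lib.MP_6f6997_an.TwoRep
import Pool.Agent.Lib.MP_6f6997_an.TypeTwo

/-!
# The case `1 < p < 2`
-/

open MeasureTheory ENNReal Finset

set_option maxSynthPendingDepth 3

noncomputable section

namespace MP6f

variable (𝕜 : Type) [RCLike 𝕜] (p q : ℝ≥0∞) [Fact (1 ≤ p)] [Fact (1 ≤ q)] [p.HolderConjugate q]

lemma norm_comp_mkQL (f : StrongDual 𝕜 (Xlow 𝕜 p q)) :
    ‖f.comp (Ksp 𝕜 p q).mkQL‖ = ‖f‖ := by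
  refine le_antisymm ?_ ?_
  · refine ContinuousLinearMap.opNorm_le_bound _ (norm_nonneg _) fun w => ?_
    refine (f.le_opNorm _).trans ?_
    gcongr
    exact Submodule.Quotient.norm_mk_le _ _
  · have h1 : Ksp 𝕜 p q ≤ (f.comp (Ksp 𝕜 p q).mkQL).ker := by
      intro w hw
      have : (Ksp 𝕜 p q).mkQL w = 0 := (Submodule.Quotient.mk_eq_zero _).mpr hw
      change f ((Ksp 𝕜 p q).mkQL w) = 0
      rw [this, map_zero]
    have h2 : (Ksp 𝕜 p q).liftQL (f.comp (Ksp 𝕜 p q).mkQL) h1 = f := by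
      apply ContinuousLinearMap.ext
      intro x
      obtain ⟨w, rfl⟩ := Submodule.Quotient.mk_surjective _ x
      rfl
    have h3 := norm_lift_le 𝕜 (Ksp 𝕜 p q) (f.comp (Ksp 𝕜 p q).mkQL) h1
    rwa [h2] at h3

lemma dX_sum_le (hp : p ≠ ∞) (hq : q ≠ ∞) (f : StrongDual 𝕜 (Xlow 𝕜 p q)) (s : Finset Idx) :
    ∑ g ∈ s, ‖f (dX 𝕜 p q g)‖ ^ q.toReal ≤ ‖f‖ ^ q.toReal := by
  classical
  rw [← norm_comp_mkQL]
  exact sum_functional_le (q := q) hp hq (f.comp (Ksp 𝕜 p q).mkQL) s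

lemma dX_summable (hp : p ≠ ∞) (hq : q ≠ ∞) (f : StrongDual 𝕜 (Xlow 𝕜 p q)) :
    Summable fun g => ‖f (dX 𝕜 p q g)‖ ^ q.toReal :=
  summable_of_sum_le (fun g => by positivity) (dX_sum_le 𝕜 p q hp hq f)

lemma dX_tsum_le (hp : p ≠ ∞) (hq : q ≠ ∞) (f : StrongDual 𝕜 (Xlow 𝕜 p q)) :
    ∑' g, ‖f (dX 𝕜 p q g)‖ ^ q.toReal ≤ ‖f‖ ^ q.toReal :=
  (dX_summable 𝕜 p q hp hq f).tsum_le_of_sum_le (dX_sum_le 𝕜 p q hp hq f)

lemma le_dX_tsum (hp : p ≠ ∞) (hq : q ≠ ∞) (f : StrongDual 𝕜 (Xlow 𝕜 p q)) :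
    ‖f‖ ^ q.toReal ≤ ∑' g, ‖f (dX 𝕜 p q g)‖ ^ q.toReal := by
  classical
  have hr := toReal_pos_of (Fact.out : 1 ≤ q) hq
  set T := ∑' g, ‖f (dX 𝕜 p q g)‖ ^ q.toReal with hT
  have hT0 : 0 ≤ T := tsum_nonneg fun g => by positivity
  have h1 : ‖f‖ ≤ T ^ (1 / q.toReal) := by
    rw [← norm_comp_mkQL]
    refine norm_functional_le (q := q) hp hq _ _ (by positivity) fun s => ?_
    rw [← Real.rpow_mul hT0, one_div_mul_cancel hr.ne', Real.rpow_one]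
    exact (dX_summable 𝕜 p q hp hq f).sum_le_tsum s (fun g _ => by positivity)
  calc ‖f‖ ^ q.toReal ≤ (T ^ (1 / q.toReal)) ^ q.toReal := by gcongr
    _ = T := by rw [← Real.rpow_mul hT0, one_div_mul_cancel hr.ne', Real.rpow_one]

variable {𝕜} in
omit [Fact (1 ≤ q)] [p.HolderConjugate q] in
lemma gNorm_le_of_fact {X : Type} [NormedAddCommGroup X] [NormedSpace 𝕜 X] (S : X →L[𝕜] X)
    (lam : ℝ) (hlam : 0 < lam)
    (h : ∀ (Ω : Type) (_ : MeasurableSpace Ω) (μ : Measure Ω) (_ : IsProbabilityMeasure μ)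
      (A : X →L[𝕜] Lp 𝕜 ∞ μ) (B : Lp 𝕜 p μ →L[𝕜] StrongDual 𝕜 (StrongDual 𝕜 X))
      (_ : ∀ y : X, NormedSpace.inclusionInDoubleDual 𝕜 X (S y) = B (inclLp μ p (A y))),
      gNorm p q S ≤ ENNReal.ofReal (lam * (‖A‖ * ‖B‖))) :
    gNorm p q S ≤ ENNReal.ofReal lam * iNorm p S := by
  have hC1 : ENNReal.ofReal lam ≠ 0 := by
    simp only [ne_eq, ENNReal.ofReal_eq_zero, not_le]; exact hlam
  rw [mul_comm (ENNReal.ofReal lam), ← ENNReal.div_le_iff_le_mul (Or.inl hC1)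
    (Or.inl ENNReal.ofReal_ne_top)]
  unfold iNorm
  refine le_iInf fun Ω => le_iInf fun iM => le_iInf fun μ => le_iInf fun iP => le_iInf fun A =>
    le_iInf fun B => le_iInf fun hf => ?_
  rw [ENNReal.div_le_iff_le_mul (Or.inl hC1) (Or.inl ENNReal.ofReal_ne_top),
    ← ENNReal.ofReal_mul (by positivity), mul_comm _ lam]
  exact h Ω iM μ iP A B hf

theorem low_inner (hp : p ≠ ∞) (hq : q ≠ ∞) (hp2 : p ≤ 2) (hq2 : 2 ≤ q.toReal) :
    ∃ lam : ℝ, 1 ≤ lam ∧ Inner 𝕜 p q lam (Xlow 𝕜 p q) := by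
  have hpq : p.HolderConjugate q := inferInstance
  have hp2' : p.toReal ≤ 2 := by
    have := ENNReal.toReal_mono (by norm_num) hp2
    simpa using this
  obtain ⟨K, hK, key⟩ := gNorm_le_of_two hp hq (hp2'.trans hq2) hq2
  refine ⟨max 1 K, le_max_left _ _, fun S hS => ?_⟩
  refine gNorm_le_of_fact p q S _ (by positivity) fun Ω iM μ iP A B h => ?_
  refine ENNReal.le_of_forall_pos_le_add fun ε hε _ => ?_
  have hε' : (0 : ℝ) < ε := by exact_mod_cast hε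
  have hA := norm_nonneg A
  have hB := norm_nonneg B
  set η : ℝ := ε / (K * ‖A‖ + 1) with hη
  have hη0 : 0 < η := by positivity
  obtain ⟨κ, _, m, a, x, S', hm, hm1, ha, hx, hS', hg⟩ := exists_two_rep hpq hq hp2 S hS μ A B h η hη0
  have h1 := key 𝕜 (Xlow 𝕜 p q) Idx (dX 𝕜 p q) (dX_summable 𝕜 p q hp hq) (dX_tsum_le 𝕜 p q hp hq)
    (le_dX_tsum 𝕜 p q hp hq) κ m hm hm1 a ‖A‖ hA ha x (‖B‖ + η) (by positivity) hx S' hS'
  have h2 : S = S' + (S - S') := by abel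
  calc gNorm p q S = gNorm p q (S' + (S - S')) := by rw [← h2]
    _ ≤ gNorm p q S' + gNorm p q (S - S') := gNorm_add_le hpq hq _ _
    _ ≤ ENNReal.ofReal (K * (‖A‖ * (‖B‖ + η))) + ENNReal.ofReal η := by gcongr
    _ = ENNReal.ofReal (K * (‖A‖ * ‖B‖) + (K * ‖A‖ + 1) * η) := by
        rw [← ENNReal.ofReal_add (by positivity) hη0.le]; congr 1; ring
    _ = ENNReal.ofReal (K * (‖A‖ * ‖B‖)) + ε := by
        rw [hη, mul_div_cancel₀ _ (by positivity), ENNReal.ofReal_add (by positivity) hε'.le,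
          ENNReal.ofReal_coe_nnreal]
    _ ≤ ENNReal.ofReal (max 1 K * (‖A‖ * ‖B‖)) + ε := by
        gcongr
        exact le_max_right _ _

/-- the case `1 < p < 2` -/
theorem separates_low (h1 : 1 < p) (h2 : p < 2) : Separates 𝕜 p q := by
  have hp : p ≠ ∞ := (h2.trans (by norm_num)).ne
  have hq : q ≠ ∞ := by
    intro h
    subst h
    have := ENNReal.HolderConjugate.inv_add_inv_eq_one p ∞
    simp only [ENNReal.inv_top, add_zero, ENNReal.inv_eq_one] at this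
    exact h1.ne' this
  have hc : p.toReal.HolderConjugate q.toReal := ENNReal.HolderConjugate.toReal_of_ne_top hp hq
  have hp2 : p.toReal < 2 := by
    have := (ENNReal.toReal_lt_toReal hp (by norm_num)).mpr h2
    simpa using this
  have hq2 : 2 < q.toReal := by
    have h3 := hc.inv_add_inv_eq_one
    have h4 := hc.pos
    have h5 := hc.symm.pos
    have h6 : (2 : ℝ)⁻¹ < p.toReal⁻¹ := (inv_lt_inv₀ (by norm_num) h4).mpr hp2
    have h7 : q.toReal⁻¹ < 2⁻¹ := by linarith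
    exact (inv_lt_inv₀ h5 (by norm_num)).mp h7
  obtain ⟨lam, hlam, hin⟩ := low_inner 𝕜 p q hp hq h2.le hq2.le
  exact ⟨Xlow 𝕜 p q, inferInstance, inferInstance, inferInstance, lam, hlam, hin,
    fun lam' => low_outer_fails 𝕜 p q hp hq hq2 lam'⟩

end MP6f
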