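import Mathlib
import Pool.Agent.Lib.MP_6f6997_an.Low
import Pool.Agent.Lib.MP_6f6997_an.InnerHigh
import Pool.Agent.Lib.MP_6f6997_an.HighFail

/-!
# The case `2 < p ≤ ∞`
-/

open MeasureTheory ENNReal Finset

set_option maxSynthPendingDepth 3

noncomputable section

namespace MP6f

/-- assembly of the parts, abstract form -/
lemma inner_of_parts {𝕜 : Type} [RCLike 𝕜] {X : Type} [NormedAddCommGroup X] [NormedSpace 𝕜 X]
    {p q : ℝ≥0∞} [Fact (1 ≤ p)] [Fact (1 ≤ q)] (hpq : p.HolderConjugate q) (hq : q ≠ ∞)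
    (P : StrongDual 𝕜 (StrongDual 𝕜 X) →L[𝕜] X) (hP1 : ‖P‖ ≤ 1)
    (hP2 : ∀ x, P (NormedSpace.inclusionInDoubleDual 𝕜 X x) = x)
    (hpert : ∀ S : X →L[𝕜] X, FinRank S → ∀ η : ℝ, 0 < η → ∃ I : X →L[𝕜] X, ‖I‖ ≤ 1 + η ∧
      gNorm p q (S - S.comp I) ≤ ENNReal.ofReal η ∧
      ∀ (Ω : Type) (_ : MeasurableSpace Ω) (μ : Measure Ω) (_ : IsProbabilityMeasure μ)
        (A : X →L[𝕜] Lp 𝕜 ∞ μ) (B : Lp 𝕜 p μ →L[𝕜] X), (∀ x, S (I x) = B (inclLp μ p (A x))) →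
        gNorm p q (S.comp I) ≤ ENNReal.ofReal ((1 + 4) * ((‖A‖ + η) * ‖B‖) + η)) :
    Inner 𝕜 p q 5 X := by
  intro S hS
  refine gNorm_le_of_fact p q S _ (by norm_num) fun Ω iM μ iP A B h => ?_
  refine ENNReal.le_of_forall_pos_le_add fun ε hε _ => ?_
  have hε' : (0 : ℝ) < ε := by exact_mod_cast hε
  have hA := norm_nonneg A
  have hB := norm_nonneg B
  set η : ℝ := ε / (5 * ((‖A‖ + 1) * ‖B‖) + 2) with hη
  have hη0 : 0 < η := by positivity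
  obtain ⟨I, hIn, hE3, hE4⟩ := hpert S hS η hη0
  have h1 := hE4 Ω iM μ iP (A.comp I) (P.comp B) (fun x => by
      change S (I x) = P (B (inclLp μ p (A (I x))))
      rw [← h (I x), hP2])
  have hAI : ‖A.comp I‖ ≤ ‖A‖ * (1 + η) :=
    (ContinuousLinearMap.opNorm_comp_le _ _).trans (by gcongr)
  have hPB : ‖P.comp B‖ ≤ ‖B‖ := by
    refine (ContinuousLinearMap.opNorm_comp_le _ _).trans ?_
    nlinarith
  have h2 : S = S.comp I + (S - S.comp I) := by abel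
  calc gNorm p q S = gNorm p q (S.comp I + (S - S.comp I)) := by rw [← h2]
    _ ≤ gNorm p q (S.comp I) + gNorm p q (S - S.comp I) := gNorm_add_le hpq hq _ _
    _ ≤ ENNReal.ofReal ((1 + 4) * ((‖A.comp I‖ + η) * ‖P.comp B‖) + η) + ENNReal.ofReal η :=
        add_le_add h1 hE3
    _ ≤ ENNReal.ofReal ((1 + 4) * ((‖A‖ * (1 + η) + η) * ‖B‖) + η) + ENNReal.ofReal η := by
        gcongr
    _ = ENNReal.ofReal (5 * (‖A‖ * ‖B‖) + (5 * ((‖A‖ + 1) * ‖B‖) + 2) * η) := by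
        rw [← ENNReal.ofReal_add (by positivity) hη0.le]; congr 1; ring
    _ = ENNReal.ofReal (5 * (‖A‖ * ‖B‖)) + ε := by
        rw [hη, mul_div_cancel₀ _ (by positivity), ENNReal.ofReal_add (by positivity) hε'.le,
          ENNReal.ofReal_coe_nnreal]

/-- the inner inequality for `p ≥ 2` -/
theorem inner_high (𝕜 : Type) [RCLike 𝕜] {G Q : ℕ → Type} [∀ n, Fintype (G n)]
    [∀ n, Fintype (Q n)] [∀ n, DecidableEq (Q n)] [∀ n, Nonempty (G n)] (a : ∀ n, Q n → G n → ℝ)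
    (b : ∀ n, Q n → G (n + 1) → ℝ) (hb : ∀ n (f : G (n + 1) → 𝕜), ∑ z, ‖BH b n f z‖ ^ 2 ≤
    (Fintype.card (G (n + 1)) : ℝ)⁻¹ * ∑ g, ‖f g‖ ^ 2)
    {p q : ℝ≥0∞} [Fact (1 ≤ p)] [Fact (1 ≤ q)] (hpq : p.HolderConjugate q) (hq : q ≠ ∞)
    (hq2 : q.toReal ≤ 2) : Inner 𝕜 p q 5 (XH 𝕜 a b) := by
  obtain ⟨P, hP1, hP2⟩ := exists_retraction 𝕜 a b
  refine inner_of_parts hpq hq P hP1 hP2 fun S hS η hη => ?_
  obtain ⟨N, E, hE1, hE2, hE3⟩ := exists_perturb 𝕜 a b hpq hq S hS η hη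
  refine ⟨ContinuousLinearMap.id 𝕜 _ + E, ?_, hE3, fun Ω iM μ iP A B hAB => ?_⟩
  · exact (norm_add_le _ _).trans (add_le_add ContinuousLinearMap.norm_id_le hE1)
  · exact inner_low_levels 𝕜 a b hb hpq hq hq2 _ N (fun x hx => hE2 x hx) μ A B hAB η hη

/-- the case `2 < p ≤ ∞` -/
theorem separates_high (𝕜 : Type) [RCLike 𝕜] (p q : ℝ≥0∞) [Fact (1 ≤ p)] [Fact (1 ≤ q)]
    [hpq : p.HolderConjugate q] (h : 2 < p) : Separates 𝕜 p q := by
  have hq1 : 1 ≤ q := Fact.out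
  have hsum := ENNReal.HolderConjugate.inv_add_inv_eq_one p q
  have hp2 : p⁻¹ < 2⁻¹ := ENNReal.inv_lt_inv.mpr h
  have hq2 : q < 2 := by
    have h3 : (2 : ℝ≥0∞)⁻¹ < q⁻¹ := by
      by_contra hcon
      push Not at hcon
      have h4 : p⁻¹ + q⁻¹ < 2⁻¹ + 2⁻¹ := by
        refine ENNReal.add_lt_add_of_lt_of_le ?_ hp2 hcon
        exact ne_top_of_le_ne_top (by simp) hcon
      rw [hsum, ENNReal.inv_two_add_inv_two] at h4
      exact lt_irrefl _ h4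
    exact ENNReal.inv_lt_inv.mp h3
  have hq : q ≠ ∞ := (hq2.trans (by norm_num)).ne
  have hr1 : 1 ≤ q.toReal := by
    rw [← ENNReal.toReal_one]; exact ENNReal.toReal_mono hq Fact.out
  have hr2 : q.toReal < 2 := by
    have := (ENNReal.toReal_lt_toReal hq (by norm_num)).mpr hq2
    simpa using this
  exact ⟨Xhigh 𝕜, inferInstance, inferInstance, inferInstance, 5, by norm_num,
    inner_high 𝕜 aM bM (bM_contr 𝕜) hpq hq hr2.le,
    fun lam' => high_outer_fails 𝕜 q p hpq hq hr1 hr2 lam'⟩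

end MP6f
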