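import Mathlib
import Pool.Agent.Lib.MP_6f6997_an.Kernel

/-!
# Discretisation of the inclusion `L_∞(μ) → L_p(μ)` on a finite set of vectors
-/

open MeasureTheory ENNReal Finset

set_option maxSynthPendingDepth 3
set_option linter.unusedSectionVars false

noncomputable section

namespace MP6f.Inn

variable {𝕜 : Type} [RCLike 𝕜]

/-- a unimodular number with `u * z = ‖z‖` -/
lemma exists_phaseP (z : 𝕜) : ∃ u : 𝕜, ‖u‖ = 1 ∧ u * z = (‖z‖ : 𝕜) := by
  by_cases hz : z = 0
  · exact ⟨1, by simp, by simp [hz]⟩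
  · have h : (‖z‖ : 𝕜) ≠ 0 := by
      simpa using hz
    refine ⟨starRingEnd 𝕜 z / (‖z‖ : 𝕜), ?_, ?_⟩
    · rw [norm_div, RCLike.norm_conj, RCLike.norm_ofReal, abs_norm,
        div_self (norm_ne_zero_iff.mpr hz)]
    · rw [div_mul_eq_mul_div, RCLike.conj_mul, sq, mul_div_assoc, div_self h, mul_one]

/-- duality -/
lemma lpF_dual {p q : ℝ≥0∞} (hpq : p.HolderConjugate q) (hq : q ≠ ∞) {κ : Type*} [Fintype κ]
    (a : κ → 𝕜) (K : ℝ) (hK : 0 ≤ K) (h : ∀ c : κ → 𝕜, ‖∑ k, c k * a k‖ ≤ K * lpF p c) :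
    lpF q a ≤ K := by
  have hq1 : 1 ≤ q := hpq.symm.one_le
  have hr := toReal_pos_of hq1 hq
  have hr1 : 1 ≤ q.toReal := by
    have := ENNReal.toReal_mono hq hq1
    simpa using this
  set S : ℝ := ∑ k, ‖a k‖ ^ q.toReal with hS
  have hS0 : 0 ≤ S := Finset.sum_nonneg fun k _ => by positivity
  rw [lpF_eq hr, ← hS]
  rcases eq_or_lt_of_le hS0 with h0 | h0
  · rw [← h0, Real.zero_rpow (by positivity)]; exact hK
  choose u hu1 hu2 using fun k => exists_phaseP (a k)
  set c : κ → 𝕜 := fun k => u k * ((‖a k‖ ^ (q.toReal - 1) : ℝ) : 𝕜) with hc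
  have hcn : ∀ k, ‖c k‖ = ‖a k‖ ^ (q.toReal - 1) := by
    intro k
    rw [hc]; simp only
    rw [norm_mul, hu1, one_mul, RCLike.norm_ofReal, abs_of_nonneg (by positivity)]
  have h1 : ∑ k, c k * a k = ((S : ℝ) : 𝕜) := by
    rw [hS, RCLike.ofReal_sum]
    refine Finset.sum_congr rfl fun k _ => ?_
    have e1 : c k * a k = ((‖a k‖ ^ (q.toReal - 1) : ℝ) : 𝕜) * (u k * a k) := by
      rw [hc]; ring
    rw [e1, hu2, ← RCLike.ofReal_mul]
    congr 1
    by_cases hz : ‖a k‖ = 0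
    · rw [hz, Real.zero_rpow hr.ne', mul_zero]
    · have hz' : 0 < ‖a k‖ := lt_of_le_of_ne (norm_nonneg _) (Ne.symm hz)
      rw [Real.rpow_sub_one hz]; field_simp
  have h2 : lpF p c ≤ S ^ (1 - 1 / q.toReal) := by
    refine lpF_le_of_sum hpq hq c (fun k => ‖a k‖ ^ q.toReal) (fun k => by positivity) S le_rfl
      fun k => ?_
    rw [hcn, ← Real.rpow_mul (norm_nonneg _)]
    apply le_of_eq
    congr 1
    field_simp
  have h3 := h c
  rw [h1, RCLike.norm_ofReal, abs_of_pos h0] at h3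
  have h4 : S ≤ K * S ^ (1 - 1 / q.toReal) := h3.trans (mul_le_mul_of_nonneg_left h2 hK)
  have h5 : S = S ^ (1 / q.toReal) * S ^ (1 - 1 / q.toReal) := by
    rw [← Real.rpow_add h0]
    have : (1 / q.toReal + (1 - 1 / q.toReal)) = 1 := by ring
    rw [this, Real.rpow_one]
  have h6 : 0 < S ^ (1 - 1 / q.toReal) := Real.rpow_pos_of_pos h0 _
  have h7 : S ^ (1 / q.toReal) * S ^ (1 - 1 / q.toReal) ≤ K * S ^ (1 - 1 / q.toReal) := by
    rw [← h5]; exact h4
  exact le_of_mul_le_mul_right h7 h6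

section simple

variable {Ω : Type} [MeasurableSpace Ω] (μ : Measure Ω) [IsProbabilityMeasure μ]
  {ι : Type} [Fintype ι]

/-- uniform approximation by simple functions -/
lemma exists_simple_unif (F : Ω → ι → 𝕜) (hF : AEStronglyMeasurable F μ) (R : ℝ)
    (hR : ∀ᵐ ω ∂μ, ‖F ω‖ ≤ R) {δ : ℝ} (hδ : 0 < δ) :
    ∃ s : SimpleFunc Ω (ι → 𝕜), ∀ᵐ ω ∂μ, ‖F ω - s ω‖ ≤ δ := by
  obtain ⟨F', hF', hFF'⟩ := hF
  have hF'm : Measurable F' := hF'.measurable
  set e : ℕ → (ι → 𝕜) := TopologicalSpace.denseSeq (ι → 𝕜) with he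
  have hcov : Metric.closedBall (0 : ι → 𝕜) R ⊆ ⋃ k, Metric.ball (e k) δ := by
    intro x _
    obtain ⟨y, hy1, hy2⟩ := Metric.dense_iff.1 (TopologicalSpace.denseRange_denseSeq (ι → 𝕜)) x δ hδ
    obtain ⟨k, rfl⟩ := hy2
    rw [Set.mem_iUnion]
    refine ⟨k, ?_⟩
    rw [Metric.mem_ball, dist_comm]
    exact hy1
  obtain ⟨t, ht⟩ := (isCompact_closedBall (0 : ι → 𝕜) R).elim_finite_subcover _
    (fun k => Metric.isOpen_ball) hcov
  refine ⟨(SimpleFunc.nearestPt e (t.sup id)).comp F' hF'm, ?_⟩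
  filter_upwards [hR, hFF'] with ω h1 h2
  have h3 : F ω ∈ Metric.closedBall (0 : ι → 𝕜) R := by simpa using h1
  have h4 := ht h3
  simp only [Set.mem_iUnion] at h4
  obtain ⟨k, hk, hk2⟩ := h4
  have h5 := SimpleFunc.edist_nearestPt_le e (F' ω) (show k ≤ t.sup id from Finset.le_sup (f := id) hk)
  rw [SimpleFunc.coe_comp, Function.comp_apply, h2]
  rw [edist_dist, edist_dist, ENNReal.ofReal_le_ofReal_iff dist_nonneg] at h5
  rw [← dist_eq_norm, dist_comm]
  refine h5.trans ?_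
  rw [← h2, dist_comm]
  exact (Metric.mem_ball.1 hk2).le

variable (s : SimpleFunc Ω (ι → 𝕜)) (p : ℝ≥0∞)

/-- the step function with values `d w` on the cell of `w` -/
def stp (d : {w // w ∈ s.range} → 𝕜) : Lp 𝕜 p μ :=
  ∑ w, d w • indicatorConstLp p (s.measurableSet_fiber w.1) (measure_ne_top μ _) (1 : 𝕜)

lemma coeFn_stp (d : {w // w ∈ s.range} → 𝕜) :
    ∀ᵐ ω ∂μ, (stp μ s p d : Ω → 𝕜) ω = d ⟨s ω, s.mem_range_self ω⟩ := by
  classical
  have h1 := Lp.coeFn_finsetSum (E := 𝕜) (p := p) (μ := μ) univ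
    (fun w : {w // w ∈ s.range} => d w •
      indicatorConstLp p (s.measurableSet_fiber w.1) (measure_ne_top μ _) (1 : 𝕜))
  have h2 : ∀ w : {w // w ∈ s.range}, ∀ᵐ ω ∂μ, ((d w •
      indicatorConstLp p (s.measurableSet_fiber w.1) (measure_ne_top μ _) (1 : 𝕜) : Lp 𝕜 p μ) :
        Ω → 𝕜) ω = d w * (s ⁻¹' {w.1}).indicator (fun _ => (1 : 𝕜)) ω := by
    intro w
    filter_upwards [Lp.coeFn_smul (d w)
      (indicatorConstLp p (s.measurableSet_fiber w.1) (measure_ne_top μ _) (1 : 𝕜)),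
      indicatorConstLp_coeFn (p := p) (hs := s.measurableSet_fiber w.1)
        (hμs := measure_ne_top μ _) (c := (1 : 𝕜))] with ω h3 h4
    rw [h3, Pi.smul_apply, smul_eq_mul, h4]
  filter_upwards [h1, ae_all_iff.mpr h2] with ω h3 h4
  unfold stp
  rw [h3, Finset.sum_apply, Finset.sum_congr rfl fun w _ => h4 w,
    Finset.sum_eq_single ⟨s ω, s.mem_range_self ω⟩]
  · simp
  · intro w _ hw
    rw [Set.indicator_of_notMem, mul_zero]
    intro h5
    apply hw
    apply Subtype.ext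
    exact (h5 : s ω = w.1).symm
  · intro h5
    exact absurd (Finset.mem_univ _) h5

lemma norm_stp_le [Fact (1 ≤ p)] (d : {w // w ∈ s.range} → 𝕜) (C : ℝ) (hC : 0 ≤ C)
    (h : ∀ w, ‖d w‖ ≤ C) : ‖stp μ s p d‖ ≤ C := by
  have h1 := Lp.norm_le_of_ae_bound (f := stp μ s p d) hC (by
    filter_upwards [coeFn_stp μ s p d] with ω h1
    rw [h1]; exact h _)
  simpa [measureUnivNNReal] using h1

lemma stp_smul_sum {κ : Type*} (t : Finset κ) (c : κ → 𝕜) (d : κ → {w // w ∈ s.range} → 𝕜) :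
    stp μ s p (fun w => ∑ k ∈ t, c k * d k w) = ∑ k ∈ t, c k • stp μ s p (d k) := by
  unfold stp
  simp only [Finset.smul_sum, Finset.sum_smul]
  rw [Finset.sum_comm]
  refine Finset.sum_congr rfl fun k _ => Finset.sum_congr rfl fun w _ => ?_
  rw [mul_smul]

/-- the normalised step functions span an `ℓ_p` -/
lemma norm_stp_normalised_le [Fact (1 ≤ p)] (c : {w // w ∈ s.range} → 𝕜) :
    ‖stp μ s p fun w => (((μ.real (s ⁻¹' {w.1})) ^ (-(p.toReal⁻¹)) : ℝ) : 𝕜) * c w‖ ≤ lpF p c := by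
  set m : {w // w ∈ s.range} → ℝ := fun w => μ.real (s ⁻¹' {w.1}) with hm
  have hm0 : ∀ w, 0 ≤ m w := fun w => measureReal_nonneg
  by_cases hp : p = ∞
  · subst hp
    refine norm_stp_le μ s ∞ _ _ (lpF_nonneg _) fun w => ?_
    rw [ENNReal.toReal_top, _root_.inv_zero, neg_zero, Real.rpow_zero, RCLike.ofReal_one, one_mul, lpF_top]
    exact le_ciSup (f := fun w => ‖c w‖) (Set.finite_range _).bddAbove w
  · have hr := toReal_pos_of (Fact.out : 1 ≤ p) hp
    set d : {w // w ∈ s.range} → 𝕜 := fun w => ((m w ^ (-(p.toReal⁻¹)) : ℝ) : 𝕜) * c w with hd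
    have h1 : ‖stp μ s p d‖ = (∫ ω, ‖(stp μ s p d : Ω → 𝕜) ω‖ ^ p.toReal ∂μ) ^ p.toReal⁻¹ := by
      rw [Lp.norm_def, (Lp.memLp (stp μ s p d)).eLpNorm_eq_integral_rpow_norm
        (by intro h; rw [h] at hr; simp at hr) hp, ENNReal.toReal_ofReal (by positivity)]
    have h2 : ∫ ω, ‖(stp μ s p d : Ω → 𝕜) ω‖ ^ p.toReal ∂μ
        = ∑ w, m w * ‖d w‖ ^ p.toReal := by
      have h3 : ∫ ω, ‖(stp μ s p d : Ω → 𝕜) ω‖ ^ p.toReal ∂μ
          = ∫ ω, ‖d ⟨s ω, s.mem_range_self ω⟩‖ ^ p.toReal ∂μ := by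
        refine integral_congr_ae ?_
        filter_upwards [coeFn_stp μ s p d] with ω h4
        rw [h4]
      classical
      have h5 : ∀ ω, ‖d ⟨s ω, s.mem_range_self ω⟩‖ ^ p.toReal
          = (fun v => if hv : v ∈ s.range then ‖d ⟨v, hv⟩‖ ^ p.toReal else 0) (s ω) := by
        intro ω
        simp only
        rw [dif_pos (s.mem_range_self ω)]
      have h6 : Integrable (fun ω => ‖d ⟨s ω, s.mem_range_self ω⟩‖ ^ p.toReal) μ := by
        have := SimpleFunc.integrable_of_isFiniteMeasure (μ := μ)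
          (s.map fun v => if hv : v ∈ s.range then ‖d ⟨v, hv⟩‖ ^ p.toReal else 0)
        refine this.congr (Filter.Eventually.of_forall fun ω => ?_)
        exact (h5 ω).symm
      rw [h3, integral_partition μ s _ h6, ← Finset.sum_coe_sort s.range]
      refine Finset.sum_congr rfl fun w _ => ?_
      have h7 : ∫ ω in s ⁻¹' {w.1}, ‖d ⟨s ω, s.mem_range_self ω⟩‖ ^ p.toReal ∂μ
          = ∫ ω in s ⁻¹' {w.1}, ‖d w‖ ^ p.toReal ∂μ := by
        refine setIntegral_congr_fun (s.measurableSet_fiber _) fun ω hω => ?_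
        have h8 : s ω = w.1 := hω
        have h9 : (⟨s ω, s.mem_range_self ω⟩ : {w // w ∈ s.range}) = w := Subtype.ext h8
        simp only [h9]
      rw [h7, setIntegral_const, smul_eq_mul]
    rw [h1, h2, lpF_eq hr, one_div]
    refine Real.rpow_le_rpow (Finset.sum_nonneg fun w _ => mul_nonneg (hm0 w) (by positivity)) ?_
      (by positivity)
    refine Finset.sum_le_sum fun w _ => ?_
    rcases eq_or_lt_of_le (hm0 w) with h0 | h0
    · rw [← h0, zero_mul]; positivity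
    · rw [hd]; simp only
      rw [norm_mul, RCLike.norm_ofReal, abs_of_pos (Real.rpow_pos_of_pos h0 _),
        Real.mul_rpow (Real.rpow_pos_of_pos h0 _).le (norm_nonneg _), ← Real.rpow_mul h0.le,
        neg_mul, inv_mul_cancel₀ hr.ne', Real.rpow_neg_one, ← mul_assoc, mul_inv_cancel₀ h0.ne',
        one_mul]

end simple

/-- discretisation of the formal inclusion on finitely many vectors, extended to a bigger space -/
lemma exists_part {p q : ℝ≥0∞} [Fact (1 ≤ p)] [Fact (1 ≤ q)] (hpq : p.HolderConjugate q)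
    (hq : q ≠ ∞) {M : Type*} [NormedAddCommGroup M] [NormedSpace 𝕜 M] (N : Submodule 𝕜 M)
    {X : Type*} [NormedAddCommGroup X] [NormedSpace 𝕜 X]
    {Ω : Type} [MeasurableSpace Ω] (μ : Measure Ω) [IsProbabilityMeasure μ]
    (A : N →L[𝕜] Lp 𝕜 ∞ μ) (B : Lp 𝕜 p μ →L[𝕜] X) {ι : Type} [Fintype ι] (z : ι → N) {η : ℝ}
    (hη : 0 < η) :
    ∃ T : M →L[𝕜] X, gNorm p q T ≤ ENNReal.ofReal (‖A‖ * ‖B‖) ∧ ‖T‖ ≤ ‖A‖ * ‖B‖ ∧
      ∀ l, ‖T (z l) - B (inclL μ (le_top : p ≤ ∞) (A (z l)))‖ ≤ η := by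
  classical
  have hA0 := norm_nonneg A
  have hB0 := norm_nonneg B
  set δ : ℝ := η / (2 * (‖B‖ + 1)) with hδ
  have hδ0 : 0 < δ := by positivity
  -- the simple function
  set F : Ω → ι → 𝕜 := fun ω l => (A (z l) : Ω → 𝕜) ω with hF
  have hFm : AEStronglyMeasurable F μ := by
    have : MemLp F ∞ μ := by
      rw [hF, memLp_pi_iff]; exact fun k => Lp.memLp _
    exact this.1
  obtain ⟨R, hR⟩ : ∃ R : ℝ, ∀ᵐ ω ∂μ, ‖F ω‖ ≤ R := by
    have : MemLp F ∞ μ := by
      rw [hF, memLp_pi_iff]; exact fun k => Lp.memLp _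
    refine ⟨(eLpNorm F ∞ μ).toReal, ?_⟩
    have h2 := ae_le_eLpNormEssSup (f := F) (μ := μ)
    filter_upwards [h2] with ω hω
    rw [eLpNorm_exponent_top, ← toReal_enorm]
    refine ENNReal.toReal_mono ?_ hω
    have := this.2.ne
    rwa [eLpNorm_exponent_top] at this
  obtain ⟨s, hs⟩ := exists_simple_unif μ F hFm R hR hδ0
  set m : {w // w ∈ s.range} → ℝ := fun w => μ.real (s ⁻¹' {w.1}) with hm
  have hm0 : ∀ w, 0 ≤ m w := fun w => measureReal_nonneg
  have hmsum : ∑ w, m w = 1 := by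
    have h1 := integral_partition μ s (fun _ => (1 : ℝ)) (integrable_const _)
    simp only [integral_const, smul_eq_mul, mul_one, probReal_univ,
      measureReal_restrict_apply_univ] at h1
    rw [← Finset.sum_coe_sort s.range (fun w => μ.real (s ⁻¹' {w}))] at h1
    exact h1.symm
  -- averages
  choose Λ hΛ1 hΛ2 using fun w : {w // w ∈ s.range} =>
    exists_setInt (𝕜 := 𝕜) μ (s ⁻¹' {w.1}) (s.measurableSet_fiber _)
  let a : {w // w ∈ s.range} → StrongDual 𝕜 N := fun w => (((m w)⁻¹ : ℝ) : 𝕜) • (Λ w).comp A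
  have ha : ∀ w, ‖a w‖ ≤ ‖A‖ := by
    intro w
    have h1 : ‖(Λ w).comp A‖ ≤ m w * ‖A‖ :=
      (ContinuousLinearMap.opNorm_comp_le _ _).trans (mul_le_mul_of_nonneg_right (hΛ2 w) hA0)
    calc ‖a w‖ = (m w)⁻¹ * ‖(Λ w).comp A‖ := by
          simp only [a]
          rw [norm_smul, RCLike.norm_ofReal, abs_of_nonneg (inv_nonneg.2 (hm0 w))]
      _ ≤ (m w)⁻¹ * (m w * ‖A‖) := mul_le_mul_of_nonneg_left h1 (inv_nonneg.2 (hm0 w))
      _ ≤ ‖A‖ := by
          rcases eq_or_lt_of_le (hm0 w) with h0 | h0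
          · rw [← h0]; simpa using hA0
          · rw [← mul_assoc, inv_mul_cancel₀ h0.ne', one_mul]
  choose ah hah1 hah2 using fun w => exists_extension_norm_eq N (a w)
  have hah : ∀ w, ‖ah w‖ ≤ ‖A‖ := fun w => (hah2 w).le.trans (ha w)
  let T : M →L[𝕜] X := ∑ w, (ah w).smulRight
    (B (indicatorConstLp p (s.measurableSet_fiber w.1) (measure_ne_top μ _) (1 : 𝕜)))
  have hT : ∀ v, T v = ∑ w, ah w v •
      B (indicatorConstLp p (s.measurableSet_fiber w.1) (measure_ne_top μ _) (1 : 𝕜)) := by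
    intro v; simp [T, _root_.sum_apply]
  have hT' : ∀ v, T v = B (stp μ s p fun w => ah w v) := by
    intro v; rw [hT, stp, map_sum]; simp only [map_smul]
  refine ⟨T, ?_, ?_, ?_⟩
  · -- the `g_p` norm
    rw [mul_comm ‖A‖]
    have hmp : ∀ w, 0 < m w → m w ^ p.toReal⁻¹ * m w ^ (-(p.toReal⁻¹)) = 1 := by
      intro w hw
      rw [← Real.rpow_add hw, add_neg_cancel, Real.rpow_zero]
    rw [mul_comm ‖B‖]
    refine gNorm_le_rep T (κ := {w // w ∈ s.range})
      (fun w => ((m w ^ p.toReal⁻¹ : ℝ) : 𝕜) • ah w)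
      (fun w => ((m w ^ (-(p.toReal⁻¹)) : ℝ) : 𝕜) •
        B (indicatorConstLp p (s.measurableSet_fiber w.1) (measure_ne_top μ _) (1 : 𝕜)))
      (fun v => ?_) ‖A‖ ‖B‖ ?_ ?_
    · rw [hT]
      refine Finset.sum_congr rfl fun w _ => ?_
      rcases eq_or_lt_of_le (hm0 w) with h0 | h0
      · have h1 : indicatorConstLp p (s.measurableSet_fiber w.1) (measure_ne_top μ _) (1 : 𝕜) = 0 := by
          have h2 : μ (s ⁻¹' {w.1}) = 0 := by
            have := h0.symm
            rwa [hm, measureReal_eq_zero_iff (measure_ne_top _ _)] at this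
          rw [Lp.eq_zero_iff_ae_eq_zero]
          filter_upwards [indicatorConstLp_coeFn (p := p) (hs := s.measurableSet_fiber w.1)
            (hμs := measure_ne_top μ _) (c := (1 : 𝕜)),
            measure_eq_zero_iff_ae_notMem.1 h2] with ω h3 h4
          rw [h3, Set.indicator_of_notMem h4]
          rfl
        rw [h1, map_zero, smul_zero, smul_zero, smul_zero]
      · rw [_root_.smul_apply, smul_eq_mul, smul_smul]
        congr 1
        have := hmp w h0
        calc ah w v = ((m w ^ p.toReal⁻¹ * m w ^ (-(p.toReal⁻¹)) : ℝ) : 𝕜) * ah w v := by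
              rw [this]; simp
          _ = _ := by push_cast; ring
    · by_cases hp : p = ∞
      · subst hp
        rw [lpF_top]
        refine Real.iSup_le (fun w => ?_) hA0
        rw [ENNReal.toReal_top, _root_.inv_zero, Real.rpow_zero, RCLike.ofReal_one, one_smul,
          norm_norm]
        exact hah w
      · have hr := toReal_pos_of (Fact.out : 1 ≤ p) hp
        rw [lpF_eq hr]
        have h1 : ∑ w, ‖‖((m w ^ p.toReal⁻¹ : ℝ) : 𝕜) • ah w‖‖ ^ p.toReal ≤ ‖A‖ ^ p.toReal := by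
          calc ∑ w, ‖‖((m w ^ p.toReal⁻¹ : ℝ) : 𝕜) • ah w‖‖ ^ p.toReal
              ≤ ∑ w, m w * ‖A‖ ^ p.toReal := by
                refine Finset.sum_le_sum fun w _ => ?_
                rw [norm_norm, norm_smul, RCLike.norm_ofReal,
                  abs_of_nonneg (Real.rpow_nonneg (hm0 w) _),
                  Real.mul_rpow (Real.rpow_nonneg (hm0 w) _) (norm_nonneg _),
                  ← Real.rpow_mul (hm0 w), inv_mul_cancel₀ hr.ne', Real.rpow_one]
                refine mul_le_mul_of_nonneg_left ?_ (hm0 w)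
                exact Real.rpow_le_rpow (norm_nonneg _) (hah w) hr.le
            _ = ‖A‖ ^ p.toReal := by rw [← Finset.sum_mul, hmsum, one_mul]
        calc _ ≤ (‖A‖ ^ p.toReal) ^ (1 / p.toReal) :=
              Real.rpow_le_rpow (Finset.sum_nonneg fun _ _ => by positivity) h1 (by positivity)
          _ = ‖A‖ := by
              rw [← Real.rpow_mul hA0, mul_one_div_cancel hr.ne', Real.rpow_one]
    · intro f hf
      refine lpF_dual hpq hq _ _ hB0 fun c => ?_
      have h1 : ∑ w, c w * f (((m w ^ (-(p.toReal⁻¹)) : ℝ) : 𝕜) •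
          B (indicatorConstLp p (s.measurableSet_fiber w.1) (measure_ne_top μ _) (1 : 𝕜)))
          = f (B (stp μ s p fun w => ((m w ^ (-(p.toReal⁻¹)) : ℝ) : 𝕜) * c w)) := by
        rw [stp, map_sum, map_sum]
        refine Finset.sum_congr rfl fun w _ => ?_
        rw [map_smul, map_smul, map_smul, smul_eq_mul, smul_eq_mul]
        ring
      rw [h1]
      calc ‖f (B (stp μ s p fun w => ((m w ^ (-(p.toReal⁻¹)) : ℝ) : 𝕜) * c w))‖
          ≤ ‖f‖ * (‖B‖ * ‖stp μ s p fun w => ((m w ^ (-(p.toReal⁻¹)) : ℝ) : 𝕜) * c w‖) :=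
            (f.le_opNorm _).trans (mul_le_mul_of_nonneg_left (B.le_opNorm _) (norm_nonneg _))
        _ ≤ 1 * (‖B‖ * lpF p c) := by
            gcongr
            exact norm_stp_normalised_le μ s p c
        _ = ‖B‖ * lpF p c := one_mul _
  · refine T.opNorm_le_bound (by positivity) fun v => ?_
    rw [hT']
    calc ‖B (stp μ s p fun w => ah w v)‖ ≤ ‖B‖ * ‖stp μ s p fun w => ah w v‖ := B.le_opNorm _
      _ ≤ ‖B‖ * (‖A‖ * ‖v‖) := by
          gcongr
          refine norm_stp_le μ s p _ _ (by positivity) fun w => ?_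
          exact ((ah w).le_opNorm v).trans (by gcongr; exact hah w)
      _ = ‖A‖ * ‖B‖ * ‖v‖ := by ring
  · intro l
    rw [hT', ← map_sub]
    have h1 : ‖(stp μ s p fun w => ah w (z l)) - inclL μ (le_top : p ≤ ∞) (A (z l))‖ ≤ 2 * δ := by
      have h2 := Lp.norm_le_of_ae_bound (p := p)
        (f := (stp μ s p fun w => ah w (z l)) - inclL μ (le_top : p ≤ ∞) (A (z l)))
        (C := 2 * δ) (by positivity) (by
        -- cells of measure zero
        have h3 : ∀ w : {w // w ∈ s.range}, ∀ᵐ ω ∂μ, s ω = w.1 → m w ≠ 0 := by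
          intro w
          by_cases h4 : m w = 0
          · have h5 : μ (s ⁻¹' {w.1}) = 0 := by
              rwa [hm, measureReal_eq_zero_iff (measure_ne_top _ _)] at h4
            rw [ae_iff]
            refine measure_mono_null (fun ω hω => ?_) h5
            simp only [Classical.not_imp, Set.mem_ofPred_eq] at hω
            exact hω.1
          · exact Filter.Eventually.of_forall fun ω _ => h4
        filter_upwards [hs, coeFn_stp μ s p (fun w => ah w (z l)),
          Lp.coeFn_sub (stp μ s p fun w => ah w (z l)) (inclL μ (le_top : p ≤ ∞) (A (z l))),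
          ae_all_iff.mpr h3] with ω h4 h5 h6 h7
        rw [h6, Pi.sub_apply, h5, coeFn_inclL]
        set w : {w // w ∈ s.range} := ⟨s ω, s.mem_range_self ω⟩ with hw
        have h8 : m w ≠ 0 := h7 w rfl
        have h9 : ‖(A (z l) : Ω → 𝕜) ω - w.1 l‖ ≤ δ := by
          have := norm_le_pi_norm (F ω - s ω) l
          exact this.trans h4
        have h10 : ‖ah w (z l) - w.1 l‖ ≤ δ := by
          have e1 : ah w (z l) = (((m w)⁻¹ : ℝ) : 𝕜) * ∫ ω in s ⁻¹' {w.1}, (A (z l) : Ω → 𝕜) ω ∂μ := by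
            rw [hah1 w (z l), ← hΛ1 w]
            rfl
          have e2 : w.1 l = (((m w)⁻¹ : ℝ) : 𝕜) * ∫ ω in s ⁻¹' {w.1}, w.1 l ∂μ := by
            rw [setIntegral_const, RCLike.real_smul_eq_coe_mul, ← mul_assoc, ← RCLike.ofReal_mul]
            change _ = (((m w)⁻¹ * m w : ℝ) : 𝕜) * _
            rw [inv_mul_cancel₀ h8, RCLike.ofReal_one, one_mul]
          have hint : Integrable (A (z l) : Ω → 𝕜) μ := (Lp.memLp _).integrable le_top
          rw [e1]
          conv_lhs => rw [e2]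
          rw [← mul_sub, ← integral_sub hint.integrableOn (integrable_const _), norm_mul,
            RCLike.norm_ofReal, abs_of_nonneg (inv_nonneg.2 (hm0 w))]
          have h11 : ‖∫ ω in s ⁻¹' {w.1}, ((A (z l) : Ω → 𝕜) ω - w.1 l) ∂μ‖ ≤ δ * m w := by
            refine norm_setIntegral_le_of_norm_le_const_ae' (measure_lt_top μ _) ?_
            filter_upwards [hs] with ω' h12 h13
            have h14 : s ω' = w.1 := h13
            have := norm_le_pi_norm (F ω' - s ω') l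
            rw [← h14]
            exact this.trans h12
          calc (m w)⁻¹ * _ ≤ (m w)⁻¹ * (δ * m w) :=
                mul_le_mul_of_nonneg_left h11 (inv_nonneg.2 (hm0 w))
            _ = δ := by field_simp
        calc ‖ah w (z l) - (A (z l) : Ω → 𝕜) ω‖
            = ‖(ah w (z l) - w.1 l) - ((A (z l) : Ω → 𝕜) ω - w.1 l)‖ := by congr 1; ring
          _ ≤ δ + δ := (norm_sub_le _ _).trans (add_le_add h10 h9)
          _ = 2 * δ := by ring)
      simpa [measureUnivNNReal] using h2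
    calc _ ≤ ‖B‖ * (2 * δ) := (B.le_opNorm _).trans (by gcongr)
      _ ≤ η := by
          rw [hδ]
          rw [mul_div_assoc', mul_div_assoc', div_le_iff₀ (by positivity)]
          nlinarith

end MP6f.Inn
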