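import Mathlib
import Pool.Agent.Lib.MP_6f6997_an.InnPart

/-!
# The inner inequality: abstract parts
-/

open MeasureTheory ENNReal Finset

set_option maxSynthPendingDepth 3
set_option linter.unusedSectionVars false

noncomputable section

namespace MP6f.Inn

variable {𝕜 : Type} [RCLike 𝕜]

lemma gNorm_le_abs {p q : ℝ≥0∞} [Fact (1 ≤ p)] [Fact (1 ≤ q)] (hpq : p.HolderConjugate q)
    (hq : q ≠ ∞) {M : Type} [NormedAddCommGroup M] [NormedSpace 𝕜 M] (X : Submodule 𝕜 M)
    {H : Type} [NormedAddCommGroup H] [NormedSpace 𝕜 H]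
    (t : M →L[𝕜] M) (ht : ‖t‖ ≤ 1) (β : X →L[𝕜] H) (hβ : gNorm p q β ≤ 1)
    (J : H →L[𝕜] M) (Z : Submodule 𝕜 X) [FiniteDimensional 𝕜 Z] (R : X →L[𝕜] Z)
    (hR : ∀ x, ((R x : X) : M) = t x - J (β x))
    (S : X →L[𝕜] X) (hSR : ∀ x, S (R x) = S x) (K : ℝ) (hK : 0 ≤ K)
    (hJ : ∀ y : H, ∃ k : Z, ‖J y - ((k : X) : M)‖ ≤ K * ‖y‖ ∧ S k = 0)
    {Ω : Type} [MeasurableSpace Ω] (μ : Measure Ω) [IsProbabilityMeasure μ]
    (A : X →L[𝕜] Lp 𝕜 ∞ μ) (B : Lp 𝕜 p μ →L[𝕜] X)
    (hS : ∀ x, S x = B (inclL μ (le_top : p ≤ ∞) (A x))) :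
    gNorm p q S ≤ ENNReal.ofReal ((1 + K) * (‖A‖ * ‖B‖)) := by
  classical
  have hA0 := norm_nonneg A
  have hB0 := norm_nonneg B
  have hJ0 := norm_nonneg J
  refine ENNReal.le_of_forall_pos_le_add fun ε hε _ => ?_
  have hε' : (0 : ℝ) < ε := by exact_mod_cast hε
  -- a basis
  set d := Module.finrank 𝕜 Z with hd
  let e : Module.Basis (Fin d) 𝕜 Z := Module.finBasis 𝕜 Z
  let c : Fin d → StrongDual 𝕜 Z := fun l => LinearMap.toContinuousLinearMap (e.coord l)
  have hc : ∀ v : Z, v = ∑ l, c l v • e l := fun v => (e.sum_repr v).symm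
  set C : ℝ := ∑ l, ‖c l‖ with hC
  have hC0 : 0 ≤ C := Finset.sum_nonneg fun _ _ => norm_nonneg _
  set C' : ℝ := ∑ l, ‖(c l).comp R‖ with hC'
  have hC'0 : 0 ≤ C' := Finset.sum_nonneg fun _ _ => norm_nonneg _
  set η : ℝ := ε / (C * (‖J‖ + K) + C' + 1) with hη
  have hη0 : 0 < η := by positivity
  obtain ⟨T, hT1, hT2, hT3⟩ := exists_part hpq hq X μ A B (fun l => (e l : X)) hη0
  have hD : ∀ l, ‖S (e l) - T ((e l : X) : M)‖ ≤ η := by
    intro l
    rw [hS, norm_sub_rev]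
    exact hT3 l
  have hDZ : ∀ v : Z, ‖S v - T ((v : X) : M)‖ ≤ C * η * ‖v‖ := by
    intro v
    have h1 : S v - T ((v : X) : M) = ∑ l, c l v • (S (e l) - T ((e l : X) : M)) := by
      have h2 : S v = ∑ l, c l v • S (e l) := by
        conv_lhs => rw [hc v]
        simp only [Submodule.coe_sum, Submodule.coe_smul, map_sum, map_smul]
      have h3 : T ((v : X) : M) = ∑ l, c l v • T ((e l : X) : M) := by
        conv_lhs => rw [hc v]
        simp only [Submodule.coe_sum, Submodule.coe_smul, map_sum, map_smul]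
      rw [h2, h3, ← Finset.sum_sub_distrib]
      exact Finset.sum_congr rfl fun l _ => (smul_sub _ _ _).symm
    rw [h1]
    calc ‖∑ l, c l v • (S (e l) - T ((e l : X) : M))‖ ≤ ∑ l, (‖c l‖ * ‖v‖) * η := by
          refine (norm_sum_le _ _).trans (Finset.sum_le_sum fun l _ => ?_)
          rw [norm_smul]
          exact mul_le_mul ((c l).le_opNorm v) (hD l) (norm_nonneg _) (by positivity)
      _ = C * η * ‖v‖ := by
          rw [hC, Finset.sum_mul, Finset.sum_mul]
          exact Finset.sum_congr rfl fun l _ => by ring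
  -- the operator `W = T J`
  set W : H →L[𝕜] X := T.comp J with hW
  have hWn : ‖W‖ ≤ K * (‖A‖ * ‖B‖) + C * (‖J‖ + K) * η := by
    refine W.opNorm_le_bound (by positivity) fun y => ?_
    obtain ⟨k, hk1, hk2⟩ := hJ y
    have h1 : W y = T (J y - ((k : X) : M)) - (S k - T ((k : X) : M)) := by
      rw [hk2, map_sub, hW]
      simp
    have h2 : ‖k‖ ≤ (‖J‖ + K) * ‖y‖ := by
      have h3 : ‖((k : X) : M)‖ ≤ ‖J y‖ + ‖J y - ((k : X) : M)‖ := by
        calc ‖((k : X) : M)‖ = ‖J y - (J y - ((k : X) : M))‖ := by rw [_root_.sub_sub_cancel]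
          _ ≤ _ := norm_sub_le _ _
      calc ‖k‖ = ‖((k : X) : M)‖ := rfl
        _ ≤ ‖J‖ * ‖y‖ + K * ‖y‖ := h3.trans (add_le_add (J.le_opNorm y) hk1)
        _ = _ := by ring
    rw [h1]
    calc _ ≤ ‖T (J y - ((k : X) : M))‖ + ‖S k - T ((k : X) : M)‖ := norm_sub_le _ _
      _ ≤ (‖A‖ * ‖B‖) * (K * ‖y‖) + C * η * ((‖J‖ + K) * ‖y‖) := by
          refine add_le_add ?_ ?_
          · exact (T.le_opNorm _).trans (mul_le_mul hT2 hk1 (norm_nonneg _) (by positivity))
          · exact (hDZ k).trans (by gcongr)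
      _ = _ := by ring
  -- the three parts
  set P₁ : X →L[𝕜] X := T.comp (t.comp X.subtypeL) with hP₁
  set P₂ : X →L[𝕜] X := (-W).comp β with hP₂
  set P₃ : X →L[𝕜] X := ∑ l, ((c l).comp R).smulRight (S (e l) - T ((e l : X) : M)) with hP₃
  have hP : S = P₁ + (P₂ + P₃) := by
    ext1 x
    have h1 : P₃ x = S (R x) - T ((R x : X) : M) := by
      have h2 : P₃ x = ∑ l, c l (R x) • (S (e l) - T ((e l : X) : M)) := by
        rw [hP₃, _root_.sum_apply]
        rfl
      rw [h2]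
      have h3 : S (R x) = ∑ l, c l (R x) • S (e l) := by
        conv_lhs => rw [hc (R x)]
        simp only [Submodule.coe_sum, Submodule.coe_smul, map_sum, map_smul]
      have h4 : T ((R x : X) : M) = ∑ l, c l (R x) • T ((e l : X) : M) := by
        conv_lhs => rw [hc (R x)]
        simp only [Submodule.coe_sum, Submodule.coe_smul, map_sum, map_smul]
      rw [h3, h4, ← Finset.sum_sub_distrib]
      exact Finset.sum_congr rfl fun l _ => smul_sub _ _ _
    have h5 : P₁ x = T (t x) := rfl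
    have h6 : P₂ x = - T (J (β x)) := rfl
    rw [_root_.add_apply, _root_.add_apply, h1, h5, h6, hR, map_sub, hSR]
    abel
  have h1 : gNorm p q P₁ ≤ ENNReal.ofReal (‖A‖ * ‖B‖) := by
    refine (gNorm_comp_right_le hq T (t.comp X.subtypeL)).trans ?_
    have h2 : ‖t.comp X.subtypeL‖ ≤ 1 := by
      refine (ContinuousLinearMap.opNorm_comp_le _ _).trans ?_
      have h3 : ‖X.subtypeL‖ ≤ 1 := Submodule.norm_subtypeL_le X
      calc ‖t‖ * ‖X.subtypeL‖ ≤ 1 * 1 := mul_le_mul ht h3 (norm_nonneg _) zero_le_one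
        _ = 1 := one_mul _
    calc _ ≤ ENNReal.ofReal 1 * ENNReal.ofReal (‖A‖ * ‖B‖) := by gcongr
      _ = _ := by rw [ENNReal.ofReal_one, one_mul]
  have h2 : gNorm p q P₂ ≤ ENNReal.ofReal (K * (‖A‖ * ‖B‖) + C * (‖J‖ + K) * η) := by
    refine (gNorm_comp_left_le hq β (-W)).trans ?_
    calc _ ≤ ENNReal.ofReal (K * (‖A‖ * ‖B‖) + C * (‖J‖ + K) * η) * 1 := by
          gcongr
          rw [norm_neg]
          exact hWn
      _ = _ := mul_one _
  have h3 : gNorm p q P₃ ≤ ENNReal.ofReal (C' * η) := by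
    refine (gNorm_le_sum hpq hq (fun l => (c l).comp R)
      (fun l => S (e l) - T ((e l : X) : M)) P₃ (fun v => ?_)).trans ?_
    · rw [hP₃, _root_.sum_apply]
      rfl
    · refine ENNReal.ofReal_le_ofReal ?_
      rw [hC', Finset.sum_mul]
      exact Finset.sum_le_sum fun l _ => mul_le_mul_of_nonneg_left (hD l) (norm_nonneg _)
  calc gNorm p q S = gNorm p q (P₁ + (P₂ + P₃)) := by rw [← hP]
    _ ≤ gNorm p q P₁ + (gNorm p q P₂ + gNorm p q P₃) :=
        (gNorm_add_le hpq hq _ _).trans (add_le_add le_rfl (gNorm_add_le hpq hq _ _))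
    _ ≤ ENNReal.ofReal (‖A‖ * ‖B‖) + (ENNReal.ofReal (K * (‖A‖ * ‖B‖) + C * (‖J‖ + K) * η)
          + ENNReal.ofReal (C' * η)) := by gcongr
    _ = ENNReal.ofReal ((1 + K) * (‖A‖ * ‖B‖) + (C * (‖J‖ + K) + C') * η) := by
        rw [← ENNReal.ofReal_add (by positivity) (by positivity),
          ← ENNReal.ofReal_add (by positivity) (by positivity)]
        congr 1; ring
    _ ≤ ENNReal.ofReal ((1 + K) * (‖A‖ * ‖B‖) + ε) := by
        refine ENNReal.ofReal_le_ofReal ?_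
        have h4 : (C * (‖J‖ + K) + C') * η ≤ ε := by
          rw [hη, mul_div_assoc', div_le_iff₀ (by positivity)]
          nlinarith
        linarith
    _ = _ := by
        rw [ENNReal.ofReal_add (by positivity) hε'.le, ENNReal.ofReal_coe_nnreal]

/-- perturbation: the functionals of a finite rank operator may be truncated -/
lemma exists_perturb {p q : ℝ≥0∞} [Fact (1 ≤ p)] [Fact (1 ≤ q)] (hpq : p.HolderConjugate q)
    (hq : q ≠ ∞) {M : Type} [NormedAddCommGroup M] [NormedSpace 𝕜 M] (X : Submodule 𝕜 M)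
    (S : X →L[𝕜] X) (hfin : FinRank S) (τ : ℕ → M →L[𝕜] M)
    (hτ : ∀ Φ : StrongDual 𝕜 M, ∀ ε : ℝ, 0 < ε → ∃ i, ∀ j, i ≤ j → ‖Φ - Φ.comp (τ j)‖ ≤ ε)
    {η : ℝ} (hη : 0 < η) :
    ∃ (i n : ℕ) (Φ : Fin n → StrongDual 𝕜 M) (e : Fin n → X) (E : X →L[𝕜] X), ‖E‖ ≤ η ∧
      (∀ x, S (x + E x) = ∑ k, Φ k (τ i x) • e k) ∧ gNorm p q (S.comp E) ≤ ENNReal.ofReal η := by
  classical
  unfold FinRank at hfin
  set Rg : Submodule 𝕜 X := LinearMap.range (S : X →ₗ[𝕜] X) with hRg
  let n := Module.finrank 𝕜 Rg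
  let b : Module.Basis (Fin n) 𝕜 Rg := Module.finBasis 𝕜 Rg
  have hu : ∀ k, ∃ u : X, S u = b k := fun k => (b k).2
  choose u hu using hu
  -- coordinates
  let S₀ : X →L[𝕜] Rg := S.codRestrict Rg fun x => ⟨x, rfl⟩
  let φ : Fin n → StrongDual 𝕜 X := fun k =>
    (LinearMap.toContinuousLinearMap (b.coord k) : Rg →L[𝕜] 𝕜).comp S₀
  have hφ : ∀ x, S x = ∑ k, φ k x • (b k : X) := by
    intro x
    have h1 := b.sum_repr (S₀ x)
    have h2 := congrArg (fun z : Rg => (z : X)) h1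
    simp only [Submodule.coe_sum, Submodule.coe_smul] at h2
    exact h2.symm
  choose Φ hΦ1 hΦ2 using fun k => exists_extension_norm_eq X (φ k)
  set U : ℝ := ∑ k, ‖u k‖ with hU
  set V : ℝ := ∑ k, ‖(b k : X)‖ with hV
  have hU0 : 0 ≤ U := Finset.sum_nonneg fun _ _ => norm_nonneg _
  have hV0 : 0 ≤ V := Finset.sum_nonneg fun _ _ => norm_nonneg _
  set ε : ℝ := η / (U + V + 1) with hε
  have hε0 : 0 < ε := by positivity
  choose i hi using fun k => hτ (Φ k) ε hε0
  set i₀ := univ.sup i with hi₀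
  have hdiff : ∀ k, ‖Φ k - (Φ k).comp (τ i₀)‖ ≤ ε := fun k => hi k i₀ (Finset.le_sup (mem_univ k))
  let ψ : Fin n → StrongDual 𝕜 X := fun k => ((Φ k).comp (τ i₀) - Φ k).comp X.subtypeL
  have hψ : ∀ k, ‖ψ k‖ ≤ ε := by
    intro k
    refine (ContinuousLinearMap.opNorm_comp_le _ _).trans ?_
    calc _ ≤ ε * 1 := by
          refine mul_le_mul ?_ (Submodule.norm_subtypeL_le X) (norm_nonneg _) hε0.le
          rw [norm_sub_rev]; exact hdiff k
      _ = ε := mul_one _
  let E : X →L[𝕜] X := ∑ k, (ψ k).smulRight (u k)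
  have hE : ∀ x, E x = ∑ k, ψ k x • u k := by
    intro x; simp [E, _root_.sum_apply]
  have hSE : ∀ x, S (E x) = ∑ k, ψ k x • (b k : X) := by
    intro x; rw [hE, map_sum]; simp only [map_smul, hu]
  refine ⟨i₀, n, Φ, fun k => (b k : X), E, ?_, fun x => ?_, ?_⟩
  · refine E.opNorm_le_bound hη.le fun x => ?_
    rw [hE]
    calc ‖∑ k, ψ k x • u k‖ ≤ ∑ k, (ε * ‖x‖) * ‖u k‖ := by
          refine (norm_sum_le _ _).trans (Finset.sum_le_sum fun k _ => ?_)
          rw [norm_smul]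
          refine mul_le_mul_of_nonneg_right ?_ (norm_nonneg _)
          exact ((ψ k).le_opNorm x).trans (mul_le_mul_of_nonneg_right (hψ k) (norm_nonneg _))
      _ = (ε * U) * ‖x‖ := by rw [← Finset.mul_sum, ← hU]; ring
      _ ≤ η * ‖x‖ := by
          refine mul_le_mul_of_nonneg_right ?_ (norm_nonneg _)
          rw [hε, div_mul_eq_mul_div, div_le_iff₀ (by positivity)]
          nlinarith
  · rw [map_add, hφ, hSE, ← Finset.sum_add_distrib]
    refine Finset.sum_congr rfl fun k _ => ?_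
    rw [← add_smul]
    congr 1
    have h1 : ψ k x = Φ k (τ i₀ x) - Φ k x := rfl
    rw [h1, hΦ1]
    abel
  · refine (gNorm_le_sum hpq hq ψ (fun k => (b k : X)) (S.comp E) hSE).trans ?_
    refine ENNReal.ofReal_le_ofReal ?_
    calc ∑ k, ‖ψ k‖ * ‖(b k : X)‖ ≤ ∑ k, ε * ‖(b k : X)‖ :=
          Finset.sum_le_sum fun k _ => mul_le_mul_of_nonneg_right (hψ k) (norm_nonneg _)
      _ = ε * V := by rw [← Finset.mul_sum]
      _ ≤ η := by
          rw [hε, div_mul_eq_mul_div, div_le_iff₀ (by positivity)]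
          nlinarith

/-- the `g_p`-norm of a row of a Hilbertian matrix, `p ≥ 2` -/
lemma gNorm_beta {p q : ℝ≥0∞} [Fact (1 ≤ p)] [Fact (1 ≤ q)] (hpq : p.HolderConjugate q)
    (hq : q ≠ ∞) (hp2 : 2 ≤ p) {Y : Type} [NormedAddCommGroup Y] [NormedSpace 𝕜 Y]
    {G Q : Type} [Fintype G] [Fintype Q] (δ : G → StrongDual 𝕜 Y) (hδ : ∀ g, ‖δ g‖ ≤ 1)
    (b : Q → G → ℝ) (hb : ∀ f : G → 𝕜, ∑ z, ‖∑ g, ((b z g : ℝ) : 𝕜) * f g‖ ^ 2
      ≤ (Fintype.card G : ℝ)⁻¹ * ∑ g, ‖f g‖ ^ 2)
    (β : Y →L[𝕜] EuclideanSpace 𝕜 Q)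
    (hβ : ∀ v, β v = ∑ g, δ g v • (WithLp.toLp 2 (fun z => ((b z g : ℝ) : 𝕜)) :
      EuclideanSpace 𝕜 Q)) :
    gNorm p q β ≤ 1 := by
  classical
  rcases isEmpty_or_nonempty G with hG | hG
  · have h0 : gNorm p q β ≤ ENNReal.ofReal (∑ g, ‖δ g‖ *
      ‖(WithLp.toLp 2 (fun z => ((b z g : ℝ) : 𝕜)) : EuclideanSpace 𝕜 Q)‖) :=
      gNorm_le_sum hpq hq _ _ β hβ
    refine h0.trans ?_
    simp
  set N : ℝ := (Fintype.card G : ℝ) with hN
  have hN0 : 0 < N := by rw [hN]; exact_mod_cast Fintype.card_pos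
  have hNN : N ^ (-(p.toReal⁻¹)) * N ^ (p.toReal⁻¹) = 1 := by
    rw [← Real.rpow_add hN0, neg_add_cancel, Real.rpow_zero]
  have hpr : p ≠ ∞ → 2 ≤ p.toReal := by
    intro h
    have := ENNReal.toReal_mono h hp2
    simpa using this
  have e1 : gNorm p q β ≤ ENNReal.ofReal (1 * 1) := by
    refine gNorm_le_rep β (κ := G) (fun g => ((N ^ (-(p.toReal⁻¹)) : ℝ) : 𝕜) • δ g)
      (fun g => ((N ^ (p.toReal⁻¹) : ℝ) : 𝕜) • (WithLp.toLp 2 (fun z => ((b z g : ℝ) : 𝕜)) :
        EuclideanSpace 𝕜 Q)) (fun v => ?_) 1 1 ?_ ?_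
    · rw [hβ]
      refine Finset.sum_congr rfl fun g _ => ?_
      rw [_root_.smul_apply, smul_eq_mul, smul_smul]
      congr 1
      calc δ g v = ((N ^ (-(p.toReal⁻¹)) * N ^ (p.toReal⁻¹) : ℝ) : 𝕜) * δ g v := by
            rw [hNN]; simp
        _ = _ := by push_cast; ring
    · by_cases hp : p = ∞
      · subst hp
        rw [lpF_top]
        refine Real.iSup_le (fun g => ?_) zero_le_one
        rw [ENNReal.toReal_top, _root_.inv_zero, neg_zero, Real.rpow_zero, RCLike.ofReal_one,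
          one_smul, norm_norm]
        exact hδ g
      · have hr := toReal_pos_of (Fact.out : 1 ≤ p) hp
        rw [lpF_eq hr]
        refine Real.rpow_le_one (Finset.sum_nonneg fun _ _ => by positivity) ?_ (by positivity)
        calc ∑ g, ‖‖((N ^ (-(p.toReal⁻¹)) : ℝ) : 𝕜) • δ g‖‖ ^ p.toReal ≤ ∑ g : G, N⁻¹ := by
              refine Finset.sum_le_sum fun g _ => ?_
              rw [norm_norm, norm_smul, RCLike.norm_ofReal,
                abs_of_pos (Real.rpow_pos_of_pos hN0 _),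
                Real.mul_rpow (Real.rpow_pos_of_pos hN0 _).le (norm_nonneg _),
                ← Real.rpow_mul hN0.le, neg_mul, inv_mul_cancel₀ hr.ne', Real.rpow_neg_one]
              have : ‖δ g‖ ^ p.toReal ≤ 1 := Real.rpow_le_one (norm_nonneg _) (hδ g) hr.le
              have h2 : 0 < N⁻¹ := by positivity
              nlinarith
          _ = 1 := by
              rw [Finset.sum_const, Finset.card_univ, nsmul_eq_mul, ← hN,
                mul_inv_cancel₀ hN0.ne']
    · intro f hf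
      refine lpF_dual hpq hq _ 1 zero_le_one fun c => ?_
      rw [one_mul]
      have h1 : ∑ g, c g * f (((N ^ (p.toReal⁻¹) : ℝ) : 𝕜) •
          (WithLp.toLp 2 (fun z => ((b z g : ℝ) : 𝕜)) : EuclideanSpace 𝕜 Q))
          = ((N ^ (p.toReal⁻¹) : ℝ) : 𝕜) * f (WithLp.toLp 2 (fun z => ∑ g, ((b z g : ℝ) : 𝕜) * c g)) := by
        have h2 : (WithLp.toLp 2 (fun z => ∑ g, ((b z g : ℝ) : 𝕜) * c g) : EuclideanSpace 𝕜 Q)
            = ∑ g, c g • (WithLp.toLp 2 (fun z => ((b z g : ℝ) : 𝕜)) : EuclideanSpace 𝕜 Q) := by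
          ext z
          rw [WithLp.ofLp_sum, Finset.sum_apply]
          simp only [PiLp.smul_apply, smul_eq_mul]
          exact Finset.sum_congr rfl fun g _ => mul_comm _ _
        rw [h2, map_sum, Finset.mul_sum]
        refine Finset.sum_congr rfl fun g _ => ?_
        rw [map_smul, map_smul, smul_eq_mul, smul_eq_mul]
        ring
      rw [h1, norm_mul, RCLike.norm_ofReal, abs_of_pos (Real.rpow_pos_of_pos hN0 _)]
      have h3 : ‖f (WithLp.toLp 2 (fun z => ∑ g, ((b z g : ℝ) : 𝕜) * c g))‖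
          ≤ √(N⁻¹ * ∑ g, ‖c g‖ ^ 2) := by
        refine (f.le_opNorm _).trans ?_
        calc _ ≤ 1 * ‖(WithLp.toLp 2 (fun z => ∑ g, ((b z g : ℝ) : 𝕜) * c g) :
              EuclideanSpace 𝕜 Q)‖ := by gcongr
          _ ≤ √(N⁻¹ * ∑ g, ‖c g‖ ^ 2) := by
            rw [one_mul, EuclideanSpace.norm_eq]
            exact Real.sqrt_le_sqrt (hb c)
      -- comparison of the norms
      have h4 : √(N⁻¹ * ∑ g, ‖c g‖ ^ 2) ≤ N ^ (-(p.toReal⁻¹)) * lpF p c := by
        by_cases hp : p = ∞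
        · subst hp
          rw [ENNReal.toReal_top, _root_.inv_zero, neg_zero, Real.rpow_zero, one_mul]
          refine Real.sqrt_le_iff.2 ⟨lpF_nonneg _, ?_⟩
          calc N⁻¹ * ∑ g, ‖c g‖ ^ 2 ≤ N⁻¹ * ∑ g : G, (lpF ∞ c) ^ 2 := by
                gcongr with g _
                rw [lpF_top]
                exact le_ciSup (f := fun g => ‖c g‖) (Set.finite_range _).bddAbove g
            _ = (lpF ∞ c) ^ 2 := by
                rw [Finset.sum_const, Finset.card_univ, nsmul_eq_mul, ← hN, ← mul_assoc,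
                  inv_mul_cancel₀ hN0.ne', one_mul]
        · have hr2 := hpr hp
          have hr : 0 < p.toReal := by linarith
          set r := p.toReal with hrdef
          have h5 := Real.rpow_sum_le_const_mul_sum_rpow_of_nonneg (s := (univ : Finset G))
            (f := fun g => ‖c g‖ ^ 2) (p := r / 2) (by linarith) (fun g _ => by positivity)
          set s2 : ℝ := ∑ g, ‖c g‖ ^ 2 with hs2
          have hs20 : 0 ≤ s2 := Finset.sum_nonneg fun _ _ => by positivity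
          have h6 : ∀ g, (‖c g‖ ^ 2 : ℝ) ^ (r / 2) = ‖c g‖ ^ r := by
            intro g
            rw [← Real.rpow_natCast, ← Real.rpow_mul (norm_nonneg _)]
            congr 1
            push_cast
            ring
          simp only [h6, Finset.card_univ, ← hN] at h5
          rw [lpF_eq hr]
          set sr : ℝ := ∑ g, ‖c g‖ ^ r with hsr
          have hsr0 : 0 ≤ sr := Finset.sum_nonneg fun _ _ => by positivity
          -- `s2 ^ (r/2) ≤ N^(r/2-1) sr`
          rw [Real.sqrt_eq_rpow]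
          have h7 : (N⁻¹ * s2) ^ (r / 2) ≤ N⁻¹ * sr := by
            rw [Real.mul_rpow (by positivity) hs20]
            calc N⁻¹ ^ (r / 2) * s2 ^ (r / 2) ≤ N⁻¹ ^ (r / 2) * (N ^ (r / 2 - 1) * sr) := by
                  gcongr
              _ = N⁻¹ * sr := by
                  rw [← mul_assoc]
                  congr 1
                  rw [Real.inv_rpow hN0.le, ← Real.rpow_neg hN0.le, ← Real.rpow_add hN0]
                  have : -(r / 2) + (r / 2 - 1) = -1 := by ring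
                  rw [this, Real.rpow_neg_one]
          have h8 : ((N⁻¹ * s2) ^ (r / 2)) ^ (1 / r) = (N⁻¹ * s2) ^ (1 / 2 : ℝ) := by
            rw [← Real.rpow_mul (by positivity)]
            congr 1
            field_simp
          have h9 : (N⁻¹ * sr) ^ (1 / r) = N ^ (-r⁻¹) * sr ^ (1 / r) := by
            rw [Real.mul_rpow (by positivity) hsr0, Real.inv_rpow hN0.le,
              ← Real.rpow_neg hN0.le, one_div]
          rw [← h8, ← h9]
          exact Real.rpow_le_rpow (by positivity) h7 (by positivity)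
      calc N ^ p.toReal⁻¹ * ‖f (WithLp.toLp 2 (fun z => ∑ g, ((b z g : ℝ) : 𝕜) * c g))‖
          ≤ N ^ p.toReal⁻¹ * (N ^ (-(p.toReal⁻¹)) * lpF p c) := by
            gcongr
            exact h3.trans h4
        _ = lpF p c := by
            rw [← mul_assoc, mul_comm (N ^ p.toReal⁻¹), hNN, one_mul]
  simpa using e1

end MP6f.Inn
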