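import Pool.Agent.Lib.MP_6f6997_an.InnSpace

/-!
# The contraction from the bidual
-/

open MeasureTheory ENNReal Finset

set_option maxSynthPendingDepth 3
set_option linter.unusedSectionVars false

noncomputable section

namespace MP6f.Inn

variable (𝕜 : Type) [RCLike 𝕜] (Q G : ℕ → Type) [∀ n, Fintype (Q n)] [∀ n, DecidableEq (Q n)]
  [∀ n, Fintype (G n)] (a : ∀ n, Q n → G n → ℝ) (b : ∀ n, Q n → G (n + 1) → ℝ)

/-- coordinate functionals. -/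
def cdX (n : ℕ) (k : G n ⊕ (Q n → Bool)) : StrongDual 𝕜 (XH 𝕜 a b) :=
  (cdM 𝕜 Q G n k).comp (XH 𝕜 a b).subtypeL

lemma cdX_apply (n : ℕ) (k : G n ⊕ (Q n → Bool)) (x : XH 𝕜 a b) :
    cdX 𝕜 Q G a b n k x = (x : MH 𝕜 G Q) n k := rfl

lemma exists_norm_eq {ι : Type*} [Fintype ι] [Nonempty ι] (v : ι → 𝕜) : ∃ k, ‖v‖ = ‖v k‖ := by
  obtain ⟨k, hk⟩ := Finite.exists_max fun k => ‖v k‖
  exact ⟨k, le_antisymm ((pi_norm_le_iff_of_nonneg (norm_nonneg _)).2 hk) (norm_le_pi_norm v k)⟩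

/-- the coordinates of an element of the bidual. -/
def yv (Ψ : StrongDual 𝕜 (StrongDual 𝕜 (XH 𝕜 a b))) (n : ℕ) : EH 𝕜 G Q n :=
  fun k => Ψ (cdX 𝕜 Q G a b n k)

lemma sum_yv_le (Ψ : StrongDual 𝕜 (StrongDual 𝕜 (XH 𝕜 a b))) (s : Finset ℕ) :
    ∑ n ∈ s, ‖yv 𝕜 Q G a b Ψ n‖ ^ 2 ≤ ‖Ψ‖ ^ 2 := by
  have hk : ∀ n, ∃ k, ‖yv 𝕜 Q G a b Ψ n‖ = ‖yv 𝕜 Q G a b Ψ n k‖ := fun n =>
    exists_norm_eq 𝕜 _
  choose k hk using hk
  choose u hu hu' using fun n => exists_phase' (yv 𝕜 Q G a b Ψ n (k n))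
  set c : ℕ → ℝ := fun n => ‖yv 𝕜 Q G a b Ψ n‖ with hc
  have hc0 : ∀ n, 0 ≤ c n := fun n => norm_nonneg _
  set S : ℝ := ∑ n ∈ s, c n ^ 2 with hS
  have hS0 : 0 ≤ S := Finset.sum_nonneg fun n _ => sq_nonneg _
  set φ : StrongDual 𝕜 (XH 𝕜 a b) :=
    ∑ n ∈ s, (((c n : ℝ) : 𝕜) * u n) • cdX 𝕜 Q G a b n (k n) with hφ
  have hφn : ‖φ‖ ≤ √S := by
    refine φ.opNorm_le_bound (Real.sqrt_nonneg _) fun x => ?_
    have h1 : ‖φ x‖ ≤ ∑ n ∈ s, c n * ‖(x : MH 𝕜 G Q) n‖ := by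
      rw [hφ, _root_.sum_apply]
      refine (norm_sum_le _ _).trans (Finset.sum_le_sum fun n _ => ?_)
      rw [_root_.smul_apply, smul_eq_mul, norm_mul, norm_mul, hu, mul_one, RCLike.norm_ofReal,
        abs_of_nonneg (hc0 n)]
      refine mul_le_mul_of_nonneg_left ?_ (hc0 n)
      exact norm_le_pi_norm ((x : MH 𝕜 G Q) n) (k n)
    have h2 := Finset.sum_mul_sq_le_sq_mul_sq s c (fun n => ‖(x : MH 𝕜 G Q) n‖)
    have h3 := sum_sq_le_M 𝕜 Q G (x : MH 𝕜 G Q) s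
    have h4 : (∑ n ∈ s, c n * ‖(x : MH 𝕜 G Q) n‖) ^ 2 ≤ (√S * ‖(x : MH 𝕜 G Q)‖) ^ 2 := by
      rw [mul_pow, Real.sq_sqrt hS0]
      exact h2.trans (mul_le_mul_of_nonneg_left h3 hS0)
    have h5 : ∑ n ∈ s, c n * ‖(x : MH 𝕜 G Q) n‖ ≤ √S * ‖(x : MH 𝕜 G Q)‖ :=
      le_of_sq_le_sq h4 (by positivity)
    exact h1.trans h5
  have hΨφ : Ψ φ = ((S : ℝ) : 𝕜) := by
    rw [hφ, map_sum, hS, RCLike.ofReal_sum]
    refine Finset.sum_congr rfl fun n _ => ?_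
    have h1 : u n * Ψ (cdX 𝕜 Q G a b n (k n)) = ((c n : ℝ) : 𝕜) := by
      rw [hc]
      simp only
      rw [hk n]
      exact hu' n
    rw [map_smul, smul_eq_mul, mul_assoc, h1, ← RCLike.ofReal_mul, sq]
  have h6 : S ≤ ‖Ψ‖ * √S := by
    have h7 := Ψ.le_opNorm φ
    rw [hΨφ, RCLike.norm_ofReal, abs_of_nonneg hS0] at h7
    exact h7.trans (mul_le_mul_of_nonneg_left hφn (norm_nonneg _))
  rcases eq_or_lt_of_le hS0 with h0 | h0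
  · rw [← h0]; positivity
  · have hs : 0 < √S := Real.sqrt_pos.2 h0
    have h8 : √S ≤ ‖Ψ‖ := by
      have h9 : √S * √S ≤ ‖Ψ‖ * √S := by rwa [Real.mul_self_sqrt hS0]
      exact le_of_mul_le_mul_right h9 hs
    calc S = √S ^ 2 := (Real.sq_sqrt hS0).symm
      _ ≤ ‖Ψ‖ ^ 2 := pow_le_pow_left₀ hs.le h8 2

/-- the projection as an element of the ambient space. -/
def PM (Ψ : StrongDual 𝕜 (StrongDual 𝕜 (XH 𝕜 a b))) : MH 𝕜 G Q :=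
  ⟨yv 𝕜 Q G a b Ψ, memℓp_gen' (C := ‖Ψ‖ ^ 2) fun s => by
    have := sum_yv_le 𝕜 Q G a b Ψ s
    simpa using this⟩

lemma PM_apply (Ψ : StrongDual 𝕜 (StrongDual 𝕜 (XH 𝕜 a b))) (n : ℕ)
    (k : G n ⊕ (Q n → Bool)) : PM 𝕜 Q G a b Ψ n k = Ψ (cdX 𝕜 Q G a b n k) := rfl

lemma norm_PM_le (Ψ : StrongDual 𝕜 (StrongDual 𝕜 (XH 𝕜 a b))) :
    ‖PM 𝕜 Q G a b Ψ‖ ≤ ‖Ψ‖ := by
  refine lp.norm_le_of_forall_sum_le (by norm_num) (norm_nonneg _) fun s => ?_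
  have h : ∑ n ∈ s, ‖(PM 𝕜 Q G a b Ψ) n‖ ^ (2 : ℝ≥0∞).toReal
      = ∑ n ∈ s, ‖yv 𝕜 Q G a b Ψ n‖ ^ 2 := by
    refine Finset.sum_congr rfl fun n _ => ?_
    simp only [ENNReal.toReal_ofNat, Real.rpow_ofNat]
    rfl
  rw [h]
  have := sum_yv_le 𝕜 Q G a b Ψ s
  simpa using this

lemma PM_mem (Ψ : StrongDual 𝕜 (StrongDual 𝕜 (XH 𝕜 a b))) :
    PM 𝕜 Q G a b Ψ ∈ XH 𝕜 a b := by
  rw [mem_XH]
  intro n z
  have key : ∑ g, ((a n z g : ℝ) : 𝕜) • cdX 𝕜 Q G a b n (Sum.inl g)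
      = ∑ g, ((b n z g : ℝ) : 𝕜) • cdX 𝕜 Q G a b (n + 1) (Sum.inl g)
        - ((((Fintype.card (Q n → Bool) : ℝ)⁻¹ : ℝ)) : 𝕜) •
          ∑ om, ((sg (om z) : ℝ) : 𝕜) • cdX 𝕜 Q G a b n (Sum.inr om) := by
    ext x
    have hx := (mem_XH 𝕜 a b (x : MH 𝕜 G Q)).1 x.2 n z
    unfold AH BH CH at hx
    simp only [_root_.sum_apply, _root_.smul_apply, _root_.sub_apply, smul_eq_mul, cdX_apply]
    exact hx
  have h := congrArg Ψ key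
  simp only [map_sum, map_sub, map_smul, smul_eq_mul] at h
  unfold AH BH CH
  simp only [PM_apply]
  exact h

/-- the contraction from the bidual. -/
def PB : StrongDual 𝕜 (StrongDual 𝕜 (XH 𝕜 a b)) →L[𝕜] XH 𝕜 a b :=
  LinearMap.mkContinuous
    { toFun := fun Ψ => ⟨PM 𝕜 Q G a b Ψ, PM_mem 𝕜 Q G a b Ψ⟩
      map_add' := fun Ψ Ψ' => by
        apply Subtype.ext
        apply lp.ext
        funext n
        funext k
        rfl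
      map_smul' := fun c Ψ => by
        apply Subtype.ext
        apply lp.ext
        funext n
        funext k
        rfl } 1 fun Ψ => by
    rw [one_mul]
    exact norm_PM_le 𝕜 Q G a b Ψ

lemma norm_PB_le : ‖PB 𝕜 Q G a b‖ ≤ 1 := LinearMap.mkContinuous_norm_le _ zero_le_one _

lemma PB_incl (x : XH 𝕜 a b) :
    PB 𝕜 Q G a b (NormedSpace.inclusionInDoubleDual 𝕜 (XH 𝕜 a b) x) = x := by
  apply Subtype.ext
  apply lp.ext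
  funext n
  funext k
  rfl

end MP6f.Inn
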