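import Mathlib
import Pool.Agent.Lib.MP_6f6997_an.Khin

/-!
# Rademacher coefficients: bounded liftings
-/

open Finset

set_option maxSynthPendingDepth 3
set_option linter.unusedSectionVars false

noncomputable section

namespace MP6f.Inn

section
variable {𝕜 : Type} [RCLike 𝕜] {κ : Type} [Fintype κ] [DecidableEq κ]

/-- Rademacher sums -/
def Lr (y : κ → 𝕜) (om : κ → Bool) : 𝕜 := ∑ z, ((sg (om z) : ℝ) : 𝕜) * y z

/-- Rademacher coefficients -/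
def Cr (w : (κ → Bool) → 𝕜) (z : κ) : 𝕜 :=
  (((Fintype.card (κ → Bool) : ℝ)⁻¹ : ℝ) : 𝕜) * ∑ om : κ → Bool, ((sg (om z) : ℝ) : 𝕜) * w om

/-- the Euclidean norm -/
def n2 (y : κ → 𝕜) : ℝ := √(∑ z, ‖y z‖ ^ 2)

omit [DecidableEq κ] in
lemma n2_nonneg (y : κ → 𝕜) : 0 ≤ n2 y := Real.sqrt_nonneg _

omit [DecidableEq κ] in
lemma n2_sq (y : κ → 𝕜) : n2 y ^ 2 = ∑ z, ‖y z‖ ^ 2 :=
  Real.sq_sqrt (Finset.sum_nonneg fun _ _ => by positivity)

lemma card_pos' : (0 : ℝ) < (Fintype.card (κ → Bool) : ℝ) := by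
  exact_mod_cast Fintype.card_pos

lemma orth (i j : κ) : ∑ om : κ → Bool, ((sg (om i) : ℝ) : 𝕜) * ((sg (om j) : ℝ) : 𝕜) =
    if i = j then ((Fintype.card (κ → Bool) : ℝ) : 𝕜) else 0 := by
  have h := congrArg (fun r : ℝ => (r : 𝕜)) (sum_sg_mul i j)
  simp only [RCLike.ofReal_sum, RCLike.ofReal_mul] at h
  rw [h]
  split_ifs <;> simp

lemma Cr_Lr (y : κ → 𝕜) : Cr (Lr y) = y := by
  funext z
  unfold Cr Lr
  have h1 : ∑ om : κ → Bool, ((sg (om z) : ℝ) : 𝕜) * ∑ z', ((sg (om z') : ℝ) : 𝕜) * y z'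
      = ((Fintype.card (κ → Bool) : ℝ) : 𝕜) * y z := by
    simp only [Finset.mul_sum]
    rw [Finset.sum_comm]
    have h2 : ∀ z', ∑ om : κ → Bool, ((sg (om z) : ℝ) : 𝕜) * (((sg (om z') : ℝ) : 𝕜) * y z')
        = (if z = z' then ((Fintype.card (κ → Bool) : ℝ) : 𝕜) else 0) * y z' := by
      intro z'
      rw [← orth, Finset.sum_mul]
      exact Finset.sum_congr rfl fun om _ => by ring
    simp only [h2, ite_mul, zero_mul, Finset.sum_ite_eq, Finset.mem_univ, if_true]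
  rw [h1, ← mul_assoc, ← RCLike.ofReal_mul, inv_mul_cancel₀ card_pos'.ne', RCLike.ofReal_one,
    one_mul]

lemma sum_norm_sq_Lr (y : κ → 𝕜) :
    ∑ om, ‖Lr y om‖ ^ 2 = (Fintype.card (κ → Bool) : ℝ) * ∑ z, ‖y z‖ ^ 2 := by
  have h : ((∑ om, ‖Lr y om‖ ^ 2 : ℝ) : 𝕜)
      = (((Fintype.card (κ → Bool) : ℝ) * ∑ z, ‖y z‖ ^ 2 : ℝ) : 𝕜) := by
    push_cast
    have h1 : ∀ om, ((‖Lr y om‖ : ℝ) : 𝕜) ^ 2 = ∑ z, ∑ z', (((sg (om z) : ℝ) : 𝕜) *
        ((sg (om z') : ℝ) : 𝕜)) * (y z * (starRingEnd 𝕜) (y z')) := by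
      intro om
      rw [← RCLike.mul_conj]
      unfold Lr
      rw [map_sum, Finset.sum_mul_sum]
      refine Finset.sum_congr rfl fun z _ => Finset.sum_congr rfl fun z' _ => ?_
      rw [map_mul, RCLike.conj_ofReal]
      ring
    simp only [h1]
    rw [Finset.sum_comm, Finset.mul_sum]
    refine Finset.sum_congr rfl fun z _ => ?_
    rw [Finset.sum_comm]
    have h2 : ∀ z', ∑ om : κ → Bool, (((sg (om z) : ℝ) : 𝕜) *
        ((sg (om z') : ℝ) : 𝕜)) * (y z * (starRingEnd 𝕜) (y z'))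
        = (if z = z' then ((Fintype.card (κ → Bool) : ℝ) : 𝕜) else 0) *
          (y z * (starRingEnd 𝕜) (y z')) := by
      intro z'
      rw [← orth, Finset.sum_mul]
    simp only [h2, ite_mul, zero_mul, Finset.sum_ite_eq, Finset.mem_univ, if_true]
    rw [RCLike.mul_conj]
    push_cast
    ring
  exact_mod_cast h

lemma bessel (w : (κ → Bool) → 𝕜) :
    ∑ z, ‖Cr w z‖ ^ 2 ≤ (Fintype.card (κ → Bool) : ℝ)⁻¹ * ∑ om, ‖w om‖ ^ 2 := by
  set N : ℝ := (Fintype.card (κ → Bool) : ℝ) with hN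
  have hN0 : 0 < N := card_pos'
  set S : ℝ := ∑ z, ‖Cr w z‖ ^ 2 with hS
  have hS0 : 0 ≤ S := Finset.sum_nonneg fun _ _ => by positivity
  set W : ℝ := ∑ om, ‖w om‖ ^ 2 with hW
  have hW0 : 0 ≤ W := Finset.sum_nonneg fun _ _ => by positivity
  have h1 : ((N * S : ℝ) : 𝕜) = ∑ om, w om * (starRingEnd 𝕜) (Lr (Cr w) om) := by
    have h2 : ∀ om, w om * (starRingEnd 𝕜) (Lr (Cr w) om)
        = ∑ z, (((sg (om z) : ℝ) : 𝕜) * w om) * (starRingEnd 𝕜) (Cr w z) := by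
      intro om
      unfold Lr
      rw [map_sum, Finset.mul_sum]
      refine Finset.sum_congr rfl fun z _ => ?_
      rw [map_mul, RCLike.conj_ofReal]
      ring
    simp only [h2]
    rw [Finset.sum_comm, hS, Finset.mul_sum]
    push_cast
    refine Finset.sum_congr rfl fun z _ => ?_
    rw [← Finset.sum_mul]
    have h3 : ∑ om, ((sg (om z) : ℝ) : 𝕜) * w om = ((N : ℝ) : 𝕜) * Cr w z := by
      unfold Cr
      rw [← mul_assoc, ← RCLike.ofReal_mul, mul_inv_cancel₀ hN0.ne', RCLike.ofReal_one, one_mul]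
    rw [h3, mul_assoc, RCLike.mul_conj]
  have h4 : N * S ≤ ∑ om, ‖w om‖ * ‖Lr (Cr w) om‖ := by
    have h5 : ‖((N * S : ℝ) : 𝕜)‖ ≤ ∑ om, ‖w om‖ * ‖Lr (Cr w) om‖ := by
      rw [h1]
      refine (norm_sum_le _ _).trans (Finset.sum_le_sum fun om _ => ?_)
      rw [norm_mul, RCLike.norm_conj]
    rwa [RCLike.norm_ofReal, abs_of_nonneg (by positivity)] at h5
  have h6 := Finset.sum_mul_sq_le_sq_mul_sq univ (fun om => ‖w om‖) (fun om => ‖Lr (Cr w) om‖)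
  rw [sum_norm_sq_Lr, ← hN, ← hS, ← hW] at h6
  have h7 : (N * S) ^ 2 ≤ W * (N * S) :=
    (pow_le_pow_left₀ (by positivity) h4 2).trans h6
  rcases eq_or_lt_of_le hS0 with h0 | h0
  · rw [← h0]; positivity
  · have h8 : N * S ≤ W := by
      have h9 : (N * S) * (N * S) ≤ W * (N * S) := by nlinarith
      exact le_of_mul_le_mul_right h9 (by positivity)
    rw [inv_mul_eq_div, le_div_iff₀ hN0]
    linarith

lemma Cr_sub (w w' : (κ → Bool) → 𝕜) : Cr (w - w') = Cr w - Cr w' := by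
  funext z
  unfold Cr
  simp only [Pi.sub_apply, mul_sub, Finset.sum_sub_distrib]

lemma Cr_add (w w' : (κ → Bool) → 𝕜) : Cr (w + w') = Cr w + Cr w' := by
  funext z
  unfold Cr
  simp only [Pi.add_apply, mul_add, Finset.sum_add_distrib]

lemma norm_Lr_le (y : κ → 𝕜) (om : κ → Bool) : ‖Lr y om‖ ≤ √(Fintype.card κ) * n2 y := by
  have h1 : ‖Lr y om‖ ≤ ∑ z, 1 * ‖y z‖ := by
    unfold Lr
    refine (norm_sum_le _ _).trans (Finset.sum_le_sum fun z _ => ?_)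
    rw [norm_mul, RCLike.norm_ofReal, abs_sg]
  have h2 := Finset.sum_mul_sq_le_sq_mul_sq univ (fun _ : κ => (1 : ℝ)) (fun z => ‖y z‖)
  have h3 : ∑ z, 1 * ‖y z‖ ≤ √(Fintype.card κ) * n2 y := by
    refine le_of_sq_le_sq ?_ (mul_nonneg (Real.sqrt_nonneg _) (n2_nonneg y))
    rw [mul_pow, Real.sq_sqrt (by positivity), n2_sq]
    simpa using h2
  exact h1.trans h3

end

/-- one step of the lifting -/
lemma lift_step : ∃ t : ℝ, 0 < t ∧ ∀ (𝕜 : Type) [RCLike 𝕜] (κ : Type) [Fintype κ] [DecidableEq κ]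
    (y : κ → 𝕜), ∃ w : (κ → Bool) → 𝕜, (∀ om, ‖w om‖ ≤ t * n2 y) ∧ n2 (y - Cr w) ≤ n2 y / 2 := by
  obtain ⟨K, hK, hkh⟩ := khin (r := 4) (by norm_num)
  refine ⟨2 * K ^ 2, by positivity, fun 𝕜 _ κ _ _ y => ?_⟩
  have hn := n2_nonneg y
  rcases eq_or_lt_of_le hn with h0 | h0
  · refine ⟨0, fun om => by simp [← h0], ?_⟩
    have h1 : ∑ z, ‖y z‖ ^ 2 = 0 := by rw [← n2_sq, ← h0]; simp
    have h2 : n2 (y - Cr (0 : (κ → Bool) → 𝕜)) = 0 := by
      have : (Cr (0 : (κ → Bool) → 𝕜)) = 0 := by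
        funext z; simp [Cr]
      rw [this, sub_zero, ← h0]
    rw [h2, ← h0]; simp
  set t : ℝ := 2 * K ^ 2 with ht
  have ht0 : 0 < t := by positivity
  set g := Lr y with hg
  set w : (κ → Bool) → 𝕜 := fun om => if ‖g om‖ ≤ t * n2 y then g om else 0 with hw
  refine ⟨w, fun om => ?_, ?_⟩
  · rw [hw]; simp only
    split_ifs with h
    · exact h
    · rw [norm_zero]; positivity
  · have h1 : y - Cr w = Cr (g - w) := by rw [Cr_sub, hg, Cr_Lr]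
    have h2 : ∀ om, ‖(g - w) om‖ ^ 2 ≤ ‖g om‖ ^ 4 / (t * n2 y) ^ 2 := by
      intro om
      rw [Pi.sub_apply, hw]; simp only
      split_ifs with h
      · rw [sub_self, norm_zero, zero_pow two_ne_zero]; positivity
      · rw [sub_zero, le_div_iff₀ (by positivity)]
        push Not at h
        have h3 : (t * n2 y) ^ 2 ≤ ‖g om‖ ^ 2 := pow_le_pow_left₀ (by positivity) h.le 2
        calc ‖g om‖ ^ 2 * (t * n2 y) ^ 2 ≤ ‖g om‖ ^ 2 * ‖g om‖ ^ 2 := by gcongr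
          _ = ‖g om‖ ^ 4 := by ring
    set N : ℝ := (Fintype.card (κ → Bool) : ℝ) with hN
    have hN0 : 0 < N := card_pos'
    have h3 : ∑ om, ‖g om‖ ^ 4 ≤ N * (K * n2 y) ^ 4 := by
      have h4 := hkh 𝕜 κ y
      have e1 : ∀ x : ℝ, x ^ (4 : ℝ) = x ^ 4 := fun x => by
        exact_mod_cast Real.rpow_natCast x 4
      simp only [e1] at h4
      exact h4
    refine le_of_sq_le_sq ?_ (by positivity : (0 : ℝ) ≤ n2 y / 2)
    rw [n2_sq, h1]
    calc ∑ z, ‖Cr (g - w) z‖ ^ 2 ≤ N⁻¹ * ∑ om, ‖(g - w) om‖ ^ 2 := bessel _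
      _ ≤ N⁻¹ * ∑ om, ‖g om‖ ^ 4 / (t * n2 y) ^ 2 := by
          gcongr with om _
          exact h2 om
      _ = N⁻¹ * ((∑ om, ‖g om‖ ^ 4) / (t * n2 y) ^ 2) := by rw [Finset.sum_div]
      _ ≤ N⁻¹ * ((N * (K * n2 y) ^ 4) / (t * n2 y) ^ 2) := by gcongr
      _ = (n2 y / 2) ^ 2 := by
          rw [ht]
          field_simp

/-- bounded liftings for the Rademacher coefficients -/
lemma exists_lift : ∃ K : ℝ, 0 < K ∧ ∀ (𝕜 : Type) [RCLike 𝕜] (κ : Type) [Fintype κ]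
    [DecidableEq κ] (y : κ → 𝕜), ∃ w : (κ → Bool) → 𝕜, (∀ om, ‖w om‖ ≤ K * n2 y) ∧ Cr w = y := by
  obtain ⟨t, ht, hstep⟩ := lift_step
  refine ⟨2 * t + 1, by positivity, fun 𝕜 _ κ _ _ y => ?_⟩
  have hind : ∀ n : ℕ, ∃ w : (κ → Bool) → 𝕜, (∀ om, ‖w om‖ ≤ 2 * t * (1 - (1 / 2) ^ n) * n2 y) ∧
      n2 (y - Cr w) ≤ (1 / 2) ^ n * n2 y := by
    intro n
    induction n with
    | zero =>
      refine ⟨0, fun om => by simp, ?_⟩
      have : (Cr (0 : (κ → Bool) → 𝕜)) = 0 := by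
        funext z; simp [Cr]
      rw [this]; simp
    | succ n ih =>
      obtain ⟨w, hw1, hw2⟩ := ih
      obtain ⟨v, hv1, hv2⟩ := hstep 𝕜 κ (y - Cr w)
      refine ⟨w + v, fun om => ?_, ?_⟩
      · calc ‖(w + v) om‖ ≤ ‖w om‖ + ‖v om‖ := norm_add_le _ _
          _ ≤ 2 * t * (1 - (1 / 2) ^ n) * n2 y + t * ((1 / 2) ^ n * n2 y) := by
              refine add_le_add (hw1 om) ((hv1 om).trans ?_)
              gcongr
          _ = 2 * t * (1 - (1 / 2) ^ (n + 1)) * n2 y := by rw [pow_succ]; ring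
      · rw [Cr_add, ← sub_sub]
        refine hv2.trans ?_
        rw [pow_succ]
        linarith
  obtain ⟨n, hn⟩ : ∃ n : ℕ, (1 / 2 : ℝ) ^ n * √(Fintype.card κ) ≤ 1 := by
    obtain ⟨n, hn⟩ := exists_pow_lt_of_lt_one (show (0 : ℝ) < 1 / (√(Fintype.card κ) + 1) by positivity)
      (show (1 / 2 : ℝ) < 1 by norm_num)
    refine ⟨n, ?_⟩
    have h1 : (1 / 2 : ℝ) ^ n * (√(Fintype.card κ) + 1) ≤ 1 := by
      rw [lt_div_iff₀ (by positivity)] at hn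
      exact hn.le
    have h2 : (0 : ℝ) ≤ (1 / 2 : ℝ) ^ n := by positivity
    linarith
  obtain ⟨w, hw1, hw2⟩ := hind n
  refine ⟨w + Lr (y - Cr w), fun om => ?_, ?_⟩
  · have hn0 := n2_nonneg y
    calc ‖(w + Lr (y - Cr w)) om‖ ≤ ‖w om‖ + ‖Lr (y - Cr w) om‖ := norm_add_le _ _
      _ ≤ 2 * t * (1 - (1 / 2) ^ n) * n2 y + √(Fintype.card κ) * ((1 / 2) ^ n * n2 y) := by
          refine add_le_add (hw1 om) ((norm_Lr_le _ om).trans ?_)
          gcongr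
      _ ≤ 2 * t * n2 y + 1 * n2 y := by
          have h1 : (0 : ℝ) ≤ (1 / 2 : ℝ) ^ n := by positivity
          have h2 : 0 ≤ t * (1 / 2 : ℝ) ^ n * n2 y := by positivity
          have h3 : (1 / 2 : ℝ) ^ n * √(Fintype.card κ) * n2 y ≤ 1 * n2 y := by gcongr
          nlinarith
      _ = (2 * t + 1) * n2 y := by ring
  · rw [Cr_add, Cr_Lr]
    abel

end MP6f.Inn
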