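import Mathlib
import Pool.Agent.Lib.MP_6f6997_an.InnAbs
import Pool.Agent.Lib.MP_6f6997_an.InnLift
import Pool.Agent.Lib.MP_6f6997_an.InnBidual
import Pool.Agent.Lib.MP_6f6997_an.Low

/-!
# The inner inequality for `p ≥ 2`
-/

open MeasureTheory ENNReal Finset

set_option maxSynthPendingDepth 3
set_option linter.unusedSectionVars false

noncomputable section

namespace MP6f.Inn

variable (𝕜 : Type) [RCLike 𝕜] {G Q : ℕ → Type} [∀ n, Fintype (G n)] [∀ n, Fintype (Q n)]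
  [∀ n, DecidableEq (Q n)] (a : ∀ n, Q n → G n → ℝ) (b : ∀ n, Q n → G (n + 1) → ℝ)

/-- the embedding of the second part of level `i` -/
def iO (G : ℕ → Type) [∀ n, Fintype (G n)] (i : ℕ) :
    ((Q i → Bool) → 𝕜) →L[𝕜] MH 𝕜 G Q :=
  LinearMap.toContinuousLinearMap
    { toFun := fun w => lp.single 2 i (Sum.elim (fun _ => 0) w : EH 𝕜 G Q i)
      map_add' := fun w w' => by
        rw [← lp.single_add]
        congr 1
        funext k
        rcases k with g | om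
        · simp
        · simp
      map_smul' := fun c w => by
        rw [RingHom.id_apply, ← lp.single_smul]
        congr 1
        funext k
        rcases k with g | om
        · simp
        · simp }

lemma iO_apply (i : ℕ) (w : (Q i → Bool) → 𝕜) :
    iO 𝕜 G i w = lp.single 2 i (Sum.elim (fun _ => 0) w : EH 𝕜 G Q i) := rfl

lemma iO_same (i : ℕ) (w : (Q i → Bool) → 𝕜) :
    iO 𝕜 G i w i = (Sum.elim (fun _ => 0) w : EH 𝕜 G Q i) := by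
  rw [iO_apply, lp.single_apply_self]

lemma iO_ne (i : ℕ) (w : (Q i → Bool) → 𝕜) (n : ℕ) (h : n ≠ i) :
    iO 𝕜 G i w n = 0 := by
  rw [iO_apply, lp.single_apply_ne _ _ _ h]

lemma iO_inl (i : ℕ) (w : (Q i → Bool) → 𝕜) (n : ℕ) (g : G n) :
    iO 𝕜 G i w n (Sum.inl g) = 0 := by
  by_cases h : n = i
  · subst h
    rw [iO_same]; rfl
  · rw [iO_ne 𝕜 i w n h]; rfl

lemma norm_iO_le (i : ℕ) (w : (Q i → Bool) → 𝕜) (C : ℝ) (hC : 0 ≤ C) (h : ∀ om, ‖w om‖ ≤ C) :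
    ‖iO 𝕜 G i w‖ ≤ C := by
  rw [iO_apply, lp.norm_single (by norm_num)]
  refine (pi_norm_le_iff_of_nonneg hC).2 fun k => ?_
  rcases k with g | om
  · simpa using hC
  · exact h om

lemma tr_iO (i j : ℕ) (hij : j < i) (w : (Q i → Bool) → 𝕜) :
    tr 𝕜 Q G j (iO 𝕜 G i w) = 0 := by
  apply lp.ext
  funext n
  rw [tr_apply, lp.coeFn_zero, Pi.zero_apply]
  split_ifs with h
  · exact iO_ne 𝕜 i w n (by omega)
  · rfl

lemma tr_tr (i j : ℕ) (hij : j ≤ i) (x : MH 𝕜 G Q) :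
    tr 𝕜 Q G j (tr 𝕜 Q G i x) = tr 𝕜 Q G j x := by
  apply lp.ext
  funext n
  rw [tr_apply, tr_apply, tr_apply]
  split_ifs <;> first | rfl | (exfalso; omega)

/-- `Rademacher sums`, as an operator on the Euclidean space -/
def LE (i : ℕ) : EuclideanSpace 𝕜 (Q i) →L[𝕜] ((Q i → Bool) → 𝕜) :=
  LinearMap.toContinuousLinearMap
    { toFun := fun y => Lr (fun z => y z)
      map_add' := fun y y' => by
        funext om
        simp only [Lr, PiLp.add_apply, Pi.add_apply, mul_add, Finset.sum_add_distrib]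
      map_smul' := fun c y => by
        funext om
        simp only [Lr, PiLp.smul_apply, Pi.smul_apply, smul_eq_mul, RingHom.id_apply,
          Finset.mul_sum]
        exact Finset.sum_congr rfl fun z _ => by ring }

lemma LE_apply (i : ℕ) (y : EuclideanSpace 𝕜 (Q i)) : LE 𝕜 i y = Lr (fun z => y z) := rfl

/-- the map `x ↦ b_i f_{i+1}` -/
def be (i : ℕ) : XH 𝕜 a b →L[𝕜] EuclideanSpace 𝕜 (Q i) :=
  ∑ g : G (i + 1), (cdX 𝕜 Q G a b (i + 1) (Sum.inl g)).smulRight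
    (WithLp.toLp 2 (fun z => ((b i z g : ℝ) : 𝕜)) : EuclideanSpace 𝕜 (Q i))

lemma be_eq (i : ℕ) (x : XH 𝕜 a b) : be 𝕜 a b i x = ∑ g : G (i + 1),
    cdX 𝕜 Q G a b (i + 1) (Sum.inl g) x •
      (WithLp.toLp 2 (fun z => ((b i z g : ℝ) : 𝕜)) : EuclideanSpace 𝕜 (Q i)) := by
  unfold be
  rw [_root_.sum_apply]
  rfl

lemma be_apply (i : ℕ) (x : XH 𝕜 a b) (z : Q i) :
    be 𝕜 a b i x z = BH b i (fun g => (x : MH 𝕜 G Q) (i + 1) (Sum.inl g)) z := by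
  rw [be_eq, WithLp.ofLp_sum, Finset.sum_apply]
  unfold BH
  refine Finset.sum_congr rfl fun g _ => ?_
  rw [PiLp.smul_apply, smul_eq_mul, cdX_apply, mul_comm]

/-- the corrected truncation, in the big space -/
def RM (i : ℕ) : XH 𝕜 a b →L[𝕜] MH 𝕜 G Q :=
  (tr 𝕜 Q G i).comp (XH 𝕜 a b).subtypeL - ((iO 𝕜 G i).comp (LE 𝕜 i)).comp (be 𝕜 a b i)

lemma RM_eq (i : ℕ) (x : XH 𝕜 a b) :
    RM 𝕜 a b i x = tr 𝕜 Q G i (x : MH 𝕜 G Q) - iO 𝕜 G i (LE 𝕜 i (be 𝕜 a b i x)) := rfl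

lemma RM_inl (i : ℕ) (x : XH 𝕜 a b) (n : ℕ) (g : G n) :
    RM 𝕜 a b i x n (Sum.inl g) = if n ≤ i then (x : MH 𝕜 G Q) n (Sum.inl g) else 0 := by
  rw [RM_eq, lp.coeFn_sub, Pi.sub_apply, Pi.sub_apply, iO_inl, sub_zero, tr_apply]
  split_ifs <;> rfl

lemma RM_inr_lt (i : ℕ) (x : XH 𝕜 a b) (n : ℕ) (h : n < i) (om : Q n → Bool) :
    RM 𝕜 a b i x n (Sum.inr om) = (x : MH 𝕜 G Q) n (Sum.inr om) := by
  rw [RM_eq, lp.coeFn_sub, Pi.sub_apply, Pi.sub_apply, iO_ne 𝕜 i _ n h.ne, Pi.zero_apply, sub_zero,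
    tr_apply, if_pos h.le]

lemma RM_inr_self (i : ℕ) (x : XH 𝕜 a b) (om : Q i → Bool) :
    RM 𝕜 a b i x i (Sum.inr om) = (x : MH 𝕜 G Q) i (Sum.inr om) -
      Lr (fun z => be 𝕜 a b i x z) om := by
  rw [RM_eq, lp.coeFn_sub, Pi.sub_apply, Pi.sub_apply, iO_same, tr_apply, if_pos le_rfl, LE_apply]
  rfl

lemma RM_gt (i : ℕ) (x : XH 𝕜 a b) (n : ℕ) (h : i < n) : RM 𝕜 a b i x n = 0 := by
  rw [RM_eq, lp.coeFn_sub, Pi.sub_apply, iO_ne 𝕜 i _ n h.ne', tr_apply, if_neg (by omega), sub_zero]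

lemma CH_eq_Cr (n : ℕ) (w : (Q n → Bool) → 𝕜) : CH n w = Cr w := rfl

lemma AH_zero (n : ℕ) (z : Q n) : AH a n (fun _ => (0 : 𝕜)) z = 0 := by simp [AH]

lemma BH_zero (n : ℕ) (z : Q n) : BH b n (fun _ => (0 : 𝕜)) z = 0 := by simp [BH]

lemma CH_zero (n : ℕ) (z : Q n) : CH n (fun _ => (0 : 𝕜)) z = 0 := by simp [CH]

lemma RM_mem (i : ℕ) (x : XH 𝕜 a b) : RM 𝕜 a b i x ∈ XH 𝕜 a b := by
  rw [mem_XH]
  intro n z
  have hx := (mem_XH 𝕜 a b (x : MH 𝕜 G Q)).1 x.2 n z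
  simp only [RM_inl]
  rcases lt_trichotomy n i with h | h | h
  · simp only [if_pos h.le, if_pos (show n + 1 ≤ i from h), RM_inr_lt 𝕜 a b i x n h]
    exact hx
  · subst h
    simp only [if_pos le_rfl, if_neg (show ¬ n + 1 ≤ n by omega), RM_inr_self]
    rw [hx, BH_zero]
    have h1 : CH n (fun om => (x : MH 𝕜 G Q) n (Sum.inr om) - Lr (fun z => be 𝕜 a b n x z) om)
        = CH n (fun om => (x : MH 𝕜 G Q) n (Sum.inr om)) - fun z => be 𝕜 a b n x z := by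
      rw [CH_eq_Cr, CH_eq_Cr]
      have := Cr_sub (fun om => (x : MH 𝕜 G Q) n (Sum.inr om)) (Lr fun z => be 𝕜 a b n x z)
      rw [Cr_Lr] at this
      exact this
    rw [h1, Pi.sub_apply, be_apply]
    ring
  · simp only [if_neg (show ¬ n ≤ i by omega), if_neg (show ¬ n + 1 ≤ i by omega)]
    rw [AH_zero, BH_zero]
    have h1 : (fun om => RM 𝕜 a b i x n (Sum.inr om)) = fun _ => 0 := by
      funext om
      rw [RM_gt 𝕜 a b i x n h]; rfl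
    rw [h1, CH_zero, sub_zero]

/-- elements supported by the levels `≤ i` -/
def ZH (i : ℕ) : Submodule 𝕜 (XH 𝕜 a b) where
  carrier := {x | ∀ n, i < n → (x : MH 𝕜 G Q) n = 0}
  zero_mem' := fun n _ => rfl
  add_mem' := fun {x y} hx hy n hn => by
    rw [Submodule.coe_add, lp.coeFn_add, Pi.add_apply, hx n hn, hy n hn, add_zero]
  smul_mem' := fun c x hx n hn => by
    rw [Submodule.coe_smul, lp.coeFn_smul, Pi.smul_apply, hx n hn, smul_zero]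

instance finite_ZH (i : ℕ) : FiniteDimensional 𝕜 (ZH 𝕜 a b i) := by
  let f : ZH 𝕜 a b i →ₗ[𝕜] ((n : Fin (i + 1)) → EH 𝕜 G Q n) :=
    { toFun := fun x n => ((x : XH 𝕜 a b) : MH 𝕜 G Q) n
      map_add' := fun x y => rfl
      map_smul' := fun c x => rfl }
  refine FiniteDimensional.of_injective f ?_
  rw [injective_iff_map_eq_zero]
  intro x hx
  apply Subtype.ext
  apply Subtype.ext
  apply lp.ext
  funext n
  by_cases hn : n ≤ i
  · exact congrFun hx ⟨n, by omega⟩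
  · exact x.2 n (by omega)

/-- the corrected truncation -/
def RZ (i : ℕ) : XH 𝕜 a b →L[𝕜] ZH 𝕜 a b i :=
  ((RM 𝕜 a b i).codRestrict (XH 𝕜 a b) (RM_mem 𝕜 a b i)).codRestrict (ZH 𝕜 a b i)
    fun x n hn => RM_gt 𝕜 a b i x n hn

lemma RZ_coe (i : ℕ) (x : XH 𝕜 a b) :
    (((RZ 𝕜 a b i x : ZH 𝕜 a b i) : XH 𝕜 a b) : MH 𝕜 G Q) = RM 𝕜 a b i x := rfl

lemma iO_mem (i : ℕ) (w : (Q i → Bool) → 𝕜) (hw : Cr w = 0) : iO 𝕜 G i w ∈ XH 𝕜 a b := by
  rw [mem_XH]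
  intro n z
  simp only [iO_inl]
  rw [AH_zero, BH_zero]
  by_cases h : n = i
  · subst h
    have h1 : (fun om => iO 𝕜 G n w n (Sum.inr om)) = w := by
      funext om
      rw [iO_same]; rfl
    rw [h1, CH_eq_Cr, hw]; simp
  · have h1 : (fun om => iO 𝕜 G i w n (Sum.inr om)) = fun _ => 0 := by
      funext om
      rw [iO_ne 𝕜 i w n h]; rfl
    rw [h1, CH_zero, sub_zero]

lemma norm_cdX_le (n : ℕ) (k : G n ⊕ (Q n → Bool)) : ‖cdX 𝕜 Q G a b n k‖ ≤ 1 := by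
  refine ContinuousLinearMap.opNorm_le_bound _ zero_le_one fun x => ?_
  rw [cdX_apply, one_mul]
  exact (norm_le_pi_norm _ k).trans (norm_coord_le 𝕜 Q G (x : MH 𝕜 G Q) n)

lemma gNorm_be_le {p q : ℝ≥0∞} [Fact (1 ≤ p)] [Fact (1 ≤ q)] (hpq : p.HolderConjugate q)
    (hq : q ≠ ∞) (hp2 : 2 ≤ p)
    (hb : ∀ n (f : G (n + 1) → 𝕜), ∑ z, ‖BH b n f z‖ ^ 2
      ≤ (Fintype.card (G (n + 1)) : ℝ)⁻¹ * ∑ g, ‖f g‖ ^ 2) (i : ℕ) :
    gNorm p q (be 𝕜 a b i) ≤ 1 :=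
  gNorm_beta hpq hq hp2 (fun g => cdX 𝕜 Q G a b (i + 1) (Sum.inl g))
    (fun _ => norm_cdX_le 𝕜 a b _ _) (b i) (hb i) (be 𝕜 a b i) (be_eq 𝕜 a b i)

set_option maxHeartbeats 4000000 in
/-- the inner inequality for `p ≥ 2` -/
theorem inner_high {p q : ℝ≥0∞} [Fact (1 ≤ p)] [Fact (1 ≤ q)] (hpq : p.HolderConjugate q)
    (hq : q ≠ ∞) (hp2 : 2 ≤ p) : ∃ lam : ℝ, 1 ≤ lam ∧ ∀ (𝕜 : Type) [RCLike 𝕜] (G Q : ℕ → Type)
    [∀ n, Fintype (G n)] [∀ n, Fintype (Q n)] [∀ n, DecidableEq (Q n)]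
    (a : ∀ n, Q n → G n → ℝ) (b : ∀ n, Q n → G (n + 1) → ℝ)
    (_ : ∀ n (f : G (n + 1) → 𝕜), ∑ z, ‖BH b n f z‖ ^ 2
      ≤ (Fintype.card (G (n + 1)) : ℝ)⁻¹ * ∑ g, ‖f g‖ ^ 2),
    Inner 𝕜 p q lam (XH 𝕜 a b) := by
  obtain ⟨K, hK, hlift⟩ := exists_lift
  refine ⟨1 + K, by linarith, fun 𝕜 _ G Q _ _ _ a b hb S hfin => ?_⟩
  refine gNorm_le_of_fact p q S _ (by positivity) fun Ω iM μ iP A B hAB => ?_
  set B₀ : Lp 𝕜 p μ →L[𝕜] XH 𝕜 a b := (PB 𝕜 Q G a b).comp B with hB₀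
  have hB₀n : ‖B₀‖ ≤ ‖B‖ := by
    refine (ContinuousLinearMap.opNorm_comp_le _ _).trans ?_
    calc _ ≤ 1 * ‖B‖ := mul_le_mul_of_nonneg_right (norm_PB_le 𝕜 Q G a b) (norm_nonneg B)
      _ = ‖B‖ := one_mul _
  have hS : ∀ x, S x = B₀ (inclL μ (le_top : p ≤ ∞) (A x)) := by
    intro x
    have h1 : B₀ (inclL μ (le_top : p ≤ ∞) (A x)) = PB 𝕜 Q G a b (B (inclLp μ p (A x))) := rfl
    rw [h1, ← hAB x, PB_incl]
  refine ENNReal.le_of_forall_pos_le_add fun ε hε _ => ?_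
  have hε' : (0 : ℝ) < ε := by exact_mod_cast hε
  have hA := norm_nonneg A
  have hB := norm_nonneg B
  set η : ℝ := ε / ((1 + K) * (‖A‖ * ‖B‖) + 1) with hη
  have hη0 : 0 < η := by positivity
  obtain ⟨i₀, n, Φ, e, E, hE, hSE, hgE⟩ := exists_perturb hpq hq (XH 𝕜 a b) S hfin
    (fun j => tr 𝕜 Q G j) (fun Φ ε hε => tail_small 𝕜 Q G Φ hε) hη0
  set i := i₀ + 1 with hi
  set S' : XH 𝕜 a b →L[𝕜] XH 𝕜 a b := S.comp (ContinuousLinearMap.id 𝕜 _ + E) with hS'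
  set A' : XH 𝕜 a b →L[𝕜] Lp 𝕜 ∞ μ := A.comp (ContinuousLinearMap.id 𝕜 _ + E) with hA'
  have hA'n : ‖A'‖ ≤ ‖A‖ * (1 + η) := by
    refine (ContinuousLinearMap.opNorm_comp_le _ _).trans ?_
    refine mul_le_mul_of_nonneg_left ?_ hA
    exact (norm_add_le _ _).trans (add_le_add ContinuousLinearMap.norm_id_le hE)
  have hS'x : ∀ x, S' x = ∑ k, Φ k (tr 𝕜 Q G i₀ (x : MH 𝕜 G Q)) • e k := fun x => hSE x
  have hS'A : ∀ x, S' x = B₀ (inclL μ (le_top : p ≤ ∞) (A' x)) := fun x => hS _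
  have key : gNorm p q S' ≤ ENNReal.ofReal ((1 + K) * (‖A'‖ * ‖B₀‖)) := by
    refine gNorm_le_abs hpq hq (XH 𝕜 a b) (tr 𝕜 Q G i) ?_ (be 𝕜 a b i)
      (gNorm_be_le 𝕜 a b hpq hq hp2 hb i) ((iO 𝕜 G i).comp (LE 𝕜 i)) (ZH 𝕜 a b i)
      (RZ 𝕜 a b i) (fun x => rfl) S' (fun x => ?_) K hK.le (fun y => ?_) μ A' B₀ hS'A
    · refine ContinuousLinearMap.opNorm_le_bound _ zero_le_one fun x => ?_
      rw [one_mul]; exact norm_tr_le 𝕜 Q G i x
    · rw [hS'x, hS'x]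
      refine Finset.sum_congr rfl fun k _ => ?_
      rw [RZ_coe, RM_eq, map_sub, tr_tr 𝕜 i i₀ (by omega), tr_iO 𝕜 i i₀ (by omega), sub_zero]
    · obtain ⟨w, hw1, hw2⟩ := hlift 𝕜 (Q i) (fun z => y z)
      have hmem : iO 𝕜 G i (Lr (fun z => y z) - w) ∈ XH 𝕜 a b := by
        refine iO_mem 𝕜 a b i _ ?_
        rw [Cr_sub, Cr_Lr, hw2, sub_self]
      have hmem' : (⟨iO 𝕜 G i (Lr (fun z => y z) - w), hmem⟩ : XH 𝕜 a b) ∈ ZH 𝕜 a b i := by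
        intro n hn
        exact iO_ne 𝕜 i _ n (by omega)
      refine ⟨⟨⟨_, hmem⟩, hmem'⟩, ?_, ?_⟩
      · have h1 : ((iO 𝕜 G i).comp (LE 𝕜 i)) y - iO 𝕜 G i (Lr (fun z => y z) - w)
            = iO 𝕜 G i w := by
          rw [map_sub]
          change iO 𝕜 G i (LE 𝕜 i y) - _ = _
          rw [LE_apply]
          abel
        change ‖((iO 𝕜 G i).comp (LE 𝕜 i)) y - iO 𝕜 G i (Lr (fun z => y z) - w)‖ ≤ _
        rw [h1]
        have h2 : n2 (fun z => y z) = ‖y‖ := by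
          rw [EuclideanSpace.norm_eq]; rfl
        rw [← h2]
        exact norm_iO_le 𝕜 i w _ (mul_nonneg hK.le (n2_nonneg _)) hw1
      · rw [hS'x]
        refine Finset.sum_eq_zero fun k _ => ?_
        change Φ k (tr 𝕜 Q G i₀ (iO 𝕜 G i (Lr (fun z => y z) - w))) • e k = 0
        rw [tr_iO 𝕜 i i₀ (by omega), map_zero, zero_smul]
  have h1 : S = S' + (-(S.comp E)) := by
    ext1 x
    rw [_root_.add_apply, _root_.neg_apply]
    change S x = S (x + E x) + - S (E x)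
    rw [map_add]; abel
  have h2 : gNorm p q (-(S.comp E)) ≤ ENNReal.ofReal η := by
    have h3 : -(S.comp E) = (-(ContinuousLinearMap.id 𝕜 (XH 𝕜 a b))).comp (S.comp E) := by
      ext1 x; rfl
    rw [h3]
    refine (gNorm_comp_left_le hq _ _).trans ?_
    calc _ ≤ ENNReal.ofReal 1 * ENNReal.ofReal η := by
          gcongr
          rw [norm_neg]
          exact ContinuousLinearMap.norm_id_le
      _ = ENNReal.ofReal η := by rw [ENNReal.ofReal_one, one_mul]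
  calc gNorm p q S = gNorm p q (S' + (-(S.comp E))) := by rw [← h1]
    _ ≤ gNorm p q S' + gNorm p q (-(S.comp E)) := gNorm_add_le hpq hq _ _
    _ ≤ ENNReal.ofReal ((1 + K) * (‖A'‖ * ‖B₀‖)) + ENNReal.ofReal η := add_le_add key h2
    _ = ENNReal.ofReal ((1 + K) * (‖A'‖ * ‖B₀‖) + η) := by
        rw [← ENNReal.ofReal_add (by positivity) hη0.le]
    _ ≤ ENNReal.ofReal ((1 + K) * (‖A‖ * ‖B‖) + ε) := by
        refine ENNReal.ofReal_le_ofReal ?_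
        have h4 : ‖A'‖ * ‖B₀‖ ≤ (‖A‖ * (1 + η)) * ‖B‖ :=
          mul_le_mul hA'n hB₀n (norm_nonneg _) (by positivity)
        have h5 : (1 + K) * (‖A'‖ * ‖B₀‖) ≤ (1 + K) * ((‖A‖ * (1 + η)) * ‖B‖) :=
          mul_le_mul_of_nonneg_left h4 (by positivity)
        have h6 : ((1 + K) * (‖A‖ * ‖B‖) + 1) * η = ε := by
          rw [hη, mul_div_cancel₀ _ (by positivity)]
        calc _ ≤ (1 + K) * ((‖A‖ * (1 + η)) * ‖B‖) + η := by linarith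
          _ = (1 + K) * (‖A‖ * ‖B‖) + ((1 + K) * (‖A‖ * ‖B‖) + 1) * η := by ring
          _ = _ := by rw [h6]
    _ = _ := by
        rw [ENNReal.ofReal_add (by positivity) hε'.le, ENNReal.ofReal_coe_nnreal]

end MP6f.Inn
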