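import Mathlib
import Pool.Agent.Lib.MP_6f6997_an.HighSpace

/-!
# The space for `p ≥ 2`: definition and basic maps
-/

open MeasureTheory ENNReal Finset

set_option maxSynthPendingDepth 3
set_option linter.unusedSectionVars false

noncomputable section

namespace MP6f.Inn

/-- a unimodular number with `u * z = ‖z‖` -/
lemma exists_phase' {𝕜 : Type} [RCLike 𝕜] (z : 𝕜) : ∃ u : 𝕜, ‖u‖ = 1 ∧ u * z = (‖z‖ : 𝕜) := by
  by_cases hz : z = 0
  · exact ⟨1, by simp, by simp [hz]⟩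
  · have h : (‖z‖ : 𝕜) ≠ 0 := by
      simpa using hz
    refine ⟨starRingEnd 𝕜 z / (‖z‖ : 𝕜), ?_, ?_⟩
    · rw [norm_div, RCLike.norm_conj, RCLike.norm_ofReal, abs_norm,
        div_self (norm_ne_zero_iff.mpr hz)]
    · rw [div_mul_eq_mul_div, RCLike.conj_mul, sq, mul_div_assoc, div_self h, mul_one]

variable (𝕜 : Type) [RCLike 𝕜] (Q G : ℕ → Type) [∀ n, Fintype (Q n)] [∀ n, DecidableEq (Q n)]
  [∀ n, Fintype (G n)]

/-- coordinate functionals on the ambient space. -/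
def cdM (n : ℕ) (k : G n ⊕ (Q n → Bool)) : StrongDual 𝕜 (MH 𝕜 G Q) :=
  (ContinuousLinearMap.proj k : EH 𝕜 G Q n →L[𝕜] 𝕜).comp
    (lp.evalCLM (𝕜 := 𝕜) (fun n => EH 𝕜 G Q n) 2 n)

lemma cdM_apply (n : ℕ) (k : G n ⊕ (Q n → Bool)) (x : MH 𝕜 G Q) : cdM 𝕜 Q G n k x = x n k := rfl

lemma norm_sq_M (x : MH 𝕜 G Q) : ‖x‖ ^ 2 = ∑' n, ‖x n‖ ^ 2 := by
  have := lp.norm_rpow_eq_tsum (p := 2) (by norm_num) x
  simpa using this

lemma summable_M (x : MH 𝕜 G Q) : Summable fun n => ‖x n‖ ^ 2 := by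
  have := (lp.memℓp x).summable (by norm_num)
  simpa using this

lemma sum_sq_le_M (x : MH 𝕜 G Q) (s : Finset ℕ) : ∑ n ∈ s, ‖x n‖ ^ 2 ≤ ‖x‖ ^ 2 := by
  rw [norm_sq_M]
  exact (summable_M 𝕜 Q G x).sum_le_tsum s fun n _ => by positivity

lemma norm_coord_le (x : MH 𝕜 G Q) (n : ℕ) : ‖x n‖ ≤ ‖x‖ :=
  lp.norm_apply_le_norm (by norm_num) x n

/-- truncation to the levels `≤ i`. -/
def tr (i : ℕ) : MH 𝕜 G Q →L[𝕜] MH 𝕜 G Q :=
  ∑ n ∈ range (i + 1), (lp.singleContinuousLinearMap 𝕜 (fun n => EH 𝕜 G Q n) 2 n).comp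
    (lp.evalCLM (𝕜 := 𝕜) (fun n => EH 𝕜 G Q n) 2 n)

lemma tr_apply (i : ℕ) (x : MH 𝕜 G Q) (n : ℕ) : tr 𝕜 Q G i x n = if n ≤ i then x n else 0 := by
  have h1 : tr 𝕜 Q G i x = ∑ m ∈ range (i + 1), lp.single 2 m (x m) := by
    unfold tr
    rw [_root_.sum_apply]
    rfl
  rw [h1, lp.coeFn_sum, Finset.sum_apply]
  by_cases hn : n ≤ i
  · rw [if_pos hn, Finset.sum_eq_single n]
    · simp
    · intro m _ hm
      simp [Ne.symm hm]
    · intro hm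
      exact absurd (Finset.mem_range.2 (by omega)) hm
  · rw [if_neg hn]
    refine Finset.sum_eq_zero fun m hm => ?_
    have : n ≠ m := by
      have := Finset.mem_range.1 hm
      omega
    simp [this]

lemma norm_tr_le (i : ℕ) (x : MH 𝕜 G Q) : ‖tr 𝕜 Q G i x‖ ≤ ‖x‖ := by
  refine le_of_sq_le_sq ?_ (norm_nonneg _)
  rw [norm_sq_M, norm_sq_M]
  refine (summable_M 𝕜 Q G _).tsum_le_tsum (fun n => ?_) (summable_M 𝕜 Q G _)
  rw [tr_apply]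
  split_ifs
  · exact le_rfl
  · rw [norm_zero, zero_pow two_ne_zero]
    exact sq_nonneg _

lemma norm_sub_tr_le (i : ℕ) (x : MH 𝕜 G Q) : ‖x - tr 𝕜 Q G i x‖ ≤ ‖x‖ := by
  refine le_of_sq_le_sq ?_ (norm_nonneg _)
  rw [norm_sq_M, norm_sq_M]
  refine (summable_M 𝕜 Q G _).tsum_le_tsum (fun n => ?_) (summable_M 𝕜 Q G _)
  rw [lp.coeFn_sub, Pi.sub_apply, tr_apply]
  split_ifs
  · rw [sub_self, norm_zero, zero_pow two_ne_zero]
    exact sq_nonneg _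
  · rw [sub_zero]

/-- Pythagoras for vectors with disjoint supports. -/
lemma norm_sq_add (x y : MH 𝕜 G Q) (h : ∀ n, x n = 0 ∨ y n = 0) :
    ‖x + y‖ ^ 2 = ‖x‖ ^ 2 + ‖y‖ ^ 2 := by
  rw [norm_sq_M, norm_sq_M, norm_sq_M, ← (summable_M 𝕜 Q G x).tsum_add (summable_M 𝕜 Q G y)]
  congr 1
  funext n
  rw [lp.coeFn_add, Pi.add_apply]
  rcases h n with h | h
  · rw [h]; simp
  · rw [h]; simp

lemma tr_tendsto (x : MH 𝕜 G Q) {ε : ℝ} (hε : 0 < ε) : ∃ i, ‖tr 𝕜 Q G i x - x‖ < ε := by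
  have h := (lp.hasSum_single (p := 2) (by norm_num) x).tendsto_sum_nat
  obtain ⟨i, hi⟩ := Metric.tendsto_atTop.1 h ε hε
  refine ⟨i, ?_⟩
  have := hi (i + 1) (Nat.le_succ i)
  rw [dist_eq_norm] at this
  have h1 : tr 𝕜 Q G i x = ∑ m ∈ range (i + 1), lp.single 2 m (x m) := by
    unfold tr
    rw [_root_.sum_apply]
    rfl
  rw [h1]
  exact this

/-- functionals on the ambient space are almost determined by finitely many levels. -/
lemma tail_small (Φ : StrongDual 𝕜 (MH 𝕜 G Q)) {ε : ℝ} (hε : 0 < ε) :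
    ∃ i, ∀ j, i ≤ j → ‖Φ - Φ.comp (tr 𝕜 Q G j)‖ ≤ ε := by
  set L : ℝ := ‖Φ‖ with hL
  have hL0 : 0 ≤ L := norm_nonneg _
  -- parameters
  set t : ℝ := ε / (L + 1) with ht
  have ht0 : 0 < t := by positivity
  set η : ℝ := ε * t / 4 with hη
  have hη0 : 0 < η := by positivity
  obtain ⟨x, hx1, hx2⟩ : ∃ x : MH 𝕜 G Q, ‖x‖ ≤ 1 ∧ L - η ≤ ‖Φ x‖ := by
    by_cases h0 : L - η < 0
    · exact ⟨0, by simp, by rw [map_zero, norm_zero]; exact h0.le⟩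
    · push Not at h0
      obtain ⟨x, hx1, hx2⟩ := ContinuousLinearMap.exists_lt_apply_of_lt_opNorm Φ
        (show L - η < ‖Φ‖ by linarith)
      exact ⟨x, hx1.le, hx2.le⟩
  obtain ⟨i, hi⟩ := tr_tendsto 𝕜 Q G x (show 0 < η / (L + 1) by positivity)
  set x' := tr 𝕜 Q G i x with hx'
  have hx'1 : ‖x'‖ ≤ 1 := (norm_tr_le 𝕜 Q G i x).trans hx1
  have hx'2 : L - 2 * η ≤ ‖Φ x'‖ := by
    have h1 : ‖Φ (x' - x)‖ ≤ η := by
      calc ‖Φ (x' - x)‖ ≤ L * ‖x' - x‖ := Φ.le_opNorm _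
        _ ≤ L * (η / (L + 1)) := by gcongr
        _ ≤ (L + 1) * (η / (L + 1)) := by gcongr; linarith
        _ = η := by field_simp
    rw [map_sub] at h1
    have h2 : ‖Φ x‖ ≤ ‖Φ x'‖ + η := by
      have := norm_sub_norm_le (Φ x) (Φ x')
      rw [norm_sub_rev] at this
      linarith
    linarith
  refine ⟨i, fun j hj => ContinuousLinearMap.opNorm_le_bound _ hε.le fun y => ?_⟩
  -- reduce to the unit ball
  suffices hball : ∀ y : MH 𝕜 G Q, ‖y‖ ≤ 1 → ‖(Φ - Φ.comp (tr 𝕜 Q G j)) y‖ ≤ ε by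
    by_cases hy : y = 0
    · subst hy; simp
    · have hyn : 0 < ‖y‖ := norm_pos_iff.2 hy
      have h1 := hball (((‖y‖⁻¹ : ℝ) : 𝕜) • y) (by
        rw [norm_smul, RCLike.norm_ofReal, abs_of_pos (inv_pos.2 hyn), inv_mul_cancel₀ hyn.ne'])
      rw [map_smul, norm_smul, RCLike.norm_ofReal, abs_of_pos (inv_pos.2 hyn)] at h1
      calc ‖(Φ - Φ.comp (tr 𝕜 Q G j)) y‖
          = ‖y‖ * (‖y‖⁻¹ * ‖(Φ - Φ.comp (tr 𝕜 Q G j)) y‖) := by field_simp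
        _ ≤ ‖y‖ * ε := by gcongr
        _ = ε * ‖y‖ := mul_comm _ _
  intro y hy
  set y' := y - tr 𝕜 Q G j y with hy'
  have hy'1 : ‖y'‖ ≤ 1 := (norm_sub_tr_le 𝕜 Q G j y).trans hy
  have e1 : (Φ - Φ.comp (tr 𝕜 Q G j)) y = Φ y' := by
    rw [hy', map_sub]
    rfl
  rw [e1]
  obtain ⟨u₁, hu₁, hu₁'⟩ := exists_phase' (Φ x')
  obtain ⟨u₂, hu₂, hu₂'⟩ := exists_phase' (Φ y')
  set d := ‖Φ y'‖ with hd
  set v : MH 𝕜 G Q := u₁ • x' + (((t : ℝ) : 𝕜) * u₂) • y' with hv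
  have h1 : Φ v = ((‖Φ x'‖ + t * d : ℝ) : 𝕜) := by
    rw [hv, map_add, map_smul, map_smul, smul_eq_mul, smul_eq_mul, hu₁', mul_assoc, hu₂']
    push_cast
    rfl
  have h2 : ‖v‖ ^ 2 ≤ 1 + t ^ 2 := by
    rw [hv, norm_sq_add]
    · rw [norm_smul, norm_smul, norm_mul, hu₁, hu₂, RCLike.norm_ofReal, abs_of_pos ht0, one_mul,
        mul_one, mul_pow]
      have h3 : ‖x'‖ ^ 2 ≤ 1 := pow_le_one₀ (norm_nonneg _) hx'1
      have h4 : ‖y'‖ ^ 2 ≤ 1 := pow_le_one₀ (norm_nonneg _) hy'1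
      have h5 : t ^ 2 * ‖y'‖ ^ 2 ≤ t ^ 2 * 1 := mul_le_mul_of_nonneg_left h4 (sq_nonneg t)
      linarith
    · intro n
      by_cases hn : n ≤ i
      · right
        have : y' n = 0 := by
          rw [hy', lp.coeFn_sub, Pi.sub_apply, tr_apply, if_pos (hn.trans hj), sub_self]
        rw [lp.coeFn_smul, Pi.smul_apply, this, smul_zero]
      · left
        have : x' n = 0 := by rw [hx', tr_apply, if_neg hn]
        rw [lp.coeFn_smul, Pi.smul_apply, this, smul_zero]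
  have h3 : ‖v‖ ≤ 1 + t ^ 2 / 2 := by
    refine le_of_sq_le_sq (h2.trans ?_) (by positivity)
    nlinarith [sq_nonneg (t ^ 2)]
  have hd0 : 0 ≤ d := norm_nonneg _
  have h4 : ‖Φ x'‖ + t * d ≤ L * (1 + t ^ 2 / 2) := by
    have h5 := Φ.le_opNorm v
    rw [h1, RCLike.norm_ofReal, abs_of_nonneg (by positivity)] at h5
    exact h5.trans (mul_le_mul_of_nonneg_left h3 hL0)
  have h5 : t * d ≤ 2 * η + L * t ^ 2 / 2 := by linarith
  have h6 : 2 * η = t * (ε / 2) := by rw [hη]; ring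
  have h7 : L * t ^ 2 / 2 ≤ t * (ε / 2) := by
    have h8 : L * t ≤ ε := by
      rw [ht, mul_div_assoc', div_le_iff₀ (by positivity)]
      nlinarith
    nlinarith
  have h8 : t * d ≤ t * ε := by linarith
  exact le_of_mul_le_mul_left h8 ht0

end MP6f.Inn
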