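import Mathlib
import Pool.Agent.Lib.MP_6f6997_an.DefsK
import Pool.Agent.Lib.MP_6f6997_an.DefsS

/-!
# Comparison of the two forms of the definitions
-/

open MeasureTheory ENNReal

set_option maxSynthPendingDepth 3

noncomputable section

namespace MP6f

variable {𝕜 : Type} [RCLike 𝕜] {Y X : Type} [NormedAddCommGroup Y] [NormedSpace 𝕜 Y]
  [NormedAddCommGroup X] [NormedSpace 𝕜 X]

lemma finRank_eq (T : Y →L[𝕜] X) : BapOrd.FinRank (𝕜 := 𝕜) (Y := Y) (X := X) T ↔ FinRank T := by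
  have h : Submodule.span 𝕜 (Set.range T) = LinearMap.range (T : Y →ₗ[𝕜] X) := by
    rw [← Submodule.span_eq (LinearMap.range (T : Y →ₗ[𝕜] X))]
    rfl
  unfold BapOrd.FinRank FinRank
  rw [← h]
  rfl

lemma gNorm_eq (p q : ℝ≥0∞) (T : Y →L[𝕜] X) :
    BapOrd.gNorm (𝕜 := 𝕜) (Y := Y) (X := X) p q T = gNorm p q T := rfl

lemma iNorm_eq (p : ℝ≥0∞) [Fact (1 ≤ p)] (T : Y →L[𝕜] X) :
    BapOrd.iNorm (𝕜 := 𝕜) (Y := Y) (X := X) p T = iNorm p T := by
  unfold BapOrd.iNorm iNorm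
  refine iInf_congr fun Ω => iInf_congr fun iM => iInf_congr fun μ => iInf_congr fun iP =>
    iInf_congr fun A => iInf_congr fun B => ?_
  refine iInf_congr_Prop ?_ fun _ => rfl
  constructor
  · intro h y
    apply ContinuousLinearMap.ext
    intro f
    exact (h y f).symm
  · intro h y f
    exact (DFunLike.congr_fun (h y) f).symm

lemma inner_trans {p q : ℝ≥0∞} [Fact (1 ≤ p)] {lam : ℝ} (h : Inner 𝕜 p q lam X) :
    BapOrd.Inner 𝕜 p q lam X := by
  intro S hS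
  let T : X →L[𝕜] X := S
  have e1 : BapOrd.gNorm p q S = gNorm p q T := gNorm_eq p q T
  have e2 : BapOrd.iNorm p S = iNorm p T := iNorm_eq p T
  rw [e1, e2]
  exact h T ((finRank_eq T).mp hS)

lemma bapp_trans {p q : ℝ≥0∞} [Fact (1 ≤ p)] {lam : ℝ} (h : BapOrd.BAPp 𝕜 p q lam X) :
    BAPp 𝕜 p q lam X := by
  intro Y _ _ _ T hT
  have h1 := h Y T ((finRank_eq T).mpr hT)
  rw [gNorm_eq, iNorm_eq] at h1
  exact h1

end MP6f
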